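import Pool.Agent.P.MP_657a03_nt.AB.Api

/-! Proof of ALL. -/

set_option autoImplicit false

open NumberField NumberField.Units Module Real Matrix Polynomial

namespace Pool.Agent.P.MP_657a03_nt.AB

namespace ALL

theorem exists_den {K : Type} [Field K] [NumberField K] (η : K) (n : ℕ) :
    ∃ d A : ℕ, 1 ≤ d ∧ d ≤ A ∧ n ≤ A ∧ IsIntegral ℤ (d * η) ∧ IsIntegral ℤ (d * η⁻¹) ∧
      Hs A (d * η) ∧ Hs A (d * η⁻¹) := by
  classical
  obtain ⟨y, hy, h⟩ := exists_integral_multiples ℤ ℚ ({η, η⁻¹} : Finset K)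
  have key : ∀ x ∈ ({η, η⁻¹} : Finset K), IsIntegral ℤ ((y.natAbs : K) * x) := fun x hx => by
    have h1 := h x hx
    rw [zsmul_eq_mul] at h1
    rcases Int.natAbs_eq y with e | e
    · rwa [e, Int.cast_natCast] at h1
    · rw [e, Int.cast_neg, Int.cast_natCast, neg_mul] at h1
      simpa using h1.neg
  obtain ⟨M, hM⟩ := Finite.exists_le fun ψ : K →+* ℂ =>
    ‖ψ (y.natAbs * η)‖ + ‖ψ (y.natAbs * η⁻¹)‖
  have hA : M ≤ ((⌈M⌉₊ + n + y.natAbs : ℕ) : ℝ) := (Nat.le_ceil M).trans (by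
    exact_mod_cast (by omega : ⌈M⌉₊ ≤ ⌈M⌉₊ + n + y.natAbs))
  refine ⟨y.natAbs, ⌈M⌉₊ + n + y.natAbs, Int.natAbs_pos.2 hy, by omega, by omega,
    key _ (by simp), key _ (by simp), fun ψ => ?_, fun ψ => ?_⟩
  · linarith [hM ψ, norm_nonneg (ψ (y.natAbs * η⁻¹))]
  · linarith [hM ψ, norm_nonneg (ψ (y.natAbs * η))]

theorem exists_large (a b c : ℝ) (hb : 0 < b) (hc : 0 < c) : ∃ P0 : ℕ, ∀ p : ℕ, P0 < p →
    a ≤ log p ∧ 1 ≤ log p ∧ b * log p ^ 60 ≤ (p : ℝ) ^ c := by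
  have h1 := (isLittleO_log_rpow_rpow_atTop ((60 : ℕ) : ℝ) hc).bound (inv_pos.2 hb)
  have h2 := tendsto_log_atTop.eventually_ge_atTop a
  have h3 := tendsto_log_atTop.eventually_ge_atTop 1
  obtain ⟨P0, h⟩ := Filter.eventually_atTop.1
    ((tendsto_natCast_atTop_atTop (R := ℝ)).eventually (h1.and (h2.and h3)))
  refine ⟨P0, fun p hp => ?_⟩
  obtain ⟨k1, k2, k3⟩ := h p hp.le
  refine ⟨k2, k3, ?_⟩
  rw [rpow_natCast, norm_of_nonneg (by positivity), norm_of_nonneg (by positivity),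
    le_inv_mul_iff₀ hb] at k1
  exact k1

theorem exists_k {x y : ℝ} (hy : 0 < y) (h : 256 * y ≤ x) :
    ∃ k : ℕ, 7 ≤ k ∧ y * 2 ^ k ≤ x ∧ x ≤ 2 * y * 2 ^ k := by
  have h1 : 256 ≤ ⌊x / y⌋₊ := Nat.le_floor (by rw [le_div_iff₀ hy]; exact_mod_cast h)
  have h0 : 0 ≤ x / y := div_nonneg (by linarith) hy.le
  refine ⟨Nat.log 2 ⌊x / y⌋₊, Nat.le_log_of_pow_le one_lt_two (by omega), ?_, ?_⟩
  · have h2 : ((2 ^ Nat.log 2 ⌊x / y⌋₊ : ℕ) : ℝ) ≤ x / y :=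
      (Nat.cast_le.2 (Nat.pow_log_le_self 2 (by omega))).trans (Nat.floor_le h0)
    rw [le_div_iff₀ hy] at h2
    push_cast at h2
    linarith
  · have h2 : ((⌊x / y⌋₊ + 1 : ℕ) : ℝ) ≤ ((2 ^ (Nat.log 2 ⌊x / y⌋₊ + 1) : ℕ) : ℝ) :=
      Nat.cast_le.2 (Nat.lt_pow_succ_log_self one_lt_two _)
    have h3 := Nat.lt_floor_add_one (x / y)
    push_cast at h2
    have h4 := (h3.trans_le h2).le
    rw [div_le_iff₀ hy, pow_succ] at h4
    linarith

theorem last {p n a l c t z : ℝ} {N : ℕ} (hp : 1 ≤ p) (hn : 0 < n) (ha : 0 ≤ a) (hl : 1 ≤ l)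
    (ht : 2 * c ≤ t) (h1 : n * (a * exp 1 + 1) * l ≤ p ^ c) (hz : 2 * c * log p ≤ z)
    (h2 : (N : ℝ) ≤ a * p ^ t * l * exp (1 - z)) : (N : ℝ) + 1 ≤ p ^ (t - c) / n := by
  have hp0 : 0 < p := by linarith
  have hu : 1 ≤ p ^ (t - 2 * c) := one_le_rpow hp (by linarith)
  have e1 : p ^ (t - c) = p ^ (t - 2 * c) * p ^ c := by
    rw [← rpow_add hp0]; congr 1; ring
  have e2 : p ^ t * exp (1 - z) ≤ exp 1 * p ^ (t - 2 * c) := by
    rw [rpow_def_of_pos hp0, rpow_def_of_pos hp0, ← exp_add, ← exp_add, exp_le_exp]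
    nlinarith
  have h3 : (N : ℝ) ≤ a * l * (exp 1 * p ^ (t - 2 * c)) := by
    refine h2.trans ?_
    have := mul_le_mul_of_nonneg_left e2 (show 0 ≤ a * l by positivity)
    linarith
  rw [le_div_iff₀ hn, e1]
  have h4 := mul_le_mul_of_nonneg_left h1 (show 0 ≤ p ^ (t - 2 * c) by linarith)
  have h5 : 1 ≤ p ^ (t - 2 * c) * l := by nlinarith
  nlinarith

end ALL

theorem t_ALL (hN : S_NRM) (hG : S_GLOB) (hC : S_CHI) (hS : S_RES) : S_ALL := by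
  intro K _ _ _ j hcomm
  obtain ⟨d1, B, ρ, hd1, hρ, hG⟩ := hG K j
  obtain ⟨C, hC1, hC⟩ := hC d1 ρ hd1 hρ
  have hd1' : (1 : ℝ) ≤ d1 := by exact_mod_cast hd1
  have hc : 0 < 1 / (32 * C * (d1 : ℝ) ^ 2) := by positivity
  refine ⟨_, hc, fun η hη hind => ?_⟩
  obtain ⟨d, A, hd, hdA, hnA, i1, i2, s1, s2⟩ := ALL.exists_den η (finrank ℚ K)
  obtain ⟨P1, hC⟩ := hC A
  have hn : 0 < finrank ℚ K := finrank_pos
  have hn' : (0 : ℝ) < finrank ℚ K := by exact_mod_cast hn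
  obtain ⟨P2, hP2⟩ := ALL.exists_large (256 * (C * d1))
    (finrank ℚ K * (2 ^ d1 * exp 1 + 1)) _ (by positivity) hc
  refine ⟨B + A + P1 + P2, fun p hp L _ _ _ _ ι1 f hF hf hfix => ?_⟩
  obtain ⟨l1, l2, l3⟩ := hP2 p (by omega)
  obtain ⟨k, hk, k1, k2⟩ := ALL.exists_k (by positivity) l1
  obtain ⟨E, _, _, jE, ι, h, φ, ζ, e1, e2, ho, hFr, hNC, hdisc, D1, D2, hζ, hφ⟩ :=
    hG p (by omega) L ι1 k hF hk
  have hne : ∀ σ : K ≃ₐ[ℚ] K, jE (σ η) ≠ 0 := fun σ => by simpa using hη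
  have hcard : Fintype.card (K ≃ₐ[ℚ] K) = finrank ℚ K := by
    rw [← Nat.card_eq_fintype_card, IsGalois.card_aut_eq_finrank]
  obtain ⟨y, hy⟩ : ∃ y : (K ≃ₐ[ℚ] K) → GE E, ∀ σ, vl (y σ) = jE (σ η) :=
    ⟨fun σ => mkG _ (hne σ), fun σ => rfl⟩
  have hhat : ∀ σ, hat h (y σ) = y (φ * σ) := fun σ => vl_injective (by
    rw [vl_hat, hy, hy, e2, AlgEquiv.mul_apply])
  have hpow : ∀ (m : ℕ) σ, (hat h ^ m) (y σ) = y (φ ^ m * σ) := fun m σ => by
    induction m with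
    | zero => simp
    | succ m ih => rw [pow_succ', Module.End.mul_apply, ih, hhat, pow_succ', mul_assoc]
  have hden : ∀ σ, Den d A (y σ) := fun σ => by
    have a1 : (d : E) * vl (y σ) = (jE.comp (σ : K →+* K)) (d * η) := by simp [hy]
    have a2 : (d : E) * (vl (y σ))⁻¹ = (jE.comp (σ : K →+* K)) (d * η⁻¹) := by simp [hy]
    rw [Den, a1, a2]
    exact ⟨map_isIntegral_int _ i1, map_isIntegral_int _ i2, fun ψ => s1 (ψ.comp _),
      fun ψ => s2 (ψ.comp _)⟩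
  obtain ⟨n1, -, -, -, n5⟩ := hN p L hF
  have hd1n : ‖(d : L)‖ = 1 := by
    have := n1 d fun hh => by
      have := Nat.le_of_dvd hd (Int.natCast_dvd_natCast.1 hh)
      omega
    rwa [Int.cast_natCast] at this
  have hone : ∀ σ, ‖ι (vl (y σ))‖ = 1 := fun σ => by
    have a1 := n5 _ (map_isIntegral_int ι (hden σ).1)
    have a2 := n5 _ (map_isIntegral_int ι (hden σ).2.1)
    rw [map_mul, norm_mul, map_natCast, hd1n, one_mul] at a1 a2
    have a3 : 0 < ‖ι (vl (y σ))‖ := norm_pos_iff.2 ((map_ne_zero ι).2 (vl_ne_zero _))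
    rw [map_inv₀, norm_inv, inv_le_one₀ a3] at a2
    exact le_antisymm a1 a2
  have hp2 := hF.prime.two_le
  have hq1 : 1 < p ^ finrank ℚ K := Nat.one_lt_pow hn.ne' hp2
  have hres : ∀ σ, ‖ι (vl (y σ)) ^ (p ^ finrank ℚ K - 1) - 1‖ < 1 := fun σ => by
    refine (hS p L E ι h hFr (X ^ finrank ℚ K - 1) (y σ) (hone σ)).2 _ ?_ ?_
    · rw [Nat.cast_sub hq1.le]
      simp
    · rw [map_sub, map_pow, aeval_X, map_one, LinearMap.sub_apply, hpow, ← hcard, pow_card_eq_one,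
        one_mul, Module.End.one_apply, sub_self]
  have hval : ∀ σ, ι (vl (y σ)) = ι1 (j (σ η)) := fun σ => by rw [hy, e1]
  refine ⟨fun σ => hval σ ▸ hres σ, E, inferInstance, inferInstance, ι, ζ, hζ, fun χ => ?_⟩
  by_contra hlt
  rw [not_le] at hlt
  have hp1 : (1 : ℝ) ≤ p := by exact_mod_cast hF.prime.one_le
  have D1' : (2 : ℝ) ^ k ≤ finrank ℚ E := by exact_mod_cast D1
  have D2' : (finrank ℚ E : ℝ) ≤ d1 * 2 ^ k := by exact_mod_cast D2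
  have hx : 0 ≤ (p : ℝ) ^ ((f.totient : ℝ) - 1 / (32 * C * (d1 : ℝ) ^ 2)) / finrank ℚ K := by
    positivity
  have key := hC p (by omega) L E ι h (K ≃ₐ[ℚ] K) φ y χ (p ^ finrank ℚ K - 1) d f
    ⌊(p : ℝ) ^ ((f.totient : ℝ) - 1 / (32 * C * (d1 : ℝ) ^ 2)) / finrank ℚ K⌋₊ hF hcomm ho hFr hNC
    hdisc (by nlinarith) hhat (fun a ha => hind a ?_) (hcard ▸ hnA) hd hdA hden (by omega) hres hf
    (hφ f hfix) ?_
  · have ht : (1 : ℝ) ≤ f.totient := by exact_mod_cast Nat.totient_pos.2 hf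
    have hc' : 1 / (32 * C * (d1 : ℝ) ^ 2) ≤ 1 / 32 :=
      one_div_le_one_div_of_le (by norm_num) (by nlinarith [one_le_pow₀ (n := 2) hd1'])
    have := ALL.last (c := 1 / (32 * C * (d1 : ℝ) ^ 2)) (t := f.totient) hp1 hn' (by positivity)
      (one_le_pow₀ l2) (by linarith) l3 (z := finrank ℚ E / (8 * d1)) ?_
      (by rwa [rpow_natCast])
    · exact absurd (Nat.lt_floor_add_one _) (not_lt.2 this)
    · rw [le_div_iff₀ (by positivity)]
      have e : 2 * (1 / (32 * C * (d1 : ℝ) ^ 2)) * log p * (8 * d1) = log p / (2 * (C * d1)) := by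
        field_simp
        ring
      rw [e, div_le_iff₀ (by positivity)]
      have := mul_le_mul_of_nonneg_left D1' (show 0 ≤ 2 * (C * d1) by positivity)
      linarith
  · rw [fin_iff', vl_sum] at ha
    rw [← (show Function.Injective (jE : K →* E) from jE.injective).isOfFinOrder_iff]
    simpa [hy] using ha
  · simp only [hval]
    refine hlt.le.trans ?_
    rw [← rpow_natCast (p : ℝ) ⌊_⌋₊, ← rpow_neg (by linarith), neg_div]
    exact rpow_le_rpow_of_exponent_le hp1 (neg_le_neg (Nat.floor_le hx))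

end Pool.Agent.P.MP_657a03_nt.AB
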