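import Pool.Agent.P.MP_657a03_nt.AB.If

/-! Basic lemmas on the definitions. -/

set_option autoImplicit false

open NumberField NumberField.Units Module Real

namespace Pool.Agent.P.MP_657a03_nt.AB

section

variable {E : Type} [Field E]

theorem vl_ne_zero (y : GE E) : vl y ≠ 0 := Units.ne_zero _

theorem vl_injective : Function.Injective (vl : GE E → E) := fun _ _ h =>
  Additive.toMul.injective (Units.ext h)

@[simp] theorem vl_zero : vl (0 : GE E) = 1 := rfl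

@[simp] theorem vl_add (x y : GE E) : vl (x + y) = vl x * vl y := rfl

@[simp] theorem vl_neg (x : GE E) : vl (-x) = (vl x)⁻¹ := by simp [vl]

@[simp] theorem vl_sub (x y : GE E) : vl (x - y) = vl x / vl y := by
  rw [sub_eq_add_neg, vl_add, vl_neg, div_eq_mul_inv]

@[simp] theorem vl_nsmul (n : ℕ) (x : GE E) : vl (n • x) = vl x ^ n := by simp [vl]

@[simp] theorem vl_zsmul (n : ℤ) (x : GE E) : vl (n • x) = vl x ^ n := by simp [vl]

theorem vl_sum {ι : Type} (s : Finset ι) (f : ι → GE E) :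
    vl (∑ i ∈ s, f i) = ∏ i ∈ s, vl (f i) := by simp [vl, toMul_sum]

theorem vl_eq_one {x : GE E} : vl x = 1 ↔ x = 0 := vl_injective.eq_iff' vl_zero

/-- a nonzero element of the field as an element of the group -/
def mkG (y : E) (hy : y ≠ 0) : GE E := Additive.ofMul (Units.mk0 y hy)

@[simp] theorem vl_mkG (y : E) (hy : y ≠ 0) : vl (mkG y hy) = y := rfl

theorem fin_iff {y : GE E} : IsOfFinAddOrder y ↔ ∃ n : ℕ, 0 < n ∧ vl y ^ n = 1 := by
  simp only [isOfFinAddOrder_iff_nsmul_eq_zero, ← vl_nsmul, vl_eq_one]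

theorem fin_iff' {y : GE E} : IsOfFinAddOrder y ↔ IsOfFinOrder (vl y) := by
  rw [fin_iff, isOfFinOrder_iff_pow_eq_one]

theorem mem_sat {Γ : Submodule ℤ (GE E)} {e : ℕ} {y : GE E} : y ∈ sat Γ e ↔ e • y ∈ Γ := by
  simp [sat]

theorem le_sat (Γ : Submodule ℤ (GE E)) (e : ℕ) : Γ ≤ sat Γ e := fun _ h =>
  mem_sat.2 (nsmul_mem h e)

theorem mem_UU' {y : GE E} : y ∈ UU E ↔ ∃ u : (𝓞 E)ˣ, ((u : 𝓞 E) : E) = vl y :=
  ⟨fun ⟨u, hu⟩ => ⟨u, congrArg Units.val hu⟩, fun ⟨u, hu⟩ => ⟨u, Units.ext hu⟩⟩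

theorem mem_UU {y : GE E} : y ∈ UU E ↔ IsIntegral ℤ (vl y) ∧ IsIntegral ℤ (vl y)⁻¹ := by
  constructor
  · intro h
    have a : ∀ z ∈ UU E, IsIntegral ℤ (vl z) := fun z hz => by
      obtain ⟨u, hu⟩ := mem_UU'.1 hz
      rw [← hu]
      exact RingOfIntegers.isIntegral_coe _
    exact ⟨a y h, vl_neg y ▸ a _ (neg_mem h)⟩
  · rintro ⟨h1, h2⟩
    exact mem_UU'.2 ⟨⟨⟨_, h1⟩, ⟨_, h2⟩, Subtype.ext (mul_inv_cancel₀ (vl_ne_zero y)),
      Subtype.ext (inv_mul_cancel₀ (vl_ne_zero y))⟩, rfl⟩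

/-- the units of the ring of integers inside the group -/
def uG (E : Type) [Field E] : Additive (𝓞 E)ˣ →ₗ[ℤ] GE E :=
  (MonoidHom.toAdditive (Units.map (algebraMap (𝓞 E) E : 𝓞 E →* E))).toIntLinearMap

theorem vl_uG (u : Additive (𝓞 E)ˣ) : vl (uG E u) = ((Additive.toMul u : (𝓞 E)ˣ) : 𝓞 E) := rfl

theorem uG_injective : Function.Injective (uG E) := fun _ _ h =>
  Additive.toMul.injective (Units.ext (Subtype.ext (congrArg vl h)))

theorem range_uG : LinearMap.range (uG E) = UU E := by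
  ext y
  exact ⟨fun ⟨u, hu⟩ => mem_UU'.2 ⟨Additive.toMul u, congrArg vl hu⟩,
    fun h => let ⟨u, hu⟩ := mem_UU'.1 h; ⟨Additive.ofMul u, vl_injective hu⟩⟩

/-- the logarithmic map -/
noncomputable def lam (E : Type) [Field E] : GE E →+ (E →+* ℂ) → ℝ :=
  AddMonoidHom.mk' (fun u φ => log ‖φ (vl u)‖) fun x y => funext fun φ => by
    have h : ∀ z : GE E, ‖φ (vl z)‖ ≠ 0 := fun z => by simpa using vl_ne_zero z
    simp only [vl_add, map_mul, norm_mul, Pi.add_apply]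
    exact log_mul (h x) (h y)

theorem lam_apply (u : GE E) (φ : E →+* ℂ) : lam E u φ = log ‖φ (vl u)‖ := rfl

theorem sz_iff {t : ℝ} {y : GE E} : Sz t y ↔ ∀ φ, |lam E y φ| ≤ t := Iff.rfl

theorem lam_fin {y : GE E} (h : IsOfFinAddOrder y) : lam E y = 0 :=
  isOfFinAddOrder_iff_eq_zero _ |>.1 ((lam E).isOfFinAddOrder h)

theorem Sz.mono {t t' : ℝ} {y : GE E} (h : Sz t y) (h' : t ≤ t') : Sz t' y :=
  fun φ => (h φ).trans h'

theorem Sz.add {t t' : ℝ} {y y' : GE E} (h : Sz t y) (h' : Sz t' y') : Sz (t + t') (y + y') :=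
  sz_iff.2 fun φ => by
    rw [map_add]
    exact (abs_add_le _ _).trans (add_le_add (h φ) (h' φ))

theorem Sz.neg {t : ℝ} {y : GE E} (h : Sz t y) : Sz t (-y) := sz_iff.2 fun φ => by
  rw [map_neg, Pi.neg_apply, abs_neg]
  exact h φ

theorem Sz.sub {t t' : ℝ} {y y' : GE E} (h : Sz t y) (h' : Sz t' y') : Sz (t + t') (y - y') :=
  sub_eq_add_neg y y' ▸ h.add h'.neg

theorem Sz.zsmul {t : ℝ} {y : GE E} (h : Sz t y) (n : ℤ) : Sz (n.natAbs * t) (n • y) :=
  sz_iff.2 fun φ => by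
    rw [map_zsmul, Pi.smul_apply, zsmul_eq_mul, abs_mul, Nat.cast_natAbs, Int.cast_abs]
    exact mul_le_mul_of_nonneg_left (h φ) (abs_nonneg _)

theorem Sz.hs {t : ℝ} {y : GE E} (h : Sz t y) : Hs (exp t) (vl y) := fun φ =>
  (log_le_iff_le_exp (by simpa using vl_ne_zero y)).1 (abs_le.1 (h φ)).2

theorem hs_mono {X X' : ℝ} {x : E} (h : Hs X x) (h' : X ≤ X') : Hs X' x := fun φ => (h φ).trans h'

theorem hs_mul {X Y : ℝ} {x y : E} (h : Hs X x) (h' : Hs Y y) : Hs (X * Y) (x * y) := fun φ => by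
  rw [map_mul, norm_mul]
  exact mul_le_mul (h φ) (h' φ) (norm_nonneg _) ((norm_nonneg _).trans (h φ))

theorem hs_pow {X : ℝ} {x : E} (h : Hs X x) (n : ℕ) : Hs (X ^ n) (x ^ n) := fun φ => by
  rw [map_pow, norm_pow]
  exact pow_le_pow_left₀ (norm_nonneg _) (h φ) n

theorem hs_add {X Y : ℝ} {x y : E} (h : Hs X x) (h' : Hs Y y) : Hs (X + Y) (x + y) := fun φ => by
  rw [map_add]
  exact (norm_add_le _ _).trans (add_le_add (h φ) (h' φ))

theorem hs_sub {X Y : ℝ} {x y : E} (h : Hs X x) (h' : Hs Y y) : Hs (X + Y) (x - y) := fun φ => by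
  rw [map_sub]
  exact (norm_sub_le _ _).trans (add_le_add (h φ) (h' φ))

theorem hs_int {X : ℝ} {n : ℤ} (h : |(n : ℝ)| ≤ X) : Hs X (n : E) := fun φ => by
  rwa [map_intCast, Complex.norm_intCast]

theorem hs_nat {X : ℝ} {n : ℕ} (h : (n : ℝ) ≤ X) : Hs X (n : E) := fun φ => by
  rwa [map_natCast, Complex.norm_natCast]

theorem hs_sum {ι : Type} {s : Finset ι} {X : ι → ℝ} {x : ι → E} (h : ∀ i ∈ s, Hs (X i) (x i)) :
    Hs (∑ i ∈ s, X i) (∑ i ∈ s, x i) := fun φ => by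
  rw [map_sum]
  exact norm_sum_le_of_le _ fun i hi => h i hi φ

theorem hs_prod {ι : Type} {s : Finset ι} {X : ι → ℝ} {x : ι → E} (h : ∀ i ∈ s, Hs (X i) (x i)) :
    Hs (∏ i ∈ s, X i) (∏ i ∈ s, x i) := fun φ => by
  rw [map_prod, norm_prod]
  exact Finset.prod_le_prod (fun _ _ => norm_nonneg _) fun i hi => h i hi φ

theorem Den.mono {d A A' : ℕ} {y : GE E} (h : Den d A y) (h' : A ≤ A') : Den d A' y :=
  ⟨h.1, h.2.1, hs_mono h.2.2.1 (Nat.cast_le.2 h'), hs_mono h.2.2.2 (Nat.cast_le.2 h')⟩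

theorem Den.neg {d A : ℕ} {y : GE E} (h : Den d A y) : Den d A (-y) := by
  unfold Den
  rw [vl_neg, inv_inv]
  exact ⟨h.2.1, h.1, h.2.2.2, h.2.2.1⟩

theorem Den.sz {d A : ℕ} {y : GE E} (h : Den d A y) (hd : 1 ≤ d) : Sz (log A) y := by
  have a : ∀ z : GE E, Den d A z → ∀ φ, lam E z φ ≤ log A := fun z hz φ => by
    have h1 := hz.2.2.1 φ
    rw [map_mul, map_natCast, norm_mul, Complex.norm_natCast] at h1
    exact log_le_log (by simpa using vl_ne_zero z)
      ((le_mul_of_one_le_left (norm_nonneg _) (Nat.one_le_cast.2 hd)).trans h1)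
  refine sz_iff.2 fun φ => abs_le.2 ⟨?_, a y h φ⟩
  have := a _ h.neg φ
  rw [map_neg, Pi.neg_apply] at this
  linarith

theorem Fm.mono {L : Type} [NormedField L] {ι : E →+* L} {Γ : Submodule ℤ (GE E)} {d M : ℕ} {X : ℝ}
    {S S' : Finset (𝓞 E)} (h : Fm ι Γ d M X S) (h' : S' ⊆ S) : Fm ι Γ d M X S' :=
  ⟨h.one_le, fun x hx => h.ne x (h' hx), fun x hx => h.hs x (h' hx),
    fun x hx y hy => h.rel x (h' hx) y (h' hy), h.dM⟩

variable [NumberField E]

instance finite_UU : Module.Finite ℤ (UU E) := range_uG (E := E) ▸ inferInstance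

theorem finrank_UU : finrank ℤ (UU E) = rank E := by
  rw [← range_uG (E := E), LinearMap.finrank_range_of_inj (uG_injective (E := E)), finrank_eq]

theorem rank_lt : rank E < finrank ℚ E := by
  have h1 := InfinitePlace.card_add_two_mul_card_eq_rank E
  have h2 := InfinitePlace.card_eq_nrRealPlaces_add_nrComplexPlaces E
  have h3 : 0 < Fintype.card (InfinitePlace E) := Fintype.card_pos
  unfold rank
  omega

theorem le_two_rank : finrank ℚ E ≤ 2 * (rank E + 1) := by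
  have h1 := InfinitePlace.card_add_two_mul_card_eq_rank E
  have h2 := InfinitePlace.card_eq_nrRealPlaces_add_nrComplexPlaces E
  have h3 : 0 < Fintype.card (InfinitePlace E) := Fintype.card_pos
  unfold rank
  omega

@[simp] theorem vl_hat (h : E ≃ₐ[ℚ] E) (y : GE E) : vl (hat h y) = h (vl y) := rfl

theorem hat_one : hat (1 : E ≃ₐ[ℚ] E) = 1 := LinearMap.ext fun _ => vl_injective rfl

theorem hat_mul (g h : E ≃ₐ[ℚ] E) : hat (g * h) = hat g * hat h :=
  LinearMap.ext fun _ => vl_injective rfl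

theorem hat_pow (h : E ≃ₐ[ℚ] E) (n : ℕ) : hat (h ^ n) = hat h ^ n := by
  induction n with
  | zero => rw [pow_zero, pow_zero, hat_one]
  | succ n ih => rw [pow_succ, pow_succ, hat_mul, ih]

theorem aeval_hat (h : E ≃ₐ[ℚ] E) (Ψ : Polynomial ℤ) (y : GE E) :
    Polynomial.aeval (hat h) Ψ y = ∑ a ∈ Ψ.support, Ψ.coeff a • hat (h ^ a) y := by
  rw [Polynomial.aeval_endomorphism, Polynomial.sum_def]
  simp only [hat_pow]

theorem sum_log_nonneg (x : E) (hx : x ≠ 0) (hi : IsIntegral ℤ x) :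
    0 ≤ ∑ φ : E →+* ℂ, log ‖φ x‖ := by
  have h0 : ∀ φ : E →+* ℂ, ‖φ x‖ ≠ 0 := fun φ => by simpa using hx
  rw [← log_prod fun φ _ => h0 φ]
  apply log_nonneg
  have h1 := congr_arg (‖·‖) (Algebra.norm_eq_prod_embeddings ℚ ℂ x)
  simp only [norm_prod] at h1
  rw [← Fintype.prod_equiv (RingHom.equivRatAlgHom E ℂ) (fun f => ‖f x‖)
      (fun φ => ‖φ x‖) fun _ => by simp [RingHom.equivRatAlgHom_apply]] at h1
  obtain ⟨z, rfl⟩ : ∃ z : 𝓞 E, (z : E) = x := ⟨⟨x, hi⟩, rfl⟩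
  have h3 : Algebra.norm ℤ z ≠ 0 := Algebra.norm_ne_zero_iff.mpr (by simpa using hx)
  rw [← h1, ← Algebra.coe_norm_int, eq_ratCast, Rat.cast_intCast, Complex.norm_intCast]
  exact_mod_cast Int.one_le_abs h3

theorem sum_lam {u : GE E} (hu : u ∈ UU E) : ∑ φ, lam E u φ = 0 := by
  have a : ∀ z ∈ UU E, 0 ≤ ∑ φ, lam E z φ := fun z hz =>
    sum_log_nonneg _ (vl_ne_zero z) (mem_UU.1 hz).1
  have b := a _ (neg_mem hu)
  simp only [map_neg, Pi.neg_apply, Finset.sum_neg_distrib] at b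
  linarith [a u hu]

/-- a lower bound for the conjugates of an integer -/
theorem log_lower {X : ℝ} {x : E} (hx : x ≠ 0) (hi : IsIntegral ℤ x) (h : Hs X x)
    (φ : E →+* ℂ) : log X - finrank ℚ E * log X ≤ log ‖φ x‖ := by
  classical
  have h1 := sum_log_nonneg x hx hi
  rw [← Finset.add_sum_erase _ _ (Finset.mem_univ φ)] at h1
  have h2 := Finset.sum_le_card_nsmul (Finset.univ.erase φ) (fun ψ : E →+* ℂ => log ‖ψ x‖) (log X)
    fun ψ _ => log_le_log (by simpa using hx) (h ψ)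
  have h3 : 1 ≤ finrank ℚ E := finrank_pos
  rw [Finset.card_erase_of_mem (Finset.mem_univ φ), Finset.card_univ, Embeddings.card, nsmul_eq_mul,
    Nat.cast_sub h3] at h2
  push_cast at h2
  linarith

end

/-- the real span of the image of a finitely generated group -/
theorem finrank_span_le {M W : Type} [AddCommGroup M] [AddCommGroup W] [Module ℝ W] (f : M →+ W)
    (V : Submodule ℤ M) [Module.Finite ℤ V] :
    finrank ℝ (Submodule.span ℝ (f '' V)) ≤ finrank ℤ V := by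
  obtain ⟨b, hb, hs, hl⟩ := exists_linearIndependent ℝ (f '' V)
  choose g hg hf using fun x : b => hb x.2
  have h1 : LinearIndependent ℤ fun x : b => (⟨g x, hg x⟩ : V) := by
    refine LinearIndependent.of_comp (f.toIntLinearMap ∘ₗ V.subtype) ?_
    have e : (f.toIntLinearMap ∘ₗ V.subtype) ∘ (fun x : b => (⟨g x, hg x⟩ : V)) = Subtype.val :=
      funext hf
    rw [e]
    exact hl.restrict_scalars' ℤ
  have : Finite b := h1.finite
  have := Fintype.ofFinite b
  rw [← hs, finrank_span_set_eq_card hl, Set.toFinset_card]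
  exact h1.fintype_card_le_finrank

section

variable {ι R : Type} [CommRing R] {s : ℕ}

@[simp] theorem wdR_nil (F : ι → Fin s → R) (x : ι) : wdR F [] x = 1 := rfl

@[simp] theorem wdR_cons (F : ι → Fin s → R) (k : Fin s) (f : List (Fin s)) (x : ι) :
    wdR F (k :: f) x = F x k * wdR F f x := by simp [wdR]

theorem map_wdR {R' : Type} [CommRing R'] (φ : R →+* R') (F : ι → Fin s → R) (f : List (Fin s))
    (x : ι) : φ (wdR F f x) = wdR (fun y j => φ (F y j)) f x := by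
  induction f with
  | nil => simp
  | cons k f ih => simp [ih]

theorem wdR_eq (F : ι → Fin s → R) (f : List (Fin s)) (x : ι) :
    wdR F f x = ∏ j, F x j ^ f.count j := by
  induction f with
  | nil => simp
  | cons k f ih =>
    rw [wdR_cons, ih]
    simp only [List.count_cons, pow_add, Finset.prod_mul_distrib, beq_iff_eq, pow_ite, pow_one,
      pow_zero, Finset.prod_ite_eq, Finset.mem_univ, if_true]
    ring

end

end Pool.Agent.P.MP_657a03_nt.AB
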