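import Pool.Agent.P.MP_657a03_nt.AB.Api
import Pool.Agent.P.MP_657a03_nt.MinkB
import Pool.Agent.P.MP_657a03_nt.Ideals

/-! Proof of BOX. -/

set_option autoImplicit false

open NumberField NumberField.Units Module Real Matrix Polynomial

namespace Pool.Agent.P.MP_657a03_nt.AB

namespace BOX

theorem pow_le_choose (S : ℕ) {x : ℝ} (hx : 1 ≤ x) :
    ∀ r : ℕ, r * (x - 1) ≤ S → x ^ r ≤ (S + r).choose r := by
  intro r
  induction r with
  | zero => simp
  | succ r ih =>
    intro h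
    push_cast at h
    have e : (((S + (r + 1)).choose (r + 1) : ℕ) : ℝ) * (r + 1) = (S + r + 1) * (S + r).choose r := by
      rw [← add_assoc]; exact_mod_cast (Nat.add_one_mul_choose_eq (S + r) r).symm
    refine le_of_mul_le_mul_right ?_ (show (0 : ℝ) < r + 1 by positivity)
    rw [e, pow_succ, mul_assoc, mul_comm]
    exact mul_le_mul (by linarith) (ih (by linarith)) (by positivity) (by positivity)

theorem num {ρ x n b : ℝ} {τ D r m : ℕ} (hρ : 1 ≤ ρ) (hx : x = τ - log ρ) (h2 : 2 ≤ x)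
    (hr : r < D) (hm : m ≤ D * log ρ / 2 + 1) (hn : 0 ≤ n) (h1 : x ^ r ≤ 2 ^ (m + r) * b)
    (hb : b ≤ n * (exp m ^ 2 * 4 ^ D * 4 ^ D)) : (τ : ℝ) ^ r ≤ n * (1400 * ρ ^ 2) ^ D := by
  have hl := log_nonneg hρ
  have hr' : (r : ℝ) ≤ D := by exact_mod_cast hr.le
  have a1 : (τ : ℝ) ^ r ≤ x ^ r * exp (D * log ρ / 2) := by
    have : (τ : ℝ) ≤ x * exp (log ρ / 2) := by nlinarith [add_one_le_exp (log ρ / 2)]
    refine (pow_le_pow_left₀ (by positivity) this r).trans ?_
    rw [mul_pow, ← exp_nat_mul]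
    exact mul_le_mul_of_nonneg_left (exp_le_exp.2 (by nlinarith)) (by positivity)
  have a2 : (2 : ℝ) ^ (m + r) ≤ exp m * 2 ^ D := by
    rw [pow_add, ← mul_one (m : ℝ), exp_nat_mul]
    exact mul_le_mul (pow_le_pow_left₀ (by norm_num) (by linarith [add_one_le_exp 1]) m)
      (pow_le_pow_right₀ (by norm_num) hr.le) (by positivity) (by positivity)
  have a3 : exp m ^ 3 * exp (D * log ρ / 2) ≤ 27 ^ D * (ρ ^ 2) ^ D := by
    have e1 : (ρ ^ 2) ^ D = exp (2 * D * log ρ) := by
      rw [← pow_mul, show 2 * (D : ℝ) = (2 * D : ℕ) by push_cast; rfl, exp_nat_mul,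
        exp_log (by linarith)]
    have e2 : exp 3 ≤ 27 ^ D := by
      refine le_trans ?_ (le_self_pow₀ (by norm_num) (by omega))
      rw [← mul_one (3 : ℝ), ← Nat.cast_ofNat, exp_nat_mul]
      exact (pow_le_pow_left₀ (by positivity) exp_one_lt_three.le 3).trans (by norm_num)
    rw [e1, ← exp_nat_mul, ← exp_add]
    refine le_trans ?_ (mul_le_mul_of_nonneg_right e2 (by positivity))
    rw [← exp_add]
    exact exp_le_exp.2 (by push_cast; linarith)
  calc (τ : ℝ) ^ r ≤ exp m * 2 ^ D * (n * (exp m ^ 2 * 4 ^ D * 4 ^ D)) * exp (D * log ρ / 2) := by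
        refine a1.trans (mul_le_mul_of_nonneg_right (h1.trans ?_) (by positivity))
        exact (mul_le_mul_of_nonneg_left hb (by positivity)).trans
          (mul_le_mul_of_nonneg_right a2 (by positivity))
    _ = n * (2 ^ D * 4 ^ D * 4 ^ D * (exp m ^ 3 * exp (D * log ρ / 2))) := by ring
    _ ≤ n * (2 ^ D * 4 ^ D * 4 ^ D * (27 ^ D * (ρ ^ 2) ^ D)) := by gcongr
    _ ≤ _ := by
        rw [← mul_pow, ← mul_pow, ← mul_pow, ← mul_pow]
        exact mul_le_mul_of_nonneg_left (pow_le_pow_left₀ (by positivity)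
          (by nlinarith [sq_nonneg ρ]) D) hn

end BOX

open BOX in
theorem t_BOX : S_BOX := by
  classical
  intro E _ _ ρ τ hρ hd hτ
  have hl := log_nonneg hρ
  have hr := rank_lt (E := E)
  have hD : (finrank ℚ E : ℝ) ≤ 2 * (rank E + 1) := by exact_mod_cast le_two_rank (E := E)
  set D := finrank ℚ E with hDdef
  set m := ⌊D * log ρ / 2⌋₊ + 1 with hmdef
  have hm1 : D * log ρ / 2 < m := by rw [hmdef]; push_cast; exact Nat.lt_floor_add_one _
  have hm2 : (m : ℝ) ≤ D * log ρ / 2 + 1 := by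
    rw [hmdef]; push_cast; linarith [Nat.floor_le (show 0 ≤ D * log ρ / 2 by positivity)]
  have hr0 : (0 : ℝ) ≤ rank E := by positivity
  have hm3 : (m : ℝ) ≤ (rank E + 1) * log ρ + 1 := by nlinarith
  obtain ⟨S, hS⟩ : ∃ S, (rank E + 1) * τ = S + m := by
    have : (m : ℝ) ≤ (rank E + 1) * τ := by nlinarith
    have : m ≤ (rank E + 1) * τ := by exact_mod_cast this
    exact ⟨_, (Nat.sub_add_cancel this).symm⟩
  have hS' : ((rank E : ℝ) + 1) * τ = S + m := by exact_mod_cast hS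
  obtain ⟨B, hB, hcard⟩ := minkB E m S τ (hd.trans_lt (by
    rw [← exp_log (show 0 < ρ by linarith), ← exp_nat_mul]
    exact exp_lt_exp.2 (by linarith))) hS
  have hBne : B.Nonempty := by
    rw [← Finset.card_pos]
    have := (Nat.choose_pos (Nat.le_add_left (rank E) S)).trans_le hcard
    exact Nat.pos_of_mul_pos_left this
  have hτ0 : (0 : ℝ) < τ := by linarith
  let a : 𝓞 E → (E →+* ℂ) → ℝ := fun β φ => (τ - log ‖φ β‖) / τ
  have ha : ∀ β ∈ B, ∀ φ, 0 ≤ a β φ := fun β hβ φ => div_nonneg (sub_nonneg.2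
    ((log_le_iff_le_exp (by simpa using (hB β hβ).1)).2 ((hB β hβ).2.1 φ))) hτ0.le
  have hsum : ∀ β ∈ B, ∑ φ, ⌊a β φ⌋₊ ≤ D := fun β hβ => by
    have h1 : ∑ φ, (⌊a β φ⌋₊ : ℝ) ≤ ∑ φ, a β φ :=
      Finset.sum_le_sum fun φ _ => Nat.floor_le (ha β hβ φ)
    have h2 := sum_log_nonneg (β : E) (by simpa using (hB β hβ).1) (RingOfIntegers.isIntegral_coe β)
    have h3 : ∑ φ, a β φ ≤ D := by
      rw [← Finset.sum_div, div_le_iff₀ hτ0, Finset.sum_sub_distrib, Finset.sum_const,
        Finset.card_univ, Embeddings.card, nsmul_eq_mul]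
      linarith
    exact_mod_cast h1.trans h3
  let key : 𝓞 E → Ideal (𝓞 E) × (Option (E →+* ℂ) → ℕ) := fun β =>
    (Ideal.span {β}, fun o => o.elim (D - ∑ φ, ⌊a β φ⌋₊) fun φ => ⌊a β φ⌋₊)
  obtain ⟨β0, h0, hmax⟩ := Finset.exists_max_image B
    (fun β => (B.filter fun q => key q = key β).card) hBne
  have h1 := Finset.card_le_mul_card_image (f := key) B _ fun t ht => by
    obtain ⟨β, hβ, rfl⟩ := Finset.mem_image.1 ht
    exact hmax β hβ
  have h2 : B.image key ⊆ (B.image fun β => Ideal.span {β}) ×ˢ Finset.piAntidiag Finset.univ D := by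
    intro t ht
    obtain ⟨β, hβ, rfl⟩ := Finset.mem_image.1 ht
    refine Finset.mem_product.2 ⟨Finset.mem_image_of_mem _ hβ,
      Finset.mem_piAntidiag.2 ⟨?_, fun _ _ => Finset.mem_univ _⟩⟩
    rw [Fintype.sum_option]
    exact Nat.sub_add_cancel (hsum β hβ)
  have h3 : ((B.image key).card : ℝ) ≤ exp m ^ 2 * 4 ^ D * 4 ^ D := by
    refine (Nat.cast_le.2 (Finset.card_le_card h2)).trans ?_
    rw [Finset.card_product, Nat.cast_mul, MinkB.card_pi D D (by
      rw [Fintype.card_option, Embeddings.card])]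
    refine mul_le_mul (ideals E _ _ fun J hJ => ?_) ?_ (by positivity) (by positivity)
    · obtain ⟨β, hβ, rfl⟩ := Finset.mem_image.1 hJ
      refine ⟨by rw [Ne, Ideal.span_singleton_eq_bot]; exact (hB _ hβ).1, ?_⟩
      rw [Ideal.absNorm_span_singleton, Nat.cast_natAbs, Int.cast_abs]
      exact (hB _ hβ).2.2
    · have := Nat.choose_le_two_pow (D + D) D
      rw [← two_mul, pow_mul] at this
      rw [← two_mul]
      exact_mod_cast this
  let u : 𝓞 E → GE E := fun β => if h : (β : E) = 0 then 0 else mkG β h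
  have hu : ∀ β ∈ B, vl (u β) = β := fun β hβ => by
    simp only [u]
    rw [dif_neg (by simpa using (hB β hβ).1), vl_mkG]
  set F := B.filter fun q => key q = key β0
  refine ⟨F.image fun β => u β - u β0, fun v hv => ?_, ?_⟩
  · obtain ⟨β, hβ, rfl⟩ := Finset.mem_image.1 hv
    obtain ⟨hβ, hk⟩ := Finset.mem_filter.1 hβ
    constructor
    · obtain ⟨w, hw⟩ := Ideal.span_singleton_eq_span_singleton.1 (congrArg Prod.fst hk).symm
      refine mem_UU'.2 ⟨w, ?_⟩
      rw [vl_sub, hu β hβ, hu β0 h0, ← hw, eq_div_iff (by simpa using (hB β0 h0).1), mul_comm]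
      simp
    · refine sz_iff.2 fun φ => ?_
      have e : ⌊a β φ⌋₊ = ⌊a β0 φ⌋₊ := congrFun (congrArg Prod.snd hk) (some φ)
      have b1 := Nat.floor_le (ha β hβ φ)
      have b2 := Nat.floor_le (ha β0 h0 φ)
      have b3 := Nat.lt_floor_add_one (a β φ)
      have b4 := Nat.lt_floor_add_one (a β0 φ)
      rw [e] at b1 b3
      rw [le_div_iff₀ hτ0] at b1 b2
      rw [div_lt_iff₀ hτ0] at b3 b4
      rw [map_sub, Pi.sub_apply, lam_apply, lam_apply, hu β hβ, hu β0 h0, abs_le]
      constructor <;> linarith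
  · rw [Finset.card_image_of_injOn fun β hβ β' hβ' e => by
      have := congrArg vl (sub_left_injective e)
      rw [hu β (Finset.mem_filter.1 hβ).1, hu β' (Finset.mem_filter.1 hβ').1] at this
      exact RingOfIntegers.ext this]
    refine num (b := B.card) hρ rfl (by linarith) hr hm2 (by positivity)
      ((pow_le_choose S (by linarith) _ (by nlinarith)).trans (by exact_mod_cast hcard)) ?_
    exact (Nat.cast_le.2 h1).trans (by rw [Nat.cast_mul]; gcongr)

end Pool.Agent.P.MP_657a03_nt.AB
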