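import Pool.Agent.P.MP_657a03_nt.AB.Api

/-! Proof of CHI. -/

set_option autoImplicit false

open NumberField NumberField.Units Module Real Matrix Polynomial

namespace Pool.Agent.P.MP_657a03_nt.AB

namespace CHI

variable {L E : Type} [NormedField L] [Field E]

/-- the elements of absolute value one -/
def N1 (ι : E →+* L) : Submodule ℤ (GE E) :=
  AddSubgroup.toIntSubmodule
    { carrier := {y | ‖ι (vl y)‖ = 1}
      add_mem' := fun {x y} (hx : ‖ι (vl x)‖ = 1) (hy : ‖ι (vl y)‖ = 1) =>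
        show ‖ι (vl (x + y))‖ = 1 by rw [vl_add, map_mul, norm_mul, hx, hy, one_mul]
      zero_mem' := show ‖ι (vl 0)‖ = 1 by simp
      neg_mem' := fun {x} (hx : ‖ι (vl x)‖ = 1) =>
        show ‖ι (vl (-x))‖ = 1 by rw [vl_neg, map_inv₀, norm_inv, hx, inv_one] }

theorem UU_le (ι : E →+* L) (h : ∀ x : L, IsIntegral ℤ x → ‖x‖ ≤ 1) : UU E ≤ N1 ι := fun y hy => by
  obtain ⟨h1, h2⟩ := mem_UU.1 hy
  have h3 := h _ (map_isIntegral_int ι h2)
  have h4 : 0 < ‖ι (vl y)‖ := by simpa using vl_ne_zero y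
  rw [map_inv₀, norm_inv, inv_le_one₀ h4] at h3
  exact le_antisymm (h _ (map_isIntegral_int ι h1)) h3

theorem nrm1 [IsUltrametricDist L] {x : L} {q : ℕ} (hq : q ≠ 0) (h : ‖x ^ q - 1‖ < 1) :
    ‖x‖ = 1 := by
  have h1 := IsUltrametricDist.norm_add_eq_max_of_norm_ne_norm (x := x ^ q - 1) (y := 1)
    (by rw [NormOneClass.norm_one]; exact h.ne)
  rw [sub_add_cancel, NormOneClass.norm_one, max_eq_right h.le, norm_pow] at h1
  exact (pow_eq_one_iff_of_nonneg (norm_nonneg _) hq).1 h1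

theorem inj {G : Type} [Fintype G] {η : G → GE E}
    (h : ∀ a : G → ℤ, IsOfFinAddOrder (∑ σ, a σ • η σ) → a = 0) : Function.Injective η := by
  classical
  intro σ τ e
  have h1 := h (Pi.single σ 1 - Pi.single τ 1) (by
    simp only [Pi.sub_apply, sub_smul, Finset.sum_sub_distrib, Pi.single_apply, ite_smul, one_smul,
      zero_smul, Finset.sum_ite_eq', Finset.mem_univ, if_true, e, sub_self]
    exact IsOfFinAddOrder.zero)
  by_contra hn
  simpa [hn] using congrFun h1 σ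

theorem root {G : Type} [Group G] [Fintype G] (χ : G →* Eˣ) (σ : G) :
    ∃ b : 𝓞 E, (b : E) = χ σ ∧ Hs 1 (b : E) := by
  have h1 : ((χ σ : Eˣ) : E) ^ Fintype.card G = 1 := by
    rw [← Units.val_pow_eq_pow_val, ← map_pow, pow_card_eq_one, map_one, Units.val_one]
  refine ⟨⟨χ σ, IsIntegral.of_pow Fintype.card_pos (by rw [h1]; exact isIntegral_one)⟩, rfl,
    fun ψ => (Complex.norm_eq_one_of_pow_eq_one (n := Fintype.card G) ?_ Fintype.card_ne_zero).le⟩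
  rw [← map_pow]
  exact (congrArg ψ h1).trans (map_one ψ)

end CHI

open CHI in
theorem t_CHI (hN : S_NRM) (hC : S_CORE) (hY : S_CYC) (hT : S_TWIST) (hR : S_RANK) (hP : S_PW)
    (hS : S_RES) : S_CHI := by
  intro d1 ρ hd1 hρ
  obtain ⟨W, hW⟩ := hY d1
  obtain ⟨C, hC1, hC⟩ := hC W (4 * d1) ρ (by omega) hρ
  refine ⟨C, hC1, fun A => ?_⟩
  obtain ⟨A', hA1, hA2, hA3⟩ : ∃ A', A ^ W ≤ A' ∧ A ≤ A' ∧ 2 * d1 ≤ A' :=
    ⟨A ^ W + A + 2 * d1, by omega, by omega, by omega⟩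
  obtain ⟨P0, hP0⟩ := hC A'
  refine ⟨P0, fun p hp L _ _ _ _ E _ _ ι h G _ _ φ η χ q d f N hpf _ hord hfr hnc hdisc hlog hη hind
    hcard hd hdA hden hq hres hf hφ hsm => ?_⟩
  have hp2 := hpf.prime.two_le
  have hF : 0 < orderOf h := orderOf_pos h
  have hpow : ∀ (a : ℕ) σ, hat (h ^ a) (η σ) = η (φ ^ a * σ) := fun a σ => by
    induction a with
    | zero => rw [pow_zero, pow_zero, hat_one, one_mul]; rfl
    | succ a ih => rw [pow_succ', hat_mul, Module.End.mul_apply, ih, hη, pow_succ', mul_assoc]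
  have hφF : φ ^ orderOf h = 1 := by
    have := hpow (orderOf h) 1
    rw [pow_orderOf_eq_one, hat_one, mul_one] at this
    exact (inj hind this).symm
  have hdv : ∀ n, φ ^ n = 1 → orderOf (χ φ) ∣ n := fun n hn =>
    orderOf_dvd_of_pow_eq_one (by rw [← map_pow, hn, map_one])
  obtain ⟨Ψ, hΨ, hΨ0, hdeg, hsum, hprim, hQ⟩ := hW (orderOf h) (orderOf (χ φ)) hF hord (hdv _ hφF)
  obtain ⟨Q, hQ1, hQ2, hQ3, hQ4⟩ := hQ p hp2
  choose β hβ hβ1 using root χ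
  obtain ⟨hPw, hDen⟩ := hP E h Ψ W hsum
  have hkill : ∀ y, aeval (hat h) (cyclotomic (orderOf (χ φ)) ℤ) (aeval (hat h) Ψ y) = 0 :=
    fun y => by
      rw [← Module.End.mul_apply, ← map_mul, hΨ, map_sub, map_pow, aeval_X, map_one, ← hat_pow,
        pow_orderOf_eq_one, hat_one, sub_self, LinearMap.zero_apply]
  have hη1 : ∀ σ, η σ ∈ N1 ι := fun σ => nrm1 hq (hres σ)
  have hcong : ∀ y ∈ (N1 ι).map (aeval (hat h) Ψ), ‖ι (vl y) ^ Q - 1‖ < 1 := by
    rintro _ ⟨y, hy, rfl⟩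
    exact (hS p L E ι h hfr _ _ (hS p L E ι h hfr Ψ y hy).1).2 Q hQ1 (hkill y)
  have hle : (UU E).map (aeval (hat h) Ψ) ⊔
      Submodule.span ℤ (Set.range fun σ => aeval (hat h) Ψ (η σ)) ≤
      (N1 ι).map (aeval (hat h) Ψ) :=
    sup_le (Submodule.map_mono (UU_le ι (hN p L hpf).2.2.2.2))
      (Submodule.span_le.2 (Set.range_subset_iff.2 fun σ => ⟨η σ, hη1 σ, rfl⟩))
  obtain ⟨hT1, hT2⟩ := hT p L E ι h G φ η χ β Ψ q Q hpf hη hβ
  have hmain := hP0 p hp L E ι (aeval (hat h) Ψ) G (fun σ => aeval (hat h) Ψ (η σ)) β (d ^ W) Q N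
    hpf hdisc hlog hPw
    ((hR E h Ψ hΨ0 hdeg hnc).trans (Nat.mul_le_mul_right _ (Nat.mul_le_mul_left 4 hord)))
    hfr.unr (fun y hy => hcong y (hle hy)) (hcard.trans hA2) (Nat.one_le_pow _ _ hd)
    ((Nat.pow_le_pow_left hdA W).trans hA1) (fun σ => (hDen _ d A hd hdA (hden σ)).mono hA1)
    (fun σ => hs_mono (hβ1 σ) (Nat.one_le_cast.2 (by omega)))
    (hT1 hind (hprim E _
      (IsPrimitiveRoot.coe_units_iff.2 (IsPrimitiveRoot.orderOf (χ φ)).inv))) hQ2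
    (hQ4.trans (Nat.pow_le_pow_right (by omega) hA3))
    ((hT2 hq hres fun σ => hcong _ ⟨η σ, hη1 σ, rfl⟩).trans hsm)
  have hQ5 : (Q : ℝ) ≤ 2 ^ d1 * (p : ℝ) ^ f.totient := by
    have := hQ3.trans (Nat.mul_le_mul_left _ (Nat.pow_le_pow_right (by omega)
      (Nat.le_of_dvd (Nat.totient_pos.2 hf) (Nat.totient_dvd_of_dvd (hdv f hφ)))))
    exact_mod_cast this
  rw [show (2 * ((4 * d1 : ℕ) : ℝ)) = 8 * d1 by push_cast; ring] at hmain
  refine hmain.trans ?_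
  have := log_natCast_nonneg p
  gcongr

end Pool.Agent.P.MP_657a03_nt.AB
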