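import Pool.Agent.P.MP_657a03_nt.AB.If
import Pool.Agent.P.MP_8b7eba_nt.R2.Basic

/-! Proof of CMP. -/

set_option autoImplicit false

open NumberField NumberField.Units Module Real Matrix Polynomial

namespace Pool.Agent.P.MP_657a03_nt.AB

namespace CMP

open Pool.Agent.P.MP_8b7eba_nt.R2 IntermediateField

theorem fixed_inf {U V : Subgroup GQ} (hU : IsOpen (U : Set GQ)) (hV : IsOpen (V : Set GQ)) :
    fixedField (U ⊓ V) = fixedField U ⊔ fixedField V := by
  rw [← InfiniteGalois.fixedField_fixingSubgroup (fixedField U ⊔ fixedField V),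
    fixingSubgroup_sup, Basic.fs hU, Basic.fs hV]

theorem adjoin_top {K E1 E : IntermediateField ℚ Om} (hK : K ≤ E) (h1 : E1 ≤ E)
    (h : E ≤ K ⊔ E1) :
    letI : Algebra K E := (inclusion hK).toRingHom.toAlgebra
    adjoin K (Set.range (inclusion h1).toRingHom) = ⊤ := by
  letI : Algebra K E := (inclusion hK).toRingHom.toAlgebra
  let T : IntermediateField K E := adjoin K (Set.range (inclusion h1).toRingHom)
  let F : IntermediateField ℚ Om := (T.toSubfield.map E.val.toRingHom).toIntermediateField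
    fun q => by
      rw [eq_ratCast (algebraMap ℚ Om) q]
      exact SubfieldClass.ratCast_mem _ q
  have a : K ≤ F := fun x hx => ⟨_, T.algebraMap_mem ⟨x, hx⟩, rfl⟩
  have b : E1 ≤ F := fun x hx => ⟨_, subset_adjoin K _ ⟨⟨x, hx⟩, rfl⟩, rfl⟩
  refine eq_top_iff.2 fun x _ => ?_
  obtain ⟨y, hy, e⟩ := (h.trans (sup_le a b)) x.2
  obtain rfl : y = x := Subtype.ext e
  exact hy

end CMP

open Pool.Agent.P.MP_8b7eba_nt.R2 IntermediateField in
theorem t_CMP (hT : S_TW) (hD : S_DISC2) : S_CMP := by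
  intro N1 h1
  have := numberField h1.2
  obtain ⟨δ, hδ, hd⟩ := hD (fixedField N1)
  obtain ⟨m, hm, ht⟩ := hT
  refine ⟨(δ * m : ℕ), by exact_mod_cast Nat.mul_pos hδ hm, fun p hp h23 k hk => ?_⟩
  obtain ⟨Nt, hNt, hw, hi, hdisc⟩ := ht p hp h23 k hk
  have hN := hNt.inf h1
  refine ⟨Nt ⊓ N1, hN, inf_le_right, fun w hp => inf_le_inf_right _ (hw w hp), ?_, ?_, ?_⟩
  · have := Basic.fi hN.2
    rw [← hi]
    exact Subgroup.index_antitone inf_le_left
  · rw [← hi, mul_comm]
    exact Subgroup.index_inf_le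
  · intro _
    have := numberField hNt.2
    have e := CMP.fixed_inf hNt.2 h1.2
    have hK : fixedField Nt ≤ fixedField (Nt ⊓ N1) := e ▸ le_sup_left
    have hE : fixedField N1 ≤ fixedField (Nt ⊓ N1) := e ▸ le_sup_right
    let _ : Algebra (fixedField Nt) (fixedField (Nt ⊓ N1)) := (inclusion hK).toRingHom.toAlgebra
    have : IsScalarTower ℚ (fixedField Nt) (fixedField (Nt ⊓ N1)) :=
      IsScalarTower.of_algebraMap_eq fun _ => rfl
    have a := hd (fixedField Nt) (fixedField (Nt ⊓ N1)) _ (CMP.adjoin_top hK hE e.le)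
    have b := finrank_mul_finrank ℚ (fixedField Nt) (fixedField (Nt ⊓ N1))
    rw [finrank_fixedField hNt.2, finrank_fixedField hN.2, hi] at b
    have c : finrank ℚ (fixedField (Nt ⊓ N1)) = (Nt ⊓ N1).index := finrank_fixedField hN.2
    have d : (discr (fixedField (Nt ⊓ N1))).natAbs ≤ (δ * m) ^ (Nt ⊓ N1).index := by
      refine a.trans ?_
      rw [mul_pow, c]
      refine Nat.mul_le_mul_left _ ?_
      rw [← b, pow_mul]
      exact Nat.pow_le_pow_left hdisc _
    rw [← Int.cast_abs, ← Nat.cast_natAbs]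
    exact_mod_cast d

end Pool.Agent.P.MP_657a03_nt.AB
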