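import Pool.Agent.P.MP_657a03_nt.AB.Api

/-! Proof of CORE. -/

set_option autoImplicit false

open NumberField NumberField.Units Module Real Matrix Polynomial

namespace Pool.Agent.P.MP_657a03_nt.AB

namespace CORE

variable {E : Type} [Field E] {κ : Type} [Fintype κ]

theorem exists_inf {η : κ → GE E} {β : κ → 𝓞 E} (h : ND η β) : ∃ i, ¬ IsOfFinAddOrder (η i) := by
  classical
  obtain ⟨v, hv, h⟩ := h
  by_contra hcon
  apply hv
  refine Finset.sum_eq_zero fun i _ => ?_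
  have hi : IsOfFinAddOrder (η i) := by
    by_contra hi
    exact hcon ⟨i, hi⟩
  have h1 := h (Pi.single i 1) (by simpa [Pi.single_apply] using hi)
  have h2 : v i = 0 := by simpa [Pi.single_apply] using h1
  simp [h2]

theorem one_le_rank {Γ : Submodule ℤ (GE E)} [Module.Finite ℤ Γ] {y : GE E} (hy : y ∈ Γ)
    (h : ¬ IsOfFinAddOrder y) : 1 ≤ finrank ℤ Γ := by
  have hl : LinearIndependent ℤ fun _ : Unit => (⟨y, hy⟩ : Γ) := by
    rw [Fintype.linearIndependent_iff]
    intro g hg i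
    by_contra hne
    apply h
    have h1 : g i • y = 0 := by
      have := congrArg Subtype.val hg
      simpa using this
    exact isOfFinAddOrder_iff_zsmul_eq_zero.2 ⟨g i, hne, h1⟩
  simpa using hl.fintype_card_le_finrank

theorem sun {W d A : ℕ} {P : Module.End ℤ (GE E)} (hP : Pw W P) {η : κ → GE E}
    (hd : ∀ i, Den d A (η i)) :
    ∀ y ∈ (UU E).map P ⊔ Submodule.span ℤ (Set.range η),
      ∃ M : ℕ, IsIntegral ℤ ((d : E) ^ M * vl y) := by
  have key : ∀ y ∈ Submodule.span ℤ (Set.range η),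
      ∃ M : ℕ, IsIntegral ℤ ((d : E) ^ M * vl y) ∧ IsIntegral ℤ ((d : E) ^ M * (vl y)⁻¹) := by
    intro y hy
    induction hy using Submodule.span_induction with
    | mem x hx =>
      obtain ⟨i, rfl⟩ := hx
      exact ⟨1, by simpa using (hd i).1, by simpa using (hd i).2.1⟩
    | zero => exact ⟨0, by simpa using isIntegral_one, by simpa using isIntegral_one⟩
    | add x y _ _ hx hy =>
      obtain ⟨M, h1, h2⟩ := hx
      obtain ⟨M', h3, h4⟩ := hy
      refine ⟨M + M', ?_, ?_⟩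
      · have := h1.mul h3
        rwa [mul_mul_mul_comm, ← pow_add, ← vl_add] at this
      · have := h2.mul h4
        rwa [mul_mul_mul_comm, ← pow_add, ← mul_inv, ← vl_add] at this
    | smul a x _ hx =>
      obtain ⟨M, h1, h2⟩ := hx
      have h3 := h1.pow a.natAbs
      have h4 := h2.pow a.natAbs
      rw [mul_pow, ← pow_mul] at h3 h4
      refine ⟨M * a.natAbs, ?_⟩
      rcases Int.natAbs_eq a with ha | ha
      · have e : vl (a • x) = vl x ^ a.natAbs := by
          rw [vl_zsmul, ← zpow_natCast, ← ha]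
        rw [e, ← inv_pow]
        exact ⟨h3, h4⟩
      · have e : vl (a • x) = (vl x)⁻¹ ^ a.natAbs := by
          rw [vl_zsmul, ← zpow_natCast, _root_.inv_zpow', ← ha]
        rw [e, ← inv_pow, inv_inv]
        exact ⟨h4, h3⟩
  intro y hy
  obtain ⟨u, ⟨w, hw, rfl⟩, z, hz, rfl⟩ := Submodule.mem_sup.1 hy
  obtain ⟨M, h1, -⟩ := key z hz
  refine ⟨M, ?_⟩
  have := h1.mul (mem_UU.1 (hP w hw).1).1
  rwa [mul_assoc, mul_comm (vl z), ← vl_add] at this

end CORE

open CORE in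
theorem t_CORE (hN : S_NUM) (hF : S_FAM) (hM : S_MAIN) : S_CORE := by
  intro W κ0 ρ hκ hρ
  have hG : (1 : ℝ) ≤ 50000 * ρ ^ 2 := by nlinarith
  obtain ⟨C, hC, h3⟩ := hN (W + 1) (2 * κ0) (50000 * ρ ^ 2) (by omega) (by omega) hG
  refine ⟨C, hC, fun A => ?_⟩
  by_cases hA : A = 0
  · refine ⟨0, fun p _ L _ _ _ _ E _ _ ι P κ _ η β d Q N _ _ _ _ _ _ _ _ h1 h2 => ?_⟩
    omega
  obtain ⟨P0, h3⟩ := h3 A (Nat.one_le_iff_ne_zero.2 hA)
  refine ⟨P0, fun p hp L _ _ _ _ E _ _ ι P κ _ η β d Q N hpf hdisc hCD hP hD hunr hres hcard hd1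
    hdA hden hβ hnd hpQ hQp hsm => ?_⟩
  by_contra hcon
  have := finite_UU (E := E)
  have hf2 : Module.Finite ℤ (Submodule.span ℤ (Set.range η)) :=
    Module.Finite.span_of_finite ℤ (Set.finite_range η)
  set Γ : Submodule ℤ (GE E) := (UU E).map P ⊔ Submodule.span ℤ (Set.range η) with hΓ
  have hfin : Module.Finite ℤ Γ := Submodule.finite_sup _ _
  have hmem : ∀ i, η i ∈ Γ := fun i =>
    Submodule.mem_sup_right (Submodule.subset_span ⟨i, rfl⟩)
  obtain ⟨i0, hi0⟩ := exists_inf hnd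
  obtain ⟨r, hr⟩ : ∃ r, finrank ℤ Γ = r + 1 :=
    ⟨finrank ℤ Γ - 1, by have := one_le_rank (hmem i0) hi0; omega⟩
  have hr1 : finrank ℤ ((UU E).map P) ≤ r + 1 := hr ▸ Submodule.finrank_mono le_sup_left
  have hr2 : r ≤ finrank ℚ E + A := by
    have a1 : finrank ℤ Γ ≤ finrank ℤ ((UU E).map P) +
        finrank ℤ (Submodule.span ℤ (Set.range η)) := by
      have a0 := Submodule.rank_add_le_rank_add_rank ((UU E).map P)
        (Submodule.span ℤ (Set.range η))
      rw [← hΓ, ← finrank_eq_rank, ← finrank_eq_rank, ← finrank_eq_rank] at a0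
      exact_mod_cast a0
    have a2 := Submodule.finrank_map_le P (UU E)
    have a3 := finrank_UU (E := E)
    have a4 := rank_lt (E := E)
    have a5 : finrank ℤ (Submodule.span ℤ (Set.range η)) ≤ Fintype.card κ :=
      finrank_range_le_card η
    omega
  have hD1 : 1 ≤ finrank ℚ E := Module.finrank_pos
  have hD2 : finrank ℚ E ≤ 2 * κ0 * (r + 1) := by
    refine hD.trans ?_
    calc κ0 * (finrank ℤ ((UU E).map P) + 1) ≤ κ0 * (2 * (r + 1)) :=
          Nat.mul_le_mul_left _ (by omega)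
      _ = 2 * κ0 * (r + 1) := by ring
  have hp2 := hpf.prime.two_le
  have hQ0 : Q ≠ 0 := by omega
  have hp0 : (0 : ℝ) < p := by exact_mod_cast hpf.prime.pos
  have hlt : Q * log p ^ 60 * exp (-r) < N := by
    refine lt_of_le_of_lt ?_ (not_le.1 hcon)
    have hk : (0 : ℝ) < 2 * κ0 := by
      have : (1 : ℝ) ≤ κ0 := by exact_mod_cast hκ
      linarith
    have b1 : (finrank ℚ E : ℝ) / (2 * κ0) ≤ r + 1 := by
      rw [div_le_iff₀ hk, mul_comm]
      exact_mod_cast hD2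
    refine mul_le_mul_of_nonneg_left (exp_le_exp.2 (by linarith)) (by positivity)
  obtain ⟨τ, I, U, B1, B2, lev, J, J', Cc, T, Lc, c1, c2, c3, c4, c5, c6, c7, c8, c9, c10, c11,
    c12, c13, c14⟩ := h3 p hp r (finrank ℚ E) N Q hr2 hD1 hD2 hCD hpQ hQp hlt
  have hτ : log ρ + 2 ≤ τ := by
    have := log_le_sub_one_of_pos (lt_of_lt_of_le one_pos hρ)
    nlinarith
  obtain ⟨S0, hS0, hcardS⟩ := hF L E ι P κ η A d Q W τ I ρ hP hcard hd1 hdA hden hQ0 hres hρ hdisc
    hτ c1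
  rw [← hΓ] at hS0 hcardS
  rw [hr] at hcardS
  have hLc : Lc ≤ S0.card := by
    have hA0 : (0 : ℝ) < A := by exact_mod_cast Nat.pos_of_ne_zero hA
    have hQ1 : (0 : ℝ) < Q := by exact_mod_cast Nat.pos_of_ne_zero hQ0
    have h5 := le_of_mul_le_mul_right (c3.trans hcardS) (by positivity)
    exact_mod_cast h5
  obtain ⟨S, hSs, hScard⟩ := Finset.exists_subset_card_eq hLc
  have hDat : Dat p ι Γ η β A d Q r ((p : ℝ) ^ N)⁻¹ :=
    ⟨hfin, hr, hunr, hmem, hres, hQ0, hcard, hd1, hdA, hden, sun hP hden, hβ, hnd, hsm⟩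
  refine hM p L E ι Γ κ η β A d Q r (A * I) lev J J' U B1 B2 Cc T _ _ S hpf hDat
    (hS0.mono hSs) ?_ c5 c6 c7 c8 ?_ ?_ ?_ ?_ c13 ?_
  · rw [log_exp]
    exact c4
  · rw [hScard]
    exact c9
  · rw [hScard]
    exact c10
  · rw [log_exp]
    exact c11
  · rw [hScard]
    exact c12
  · rw [mul_assoc, inv_mul_le_iff₀ (by positivity), mul_one]
    exact c14

end Pool.Agent.P.MP_657a03_nt.AB
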