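import Pool.Agent.P.MP_657a03_nt.AB.Api
import Pool.Agent.P.MP_657a03_nt.Lat

/-! Proof of CRD. -/

set_option autoImplicit false

open NumberField NumberField.Units Module Real Matrix Polynomial

namespace Pool.Agent.P.MP_657a03_nt.AB

namespace CRD

variable {L E : Type} [NormedField L] [IsUltrametricDist L] [Field E]

lemma norm_eq_one {t : L} (h : ‖t - 1‖ < 1) : ‖t‖ = 1 := by
  have h1 : ‖t - 1‖ ≠ ‖(1 : L)‖ := by rw [norm_one]; exact h.ne
  have := IsUltrametricDist.norm_add_eq_max_of_norm_ne_norm h1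
  rw [sub_add_cancel, norm_one, max_eq_right h.le] at this
  exact this

/-- the principal units in a subgroup -/
def PU (ι : E →+* L) (H : Submodule ℤ (GE E)) : AddSubgroup (GE E) where
  carrier := {y | y ∈ H ∧ ‖ι (vl y) - 1‖ < 1}
  zero_mem' := ⟨zero_mem _, by simp⟩
  add_mem' := fun {a b} ha hb => ⟨add_mem ha.1 hb.1, by
    have e : ι (vl (a + b)) - 1 = ι (vl a) * (ι (vl b) - 1) + (ι (vl a) - 1) := by
      rw [vl_add, map_mul]; ring
    rw [e]
    refine (IsUltrametricDist.norm_add_le_max _ _).trans_lt (max_lt ?_ ha.2)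
    rw [norm_mul, norm_eq_one ha.2, one_mul]
    exact hb.2⟩
  neg_mem' := fun {a} ha => ⟨neg_mem ha.1, by
    have h0 : ι (vl a) ≠ 0 := by simpa using vl_ne_zero a
    have e : ι (vl (-a)) - 1 = -((ι (vl a))⁻¹ * (ι (vl a) - 1)) := by
      rw [vl_neg, map_inv₀]; field_simp; ring
    rw [e, norm_neg, norm_mul, norm_inv, norm_eq_one ha.2, inv_one, one_mul]
    exact ha.2⟩

lemma comb {G κ : Type} [AddCommGroup G] [Fintype κ] {s : ℕ} (a : κ → ℤ) (z : κ → Fin s → ℤ)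
    (γ : Fin s → G) (h : ∑ i, a i • z i = 0) : ∑ i, a i • ∑ j, z i j • γ j = 0 := by
  simp only [Finset.smul_sum, smul_smul]
  rw [Finset.sum_comm]
  refine Finset.sum_eq_zero fun j _ => ?_
  have h4 : ∑ i, a i * z i j = 0 := by simpa using congrFun h j
  rw [← Finset.sum_smul, h4, zero_smul]

lemma comb' {G κ : Type} [AddCommGroup G] [Fintype κ] (a : κ → ℤ) (Q : ℕ) (η : κ → G) :
    Q • ∑ i, a i • η i = ∑ i, a i • Q • η i := by
  rw [Finset.smul_sum]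
  exact Finset.sum_congr rfl fun i _ => smul_comm _ _ _

end CRD

open CRD in
theorem t_CRD (h1 : S_LOG1) (hT : S_THETA) (hS : S_SEP) : S_CRD := by
  classical
  intro p L _ _ _ _ E _ _ ι Γ κ _ η β A d Q r M lev J δ X S hp hD hF hJ
  have he : 2 ^ lev ≠ 0 := by positivity
  obtain ⟨θ0, hθ0⟩ := hT E Γ (2 ^ lev) hD.fin he
  obtain ⟨κ', _, ℓ0, hc, l1, l2, l3⟩ := hS E Γ (2 ^ lev) d he hD.d1 hD.sun
  have lg1 := h1 p L hp
  set G := PU ι (sat Γ (2 ^ lev)) with hG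
  let θ : G →+ (Fin (finrank ℤ Γ) → ℤ) :=
    AddMonoidHom.mk' (fun y => θ0 ⟨y.1, y.2.1⟩) fun a b => by rw [← map_add]; rfl
  let lg : G →+ L := AddMonoidHom.mk' (fun y => lgS (ι (vl y.1))) fun a b => by
    rw [← (lg1 _ a.2.2).2.2.1 _ b.2.2, ← map_mul]; rfl
  have hθ : ∀ y : G, θ y = 0 ↔ IsOfFinAddOrder (y : GE E) := fun y => hθ0 ⟨y.1, y.2.1⟩
  have hlg : ∀ y : G, ‖ι (vl y.1) - 1‖ ≤ (p : ℝ)⁻¹ ∧ ‖lg y‖ = ‖ι (vl y.1) - 1‖ := fun y => by
    have h2 : ‖ι (vl y.1) - 1‖ ≤ (p : ℝ)⁻¹ := by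
      have := hD.unr (vl y.1 - 1) (by rw [map_sub, map_one]; exact y.2.2)
      rwa [map_sub, map_one] at this
    exact ⟨h2, (lg1 _ y.2.2).2.2.2 h2⟩
  have inj : ∀ y : G, θ y = 0 → y = 0 := fun y hy => by
    obtain ⟨n, hn, h2⟩ := isOfFinAddOrder_iff_nsmul_eq_zero.1 ((hθ y).1 hy)
    have h3 : n • y = 0 := Subtype.ext h2
    have h4 : n • lg y = 0 := by rw [← map_nsmul, h3, map_zero]
    have h5 : lg y = 0 := (smul_eq_zero.1 h4).resolve_left hn.ne'
    have h6 := (hlg y).2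
    rw [h5, norm_zero, eq_comm, norm_eq_zero, sub_eq_zero, ← map_one ι] at h6
    exact Subtype.ext (vl_eq_one.1 (ι.injective h6))
  have hX : 0 ≤ log X := log_nonneg hF.one_le
  have hD1 : (1 : ℝ) ≤ finrank ℚ E := by exact_mod_cast finrank_pos
  obtain ⟨g1, hg1⟩ : ∃ g1 : 𝓞 E → G, ∀ x ∈ S, (g1 x : GE E) ∈ Γ ∧
      ‖ℓ0 (g1 x)‖ ≤ 2 * finrank ℚ E * log X ∧
      ∀ x' ∈ S, (x : E) * vl (g1 x').1 = x' * vl (g1 x).1 := by
    rcases S.eq_empty_or_nonempty with rfl | ⟨x0, h0⟩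
    · exact ⟨fun _ => 0, by simp⟩
    have ex : ∀ x ∈ S, ∃ y : G, (y : GE E) ∈ Γ ∧ ‖ℓ0 y‖ ≤ 2 * finrank ℚ E * log X ∧
        (x : E) = x0 * vl y.1 := fun x hx => by
      obtain ⟨y, y1, y2, y3, y4⟩ := hF.rel x hx x0 h0
      obtain ⟨y', -, z2, z3, -⟩ := hF.rel x0 h0 x hx
      have n0 : (x0 : E) ≠ 0 := by simpa using hF.ne x0 h0
      have nx : (x : E) ≠ 0 := by simpa using hF.ne x hx
      have e : vl y' = (vl y)⁻¹ := by
        refine eq_inv_of_mul_eq_one_right (mul_left_cancel₀ n0 ?_)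
        rw [← mul_assoc, ← y2, ← z2, mul_one]
      refine ⟨⟨y, le_sat _ _ y1, y4⟩, y1, l3 y M (log X) hX (fun φ => ?_) y3 (e ▸ z3) ?_, y2⟩
      · have a1 := log_lower nx x.isIntegral_coe (hF.hs x hx) φ
        have a2 := log_lower n0 x0.isIntegral_coe (hF.hs x0 h0) φ
        have p1 : 0 < ‖φ (x : E)‖ := by simpa using hF.ne x hx
        have p2 : 0 < ‖φ (x0 : E)‖ := by simpa using hF.ne x0 h0
        have p3 : ‖φ (vl y)‖ ≠ 0 := by simpa using vl_ne_zero y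
        have a3 := log_le_log p1 (hF.hs x hx φ)
        have a4 := log_le_log p2 (hF.hs x0 h0 φ)
        have a5 : log ‖φ (x : E)‖ = log ‖φ (x0 : E)‖ + log ‖φ (vl y)‖ := by
          rw [y2, map_mul, norm_mul, log_mul p2.ne' p3]
        rw [abs_le]
        constructor <;> linarith
      · rw [exp_log (one_pos.trans_le hF.one_le)]; exact hF.dM
    choose! g1 hg1 using ex
    refine ⟨g1, fun x hx => ⟨(hg1 x hx).1, (hg1 x hx).2.1, fun x' hx' => ?_⟩⟩
    conv_lhs => rw [(hg1 x hx).2.2]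
    conv_rhs => rw [(hg1 x' hx').2.2]
    ring
  let g2 : κ → G := fun i => ⟨Q • η i, le_sat _ _ (nsmul_mem (hD.mem i) Q), by
    rw [vl_nsmul, map_pow]; exact hD.res _ (hD.mem i)⟩
  have hg2 : ∀ i, ‖ℓ0 (g2 i)‖ ≤ Q * (2 * finrank ℚ E * A) := fun i => by
    have hA : (0 : ℝ) ≤ A := Nat.cast_nonneg _
    have h2 := l3 (η i) 1 A hA (((hD.den i).sz hD.d1).mono
      ((log_le_self hA).trans (le_mul_of_one_le_left hA hD1)))
      (by rw [pow_one]; exact (hD.den i).1) (by rw [pow_one]; exact (hD.den i).2.1) (by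
        have h3 : (d : ℝ) ≤ A := by exact_mod_cast hD.dA
        have h4 := add_one_le_exp (A : ℝ)
        rw [pow_one]; linarith)
    show ‖ℓ0 (Q • η i)‖ ≤ _
    rw [map_nsmul, ← Nat.cast_smul_eq_nsmul ℝ, norm_smul, Real.norm_natCast]
    exact mul_le_mul_of_nonneg_left h2 (Nat.cast_nonneg _)
  have hQA : (0 : ℝ) ≤ Q * A := by positivity
  obtain ⟨s, γ, z, Φ, V, Δ, b1, b2, b3, b4, b5, b6⟩ := lat G (finrank ℤ Γ) κ' θ
    (ℓ0.comp G.subtype) (𝓞 E ⊕ κ) (S.disjSum Finset.univ) (Sum.elim g1 g2)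
    ((7 : ℝ) ^ finrank ℚ E)⁻¹ (2 * finrank ℚ E * (log X + Q * A)) (by positivity) (by positivity)
    (fun y hy => l1 _ ((hθ y).1 hy))
    (fun y hy => not_lt.1 fun h => hy ((hθ y).2 (l2 _ y.2.1 h))) (by
      rintro (x | i) hl
      · refine (hg1 x (Finset.inl_mem_disjSum.1 hl)).2.1.trans ?_
        exact mul_le_mul_of_nonneg_left (by linarith) (by positivity)
      · refine (hg2 i).trans ?_
        nlinarith)
  have rep : ∀ (y : G) (w : Fin s → ℤ), θ y = ∑ j, w j • θ (γ j) → y = ∑ j, w j • γ j :=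
    fun y w h => sub_eq_zero.1 (inj _ (by simp only [map_sub, map_sum, map_zsmul, h, sub_self]))
  have repl : ∀ (y : G) (w : Fin s → ℤ), θ y = ∑ j, w j • θ (γ j) →
      lg y = ∑ j, (w j : L) * lg (γ j) := fun y w h => by
    rw [rep y w h]
    simp only [map_sum, map_zsmul, zsmul_eq_mul]
  have bd : ∀ l ∈ S.disjSum (Finset.univ : Finset κ), ∀ j, |(Φ *ᵥ z l) j| ≤ J := fun l hl j => by
    have h2 := b4 l hl j
    rw [hD.rk, div_inv_eq_mul] at h2
    push_cast at h2 hJ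
    have h3 : (0 : ℝ) ≤ 2 * (r + 1) * (2 * finrank ℚ E * (log X + Q * A)) * 7 ^ finrank ℚ E := by
      positivity
    have h4 := (h2.trans (pow_le_pow_right₀ (by linarith)
      (hc.trans (Nat.mul_le_mul_left _ (Nat.add_le_add_left hD.dA 1))))).trans hJ
    exact_mod_cast h4
  have mr : ∀ i : κ, Sum.inr i ∈ S.disjSum (Finset.univ : Finset κ) := fun i =>
    Finset.inr_mem_disjSum.2 (Finset.mem_univ i)
  refine ⟨s, fun j => lg (γ j), fun x => z (.inl x), fun i => z (.inr i), Φ, V, Δ, hD.rk ▸ b1, b2,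
    b3, fun j => (hlg _).2.trans_le (hlg _).1, fun x hx => bd _ (Finset.inl_mem_disjSum.2 hx),
    fun i => bd _ (mr i), fun i => ?_, fun a ha => ?_, fun i hi x hx x' hx' y hy => ?_⟩
  · rw [← repl _ _ (b5 _ (mr i)), ← map_pow, ← vl_nsmul]; rfl
  · have h2 : ∑ i, a i • g2 i = 0 := by
      have h3 : ∀ i, g2 i = ∑ j, z (.inr i) j • γ j := fun i => rep _ _ (b5 _ (mr i))
      simp only [h3]
      exact comb a (fun i => z (.inr i)) γ ha
    refine isOfFinAddOrder_iff_nsmul_eq_zero.2 ⟨Q, Nat.pos_of_ne_zero hD.Q0, ?_⟩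
    have h5 := congrArg G.subtype h2
    rw [map_sum, map_zero] at h5
    exact (comb' a Q η).trans h5
  · have nx : (x : E) ≠ 0 := by simpa using hF.ne x hx
    have nx' : (x' : E) ≠ 0 := by simpa using hF.ne x' hx'
    have y0 : y ≠ 0 := by
      rintro rfl
      exact nx (by rw [← hy.1, zero_pow (by positivity), zero_mul])
    have h2 : 2 ^ i • mkG y y0 = (g1 x : GE E) - g1 x' := by
      refine vl_injective ?_
      rw [vl_nsmul, vl_mkG, vl_sub, eq_div_iff (vl_ne_zero _)]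
      refine mul_left_cancel₀ nx' ?_
      rw [← (hg1 x hx).2.2 x' hx', ← hy.1]
      ring
    have h3 : mkG y y0 ∈ sat Γ (2 ^ lev) := by
      obtain ⟨k, rfl⟩ := Nat.exists_eq_add_of_le hi
      rw [mem_sat, pow_add, mul_nsmul, h2]
      exact nsmul_mem (sub_mem (hg1 x hx).1 (hg1 x' hx').1) _
    obtain ⟨w, w1, w2⟩ := b6 (2 ^ i) ⟨mkG y y0, h3, hy.2⟩ (by positivity) _
      (Finset.inl_mem_disjSum.2 hx) _ (Finset.inl_mem_disjSum.2 hx')
      (congrArg θ (Subtype.ext h2))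
    refine ⟨w, w1, repl _ _ w2, fun h0 => ?_⟩
    have h4 := rep _ _ w2
    simp only [h0, Pi.zero_apply, zero_smul, Finset.sum_const_zero] at h4
    exact vl_eq_one.2 (congrArg Subtype.val h4)

end Pool.Agent.P.MP_657a03_nt.AB
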