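import Pool.Agent.P.MP_657a03_nt.AB.If

/-! Proof of CYC. -/

set_option autoImplicit false

open NumberField NumberField.Units Module Real Matrix Polynomial

namespace Pool.Agent.P.MP_657a03_nt.AB

namespace CYC

/-- the complementary factor -/
noncomputable def psi (F f : ℕ) : ℤ[X] := (X ^ F - 1) /ₘ cyclotomic f ℤ

theorem mul_psi {F f : ℕ} (h : f ∣ F) : cyclotomic f ℤ * psi F f = X ^ F - 1 := by
  have hd : cyclotomic f ℤ ∣ X ^ F - 1 := by
    obtain ⟨n, rfl⟩ := h
    refine (cyclotomic.dvd_X_pow_sub_one f ℤ).trans ?_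
    rw [pow_mul]
    exact sub_one_dvd_pow_sub_one _ _
  have h0 := (modByMonic_eq_zero_iff_dvd (cyclotomic.monic f ℤ)).2 hd
  have h1 := modByMonic_add_div (X ^ F - 1 : ℤ[X]) (cyclotomic f ℤ)
  rw [h0, zero_add] at h1
  exact h1

theorem value (d1 f p : ℕ) (hf : 0 < f) (hfd : f ≤ d1) (hp : 2 ≤ p) :
    ∃ Q : ℕ, (cyclotomic f ℤ).eval (p : ℤ) = Q ∧ p ≤ 2 * Q ∧
      Q ≤ 2 ^ d1 * p ^ f.totient ∧ Q ≤ p ^ (2 * d1) := by
  have h0 : 0 ≤ (cyclotomic f ℤ).eval (p : ℤ) := cyclotomic_nonneg f (by exact_mod_cast (by omega))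
  refine ⟨((cyclotomic f ℤ).eval (p : ℤ)).natAbs, (Int.natAbs_of_nonneg h0).symm, ?_, ?_⟩
  · rcases Nat.lt_or_ge 1 f with h | h
    · have := sub_one_lt_natAbs_cyclotomic_eval (q := p) h (by omega)
      omega
    · have hf1 : f = 1 := by omega
      subst hf1
      simp only [cyclotomic_one, eval_sub, eval_X, eval_one]
      omega
  · have hp1 : (1 : ℝ) < p := by exact_mod_cast (by omega : 1 < p)
    have h1 := cyclotomic_eval_le_add_one_pow_totient hp1 f
    have h2 : (cyclotomic f ℝ).eval (p : ℝ) = (((cyclotomic f ℤ).eval (p : ℤ) : ℤ) : ℝ) := by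
      have := cyclotomic.eval_apply (p : ℤ) f (Int.castRingHom ℝ)
      simpa using this
    have h3 : ((cyclotomic f ℤ).eval (p : ℤ)).natAbs ≤ (p + 1) ^ f.totient := by
      have h4 : (((cyclotomic f ℤ).eval (p : ℤ) : ℤ) : ℝ) ≤ (((p + 1) ^ f.totient : ℕ) : ℤ) := by
        rw [← h2]
        push_cast
        exact h1
      have h5 : (cyclotomic f ℤ).eval (p : ℤ) ≤ (((p + 1) ^ f.totient : ℕ) : ℤ) := by
        exact_mod_cast h4
      omega
    have ht : f.totient ≤ d1 := (Nat.totient_le f).trans hfd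
    refine ⟨h3.trans ?_, h3.trans ?_⟩
    · calc (p + 1) ^ f.totient ≤ (2 * p) ^ f.totient := Nat.pow_le_pow_left (by omega) _
        _ = 2 ^ f.totient * p ^ f.totient := mul_pow _ _ _
        _ ≤ 2 ^ d1 * p ^ f.totient :=
          Nat.mul_le_mul_right _ (Nat.pow_le_pow_right (by omega) ht)
    · calc (p + 1) ^ f.totient ≤ (p ^ 2) ^ f.totient := Nat.pow_le_pow_left (by nlinarith) _
        _ ≤ (p ^ 2) ^ d1 := Nat.pow_le_pow_right (by positivity) ht
        _ = p ^ (2 * d1) := by rw [← pow_mul]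

end CYC

theorem t_CYC : S_CYC := by
  intro d1
  refine ⟨((Finset.range (d1 + 1)) ×ˢ (Finset.range (d1 + 1))).sup
    fun x => ∑ a ∈ (CYC.psi x.1 x.2).support, ((CYC.psi x.1 x.2).coeff a).natAbs, ?_⟩
  intro F f hF hFd hfF
  have hm := CYC.mul_psi hfF
  have hf0 : 0 < f := Nat.pos_of_dvd_of_pos hfF hF
  have hfle : f ≤ F := Nat.le_of_dvd hF hfF
  have hX : (X ^ F - 1 : ℤ[X]) ≠ 0 := by
    simpa using X_pow_sub_C_ne_zero hF (1 : ℤ)
  have hψ : CYC.psi F f ≠ 0 := by
    intro h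
    rw [h, mul_zero] at hm
    exact hX hm.symm
  refine ⟨CYC.psi F f, hm, hψ, ?_, ?_, ?_, fun p hp => CYC.value d1 f p hf0 (by omega) hp⟩
  · have h1 := natDegree_mul (cyclotomic_ne_zero f ℤ) hψ
    rw [hm, natDegree_cyclotomic] at h1
    have h2 : (X ^ F - 1 : ℤ[X]).natDegree = F := by
      simpa using natDegree_X_pow_sub_C (n := F) (r := (1 : ℤ))
    have h3 := Nat.totient_pos.2 hf0
    omega
  · exact Finset.le_sup (f := fun x : ℕ × ℕ =>
      ∑ a ∈ (CYC.psi x.1 x.2).support, ((CYC.psi x.1 x.2).coeff a).natAbs) (b := (F, f))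
      (by simp only [Finset.mem_product, Finset.mem_range]; omega)
  · intro E _ _ ζ hζ h0
    have hsep : (X ^ F - 1 : E[X]).Separable :=
      X_pow_sub_one_separable_iff.2 (by exact_mod_cast hF.ne')
    have hm2 : cyclotomic f E * (CYC.psi F f).map (algebraMap ℤ E) = X ^ F - 1 := by
      have := congrArg (Polynomial.map (algebraMap ℤ E)) hm
      simpa using this
    rw [← hm2] at hsep
    obtain ⟨a, b, hab⟩ := hsep.isCoprime
    have hr : (cyclotomic f E).eval ζ = 0 := hζ.isRoot_cyclotomic hf0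
    have h2 : ((CYC.psi F f).map (algebraMap ℤ E)).eval ζ = 0 := by
      rw [eval_map_algebraMap]
      exact h0
    have h3 := congrArg (eval ζ) hab
    rw [eval_add, eval_mul, eval_mul, hr, h2, eval_one, mul_zero, mul_zero, add_zero] at h3
    exact zero_ne_one h3

end Pool.Agent.P.MP_657a03_nt.AB
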