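import Pool.Agent.P.MP_657a03_nt.AB.If

/-! Proof of DET. -/

set_option autoImplicit false

open NumberField NumberField.Units Module Real Matrix Polynomial

namespace Pool.Agent.P.MP_657a03_nt.AB

namespace DET

theorem aux (L E : Type) [NormedField L] [Field E] (ι : E →+* L) (G : Type) [Group G]
    [Fintype G] [DecidableEq G] (a : G → L) (e : G → (G →* Eˣ)) (he : Function.Injective e) :
    ‖Matrix.det (Matrix.of fun σ τ : G => a (σ * τ))‖ = ∏ x, ‖∑ σ, ι (e x σ) * a σ‖ := by
  let C : Matrix G G L := Matrix.of fun x s => ι (e x s)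
  let F : G → (G →* L) := fun x => (ι : E →* L).comp ((Units.coeHom E).comp (e x))
  have hF : Function.Injective F := fun x y h => he (MonoidHom.ext fun s =>
    Units.ext (ι.injective (DFunLike.congr_fun h s)))
  have hC : C.det ≠ 0 := by
    have h1 : LinearIndependent L C.row := (linearIndependent_monoidHom G L).comp F hF
    exact ((Matrix.isUnit_iff_isUnit_det C).1
      (Matrix.linearIndependent_rows_iff_isUnit.1 h1)).ne_zero
  have hM : C * (Matrix.of fun σ τ : G => a (σ * τ)) =
      Matrix.diagonal (fun x => ∑ σ, ι (e x σ) * a σ) * C.submatrix id (Equiv.inv G) := by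
    ext x t
    rw [Matrix.diagonal_mul, Matrix.mul_apply, Finset.sum_mul,
      ← Equiv.sum_comp (Equiv.mulRight t⁻¹)]
    refine Finset.sum_congr rfl fun s _ => ?_
    simp only [C, Matrix.of_apply, Matrix.submatrix_apply, id, Equiv.coe_mulRight,
      Equiv.inv_apply, inv_mul_cancel_right, map_mul, Units.val_mul]
    ring
  have h2 := congrArg (fun M : Matrix G G L => ‖M.det‖) hM
  simp only [Matrix.det_mul, Matrix.det_diagonal, Matrix.det_permute', norm_mul, norm_prod] at h2
  have h3 : ‖(((Equiv.Perm.sign (Equiv.inv G) : ℤˣ) : ℤ) : L)‖ = 1 := by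
    rcases Int.units_eq_one_or (Equiv.Perm.sign (Equiv.inv G)) with h | h <;> simp [h]
  rw [h3, one_mul, mul_comm] at h2
  exact mul_right_cancel₀ (norm_ne_zero_iff.2 hC) h2

theorem crd (E : Type) [Field E] (G : Type) [CommGroup G] [Fintype G] (ζ : E)
    (h : IsPrimitiveRoot ζ (Fintype.card G)) : Nat.card (G →* Eˣ) = Nat.card G := by
  have : NeZero (Fintype.card G) := ⟨Fintype.card_ne_zero⟩
  have : HasEnoughRootsOfUnity E (Fintype.card G) := ⟨⟨ζ, h⟩, inferInstance⟩
  have : HasEnoughRootsOfUnity E (Monoid.exponent G) :=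
    HasEnoughRootsOfUnity.of_dvd E (Group.exponent_dvd_card (G := G))
  exact CommGroup.card_monoidHom_of_hasEnoughRootsOfUnity G E

end DET

open Classical in
theorem t_DET : S_DET := by
  intro L E _ _ _ ι G hG _ ζ a hc hζ
  have h1 : Nat.card (G →* Eˣ) = Nat.card G :=
    @DET.crd E _ G { hG with mul_comm := hc } _ ζ hζ
  have : Finite (G →* Eˣ) := Nat.finite_of_card_ne_zero (by rw [h1]; exact Nat.card_pos.ne')
  obtain ⟨e⟩ : Nonempty (G ≃ (G →* Eˣ)) := Finite.card_eq.1 h1.symm
  refine ⟨Finset.univ.map e.toEmbedding, by simp, ?_⟩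
  rw [Finset.prod_map]
  exact DET.aux L E ι G a e e.injective

end Pool.Agent.P.MP_657a03_nt.AB
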