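import Pool.Agent.P.MP_657a03_nt.AB.Api

/-! Proof of DIR. -/

set_option autoImplicit false

open NumberField NumberField.Units Module Real NumberField.InfinitePlace
open NumberField.Units.dirichletUnitTheorem

namespace Pool.Agent.P.MP_657a03_nt.AB

theorem t_DIR : S_DIR := by
  intro E _ _ x h1 h2
  classical
  let R : ((E →+* ℂ) → ℝ) →ₗ[ℝ] logSpace E :=
    LinearMap.pi fun w => (mult w.1 : ℝ) • LinearMap.proj w.1.embedding
  let H : Submodule ℝ ((E →+* ℂ) → ℝ) :=
    { carrier := {y | (∀ φ, y (ComplexEmbedding.conjugate φ) = y φ) ∧ ∑ φ, y φ = 0}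
      zero_mem' := by simp
      add_mem' := fun {a b} ha hb => ⟨fun φ => by rw [Pi.add_apply, Pi.add_apply, ha.1, hb.1], by
        simp only [Pi.add_apply, Finset.sum_add_distrib, ha.2, hb.2, add_zero]⟩
      smul_mem' := fun c a ha => ⟨fun φ => by rw [Pi.smul_apply, Pi.smul_apply, ha.1], by
        simp only [Pi.smul_apply, smul_eq_mul, ← Finset.mul_sum, ha.2, mul_zero]⟩ }
  have inj : ∀ y ∈ H, R y = 0 → y = 0 := fun y hy h0 => by
    have a : ∀ φ, y φ = y (mk φ).embedding := fun φ => by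
      rcases embedding_mk_eq φ with h | h
      · rw [h]
      · rw [h, hy.1]
    have b : ∀ w : InfinitePlace E, w ≠ w₀ → (mult w : ℝ) * y w.embedding = 0 := fun w hw =>
      congrFun h0 ⟨w, hw⟩
    have c : ∑ w : InfinitePlace E, (mult w : ℝ) * y w.embedding = 0 := by
      rw [← hy.2, ← Finset.sum_fiberwise Finset.univ (mk (K := E))]
      refine Finset.sum_congr rfl fun w _ => ?_
      rw [Finset.sum_congr rfl (g := fun _ => y w.embedding) fun φ hφ => by
        rw [a, (Finset.mem_filter.1 hφ).2], Finset.sum_const, card_filter_mk_eq, nsmul_eq_mul]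
    rw [Finset.sum_eq_single w₀ (fun w _ hw => b w hw) (by simp)] at c
    funext φ
    have d : (mult (mk φ) : ℝ) * y (mk φ).embedding = 0 := by
      by_cases h : mk φ = w₀
      · rw [h, c]
      · exact b _ h
    rw [a]
    exact (mul_eq_zero.1 d).resolve_left (Nat.cast_ne_zero.2 mult_pos.ne')
  set S := Submodule.span ℝ (lam E '' UU E) with hS
  have hH : S ≤ H := Submodule.span_le.2 (by
    rintro _ ⟨u, hu, rfl⟩
    exact ⟨fun φ => by simp [lam_apply], sum_lam hu⟩)
  have ht : R x ∈ S.map R := by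
    have : ⊤ ≤ S.map R := by
      rw [← unitLattice_span_eq_top, Submodule.span_le]
      rintro _ ⟨u, -, rfl⟩
      refine ⟨lam E (uG E u), Submodule.subset_span ⟨_, range_uG (E := E) ▸ ⟨u, rfl⟩, rfl⟩, ?_⟩
      funext w
      show (mult w.1 : ℝ) * log ‖w.1.embedding (vl (uG E u))‖ = _
      rw [norm_embedding_eq]
      rfl
    exact this trivial
  obtain ⟨y, hy, he⟩ := ht
  have := inj (y - x) (sub_mem (hH hy) ⟨h1, h2⟩) (by rw [map_sub, he, sub_self])
  rw [← sub_eq_zero.1 this]
  exact hy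

end Pool.Agent.P.MP_657a03_nt.AB
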