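import Pool.Agent.P.MP_657a03_nt.AB.If

/-! Proof of DISC2. -/

set_option autoImplicit false

open NumberField NumberField.Units Module Real Matrix Polynomial

namespace Pool.Agent.P.MP_657a03_nt.AB

namespace DISC2

lemma prim (E1 : Type) [Field E1] [NumberField E1] :
    ∃ θ : 𝓞 E1, Algebra.adjoin ℚ {(θ : E1)} = ⊤ := by
  obtain ⟨α, hα⟩ := Field.exists_primitive_element ℚ E1
  have halg : IsAlgebraic ℤ α :=
    (IsFractionRing.isAlgebraic_iff ℤ ℚ E1).2 (Algebra.IsAlgebraic.isAlgebraic α)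
  obtain ⟨y, hy, hint⟩ := halg.exists_integral_multiple
  refine ⟨⟨y • α, hint⟩, ?_⟩
  have h1 : Algebra.adjoin ℚ {α} = ⊤ := by
    have := IntermediateField.adjoin_simple_toSubalgebra_of_isAlgebraic
      (Algebra.IsAlgebraic.isAlgebraic (R := ℚ) α)
    rw [← this, hα]
    rfl
  rw [eq_top_iff, ← h1, Algebra.adjoin_le_iff, Set.singleton_subset_iff]
  have h2 : α = ((y : ℚ)⁻¹) • (y • α) := by
    have hy' : (y : ℚ) ≠ 0 := by exact_mod_cast hy
    rw [← Int.cast_smul_eq_zsmul ℚ, smul_smul, inv_mul_cancel₀ hy', one_smul]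
  have h3 : ((y : ℚ)⁻¹) • (y • α) ∈ Algebra.adjoin ℚ {y • α} :=
    Subalgebra.smul_mem _ (Algebra.subset_adjoin (Set.mem_singleton _)) _
  rw [← h2] at h3
  exact h3

lemma der_ne (E1 : Type) [Field E1] [NumberField E1] (θ : 𝓞 E1) :
    aeval θ (derivative (minpoly ℤ θ)) ≠ 0 := by
  intro h
  have hθ : IsIntegral ℤ θ := Algebra.IsIntegral.isIntegral θ
  have hsep : (minpoly ℚ (algebraMap (𝓞 E1) E1 θ)).Separable :=
    Algebra.IsSeparable.isSeparable ℚ _
  have h2 := hsep.aeval_derivative_ne_zero (minpoly.aeval ℚ (algebraMap (𝓞 E1) E1 θ))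
  apply h2
  rw [minpoly.isIntegrallyClosed_eq_field_fractions ℚ E1 hθ, derivative_map, aeval_map_algebraMap,
    aeval_algebraMap_apply, h, map_zero]

lemma top (E1 K E : Type) [Field E1] [NumberField E1] [Field K] [NumberField K] [Field E]
    [NumberField E] [Algebra K E] (j : E1 →+* E) (θ : E1) (hθ : Algebra.adjoin ℚ {θ} = ⊤)
    (h : IntermediateField.adjoin K (Set.range j) = ⊤) : Algebra.adjoin K {j θ} = ⊤ := by
  have halg : IsAlgebraic K (j θ) := Algebra.IsAlgebraic.isAlgebraic _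
  rw [← IntermediateField.adjoin_simple_toSubalgebra_of_isAlgebraic halg]
  have h1 : IntermediateField.adjoin K {j θ} = ⊤ := by
    rw [eq_top_iff, ← h, IntermediateField.adjoin_le_iff]
    rintro _ ⟨x, rfl⟩
    have hx : x ∈ Algebra.adjoin ℚ {θ} := by rw [hθ]; trivial
    induction hx using Algebra.adjoin_induction with
    | mem x hx =>
      rw [Set.mem_singleton_iff.1 hx]
      exact IntermediateField.mem_adjoin_simple_self K (j θ)
    | algebraMap r =>
      have : j (algebraMap ℚ E1 r) = algebraMap K E (r : K) := by simp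
      rw [this]
      exact IntermediateField.algebraMap_mem _ _
    | add x y _ _ hx hy =>
      rw [map_add]
      exact add_mem hx hy
    | mul x y _ _ hx hy =>
      rw [map_mul]
      exact mul_mem hx hy
  rw [h1]
  rfl

end DISC2

theorem t_DISC2 : S_DISC2 := by
  intro E1 _ _
  obtain ⟨θ, hθ⟩ := DISC2.prim E1
  have ha := DISC2.der_ne E1 θ
  set a := aeval θ (derivative (minpoly ℤ θ)) with ha_def
  have hδ0 : Ideal.absNorm (Ideal.span {a}) ≠ 0 := by
    rw [Ne, Ideal.absNorm_eq_zero_iff, Ideal.span_singleton_eq_bot]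
    exact ha
  have hδm := Ideal.absNorm_mem (Ideal.span {a})
  refine ⟨Ideal.absNorm (Ideal.span {a}), Nat.one_le_iff_ne_zero.2 hδ0, ?_⟩
  set δ := Ideal.absNorm (Ideal.span {a}) with hδ_def
  intro K E _ _ _ _ _ j hj
  let φ : 𝓞 E1 →+* 𝓞 E := RingOfIntegers.mapRingHom j
  have htop : Algebra.adjoin K {algebraMap (𝓞 E) E (φ θ)} = ⊤ :=
    DISC2.top E1 K E j θ hθ hj
  have hmem := aeval_derivative_mem_differentIdeal (𝓞 K) K E (φ θ) htop
  have hint : IsIntegral (𝓞 K) (φ θ) := Algebra.IsIntegral.isIntegral _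
  have hφ : ∀ p : ℤ[X], aeval (φ θ) (p.map (algebraMap ℤ (𝓞 K))) = φ (aeval θ p) := by
    intro p
    rw [aeval_map_algebraMap]
    exact (aeval_algHom_apply φ.toIntAlgHom θ p)
  have hdvd : minpoly (𝓞 K) (φ θ) ∣ (minpoly ℤ θ).map (algebraMap ℤ (𝓞 K)) := by
    apply minpoly.isIntegrallyClosed_dvd hint
    rw [hφ, minpoly.aeval, map_zero]
  obtain ⟨g, hg⟩ := hdvd
  have ha2 : φ a ∈ differentIdeal (𝓞 K) (𝓞 E) := by
    rw [ha_def, ← hφ, ← derivative_map, hg, derivative_mul, map_add, map_mul, map_mul,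
      minpoly.aeval, zero_mul, add_zero]
    exact Ideal.mul_mem_right _ _ hmem
  have hδ2 : (δ : 𝓞 E) ∈ differentIdeal (𝓞 K) (𝓞 E) := by
    obtain ⟨c, hc⟩ := Ideal.mem_span_singleton'.1 hδm
    have : (δ : 𝓞 E) = φ c * φ a := by rw [← map_mul, hc, map_natCast]
    rw [this]
    exact Ideal.mul_mem_left _ _ ha2
  rw [natAbs_discr_eq_absNorm_differentIdeal_mul_natAbs_discr_pow K (𝓞 K) E (𝓞 E)]
  refine Nat.mul_le_mul_right _ ?_
  have h1 : Ideal.span {(δ : 𝓞 E)} ≤ differentIdeal (𝓞 K) (𝓞 E) := by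
    rw [Ideal.span_singleton_le_iff_mem]
    exact hδ2
  have h2 := Ideal.absNorm_dvd_absNorm_of_le h1
  rw [Ideal.absNorm_span_natCast, RingOfIntegers.rank] at h2
  exact Nat.le_of_dvd (pow_pos (Nat.pos_of_ne_zero hδ0) _) h2

end Pool.Agent.P.MP_657a03_nt.AB
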