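import Pool.Agent.P.MP_657a03_nt.AB.Api

/-! Proof of ELIM. -/

set_option autoImplicit false

open NumberField NumberField.Units Module Real Matrix Polynomial

namespace Pool.Agent.P.MP_657a03_nt.AB

namespace ELIM

theorem b_ne {E : Type} [Field E] [NumberField E] {κ : Type} [Fintype κ] {η : κ → GE E}
    {β : κ → 𝓞 E} (h : ND η β) {s : ℕ} {zη : κ → Fin s → ℤ}
    (hrel : ∀ a : κ → ℤ, ∑ i, a i • zη i = 0 → IsOfFinAddOrder (∑ i, a i • η i)) :
    ∃ j, ∑ i, β i * (zη i j : 𝓞 E) ≠ 0 := by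
  obtain ⟨v, hv, hv'⟩ := h
  by_contra hb
  push Not at hb
  have key : ∀ (φ : 𝓞 E →ₗ[ℤ] ℤ) (n : κ → ℤ), φ (∑ i, β i * (n i : 𝓞 E)) = ∑ i, φ (β i) * n i :=
    fun φ n => by
      rw [map_sum]
      refine Finset.sum_congr rfl fun i _ => ?_
      rw [mul_comm, ← zsmul_eq_mul, map_zsmul, smul_eq_mul, mul_comm]
  refine hv ((RingOfIntegers.basis E).forall_coord_eq_zero_iff.1 fun k => ?_)
  rw [key]
  refine hv' _ (hrel _ (funext fun j => ?_))
  have := key ((RingOfIntegers.basis E).coord k) fun i => zη i j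
  rw [hb j, map_zero] at this
  simpa [Finset.sum_apply] using this.symm

variable {K : Type} [Field K] {s : ℕ}

/-- the elimination map -/
def El (c : Fin (s + 1) → K) (j0 : Fin (s + 1)) (u : Fin (s + 1) → K) : Fin s → K :=
  fun j => c j0 * u (j0.succAbove j) - c (j0.succAbove j) * u j0

theorem El_ker {c : Fin (s + 1) → K} {j0 : Fin (s + 1)} {u : Fin (s + 1) → K}
    (h : El c j0 u = 0) : c j0 • u = u j0 • c := by
  funext l
  refine Fin.succAboveCases j0 ?_ (fun j => ?_) l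
  · exact mul_comm _ _
  · have := congrFun h j
    simp only [El, Pi.zero_apply] at this
    simp only [Pi.smul_apply, smul_eq_mul]
    linear_combination this

/-- the matrix of the elimination map on the coordinates other than `j1` -/
def Mx (Φ : Matrix (Fin (s + 1)) (Fin (s + 1)) K) (c : Fin (s + 1) → K) (j0 j1 : Fin (s + 1))
    (t : K) : Matrix (Fin s) (Fin s) K :=
  Matrix.of fun j k => t * (c j0 * Φ (j0.succAbove j) (j1.succAbove k) -
    c (j0.succAbove j) * Φ j0 (j1.succAbove k))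

theorem Mx_mulVec (Φ : Matrix (Fin (s + 1)) (Fin (s + 1)) K) (c : Fin (s + 1) → K)
    (j0 j1 : Fin (s + 1)) (t : K) (u : Fin (s + 1) → K) (hu : u j1 = 0) :
    Mx Φ c j0 j1 t *ᵥ (fun k => u (j1.succAbove k)) = t • El c j0 (Φ *ᵥ u) := by
  funext j
  simp only [Mx, El, mulVec, dotProduct, of_apply, Pi.smul_apply, smul_eq_mul,
    Fin.sum_univ_succAbove _ j1, hu, mul_zero, zero_add, Finset.mul_sum, ← Finset.sum_sub_distrib]
  exact Finset.sum_congr rfl fun k _ => by ring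

theorem Mx_unit {Φ : Matrix (Fin (s + 1)) (Fin (s + 1)) K} (hΦ : ∀ u, Φ *ᵥ u = 0 → u = 0)
    {b : Fin (s + 1) → K} {j0 j1 : Fin (s + 1)} (h0 : (Φ *ᵥ b) j0 ≠ 0) (h1 : b j1 ≠ 0) {t : K}
    (ht : t ≠ 0) : IsUnit (Mx Φ (Φ *ᵥ b) j0 j1 t).det := by
  rw [isUnit_iff_ne_zero, Ne, ← Matrix.exists_mulVec_eq_zero_iff]
  rintro ⟨Z, hZ, h⟩
  have e := Mx_mulVec Φ (Φ *ᵥ b) j0 j1 t (j1.insertNth 0 Z) (by simp)
  simp only [Fin.insertNth_apply_succAbove] at e
  have h2 := El_ker ((smul_eq_zero.1 (e.symm.trans h)).resolve_left ht)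
  have h3 := hΦ ((Φ *ᵥ b) j0 • (j1.insertNth 0 Z : Fin (s + 1) → K) -
    (Φ *ᵥ j1.insertNth 0 Z) j0 • b) (by rw [mulVec_sub, mulVec_smul, mulVec_smul, h2, sub_self])
  have h4 := congrFun h3 j1
  simp only [Pi.sub_apply, Pi.smul_apply, smul_eq_mul, Fin.insertNth_apply_same, mul_zero,
    zero_sub, Pi.zero_apply, neg_eq_zero, mul_eq_zero, h1, or_false] at h4
  refine hZ (funext fun k => ?_)
  have h5 := congrFun h3 (j1.succAbove k)
  simpa [h4, h0] using h5

theorem inj {R : Type} [CommRing R] [IsDomain R] [CharZero R] {n : ℕ}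
    {Φ V : Matrix (Fin n) (Fin n) ℤ} {Δ : ℤ} (hΔ : Δ ≠ 0)
    (hV : V * Φ = Δ • (1 : Matrix (Fin n) (Fin n) ℤ)) (u : Fin n → R)
    (h : Φ.map (Int.cast : ℤ → R) *ᵥ u = 0) : u = 0 := by
  have e : V.map (Int.cast : ℤ → R) * Φ.map (Int.cast : ℤ → R) = (Δ : R) • 1 := by
    have := congrArg (fun M : Matrix (Fin n) (Fin n) ℤ => M.map (Int.castRingHom R)) hV
    simp only [Matrix.map_mul] at this
    refine this.trans ?_
    ext i j
    rw [map_apply, Matrix.smul_apply, Matrix.smul_apply, Matrix.one_apply, Matrix.one_apply]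
    split_ifs <;> simp
  have h2 := congrArg (fun w => V.map (Int.cast : ℤ → R) *ᵥ w) h
  simp only [mulVec_mulVec, e, mulVec_zero, smul_mulVec, one_mulVec] at h2
  exact (smul_eq_zero.1 h2).resolve_left (Int.cast_ne_zero.2 hΔ)

theorem cast_mulVec {R : Type} [CommRing R] {n : ℕ} (Φ : Matrix (Fin n) (Fin n) ℤ) (z : Fin n → ℤ)
    (j : Fin n) : (((Φ *ᵥ z) j : ℤ) : R) = (Φ.map (Int.cast : ℤ → R) *ᵥ fun l => (z l : R)) j := by
  simp [mulVec, dotProduct]

end ELIM

open ELIM in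
theorem t_ELIM (hN : S_NRM) (hL : S_LIOU) : S_ELIM := by
  intro p L _ _ E _ _ ι Γ κ _ η β A d Q r lev J δ S hp hD hC hJ
  obtain ⟨s, lam, z, zη, Φ, V, Δ, hs, hΔ, hV, hlam, hz, hzη, hη, hrel, hw⟩ := hC
  obtain ⟨j', hj'⟩ := b_ne hD.nd hrel
  obtain ⟨s, rfl⟩ : ∃ s', s = s' + 1 := ⟨s - 1, by have := j'.pos; omega⟩
  have hint : ∀ x : 𝓞 E, ‖ι x‖ ≤ 1 := fun x =>
    (hN p L hp).2.2.2.2 _ (map_isIntegral_int ι (RingOfIntegers.isIntegral_coe x))
  have hintZ : ∀ n : ℤ, ‖(n : L)‖ ≤ 1 := fun n => by simpa using hint n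
  set b : Fin (s + 1) → 𝓞 E := fun j => ∑ i, β i * (zη i j : 𝓞 E) with hb
  set bt : Fin (s + 1) → 𝓞 E := fun j => ∑ i, β i * (((Φ *ᵥ zη i) j : ℤ) : 𝓞 E) with hbt
  set Ψ : Matrix (Fin (s + 1)) (Fin (s + 1)) E := Φ.map (Int.cast : ℤ → E) with hΨ
  have hΨi : ∀ u, Ψ *ᵥ u = 0 → u = 0 := inj hΔ hV
  have e1 : (Ψ *ᵥ fun l => (b l : E)) = fun j => (bt j : E) := by
    funext j
    simp only [hb, hbt, hΨ, mulVec, dotProduct, map_apply,
      map_sum, map_mul, map_intCast, Int.cast_sum, Int.cast_mul, Finset.mul_sum]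
    rw [Finset.sum_comm]
    exact Finset.sum_congr rfl fun i _ => Finset.sum_congr rfl fun l _ => by ring
  obtain ⟨j0, hj0⟩ : ∃ j0, (bt j0 : E) ≠ 0 := by
    by_contra h
    push Not at h
    have := congrFun (hΨi _ (e1.trans (funext h))) j'
    exact hj' (RingOfIntegers.coe_eq_zero_iff.1 this)
  have hA : (0 : ℝ) ≤ A := Nat.cast_nonneg A
  have hJ0 : (0 : ℝ) ≤ J := Nat.cast_nonneg J
  have hsJ : ∀ n : ℤ, |n| ≤ J → Hs J (n : E) := fun n hn => hs_int (by exact_mod_cast hn)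
  have hsb : ∀ j, Hs ((A : ℝ) ^ 2 * J) (bt j : E) := fun j => by
    have h1 := hs_sum (s := Finset.univ) fun i _ => hs_mul (hD.hb i) (hsJ _ (hzη i j))
    have h2 : (Fintype.card κ : ℝ) ≤ A := by exact_mod_cast hD.card
    refine hs_mono (by simpa [hbt] using h1) ?_
    calc (Fintype.card κ : ℝ) * (A * J) ≤ A * (A * J) := by gcongr
      _ = _ := by ring
  obtain ⟨j1, -, hj1⟩ := Finset.exists_max_image Finset.univ (fun j => ‖ι (b j)‖) ⟨j0, by simp⟩
  have h01 : ‖ι (bt j0)‖ ≤ ‖ι (b j1)‖ := by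
    rw [← congrFun e1 j0]
    simp only [mulVec, dotProduct, map_sum, map_mul, hΨ, map_apply, map_intCast]
    refine IsUltrametricDist.norm_sum_le_of_forall_le_of_nonneg (norm_nonneg _) fun l _ => ?_
    rw [norm_mul]
    exact (mul_le_of_le_one_left (norm_nonneg _) (hintZ _)).trans (hj1 l (by simp))
  have hlow : 1 ≤ ((A : ℝ) ^ 2 * J) ^ finrank ℚ E * ‖ι (b j1)‖ := by
    by_contra h
    refine hj0 (hL p L E E ι (bt j0) _ (fun _ => (A : ℝ) ^ 2 * J) hp
      (RingOfIntegers.isIntegral_coe _) h01 (fun φ => hsb j0 φ) ?_)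
    simpa [Embeddings.card] using h
  have hpos : 0 < ‖ι (b j1)‖ := by
    by_contra h
    have := le_antisymm (not_lt.1 h) (norm_nonneg _)
    rw [this, mul_zero] at hlow
    linarith
  have hb1' : ι (b j1) ≠ 0 := norm_pos_iff.1 hpos
  have hb1 : (b j1 : E) ≠ 0 := fun h => hb1' (by rw [h, map_zero])
  set F : 𝓞 E → Fin s → 𝓞 E := fun x j => bt j0 * (((Φ *ᵥ z x) (j0.succAbove j) : ℤ) : 𝓞 E) -
    bt (j0.succAbove j) * (((Φ *ᵥ z x) j0 : ℤ) : 𝓞 E) with hF
  have eF : ∀ x, (fun j => (F x j : E)) = El (fun j => (bt j : E)) j0 (Ψ *ᵥ fun l => (z x l : E)) :=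
    fun x => funext fun j => by
      simp only [hF, El, hΨ, ← cast_mulVec]
      push_cast
      rfl
  have hΛ : ‖∑ j, ι (b j) * lam j‖ ≤ δ := by
    refine le_trans (le_of_eq (congrArg _ ?_)) hD.small
    simp only [hη, hb, Finset.mul_sum]
    push_cast
    simp only [map_sum, map_mul, map_intCast, Finset.sum_mul]
    rw [Finset.sum_comm]
    exact Finset.sum_congr rfl fun i _ => Finset.sum_congr rfl fun l _ => by ring
  refine ⟨s, fun k => lam (j1.succAbove k), F, by omega, fun k => hlam _, fun x hx j => ?_,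
    fun i hi x' hx' => ?_, fun x hx x' hx' y hy => ?_⟩
  · have := hs_sub (hs_mul (hsb j0) (hsJ _ (hz x hx (j0.succAbove j))))
      (hs_mul (hsb (j0.succAbove j)) (hsJ _ (hz x hx j0)))
    refine hs_mono (by simpa [hF] using this) (le_of_eq (by ring))
  · have hU := Mx_unit hΨi (b := fun l => (b l : E)) (j0 := j0) (j1 := j1) (by rw [e1]; exact hj0)
      hb1 (t := 2 ^ i) (by simp)
    rw [e1] at hU
    set α := Mx Ψ (fun j => (bt j : E)) j0 j1 (2 ^ i) with hα
    refine ⟨α, α⁻¹, fun j => F x' j, -(α⁻¹ *ᵥ fun j => F x' j), fun j k => ?_, fun j => hint _,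
      fun x hx y hy => ?_⟩
    · have := hint (2 ^ i * (bt j0 * Φ (j0.succAbove j) (j1.succAbove k) -
        bt (j0.succAbove j) * Φ j0 (j1.succAbove k)))
      simpa [hα, Mx, hΨ, map_ofNat] using this
    obtain ⟨w, hw1, hw2, -⟩ := hw i hi x hx x' hx' y hy
    set u : Fin (s + 1) → E := (fun l => (w l : E)) - ((w j1 : E) / b j1) • fun l => (b l : E)
      with hu
    have hu1 : u j1 = 0 := by simp [hu, hb1]
    have hZ : (fun j => (F x j : E)) = (fun j => (F x' j : E)) + α *ᵥ fun k => u (j1.succAbove k) := by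
      have e2 : (fun l => (z x l : E)) = (fun l => (z x' l : E)) + (2 ^ i : E) • fun l => (w l : E) := by
        funext l
        have := congrArg (Int.cast : ℤ → E) (congrFun hw1 l)
        simp only [Pi.smul_apply, Pi.sub_apply, nsmul_eq_mul] at this
        push_cast at this
        simp only [Pi.add_apply, Pi.smul_apply, smul_eq_mul]
        linear_combination -this
      rw [hα, Mx_mulVec _ _ _ _ _ _ hu1, eF, eF, e2, hu, mulVec_add, mulVec_sub, mulVec_smul,
        mulVec_smul, e1]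
      funext j
      simp only [El, Pi.add_apply, Pi.sub_apply, Pi.smul_apply, smul_eq_mul]
      ring
    have hui : ∀ l, ι (u l) = w l - w j1 / ι (b j1) * ι (b l) := fun l => by simp [hu]
    refine ⟨fun k => u (j1.succAbove k), fun k => ?_, ?_, hZ, ?_⟩
    · rw [hui, sub_eq_add_neg]
      refine (IsUltrametricDist.norm_add_le_max _ _).trans (max_le (hintZ _) ?_)
      rw [norm_neg, norm_mul, norm_div, div_mul_eq_mul_div, div_le_one hpos]
      exact (mul_le_of_le_one_left (norm_nonneg _) (hintZ _)).trans (hj1 _ (by simp))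
    · have e3 : lgS (ι y) - ∑ k, ι (u (j1.succAbove k)) * lam (j1.succAbove k) =
          w j1 / ι (b j1) * ∑ j, ι (b j) * lam j := by
        have e4 : ∑ k, ι (u (j1.succAbove k)) * lam (j1.succAbove k) = ∑ l, ι (u l) * lam l := by
          rw [Fin.sum_univ_succAbove _ j1, hu1, map_zero, zero_mul, zero_add]
        rw [e4, hw2, ← Finset.sum_sub_distrib, Finset.mul_sum]
        exact Finset.sum_congr rfl fun l _ => by rw [hui]; ring
      have hδ : 0 ≤ δ := (norm_nonneg _).trans hΛ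
      rw [e3, norm_mul, norm_div, div_mul_eq_mul_div, div_le_iff₀ hpos, mul_assoc]
      calc _ ≤ 1 * δ := mul_le_mul (hintZ _) hΛ (norm_nonneg _) zero_le_one
        _ = δ * 1 := mul_comm _ _
        _ ≤ _ := mul_le_mul_of_nonneg_left hlow hδ
    · rw [hZ, mulVec_add, mulVec_mulVec, Matrix.nonsing_inv_mul _ hU, one_mulVec]
      abel
  · obtain ⟨w, hw1, -, hw3⟩ := hw lev le_rfl x hx x' hx' y hy
    have h0 : Φ *ᵥ w = 0 := funext fun j => by
      have e : ((2 ^ lev : ℕ) : ℤ) * (Φ *ᵥ w) j = (Φ *ᵥ z x) j - (Φ *ᵥ z x') j := by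
        rw [← Pi.sub_apply, ← mulVec_sub, ← hw1, mulVec_smul, Pi.smul_apply, nsmul_eq_mul]
      have h1 := abs_le.1 (hz x hx j)
      have h2 := abs_le.1 (hz x' hx' j)
      have h3 : (2 * J : ℤ) < ((2 ^ lev : ℕ) : ℤ) := by exact_mod_cast hJ
      by_contra h
      rcases lt_or_gt_of_ne h with h | h <;> simp only [Pi.zero_apply] at h <;> nlinarith
    have h1 := hw3 (inj (R := ℤ) hΔ hV w h0)
    have h2 := hy.1
    rw [h1, one_pow, one_mul] at h2
    exact_mod_cast h2.symm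

end Pool.Agent.P.MP_657a03_nt.AB
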