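import Pool.Agent.P.MP_657a03_nt.AB.Api

/-! Proof of FAM. -/

set_option autoImplicit false

open NumberField NumberField.Units Module Real Matrix Polynomial

namespace Pool.Agent.P.MP_657a03_nt.AB

namespace FAM

theorem rank_le {M : Type} [AddCommGroup M] (V U : Submodule ℤ M) [Module.Finite ℤ V]
    [Module.Finite ℤ U] (h : ∀ x ∈ V, ∃ a : ℤ, a ≠ 0 ∧ a • x ∈ U) : finrank ℤ V ≤ finrank ℤ U := by
  have h1 := Submodule.finrank_quotient_add_finrank (U.comap V.subtype)
  have h2 : finrank ℤ (V ⧸ U.comap V.subtype) = 0 := by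
    refine Module.finrank_eq_zero_iff.2 fun x => ?_
    obtain ⟨x, rfl⟩ := Submodule.Quotient.mk_surjective _ x
    obtain ⟨a, ha, h3⟩ := h x x.2
    exact ⟨a, ha, by
      rw [← Submodule.Quotient.mk_smul, Submodule.Quotient.mk_eq_zero]; exact h3⟩
  rw [← h1, h2, zero_add, ← Submodule.finrank_map_subtype_eq, Submodule.map_comap_subtype]
  have : Module.Finite ℤ (V ⊓ U : Submodule ℤ M) :=
    Module.Finite.of_injective (Submodule.inclusion inf_le_right) (Submodule.inclusion_injective _)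
  exact Submodule.finrank_mono inf_le_right

open Classical in
theorem exists_T {M κ : Type} [AddCommGroup M] [Fintype κ] (U : Submodule ℤ M)
    [Module.Finite ℤ U] (η : κ → M) : ∃ T : Set κ,
    LinearIndependent ℤ (fun i : T => U.mkQ (η i)) ∧
    finrank ℤ (U ⊔ Submodule.span ℤ (Set.range η) : Submodule ℤ M) ≤
      finrank ℤ U + Fintype.card T := by
  obtain ⟨T, h1, h2⟩ := exists_maximal_linearIndepOn ℤ fun i => U.mkQ (η i)
  refine ⟨T, h1, ?_⟩
  have f1 := Module.Finite.span_of_finite ℤ (Set.finite_range η)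
  have f2 := Module.Finite.span_of_finite ℤ (Set.finite_range fun i : T => η i)
  have h3 := Submodule.rank_add_le_rank_add_rank U (Submodule.span ℤ (Set.range fun i : T => η i))
  simp only [← finrank_eq_rank] at h3
  have h4 : finrank ℤ (Submodule.span ℤ (Set.range fun i : T => η i)) ≤ Fintype.card T :=
    finrank_range_le_card _
  refine (rank_le _ (U ⊔ Submodule.span ℤ (Set.range fun i : T => η i)) ?_).trans
    ((show _ ≤ _ by exact_mod_cast h3).trans (Nat.add_le_add_left h4 _))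
  let N : Submodule ℤ M :=
    { carrier := {x | ∃ a : ℤ, a ≠ 0 ∧ a • x ∈ U ⊔ Submodule.span ℤ (Set.range fun i : T => η i)}
      zero_mem' := ⟨1, one_ne_zero, by simp⟩
      add_mem' := by
        rintro x y ⟨a, ha, hx⟩ ⟨b, hb, hy⟩
        refine ⟨a * b, mul_ne_zero ha hb, ?_⟩
        rw [smul_add, mul_smul, mul_smul, smul_comm a b x]
        exact add_mem (Submodule.smul_mem _ _ hx) (Submodule.smul_mem _ _ hy)
      smul_mem' := by
        rintro c x ⟨a, ha, hx⟩
        exact ⟨a, ha, by rw [smul_comm]; exact Submodule.smul_mem _ _ hx⟩ }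
  refine (sup_le (fun x hx => ⟨1, one_ne_zero, ?_⟩) (Submodule.span_le.2 ?_) : _ ≤ N)
  · rw [one_smul]; exact Submodule.mem_sup_left hx
  · rintro _ ⟨i, rfl⟩
    by_cases hi : i ∈ T
    · exact ⟨1, one_ne_zero, by
        rw [one_smul]; exact Submodule.mem_sup_right (Submodule.subset_span ⟨⟨i, hi⟩, rfl⟩)⟩
    · obtain ⟨a, ha, h5⟩ := h2 i hi
      refine ⟨a, ha, ?_⟩
      rw [← Submodule.comap_map_mkQ, Submodule.mem_comap, map_smul, Submodule.map_span,
        ← Set.range_comp]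
      rwa [Set.image_eq_range] at h5

theorem pigeon {L X : Type} [NormedField L] [IsUltrametricDist L] (F : Finset X) (z : X → L)
    {Q : ℕ} (hQ : Q ≠ 0) (h : ∀ x ∈ F, ‖z x ^ Q - 1‖ < 1) : ∃ F' ⊆ F, F.card ≤ F'.card * Q ∧
    ∀ x ∈ F', ∀ x' ∈ F', ‖z x / z x' - 1‖ < 1 := by
  classical
  have h1 : ∀ x ∈ F, ‖z x‖ = 1 := fun x hx => by
    have := IsUltrametricDist.norm_add_eq_max_of_norm_ne_norm (x := z x ^ Q - 1) (y := 1)
      (by rw [norm_one]; exact (h x hx).ne)
    rw [sub_add_cancel, norm_one, max_eq_right (h x hx).le, norm_pow] at this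
    exact (pow_eq_one_iff_of_nonneg (norm_nonneg _) hQ).1 this
  let O := (NormedField.valuation (K := L)).valuationSubring
  have hO : ∀ x ∈ F, z x ∈ O := fun x hx => show ‖z x‖₊ ≤ 1 from (h1 x hx).le
  have hr : ∀ a b : O, IsLocalRing.residue O a = IsLocalRing.residue O b ↔ ‖(a : L) - b‖ < 1 :=
    fun a b => by
      rw [← sub_eq_zero, ← map_sub, IsLocalRing.residue_eq_zero_iff,
        Valuation.mem_maximalIdeal_iff]
      rfl
  let r : X → IsLocalRing.ResidueField O := fun x =>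
    if hx : x ∈ F then IsLocalRing.residue O ⟨z x, hO x hx⟩ else 1
  have hm : ∀ x ∈ F, r x ∈ nthRootsFinset Q (1 : IsLocalRing.ResidueField O) := fun x hx => by
    rw [mem_nthRootsFinset (Nat.pos_of_ne_zero hQ)]
    simp only [r, dif_pos hx]
    rw [← map_pow, ← map_one (IsLocalRing.residue O), hr]
    exact h x hx
  obtain ⟨t, -, ht⟩ := Finset.exists_max_image (nthRootsFinset Q (1 : IsLocalRing.ResidueField O))
    (fun t => (F.filter fun x => r x = t).card)
    ⟨1, (mem_nthRootsFinset (Nat.pos_of_ne_zero hQ) _).2 (one_pow _)⟩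
  refine ⟨_, Finset.filter_subset (fun x => r x = t) F,
    (Finset.card_le_mul_card_image_of_maps_to hm _ ht).trans (Nat.mul_le_mul_left _ ?_), ?_⟩
  · rw [nthRootsFinset_def]
    exact (Multiset.toFinset_card_le _).trans (card_nthRoots _ _)
  · intro x hx x' hx'
    obtain ⟨hx, e⟩ := Finset.mem_filter.1 hx
    obtain ⟨hx', e'⟩ := Finset.mem_filter.1 hx'
    have e2 := e.trans e'.symm
    simp only [r, dif_pos hx, dif_pos hx'] at e2
    have h0 : z x' ≠ 0 := norm_ne_zero_iff.1 (by rw [h1 x' hx']; exact one_ne_zero)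
    rw [div_sub_one h0, norm_div, h1 x' hx', div_one]
    exact (hr _ _).1 e2

theorem int_nat {E : Type} [Field E] (d : ℕ) : IsIntegral ℤ (d : E) := by
  simpa using isIntegral_algebraMap (R := ℤ) (A := E) (x := d)

theorem int_step {E : Type} [Field E] {d A I j j' : ℕ} {y : GE E} (h : Den d A y) (hj : j ≤ I)
    (hj' : j' ≤ I) : IsIntegral ℤ ((d : E) ^ I * vl (j • y - j' • y)) := by
  have key : ∀ z : GE E, Den d A z → ∀ n ≤ I, IsIntegral ℤ ((d : E) ^ I * vl (n • z)) := by
    intro z hz n hn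
    obtain ⟨m, rfl⟩ := Nat.exists_eq_add_of_le hn
    rw [vl_nsmul, pow_add, mul_right_comm, ← mul_pow]
    exact (hz.1.pow n).mul ((int_nat d).pow m)
  rcases le_total j' j with g | g
  · obtain ⟨n, rfl⟩ := Nat.exists_eq_add_of_le g
    rw [add_nsmul, add_sub_cancel_left]
    exact key y h n (by omega)
  · obtain ⟨n, rfl⟩ := Nat.exists_eq_add_of_le g
    rw [add_nsmul, sub_add_cancel_left, ← neg_nsmul]
    exact key _ h.neg n (by omega)

end FAM

open FAM in
theorem t_FAM (hU : S_UNITS) : S_FAM := by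
  classical
  intro L _ _ E _ _ ι P κ _ η A d Q W τ I ρ hP hκ d1 dA hD hQ hres hρ hdisc hτ eτ
  obtain ⟨B, hB, cB⟩ := hU E ρ τ P hρ hdisc hτ
  obtain ⟨T, hT, rT⟩ := exists_T ((UU E).map P) η
  have tA : Fintype.card T ≤ A := (Fintype.card_subtype_le _).trans hκ
  have τ1 : (1 : ℝ) ≤ τ := by linarith [log_nonneg hρ]
  have A1 : (1 : ℝ) ≤ A := by exact_mod_cast d1.trans dA
  have dA' : (d : ℝ) ≤ A := by exact_mod_cast dA
  have hA : (A : ℝ) ^ (A * I) ≤ exp τ := by
    calc (A : ℝ) ^ (A * I) ≤ exp A ^ (A * I) := by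
          gcongr; linarith [add_one_le_exp (A : ℝ)]
      _ = exp τ := by rw [← exp_nat_mul, eτ]; congr 1; push_cast; ring
  have eX : exp ((W + 1 : ℕ) * (τ : ℝ)) = exp (W * τ) * exp τ := by
    rw [← exp_add]; congr 1; push_cast; ring
  have X1 : 1 ≤ exp (W * (τ : ℝ)) := one_le_exp (by positivity)
  let y : GE E × (T → ℕ) → GE E := fun q => q.1 + ∑ i, q.2 i • η i
  let F : Finset (GE E × (T → ℕ)) := B ×ˢ Fintype.piFinset fun _ => Finset.range I
  have hF : ∀ q ∈ F, q.1 ∈ (UU E).map P ∧ q.1 ∈ UU E ∧ Sz (W * τ) q.1 ∧ ∀ i, q.2 i ≤ I := by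
    intro q hq
    obtain ⟨h1, h2⟩ := Finset.mem_product.1 hq
    obtain ⟨u, hu, h3, h4⟩ := hB _ h1
    exact ⟨⟨u, hu, h4⟩, h4 ▸ (hP u hu).1, h4 ▸ (hP u hu).2 τ (by positivity) h3,
      fun i => (Finset.mem_range.1 (Fintype.mem_piFinset.1 h2 i)).le⟩
  have yΓ : ∀ q ∈ F, y q ∈ (UU E).map P ⊔ Submodule.span ℤ (Set.range η) := fun q hq =>
    add_mem (Submodule.mem_sup_left (hF q hq).1) (Submodule.mem_sup_right
      (sum_mem fun i _ => nsmul_mem (Submodule.subset_span (Set.mem_range_self _)) _))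
  have ex : ∀ q ∈ F, (d : E) ^ (Fintype.card T * I) * vl (y q) =
      vl q.1 * ∏ i : T, ((d * vl (η i)) ^ q.2 i * d ^ (I - q.2 i)) := fun q hq => by
    have : ∀ i : T, (d * vl (η i)) ^ q.2 i * d ^ (I - q.2 i) = (d : E) ^ I * vl (q.2 i • η i) :=
      fun i => by
        rw [mul_pow, mul_right_comm, ← pow_add, Nat.add_sub_cancel' ((hF q hq).2.2.2 i), vl_nsmul]
    simp only [this, y, vl_add, vl_sum, Finset.prod_mul_distrib, Finset.prod_const,
      Finset.card_univ]
    ring
  have hI : ∀ q ∈ F, IsIntegral ℤ ((d : E) ^ (Fintype.card T * I) * vl (y q)) := fun q hq => by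
    rw [ex q hq]
    exact (mem_UU.1 (hF q hq).2.1).1.mul (IsIntegral.prod _ fun i _ =>
      ((hD i).1.pow _).mul ((int_nat d).pow _))
  let x : GE E × (T → ℕ) → 𝓞 E := fun q => if hq : q ∈ F then ⟨_, hI q hq⟩ else 0
  have hx : ∀ q ∈ F, (x q : E) = (d : E) ^ (Fintype.card T * I) * vl (y q) := fun q hq => by
    simp only [x, dif_pos hq]; rfl
  have d0 : (d : E) ^ (Fintype.card T * I) ≠ 0 := pow_ne_zero _ (Nat.cast_ne_zero.2 (by omega))
  obtain ⟨F', hF', cF, hrel⟩ := pigeon F (fun q => ι (vl (y q))) hQ fun q hq => hres _ (yΓ q hq)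
  have inj : Set.InjOn x F' := by
    intro q hq q' hq' e
    have e1 : y q = y q' := vl_injective (mul_left_cancel₀ d0 (by
      rw [← hx q (hF' hq), ← hx q' (hF' hq'), e]))
    have e2 := congrArg ((UU E).map P).mkQ e1
    simp only [y, map_add, map_sum, map_nsmul, Submodule.mkQ_apply,
      (Submodule.Quotient.mk_eq_zero _).2 (hF q (hF' hq)).1,
      (Submodule.Quotient.mk_eq_zero _).2 (hF q' (hF' hq')).1, zero_add] at e2
    have e3 : q.2 = q'.2 := funext fun i => by
      have := Fintype.linearIndependent_iffₛ.1 hT (fun i => q.2 i) (fun i => q'.2 i)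
        (by simpa only [natCast_zsmul, Submodule.mkQ_apply] using e2) i
      exact_mod_cast this
    refine Prod.ext ?_ e3
    simp only [y, e3] at e1
    exact add_right_cancel e1
  refine ⟨F'.image x, ⟨one_le_exp (by positivity), ?_, ?_, ?_, ?_⟩, ?_⟩
  · intro _ h
    obtain ⟨q, hq, rfl⟩ := Finset.mem_image.1 h
    intro e
    have := hx q (hF' hq)
    rw [e] at this
    exact mul_ne_zero d0 (vl_ne_zero _) this.symm
  · intro _ h
    obtain ⟨q, hq, rfl⟩ := Finset.mem_image.1 h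
    have hq' := hF q (hF' hq)
    rw [hx q (hF' hq), ex q (hF' hq), eX]
    refine hs_mul hq'.2.2.1.hs (hs_mono (hs_prod fun i _ =>
      hs_mul (hs_pow (hD i).2.2.1 _) (hs_pow (hs_nat dA') _)) (le_trans ?_ hA))
    simp only [← pow_add, Nat.add_sub_cancel' (hq'.2.2.2 _), Finset.prod_const, Finset.card_univ,
      ← pow_mul]
    exact pow_le_pow_right₀ A1 (by rw [mul_comm]; exact Nat.mul_le_mul_right _ tA)
  · intro _ h _ h'
    obtain ⟨q, hq, rfl⟩ := Finset.mem_image.1 h
    obtain ⟨q', hq', rfl⟩ := Finset.mem_image.1 h'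
    refine ⟨y q - y q', sub_mem (yΓ q (hF' hq)) (yΓ q' (hF' hq')), ?_, ?_, ?_⟩
    · rw [hx q (hF' hq), hx q' (hF' hq'), vl_sub, mul_assoc, mul_div_cancel₀ _ (vl_ne_zero _)]
    · obtain ⟨n, hn⟩ := Nat.exists_eq_add_of_le tA
      have e : (d : E) ^ (A * I) * vl (y q - y q') = d ^ (n * I) * vl (q.1 - q'.1) *
          ∏ i : T, ((d : E) ^ I * vl (q.2 i • η i - q'.2 i • η i)) := by
        have : y q - y q' = q.1 - q'.1 + ∑ i : T, (q.2 i • η i - q'.2 i • η i) := by
          simp only [y, Finset.sum_sub_distrib]; abel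
        rw [this, vl_add, vl_sum, Finset.prod_mul_distrib, Finset.prod_const, Finset.card_univ, hn]
        ring
      rw [e]
      exact (((int_nat d).pow _).mul
        (mem_UU.1 (sub_mem (hF q (hF' hq)).2.1 (hF q' (hF' hq')).2.1)).1).mul
        (IsIntegral.prod _ fun i _ =>
          int_step (hD i) ((hF q (hF' hq)).2.2.2 i) ((hF q' (hF' hq')).2.2.2 i))
    · rw [vl_sub, map_div₀]
      exact hrel q hq q' hq'
  · rw [eX]
    exact ((pow_le_pow_left₀ (by positivity) dA' _).trans hA).trans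
      (le_mul_of_one_le_left (exp_pos _).le X1)
  · rw [Finset.card_image_of_injOn inj]
    have c1 : (B.card : ℝ) * I ^ Fintype.card T ≤ F'.card * Q := by
      have : F.card = B.card * I ^ Fintype.card T := by simp [F]
      exact_mod_cast this ▸ cF
    have c2 : (τ : ℝ) ^ Fintype.card T ≤ I ^ Fintype.card T * A ^ (2 * A) := by
      rw [eτ]
      push_cast
      rw [mul_pow, ← pow_mul]
      gcongr
    calc _ ≤ (τ : ℝ) ^ (finrank ℤ ((UU E).map P) + Fintype.card T) := pow_le_pow_right₀ τ1 rT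
      _ ≤ (B.card * (50000 * ρ ^ 2) ^ finrank ℚ E) * (I ^ Fintype.card T * A ^ (2 * A)) := by
        rw [pow_add]; gcongr
      _ = (B.card * I ^ Fintype.card T) * (A ^ (2 * A) * (50000 * ρ ^ 2) ^ finrank ℚ E) := by ring
      _ ≤ (F'.card * Q) * (A ^ (2 * A) * (50000 * ρ ^ 2) ^ finrank ℚ E) := by gcongr
      _ = _ := by ring

end Pool.Agent.P.MP_657a03_nt.AB
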