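import Pool.Agent.P.MP_657a03_nt.AB.Api
import Pool.Agent.P.MP_657a03_nt.FieldK

/-! Proof of FIELD. -/

set_option autoImplicit false

open NumberField NumberField.Units Module Real Matrix Polynomial

namespace Pool.Agent.P.MP_657a03_nt.AB

namespace FIELD

theorem tors (E : Type) [Field E] [NumberField E] :
    ∃ ζ : GE E, ∀ y : GE E, IsOfFinAddOrder y → ∃ a : ℤ, y = a • ζ := by
  obtain ⟨ζ, hζ⟩ := IsCyclic.exists_generator (α := torsion E)
  refine ⟨uG E (Additive.ofMul (ζ : (𝓞 E)ˣ)), fun y hy => ?_⟩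
  have a : ∀ z : GE E, IsOfFinAddOrder z → IsIntegral ℤ (vl z) := fun z hz => by
    obtain ⟨n, hn, h⟩ := fin_iff.1 hz
    exact IsIntegral.of_pow hn (h ▸ isIntegral_one)
  have hU : y ∈ UU E := mem_UU.2 ⟨a y hy, vl_neg y ▸ a _ hy.neg⟩
  rw [← range_uG] at hU
  obtain ⟨u, rfl⟩ := hU
  have h1 : IsOfFinAddOrder u :=
    (Function.Injective.isOfFinAddOrder_iff (f := (uG E).toAddMonoidHom) uG_injective).1 hy
  have h2 : Additive.toMul u ∈ torsion E := h1
  obtain ⟨k, hk⟩ := hζ ⟨_, h2⟩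
  refine ⟨k, ?_⟩
  rw [← map_zsmul]
  congr 1
  exact Additive.toMul.injective (congrArg Subtype.val hk).symm

theorem gens (hT : S_THETA) (E : Type) [Field E] [NumberField E] (Γ : Submodule ℤ (GE E)) (e : ℕ)
    (hΓ : Module.Finite ℤ Γ) (he : e ≠ 0) :
    ∃ m ≤ finrank ℤ Γ, ∃ g : Option (Fin m) → GE E, ∀ y ∈ sat Γ e,
      ∃ n : Option (Fin m) → ℤ, y = ∑ i, n i • g i := by
  obtain ⟨θ, hθ⟩ := hT E Γ e hΓ he
  obtain ⟨ζ, hζ⟩ := tors E
  let R := LinearMap.range θ.toIntLinearMap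
  let b := Module.finBasis ℤ R
  have hm : finrank ℤ R ≤ finrank ℤ Γ := by
    simpa using Submodule.finrank_le R
  choose w hw using fun i => (b i).2
  refine ⟨finrank ℤ R, hm, fun i => i.elim ζ fun j => (w j : GE E), fun y hy => ?_⟩
  let t : R := ⟨θ ⟨y, hy⟩, ⟨y, hy⟩, rfl⟩
  have h1 : θ (⟨y, hy⟩ - ∑ j, b.repr t j • w j) = 0 := by
    have h2 := congrArg Subtype.val (b.sum_repr t)
    rw [map_sub, map_sum, sub_eq_zero]
    refine h2.symm.trans ?_
    rw [Submodule.coe_sum]
    refine Finset.sum_congr rfl fun j _ => ?_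
    rw [map_zsmul, Submodule.coe_smul, ← hw j]
    rfl
  obtain ⟨a, ha⟩ := hζ _ ((hθ _).1 h1)
  refine ⟨fun i => i.elim a (b.repr t), ?_⟩
  rw [Fintype.sum_option]
  simp only [Option.elim]
  rw [← ha]
  simp

theorem split_two {G : Type} [AddCommGroup G] {σ : Type} [Fintype σ] (g : σ → G) (n : σ → ℤ) :
    ∃ (s : σ → Fin 2) (v : G), ∑ i, n i • g i = (∑ i, (s i : ℕ) • g i) + 2 • v := by
  obtain ⟨s, v, h⟩ := FieldK.split_sq (G := Multiplicative G) (fun i => Multiplicative.ofAdd (g i)) n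
  refine ⟨s, Multiplicative.toAdd v, ?_⟩
  simpa [toAdd_prod] using congrArg Multiplicative.toAdd h

end FIELD

open FIELD in
theorem t_FIELD (hT : S_THETA) : S_FIELD := by
  intro L E _ _ _ ι Γ e r hΓ hr he
  let : Algebra E L := ι.toAlgebra
  have hι : ∀ y, algebraMap E L y = ι y := fun _ => rfl
  obtain ⟨m, hm, g, hg⟩ := gens hT E Γ e hΓ he
  let Q : Submonoid L :=
    { carrier := {q | ∃ y ∈ sat Γ e, q ^ 2 = ι (vl y)}
      one_mem' := ⟨0, zero_mem _, by simp⟩
      mul_mem' := by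
        rintro a b ⟨y, h, hq⟩ ⟨y', h', hq'⟩
        exact ⟨y + y', add_mem h h', by rw [mul_pow, hq, hq', vl_add, map_mul]⟩ }
  let ρ : (Option (Fin m) → Fin 2) → E := fun s => vl (∑ i, (s i : ℕ) • g i)
  have ht : ∀ s, ∃ t : L, (∃ q : L, q ^ 2 = ι (ρ s)) → t ^ 2 = ι (ρ s) := by
    intro s
    by_cases h : ∃ q : L, q ^ 2 = ι (ρ s)
    · obtain ⟨q, hq⟩ := h
      exact ⟨q, fun _ => hq⟩
    · exact ⟨0, fun h' => absurd h' h⟩
  choose t ht using ht
  have hQ : (Q : Set L) ⊆ Submodule.span E (Set.range t) := by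
    rintro q ⟨y, h, hq⟩
    obtain ⟨n, hn⟩ := hg y h
    obtain ⟨s, v, hs⟩ := split_two g n
    have h1 : vl y = ρ s * vl v ^ 2 := by rw [hn, hs, vl_add, vl_nsmul]
    have hv : ι (vl v) ≠ 0 := (map_ne_zero ι).2 (vl_ne_zero v)
    have h2 : (q / ι (vl v)) ^ 2 = ι (ρ s) := by
      rw [div_pow, hq, h1, map_mul, map_pow]
      field_simp
    have h3 := ht s ⟨_, h2⟩
    have h4 : t s ∈ Submodule.span E (Set.range t) := Submodule.subset_span ⟨s, rfl⟩
    rcases sq_eq_sq_iff_eq_or_eq_neg.1 (h2.trans h3.symm) with h5 | h5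
    · have : q = vl v • t s := by
        rw [Algebra.smul_def, hι, ← h5]
        field_simp
      rw [this]
      exact Submodule.smul_mem _ _ h4
    · have : q = (-vl v) • t s := by
        rw [Algebra.smul_def, hι, map_neg, neg_mul, ← mul_neg, ← h5]
        field_simp
      rw [this]
      exact Submodule.smul_mem _ _ h4
  have halg : ∀ q ∈ (Q : Set L), IsAlgebraic E q := by
    rintro q ⟨y, -, hq⟩
    refine IsAlgebraic.of_pow (n := 2) (by norm_num) ?_
    rw [hq, ← hι]
    exact isAlgebraic_algebraMap _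
  let K : IntermediateField E L := IntermediateField.adjoin E (Q : Set L)
  have hE : Subalgebra.toSubmodule K.toSubalgebra ≤ Submodule.span E (Set.range t) := by
    rw [IntermediateField.adjoin_toSubalgebra_of_isAlgebraic halg, Algebra.adjoin_eq_span,
      Submonoid.closure_eq]
    exact Submodule.span_le.2 hQ
  have hfin : Module.Finite E (Submodule.span E (Set.range t)) :=
    Module.Finite.span_of_finite E (Set.finite_range t)
  have hfinE : Module.Finite E K :=
    Submodule.finiteDimensional_of_le hE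
  have hrank : finrank E K ≤ 2 ^ (r + 2) := by
    have h1 : finrank E (Subalgebra.toSubmodule K.toSubalgebra) ≤
        finrank E (Submodule.span E (Set.range t)) := Submodule.finrank_mono hE
    have h2 := finrank_range_le_card (R := E) t
    rw [Set.finrank] at h2
    have h3 : Fintype.card (Option (Fin m) → Fin 2) = 2 ^ (m + 1) := by simp
    exact (h1.trans (h3 ▸ h2)).trans (Nat.pow_le_pow_right (by norm_num) (by omega))
  refine ⟨K, inferInstance, NumberField.of_module_finite E K, inferInstance,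
    (K.val : K →+* L), hrank, fun y => rfl, ?_⟩
  intro y h q hq
  exact ⟨⟨q, IntermediateField.subset_adjoin E _ ⟨y, h, hq⟩⟩, rfl⟩

end Pool.Agent.P.MP_657a03_nt.AB
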