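import Pool.Agent.P.MP_657a03_nt.AB.If
import Pool.Agent.P.MP_8b7eba_nt.R2.LC

/-! Proof of GLOB. -/

set_option autoImplicit false

open NumberField NumberField.Units Module Real Matrix Polynomial

namespace Pool.Agent.P.MP_657a03_nt.AB

open Pool.Agent.P.MP_8b7eba_nt.R2
open scoped NNReal

namespace GLOB

theorem res (K : Type) [Field K] [NumberField K] [IsGalois ℚ K] (j : K →+* Om) (F : GQ) :
    ∃ φ : K ≃ₐ[ℚ] K, ∀ (n : ℕ) (x : K), j ((φ ^ n) x) = (F ^ n) (j x) := by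
  let : Algebra K Om := j.toAlgebra
  have : IsScalarTower ℚ K Om := IsScalarTower.of_algebraMap_eq' (RingHom.ext_rat _ _)
  have h : ∀ x, j (F.restrictNormal K x) = F (j x) := fun x => F.restrictNormal_commutes K x
  refine ⟨F.restrictNormal K, fun n => ?_⟩
  induction n with
  | zero => intro x; rfl
  | succ n ih => intro x; rw [pow_succ', pow_succ', AlgEquiv.mul_apply, AlgEquiv.mul_apply, h, ih]

/-- the place given by an embedding -/
noncomputable def pl {p : ℕ} {L : Type} [NormedField L] [IsUltrametricDist L] (ι : Om →+* L)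
    (h : PF p L) : Pl :=
  ⟨p, h.prime, (NormedField.valuation (K := L)).comap ι, by
    rw [Valuation.comap_apply, map_natCast]
    refine NNReal.eq ?_
    rw [NNReal.coe_inv, NNReal.coe_natCast, ← h.norm_p]
    rfl⟩

theorem pl_v {p : ℕ} {L : Type} [NormedField L] [IsUltrametricDist L] (ι : Om →+* L)
    (h : PF p L) (x : Om) : ((pl ι h).v x : ℝ) = ‖ι x‖ := rfl

theorem sep (hA : CA) (K : Type) [Field K] [NumberField K] (j : K →+* Om) :
    ∃ B : ℕ, ∀ w : Pl, B < w.p → ∀ s : K ≃ₐ[ℚ] K,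
      (∀ x : 𝓞 K, w.v (j (s x) - j x) < 1) → s = 1 := by
  have h1 : ∀ s : K ≃ₐ[ℚ] K, ∃ B : ℕ, ∀ w : Pl, B < w.p →
      (∀ x : 𝓞 K, w.v (j (s x) - j x) < 1) → s = 1 := by
    intro s
    by_cases hs : ∀ x : 𝓞 K, s x = x
    · refine ⟨0, fun _ _ _ => AlgEquiv.ext fun y => ?_⟩
      obtain ⟨a, b, -, rfl⟩ := IsFractionRing.div_surjective (A := 𝓞 K) y
      rw [map_div₀]
      exact congrArg₂ (· / ·) (hs a) (hs b)
    · obtain ⟨x, hx⟩ := not_forall.1 hs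
      obtain ⟨B, hB⟩ := hA.pl.2.2.2.2.2.1 (j (s x) - j x) (sub_ne_zero.2 fun e => hx (j.injective e))
      exact ⟨B, fun w hw h => absurd (hB w hw) (h x).ne⟩
  choose B hB using h1
  obtain ⟨C, hC⟩ := (Set.finite_range B).bddAbove
  exact ⟨C, fun w hw s => hB s w ((hC ⟨s, rfl⟩).trans_lt hw)⟩

theorem base (K : Type) [Field K] [NumberField K] (j : K →+* Om) :
    ∃ (N : Subgroup GQ) (ζ α : Om), ON N ∧ (∀ x, Fix N (j x)) ∧ Fix N ζ ∧ Fix N α ∧
      IsPrimitiveRoot ζ (finrank ℚ K) ∧ α ^ 3 = 2 := by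
  classical
  have : NeZero (finrank ℚ K) := ⟨finrank_pos.ne'⟩
  obtain ⟨ζ, hζ⟩ := HasEnoughRootsOfUnity.exists_primitiveRoot Om (finrank ℚ K)
  obtain ⟨α, hα⟩ := exists_root (2 : Om) (n := 3) (by norm_num)
  let b := Module.finBasis ℚ K
  obtain ⟨N, hN, hf⟩ := exists_ON_fix (insert ζ (insert α (Finset.univ.image fun i => j (b i))))
  refine ⟨N, ζ, α, hN, fun x => ?_, hf _ (by simp), hf _ (by simp), hζ, hα⟩
  rw [← b.sum_repr x, map_sum]
  refine Fix.sum fun i _ => ?_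
  rw [Rat.smul_def, map_mul, map_ratCast]
  exact (fix_rat _).mul (hf _ (by simp))

end GLOB

theorem t_GLOB (hA : Pool.Agent.P.MP_8b7eba_nt.R2.CA) (hC : S_CMP) (hN : S_NCC) : S_GLOB := by
  intro K _ _ _ j
  obtain ⟨N1, ζ, α, hN1, hj, hζ1, hα1, hζ, hα⟩ := GLOB.base K j
  obtain ⟨ρ, hρ, hC⟩ := hC N1 hN1
  obtain ⟨B1, hB1⟩ := hA.genp.2.1 N1 hN1
  obtain ⟨B2, hB2⟩ := GLOB.sep hA K j
  have := Basic.fi hN1.2
  have := hN1.1
  have hd : 0 < N1.index := Nat.pos_of_ne_zero Subgroup.FiniteIndex.index_ne_zero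
  refine ⟨N1.index, max 23 (max B1 B2), ρ, hd, hρ, fun p hp L _ _ ι1 k hP hk => ?_⟩
  simp only [max_lt_iff] at hp
  obtain ⟨N, hNo, hle, hD, hk1, hk2, hdi⟩ := hC p hP.prime hp.1 k hk
  let w : Pl := GLOB.pl ι1 hP
  have hv : ∀ x, (w.v x : ℝ) = ‖ι1 x‖ := GLOB.pl_v ι1 hP
  have hl : ∀ x, w.v x < 1 ↔ ‖ι1 x‖ < 1 := fun x => by
    rw [← hv, ← NNReal.coe_lt_coe, NNReal.coe_one]
  have hle1 : ∀ x, w.v x ≤ 1 ↔ ‖ι1 x‖ ≤ 1 := fun x => by
    rw [← hv, ← NNReal.coe_le_coe, NNReal.coe_one]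
  have hDN : w.D ⊓ N1 ≤ N := hD w rfl
  obtain ⟨F, hF⟩ := w.exists_frob hA.frob
  have hnf := numberField hNo.2
  have hG : IsGalois ℚ (IntermediateField.fixedField N) :=
    (InfiniteGalois.normal_iff_isGalois _).1 (by rw [Basic.fs hNo.2]; exact hNo.1)
  have hr := finrank_fixedField hNo.2
  obtain ⟨h, hh⟩ := GLOB.res (IntermediateField.fixedField N)
    (IntermediateField.fixedField N).subtype F
  obtain ⟨φ, hφ⟩ := GLOB.res K j F
  have hh1 : ∀ x : IntermediateField.fixedField N, (h x : Om) = F x := fun x => by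
    have h1 := hh 1 x
    rwa [pow_one, pow_one] at h1
  refine ⟨IntermediateField.fixedField N, inferInstance, hnf,
    j.codRestrict (IntermediateField.fixedField N) fun x => fix_iff.1 ((hj x).mono hle),
    ι1.comp (IntermediateField.fixedField N).subtype, h, φ, ⟨ζ, fix_iff.1 (hζ1.mono hle)⟩,
    fun x => rfl, fun x => Subtype.ext ?_, ?_, ⟨fun y => ?_, fun y hy => ?_, fun y hy => ?_⟩,
    hN _ ⟨α, fix_iff.1 (hα1.mono hle)⟩ h (Subtype.ext hα), ?_, ?_, ?_, ?_, fun f hf => ?_⟩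
  · rw [hh1]
    simpa using (hφ 1 x).symm
  · refine orderOf_le_of_pow_eq_one hd (AlgEquiv.ext fun x => Subtype.ext ?_)
    exact (hh _ x).trans (fix_iff.2 x.2 _ (hDN ⟨w.D.pow_mem hF.1 _, N1.pow_index_mem F⟩))
  · change ‖ι1 (h y : Om)‖ = ‖ι1 (y : Om)‖
    rw [hh1, ← hv, ← hv, Pl.mem_D.1 hF.1]
  · change ‖ι1 (h y : Om) - ι1 (y : Om) ^ p‖ < 1
    rw [hh1, ← map_pow, ← map_sub, ← hl]
    have h1 := hF.2 y ((hle1 _).2 hy)
    rwa [pow_one] at h1
  · have hu : w.Unif w.I w.p := (hA.res w w.D w.loc_D).2.2.2.2.1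
    have h1 := hu.le ((fix_iff.2 y.2).mono fun g hg => hDN ⟨w.I_le_D hg, hB1 w hp.2.1 hg⟩)
      ((hl _).2 hy)
    rw [← NNReal.coe_le_coe, hv, hv, map_natCast] at h1
    exact h1.trans_eq hP.norm_p
  · exact hdi.trans_eq (congrArg (ρ ^ ·) hr.symm)
  · exact hk1.trans_eq hr.symm
  · exact hr.trans_le hk2
  · exact IsPrimitiveRoot.of_map_of_injective (f := (IntermediateField.fixedField N).subtype) hζ
      Subtype.val_injective
  · refine hB2 w hp.2.2 _ fun x => ?_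
    have hx : w.v (j x) ≤ 1 := hA.pl.2.2.2.1 w _ (map_isIntegral_int j x.2)
    have h1 := (hF.pow f).2 _ hx
    have h2 : w.v (j x ^ p ^ f - j x) < 1 := by
      rw [hl, map_sub, map_pow]
      exact hf x
    rw [one_mul] at h1
    rw [hφ, ← sub_add_sub_cancel _ (j x ^ p ^ f)]
    exact w.v.map_add_lt h1 h2

end Pool.Agent.P.MP_657a03_nt.AB
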