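import Pool.Agent.P.MP_657a03_nt.AB.If

/-! From the bound for every character to the regulator. -/

set_option autoImplicit false

open NumberField Module
open scoped Classical

namespace Pool.Agent.P.MP_657a03_nt.AB

open Pool.Agent.P.MP_8b7eba_nt.R2 (Om)

theorem glue (hT : S_TRANS) (hA : S_ALL) (hD : S_DET) :
    ∀ (K : Type) [Field K] [NumberField K] [IsGalois ℚ K],
    (∀ σ τ : K ≃ₐ[ℚ] K, σ * τ = τ * σ) → ∃ c : ℝ, 0 < c ∧ ∀ η : K, η ≠ 0 →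
    (∀ a : (K ≃ₐ[ℚ] K) → ℤ,
        IsOfFinOrder (∏ σ : K ≃ₐ[ℚ] K, (σ η) ^ (a σ)) → a = 0) →
    ∃ P₀ : ℕ, ∀ p : ℕ, P₀ < p → ∀ [Fact p.Prime],
      ∀ (L : Type) [NormedField L] [CompleteSpace L] [IsUltrametricDist L]
        [NormedAlgebra ℚ_[p] L] (ι : K →+* L) (f : ℕ), 0 < f →
        (∀ x : 𝓞 K, ‖ι x ^ p ^ f - ι x‖ < 1) →
        (p : ℝ) ^ ((Module.finrank ℚ K : ℝ) - (p : ℝ) ^ ((Nat.totient f : ℝ) - c)) ≤
          ‖((p : L)⁻¹) ^ (Module.finrank ℚ K) *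
            Matrix.det (Matrix.of (fun (σ τ : K ≃ₐ[ℚ] K) =>
              (((p ^ Module.finrank ℚ K - 1 : ℕ) : L))⁻¹ *
                ∑' k : ℕ, (-1 : L) ^ k *
                  (ι ((σ * τ) η) ^ (p ^ Module.finrank ℚ K - 1) - 1) ^ (k + 1) /
                    ((k : L) + 1)))‖ := by
  intro K _ _ _ hab
  obtain ⟨j⟩ : Nonempty (K →+* Om) := ⟨(IsAlgClosed.lift : K →ₐ[ℚ] Om)⟩
  obtain ⟨c, hc, h⟩ := hA K j hab
  refine ⟨c, hc, fun η h0 hi => ?_⟩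
  obtain ⟨P0, h⟩ := h η h0 hi
  refine ⟨max P0 2, fun p hp _ L _ _ _ _ ι f hf hx => ?_⟩
  obtain ⟨L', _, _, _, _, e, ι1, hpf, he, hj, hl⟩ := hT p L K ι j (by omega)
  obtain ⟨h1, E, _, _, ι', ζ, hζ, h2⟩ := h p (by omega) L' ι1 f hpf hf fun x => by
    rw [hj, ← map_pow, ← map_sub, he]
    exact hx x
  have hn : Fintype.card (K ≃ₐ[ℚ] K) = finrank ℚ K := by
    rw [← Nat.card_eq_fintype_card, IsGalois.card_aut_eq_finrank]
  set n := finrank ℚ K with hn'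
  obtain ⟨X, hX, h3⟩ := hD L' E ι' (K ≃ₐ[ℚ] K) ζ
    (fun σ => ((p ^ n - 1 : ℕ) : L')⁻¹ * lgS (ι1 (j (σ η)) ^ (p ^ n - 1))) hab (hn ▸ hζ)
  have hp0 : (0 : ℝ) < p := by exact_mod_cast hpf.prime.pos
  have hn0 : (0 : ℝ) < n := by exact_mod_cast (finrank_pos : 0 < finrank ℚ K)
  have h4 : (Matrix.of fun σ τ : K ≃ₐ[ℚ] K => ((p ^ n - 1 : ℕ) : L)⁻¹ *
      lgS (ι ((σ * τ) η) ^ (p ^ n - 1))).map e = Matrix.of fun σ τ : K ≃ₐ[ℚ] K =>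
      ((p ^ n - 1 : ℕ) : L')⁻¹ * lgS (ι1 (j ((σ * τ) η)) ^ (p ^ n - 1)) := by
    ext σ τ
    have h5 := h1 (σ * τ)
    rw [hj, ← map_pow, ← map_one e, ← map_sub, he] at h5
    rw [Matrix.map_apply, Matrix.of_apply, Matrix.of_apply, map_mul, map_inv₀, map_natCast,
      hl _ h5, hj, map_pow]
  show _ ≤ ‖((p : L)⁻¹) ^ n * Matrix.det (Matrix.of fun σ τ : K ≃ₐ[ℚ] K =>
    ((p ^ n - 1 : ℕ) : L)⁻¹ * lgS (ι ((σ * τ) η) ^ (p ^ n - 1)))‖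
  rw [← he, map_mul, RingHom.map_det, RingHom.mapMatrix_apply, h4, norm_mul, h3, map_pow, map_inv₀,
    map_natCast, norm_pow, norm_inv, hpf.norm_p, inv_inv, sub_eq_add_neg, Real.rpow_add hp0,
    Real.rpow_natCast]
  refine mul_le_mul_of_nonneg_left ?_ (by positivity)
  refine le_trans (le_of_eq ?_) (Finset.prod_le_prod (fun _ _ => by positivity) fun χ _ => h2 χ)
  rw [Finset.prod_const, hX, hn, ← Real.rpow_natCast, ← Real.rpow_mul hp0.le,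
    div_mul_cancel₀ _ hn0.ne']

end Pool.Agent.P.MP_657a03_nt.AB
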