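import Pool.Agent.P.MP_657a03_nt.AB.Api

/-! Proof of LB. -/

set_option autoImplicit false

open NumberField NumberField.Units Module Real Matrix Polynomial

namespace Pool.Agent.P.MP_657a03_nt.AB

open Finset in
theorem t_LB (hN : S_NRM) (hL : S_LIOU) : S_LB := by
  intro p L _ _ K K' _ _ _ _ _ ι ι' Γ A d M X S S' x0 i e s n B δ u Q hp hF hd1 hdA hS' hx0 he hs
    hB hn hQ hδ0 hnorm hineq
  have hA : (1 : ℝ) ≤ A := by exact_mod_cast hd1.trans hdA
  have hdR : (1 : ℝ) ≤ d := by exact_mod_cast hd1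
  have hX := hF.one_le
  have hlX : 0 ≤ log X := log_nonneg hX
  have hlA : 0 ≤ log (A : ℝ) := log_nonneg hA
  have hcard : (1 : ℝ) ≤ S.card := by exact_mod_cast card_pos.mpr ⟨x0, hx0⟩
  have hE : 0 ≤ log (S.card * B) := log_nonneg (by nlinarith)
  have h2i : 0 < 2 ^ i := by positivity
  have he0 : 0 < e := h2i.trans_le he
  have hx0' : (x0 : K) ≠ 0 := by simpa using hF.ne x0 hx0
  set k := M / 2 ^ i + 1 with hk
  have hd0 : d ^ k ≠ 0 := pow_ne_zero _ (by omega)
  have hke : M ≤ k * e := by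
    have := Nat.lt_div_mul_add (a := M) h2i
    calc M ≤ k * 2 ^ i := by rw [hk, add_mul]; omega
      _ ≤ k * e := Nat.mul_le_mul_left _ he
  have hint : ∀ x ∈ S', IsIntegral ℤ (((d ^ k : ℕ) : K') * s x) := by
    intro x hx
    obtain ⟨y, -, hv, hy, -⟩ := hF.rel x (hS' hx) x0 hx0
    have h1 : s x ^ e = algebraMap K K' (vl y) := by
      have := hs x hx
      rw [hv, map_mul, mul_comm] at this
      exact mul_left_cancel₀ ((_root_.map_ne_zero _).mpr hx0') this
    obtain ⟨m, hm⟩ := Nat.exists_eq_add_of_le hke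
    have h2 : (((d ^ k : ℕ) : K') * s x) ^ e =
        algebraMap K K' (((d ^ m : ℕ) : K) * ((d : K) ^ M * vl y)) := by
      rw [mul_pow, h1, Nat.cast_pow, ← pow_mul, hm]
      simp only [map_mul, map_pow, map_natCast, Nat.cast_pow]
      ring
    refine IsIntegral.of_pow he0 ?_
    rw [h2]
    exact ((isIntegral_natCast _).mul hy).map (algebraMap K K').toIntAlgHom
  set δ' : ℝ := log A + log X / 2 ^ i with hδ
  have hdδ : ((d ^ k : ℕ) : ℝ) ≤ exp δ' := by
    rw [Nat.cast_pow, ← exp_log (x := (d : ℝ) ^ k) (by positivity), exp_le_exp, log_pow, hδ, hk]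
    have h1 : log (d : ℝ) ≤ log A := log_le_log (by positivity) (by exact_mod_cast hdA)
    have h2 : (M : ℝ) * log d ≤ log X := by
      rw [← log_pow]; exact log_le_log (by positivity) hF.dM
    have h3 : ((M / 2 ^ i : ℕ) : ℝ) ≤ M / 2 ^ i := by
      simpa using Nat.cast_div_le (α := ℝ) (m := M) (n := 2 ^ i)
    have h5 : 0 ≤ log (d : ℝ) := log_nonneg hdR
    have h4 : ((M / 2 ^ i : ℕ) : ℝ) * log d ≤ log X / 2 ^ i := by
      calc _ ≤ (M / 2 ^ i : ℝ) * log d := by gcongr
        _ = M * log d / 2 ^ i := by ring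
        _ ≤ _ := by gcongr
    push_cast
    linarith
  set g : (K →+* ℂ) → ℝ := fun φ => (log X - log ‖φ (x0 : K)‖) / 2 ^ i with hg
  have hsz : ∀ φ : K' →+* ℂ, ∀ x ∈ S', ‖φ (s x)‖ ≤ exp (g (φ.comp (algebraMap K K'))) := by
    intro φ x hx
    set ψ := φ.comp (algebraMap K K') with hψ
    have h0 : 0 < ‖ψ (x0 : K)‖ := by simpa using hx0'
    have h1 : ‖φ (s x)‖ ^ e * ‖ψ (x0 : K)‖ ≤ X := by
      have := congrArg (fun t => ‖φ t‖) (hs x hx)
      simp only [map_mul, map_pow, norm_mul, norm_pow] at this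
      exact this.le.trans (hF.hs x (hS' hx) ψ)
    have h2 : log ‖ψ (x0 : K)‖ ≤ log X := log_le_log h0 (hF.hs x0 hx0 ψ)
    have hg0 : 0 ≤ g ψ := div_nonneg (by linarith) (by positivity)
    by_contra hc
    push Not at hc
    have h3 : exp (g ψ) ^ e < ‖φ (s x)‖ ^ e := pow_lt_pow_left₀ hc (exp_pos _).le he0.ne'
    have h4 : exp (g ψ) ^ (2 ^ i) ≤ exp (g ψ) ^ e := pow_le_pow_right₀ (one_le_exp hg0) he
    have h5 : exp (g ψ) ^ (2 ^ i) * ‖ψ (x0 : K)‖ = X := by
      rw [← exp_nat_mul, hg]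
      push_cast
      rw [mul_div_cancel₀ _ (by positivity), exp_sub, exp_log (by linarith), exp_log h0,
        div_mul_cancel₀ _ h0.ne']
    nlinarith
  have key := hL p L K K' ι' (((d ^ k : ℕ) : K') ^ u * ∑ x ∈ S', algebraMap K K' (n x : K) * s x ^ u)
    δ (fun φ => exp (log (S.card * B) + u * (δ' + g φ))) hp ?_ ?_ ?_ ?_
  · exact (mul_eq_zero.mp key).resolve_left (pow_ne_zero _ (Nat.cast_ne_zero.2 hd0))
  · rw [mul_sum]
    refine IsIntegral.sum _ fun x hx => ?_
    have : ((d ^ k : ℕ) : K') ^ u * (algebraMap K K' (n x : K) * s x ^ u) =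
      algebraMap K K' (n x : K) * (((d ^ k : ℕ) : K') * s x) ^ u := by ring
    rw [this]
    exact ((RingOfIntegers.isIntegral_coe _).map (algebraMap K K').toIntAlgHom).mul
      ((hint x hx).pow u)
  · rw [map_mul, norm_mul, map_pow, map_natCast, norm_pow]
    have : ‖((d ^ k : ℕ) : L)‖ ^ u ≤ 1 :=
      pow_le_one₀ (norm_nonneg _) ((hN p L hp).2.2.2.2 _ (isIntegral_natCast _))
    exact (mul_le_of_le_one_left (norm_nonneg _) this).trans hnorm
  · intro φ
    rw [map_mul, norm_mul, map_pow, map_natCast, norm_pow, map_sum, exp_add,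
      exp_log (by positivity), exp_nat_mul, exp_add, mul_pow, Complex.norm_natCast]
    have h1 : ‖∑ x ∈ S', φ (algebraMap K K' (n x : K) * s x ^ u)‖ ≤
        S.card * B * exp (g (φ.comp (algebraMap K K'))) ^ u := by
      refine (norm_sum_le _ _).trans ((sum_le_card_nsmul _ _
        (B * exp (g (φ.comp (algebraMap K K'))) ^ u) fun x hx => ?_).trans ?_)
      · rw [map_mul, norm_mul, map_pow, norm_pow]
        have := hsz φ x hx
        have : ‖φ (algebraMap K K' (n x : K))‖ ≤ B := hn x hx (φ.comp (algebraMap K K'))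
        gcongr
      · rw [nsmul_eq_mul, mul_assoc]
        have : (S'.card : ℝ) ≤ S.card := by exact_mod_cast card_le_card hS'
        gcongr
    calc _ ≤ exp δ' ^ u * (S.card * B * exp (g (φ.comp (algebraMap K K'))) ^ u) := by gcongr
      _ = _ := by ring
  · rw [← exp_sum, ← exp_nat_mul, ← exp_log hδ0, ← exp_add, exp_lt_one_iff]
    have h1 : ∑ φ, g φ ≤ finrank ℚ K * log X / 2 ^ i := by
      rw [hg, ← sum_div, sum_sub_distrib, sum_const, card_univ, Embeddings.card, nsmul_eq_mul]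
      have := sum_log_nonneg (x0 : K) hx0' (RingOfIntegers.isIntegral_coe _)
      gcongr
      linarith
    have h2 : ∑ φ : K →+* ℂ, (log (S.card * B) + u * (δ' + g φ)) ≤ finrank ℚ K * log (S.card * B) +
        u * (finrank ℚ K * log A + 2 * finrank ℚ K * log X / 2 ^ i) := by
      rw [sum_add_distrib, ← mul_sum, sum_add_distrib, sum_const, sum_const, card_univ,
        Embeddings.card, nsmul_eq_mul, nsmul_eq_mul, hδ]
      have : (finrank ℚ K : ℝ) * (log A + log X / 2 ^ i) + finrank ℚ K * log X / 2 ^ i =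
        finrank ℚ K * log A + 2 * finrank ℚ K * log X / 2 ^ i := by ring
      refine add_le_add le_rfl (mul_le_mul_of_nonneg_left ?_ (Nat.cast_nonneg u))
      linarith
    have h3 : (finrank K K' : ℝ) ≤ Q := by exact_mod_cast hQ
    have h4 : (finrank K K' : ℝ) * ∑ φ : K →+* ℂ, (log (S.card * B) + u * (δ' + g φ)) ≤
        Q * (finrank ℚ K * log (S.card * B) +
          u * (finrank ℚ K * log A + 2 * finrank ℚ K * log X / 2 ^ i)) :=
      calc _ ≤ (finrank K K' : ℝ) * (finrank ℚ K * log (S.card * B) +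
          u * (finrank ℚ K * log A + 2 * finrank ℚ K * log X / 2 ^ i)) := by gcongr
        _ ≤ _ := by gcongr
    linarith

end Pool.Agent.P.MP_657a03_nt.AB
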