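import Pool.Agent.P.MP_657a03_nt.AB.Api
import Pool.Agent.P.MP_657a03_nt.MainA

/-! Proof of LEVEL. -/

set_option autoImplicit false

open NumberField NumberField.Units Module Real Matrix Polynomial

namespace Pool.Agent.P.MP_657a03_nt.AB

namespace LEVEL

theorem norm_eq_one {L : Type} [NormedField L] [IsUltrametricDist L] {q : L} (h : ‖q - 1‖ < 1) :
    ‖q‖ = 1 := by
  have := IsUltrametricDist.norm_add_eq_max_of_norm_ne_norm (x := q - 1) (y := 1)
    (by rw [norm_one]; exact h.ne)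
  rw [sub_add_cancel, norm_one] at this
  rw [this, max_eq_right h.le]

theorem norm_div_sub {L : Type} [NormedField L] [IsUltrametricDist L] {q q' : L}
    (h : ‖q - 1‖ < 1) (h' : ‖q' - 1‖ < 1) : ‖q / q' - 1‖ < 1 := by
  have h1 := norm_eq_one h'
  have h0 : q' ≠ 0 := by
    intro h0
    rw [h0, norm_zero] at h1
    exact zero_ne_one h1
  have e : q / q' - 1 = ((q - 1) + -(q' - 1)) / q' := by
    field_simp
    ring
  rw [e, norm_div, h1, div_one]
  refine (IsUltrametricDist.norm_add_le_max _ _).trans_lt (max_lt h ?_)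
  rwa [norm_neg]

theorem le_exp_of_sq {a : ℝ} {p n : ℕ} (hp : 0 < p) (ha : 0 ≤ a) (h : a ^ 2 ≤ ((p : ℝ) ^ n)⁻¹) :
    a ≤ exp (-(n * log p / 2)) := by
  have hp' : (0 : ℝ) < p := by exact_mod_cast hp
  have e : ((p : ℝ) ^ n)⁻¹ = exp (-(n * log p / 2)) ^ 2 := by
    rw [← exp_nat_mul, ← exp_log (pow_pos hp' n), ← exp_neg, log_pow]
    congr 1
    push_cast
    ring
  rw [e] at h
  exact (pow_le_pow_iff_left₀ ha (exp_pos _).le two_ne_zero).1 h

/-- the separation of the classes by a trace -/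
theorem sep {E K' ι : Type} [Field E] [Field K'] [CharZero E] [Algebra E K']
    [FiniteDimensional E K'] (S : Finset ι) (n Z W : ι → E) (τ : ι → K')
    [DecidablePred fun x => τ x ∈ (algebraMap E K').range] (v : ℕ)
    (hτ : ∀ x ∈ S, τ x ^ 2 = algebraMap E K' (Z x))
    (hW : ∀ x, τ x ∈ (algebraMap E K').range → algebraMap E K' (W x) = τ x)
    (h1 : ∑ x ∈ S, n x • τ x ^ (2 * v + 1) = 0) :
    ∑ x ∈ S.filter (fun x => τ x ∈ (algebraMap E K').range), n x * W x ^ (2 * v + 1) = 0 := by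
  have h2 := congrArg (Algebra.trace E K') h1
  rw [map_sum, map_zero, ← Finset.sum_filter_add_sum_filter_not S
    (fun x => τ x ∈ (algebraMap E K').range),
    Finset.sum_eq_zero (s := S.filter fun x => ¬ τ x ∈ (algebraMap E K').range), add_zero] at h2
  · have h3 : (finrank E K' : E) ≠ 0 := by exact_mod_cast finrank_pos.ne'
    apply mul_left_cancel₀ h3
    rw [mul_zero, ← h2, Finset.mul_sum]
    refine Finset.sum_congr rfl fun x hx => ?_
    rw [map_smul, ← hW x (Finset.mem_filter.mp hx).2, ← map_pow (algebraMap E K'),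
      Algebra.trace_algebraMap]
    simp only [smul_eq_mul, nsmul_eq_mul]
    ring
  · intro x hx
    obtain ⟨hx, hx'⟩ := Finset.mem_filter.mp hx
    have h4 := hτ x hx
    rw [map_smul, MainA.tr0 (a := Z x ^ (2 * v + 1)), smul_zero]
    · rw [← pow_mul, mul_comm, pow_mul, h4, map_pow]
    · intro h5
      apply hx'
      by_cases h6 : τ x = 0
      · rw [h6]; exact zero_mem _
      have h7 : τ x = τ x ^ (2 * v + 1) * algebraMap E K' (Z x ^ v)⁻¹ := by
        rw [map_inv₀, map_pow, ← h4, ← pow_mul, pow_succ', mul_assoc,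
          mul_inv_cancel₀ (pow_ne_zero _ h6), mul_one]
      rw [h7]
      exact mul_mem h5 ⟨_, rfl⟩

end LEVEL

open LEVEL in
theorem t_LEVEL (hN : S_NRM) (h1 : S_LOG1) (h2 : S_LOG2) (hA : S_SA) (hB : S_LB) (hF : S_FIELD) : S_LEVEL := by
  intro p L _ _ _ _ E _ _ ι Γ A d M r X S s μ F c i T U Δ T' ε B hP hfin hrk hunr hFm hd hdA hμ hco
    hB1 hcB hU hT hineq hUp hε hεp hst
  classical
  obtain ⟨S', x0, Y, hsub, hmem, hnz, hroot, hV⟩ := hst
  have hx0 := hsub hmem
  have hp0 : 0 < p := hP.prime.pos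
  have hp1 : (1 : ℝ) < p := by exact_mod_cast hP.prime.one_lt
  have hpi : (p : ℝ)⁻¹ < 1 := inv_lt_one_of_one_lt₀ hp1
  have hn2 : ‖(2 : L)‖ = 1 := by
    have := (hN p L hP).1 2 (by
      intro h
      have h' : p ∣ 2 := by exact_mod_cast h
      exact hP.odd ((Nat.prime_dvd_prime_iff_eq hP.prime Nat.prime_two).mp h'))
    exact_mod_cast this
  set q : 𝓞 E → L := fun x => exS (lgS (ι (Y x)) / 2) with hqdef
  have hq : ∀ x ∈ S', q x ^ 2 = ι (Y x) ∧ ‖q x - 1‖ < 1 := by
    intro x hx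
    have a1 : ‖ι (Y x) - 1‖ < 1 := (hroot x hx).2
    have a2 : ‖ι (Y x) - 1‖ ≤ (p : ℝ)⁻¹ := by
      have := hunr (Y x - 1) (by rwa [map_sub, map_one])
      rwa [map_sub, map_one] at this
    have a3 := (h1 p L hP _ a1).2.2.2 a2
    have a4 : ‖lgS (ι (Y x)) / 2‖ ≤ (p : ℝ)⁻¹ := by
      rw [norm_div, hn2, div_one, a3]
      exact a2
    obtain ⟨b1, -, b3, -⟩ := (h2 p L hP).1 _ a4
    refine ⟨?_, b1.trans_lt hpi⟩
    have b4 := b3 2
    have b5 : ((2 : ℕ) : L) * (lgS (ι (Y x)) / 2) = lgS (ι (Y x)) := by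
      push_cast
      field_simp
    rw [b5, (h2 p L hP).2 _ a2] at b4
    exact b4.symm
  set E0 : ℝ := finrank ℚ E * log (S.card * B) with hE
  set h : ℝ := finrank ℚ E * log A + 2 * finrank ℚ E * log X / 2 ^ i with hh
  have hA1 : (1 : ℝ) ≤ A := by exact_mod_cast hd.trans hdA
  have hlX : 0 ≤ log X := log_nonneg hFm.one_le
  have hlA : 0 ≤ log (A : ℝ) := log_nonneg hA1
  have hcard : (1 : ℝ) ≤ S.card := by exact_mod_cast Finset.card_pos.mpr ⟨_, hx0⟩
  have hE0 : 0 ≤ E0 := mul_nonneg (Nat.cast_nonneg _) (log_nonneg (by nlinarith))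
  have hh0 : 0 ≤ h := by positivity
  have hU' : (0 : ℝ) < U := by exact_mod_cast hU
  have hineq' : E0 + 4 * U * h < U * Δ * log p / 2 := by
    have a1 := mul_lt_mul_of_pos_left hineq hU'
    have a2 : (U : ℝ) * (2 * finrank ℚ E * log (S.card * B) / U) = 2 * E0 := by
      rw [hE]
      field_simp
    rw [mul_add, a2] at a1
    linarith
  -- the analytic step at stage `t`
  have ana : ∀ t ≤ r + 2, ∀ T1, Van S' c F Y (2 ^ t * U) (T1 + Δ) → ∀ u,
      ∀ f : List (Fin s), f.length ≤ T1 →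
      ‖∑ x ∈ S', ι ((c x * wdR F f x : 𝓞 E) : E) * q x ^ u‖ ≤
        exp (-((2 ^ t * U * Δ : ℕ) * log p / 2)) := by
    intro t ht T1 hV1 u f hf
    have a1 : 2 ^ t * U ≤ 2 ^ (r + 2) * U := by gcongr; norm_num
    have a2 : ε * (p : ℝ) ^ (2 ^ t * U * Δ + 1) ≤ 1 := by
      refine le_trans ?_ hεp
      refine mul_le_mul_of_nonneg_left (pow_le_pow_right₀ hp1.le ?_) hε
      gcongr
    exact le_exp_of_sq hp0 (norm_nonneg _) (hA p L E ι S S' s μ F i ε x0 Y c (2 ^ t * U) Δ T1 hP
      hunr hμ hco hsub hx0 hroot (a1.trans hUp) hε a2 hV1 u f hf)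
  -- doubling
  have dbl : ∀ t ≤ r + 2, Van S' c F Y (2 ^ t * U) (T' + (r + 3 - t) * Δ) := by
    intro t
    induction t with
    | zero => intro _; simpa using hV
    | succ t ih =>
      intro ht v hv f hf
      have e1 : T' + (r + 3 - t) * Δ = (T' + (r + 3 - (t + 1)) * Δ) + Δ := by
        have : r + 3 - t = (r + 3 - (t + 1)) + 1 := by omega
        rw [this]; ring
      have a1 := ana t (by omega) _ (e1 ▸ ih (by omega)) (2 * (2 * v + 1)) f hf
      have hfT : f.length ≤ T := by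
        refine hf.trans (le_trans ?_ hT)
        gcongr
        omega
      exact hB p L E E ι ι Γ A d M X S S' x0 i (2 ^ i) Y (fun x => c x * wdR F f x) B _
        (2 * v + 1) 1 hP hFm hd hdA hsub hx0 le_rfl (fun x hx => (hroot x hx).1) hB1
        (fun x hx => hcB x (hsub hx) f hfT) (by rw [finrank_self]) (exp_pos _) (by
          refine le_of_eq_of_le ?_ a1
          rw [map_sum]
          congr 1
          refine Finset.sum_congr rfl fun x hx => ?_
          rw [map_mul, map_pow, pow_mul _ 2, (hq x hx).1]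
          rfl) (by
          rw [← hE, ← hh, log_exp, neg_neg]
          have h3 : ((2 * v + 1 : ℕ) : ℝ) ≤ 4 * (2 ^ t * U) := by
            have : 2 * v + 1 ≤ 4 * (2 ^ t * U) := by rw [pow_succ] at hv; nlinarith
            exact_mod_cast this
          have h4 : (1 : ℝ) ≤ 2 ^ t := one_le_pow₀ (by norm_num)
          have h5 := mul_lt_mul_of_pos_left hineq' (by positivity : (0 : ℝ) < 2 ^ t)
          have h6 := mul_le_mul_of_nonneg_right h3 hh0
          have h7 := mul_le_mul_of_nonneg_right h4 hE0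
          push_cast at h6 ⊢
          nlinarith)
  -- the half points
  obtain ⟨K', _, _, _, ι', hdeg, hcomp, hsq⟩ := hF L E ι Γ (2 ^ i) r hfin hrk (by positivity)
  have hx0' : (x0 : E) ≠ 0 := by simpa using hFm.ne _ hx0
  have hex : ∀ x ∈ S', ∃ q' : K', ι' q' = q x := by
    intro x hx
    obtain ⟨y, hy, hv, -⟩ := hFm.rel x (hsub hx) _ hx0
    have a1 := (hroot x hx).1
    rw [hv, mul_comm] at a1
    have a2 := mul_left_cancel₀ hx0' a1
    have a3 : Y x ≠ 0 := by
      intro h0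
      rw [h0, zero_pow (by positivity)] at a2
      exact vl_ne_zero y a2.symm
    refine hsq (mkG (Y x) a3) (mem_sat.2 ?_) _ (hq x hx).1
    have a4 : 2 ^ i • mkG (Y x) a3 = y := vl_injective (by rw [vl_nsmul, vl_mkG, a2])
    rwa [a4]
  choose! σ hσ using hex
  have hσ2 : ∀ x ∈ S', σ x ^ 2 = algebraMap E K' (Y x) := by
    intro x hx
    apply ι'.injective
    rw [map_pow, hσ x hx, hcomp, (hq x hx).1]
  have hσe : ∀ x ∈ S', σ x ^ 2 ^ (i + 1) * algebraMap E K' (x0 : E) =
      algebraMap E K' (x : E) := by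
    intro x hx
    rw [pow_succ', pow_mul, hσ2 x hx, ← map_pow, ← map_mul, (hroot x hx).1]
  have half : ∀ v < U, ∀ f : List (Fin s), f.length ≤ T' →
      ∑ x ∈ S', algebraMap E K' ((c x * wdR F f x : 𝓞 E) : E) * σ x ^ (2 * v + 1) = 0 := by
    intro v hv f hf
    have h0 := dbl (r + 2) le_rfl
    rw [show r + 3 - (r + 2) = 1 by omega, one_mul] at h0
    have a1 := ana _ le_rfl _ h0 (2 * v + 1) f hf
    refine hB p L E K' ι ι' Γ A d M X S S' x0 i (2 ^ (i + 1)) σ (fun x => c x * wdR F f x) B _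
      (2 * v + 1) _ hP hFm hd hdA hsub hx0 (by gcongr <;> omega) hσe hB1
      (fun x hx => hcB x (hsub hx) f (by omega)) hdeg (exp_pos _) (le_of_eq_of_le ?_ a1) ?_
    · rw [map_sum]
      congr 1
      refine Finset.sum_congr rfl fun x hx => ?_
      rw [map_mul, map_pow, hσ x hx, hcomp]
    · rw [← hE, ← hh, log_exp, neg_neg]
      have h3 : ((2 * v + 1 : ℕ) : ℝ) ≤ 4 * U := by
        have : 2 * v + 1 ≤ 4 * U := by omega
        exact_mod_cast this
      have h5 := mul_lt_mul_of_pos_left hineq' (by positivity : (0 : ℝ) < 2 ^ (r + 2))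
      have h6 := mul_le_mul_of_nonneg_left (add_le_add_right
        (mul_le_mul_of_nonneg_right h3 hh0) E0) (by positivity : (0 : ℝ) ≤ 2 ^ (r + 2))
      push_cast at h6 ⊢
      nlinarith
  -- separation of the classes
  have hq1 : ‖q x0‖ = 1 := norm_eq_one (hq _ hmem).2
  have hσ0 : σ x0 ≠ 0 := by
    intro h0
    rw [← hσ _ hmem, h0, map_zero, norm_zero] at hq1
    exact zero_ne_one hq1
  have hW : ∀ x, σ x / σ x0 ∈ (algebraMap E K').range →
      ∃ y, algebraMap E K' y = σ x / σ x0 := fun x hx => hx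
  choose! W hW using hW
  have hY0 : Y x0 ^ 2 ^ i = 1 := by
    have := (hroot _ hmem).1
    exact mul_right_cancel₀ hx0' (by rw [this, one_mul])
  refine ⟨S'.filter fun x => σ x / σ x0 ∈ (algebraMap E K').range, x0, W,
    (Finset.filter_subset _ _).trans hsub, ?_, hnz, ?_, ?_⟩
  · exact Finset.mem_filter.mpr ⟨hmem, by rw [div_self hσ0]; exact one_mem _⟩
  · intro x hx
    obtain ⟨hx, hx'⟩ := Finset.mem_filter.mp hx
    refine ⟨?_, ?_⟩
    · apply (algebraMap E K').injective
      have a1 : σ x0 ^ 2 ^ (i + 1) = 1 := by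
        rw [pow_succ', pow_mul, hσ2 _ hmem, ← map_pow, hY0, map_one]
      rw [map_mul, map_pow, hW x hx', div_pow, a1, div_one, hσe x hx]
    · rw [← hcomp, hW x hx', map_div₀, hσ x hx, hσ _ hmem]
      exact norm_div_sub (hq x hx).2 (hq _ hmem).2
  · intro v hv f hf
    have : FiniteDimensional E K' := Module.Finite.of_restrictScalars_finite ℚ E K'
    refine sep S' (fun x => ((c x * wdR F f x : 𝓞 E) : E)) (fun x => Y x / Y x0) W
      (fun x => σ x / σ x0) v (fun x hx => ?_) hW ?_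
    · rw [div_pow, hσ2 x hx, hσ2 _ hmem, map_div₀]
    · have := congrArg (· / σ x0 ^ (2 * v + 1)) (half v hv f hf)
      simp only [zero_div, Finset.sum_div] at this
      rw [← this]
      refine Finset.sum_congr rfl fun x _ => ?_
      rw [Algebra.smul_def, div_pow, mul_div_assoc]

end Pool.Agent.P.MP_657a03_nt.AB
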