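import Pool.Agent.P.MP_657a03_nt.AB.If
import Pool.Agent.P.MP_657a03_nt.Liou

/-! Proof of LIOU. -/

set_option autoImplicit false

open NumberField NumberField.Units Module Real Matrix Polynomial

namespace Pool.Agent.P.MP_657a03_nt.AB

theorem t_LIOU (hN : S_NRM) : S_LIOU := by
  classical
  intro p L _ _ K K' _ _ _ _ _ ι' y δ G hp hy hM hG hlt
  obtain ⟨-, n2, -, -, n5⟩ := hN p L hp
  by_contra hne
  let z : 𝓞 K' := ⟨y, hy⟩
  have hz : (z : K') = y := rfl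
  have hz0 : z ≠ 0 := fun e => hne (by rw [← hz, e]; simp)
  have hn : Algebra.norm ℤ z ≠ 0 := Algebra.norm_ne_zero_iff.2 hz0
  have h1 := Ideal.absNorm_mem (Ideal.span {z})
  rw [Ideal.absNorm_span_singleton] at h1
  obtain ⟨a, ha⟩ := Ideal.mem_span_singleton'.1 h1
  have h2 : ι' (a : K') * ι' y = (((Algebra.norm ℤ z).natAbs : ℤ) : L) := by
    have h3 := congrArg (fun w : 𝓞 K' => ι' (w : K')) ha
    rw [← hz]
    simpa using h3
  have h4 : ‖(((Algebra.norm ℤ z).natAbs : ℤ) : L)‖ ≤ δ := by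
    rw [← h2, norm_mul]
    exact (mul_le_of_le_one_left (norm_nonneg _)
      (n5 _ (a.isIntegral_coe.map ι'.toIntAlgHom))).trans hM
  have h5 := n2 ((Algebra.norm ℤ z).natAbs : ℤ) (by simpa using hn)
  have h6 : |((((Algebra.norm ℤ z).natAbs : ℤ)) : ℝ)| = ∏ φ : K' →+* ℂ, ‖φ y‖ := by
    rw [Liou.prod_emb, ← hz, ← Algebra.coe_norm_int, Rat.cast_intCast, Int.natCast_natAbs,
      Int.cast_abs, abs_abs]
  have h3 : ∏ φ : K' →+* ℂ, ‖φ y‖ ≤ ∏ φ : K' →+* ℂ, G (φ.comp (algebraMap K K')) :=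
    Finset.prod_le_prod (fun _ _ => norm_nonneg _) fun φ _ => hG φ
  have h7 : ∏ φ : K' →+* ℂ, G (φ.comp (algebraMap K K')) = (∏ φ, G φ) ^ finrank K K' := by
    rw [← Finset.prod_fiberwise' Finset.univ (fun φ : K' →+* ℂ => φ.comp (algebraMap K K')) G,
      ← Finset.prod_pow]
    refine Finset.prod_congr rfl fun ψ _ => ?_
    rw [Finset.prod_const, Liou.card_fibre]
  rw [h7, ← h6] at h3
  have h8 := mul_le_mul h3 h4 (norm_nonneg _) ((abs_nonneg _).trans h3)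
  linarith

end Pool.Agent.P.MP_657a03_nt.AB
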