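import Pool.Agent.P.MP_657a03_nt.AB.If

/-! Proof of LOG1. -/

set_option autoImplicit false

open NumberField NumberField.Units Module Real Matrix Polynomial

namespace Pool.Agent.P.MP_657a03_nt.AB

namespace LOG1

open Filter Topology

variable {L : Type} [NormedField L]

theorem term_le (h2 : ∀ n : ℤ, n ≠ 0 → 1 ≤ |(n : ℝ)| * ‖(n : L)‖) {c x : L} (hc : ‖c‖ ≤ 1)
    {r : ℝ} (hx : ‖x‖ ≤ r) (k : ℕ) :
    ‖c * x ^ (k + 1) / ((k : L) + 1)‖ ≤ ‖x‖ * ((k + 1) * r ^ k) := by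
  have h := h2 ((k : ℤ) + 1) (by omega)
  push_cast at h
  rw [abs_of_pos (by positivity)] at h
  have h0 : 0 < ‖(k : L) + 1‖ := by
    refine lt_of_le_of_ne (norm_nonneg _) fun e => ?_
    rw [← e, mul_zero] at h
    linarith
  have h1 : ‖(k : L) + 1‖⁻¹ ≤ k + 1 := by
    rw [inv_le_iff_one_le_mul₀ h0]
    exact h
  have hr : 0 ≤ r := (norm_nonneg x).trans hx
  rw [norm_div, norm_mul, norm_pow, div_eq_mul_inv, pow_succ]
  calc ‖c‖ * (‖x‖ ^ k * ‖x‖) * ‖(k : L) + 1‖⁻¹ ≤ 1 * (r ^ k * ‖x‖) * (k + 1) := by gcongr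
    _ = _ := by ring

theorem summ (a : ℝ) {r : ℝ} (h0 : 0 ≤ r) (h1 : r < 1) :
    Summable fun k : ℕ => a * (((k : ℝ) + 1) * r ^ k) := by
  refine Summable.mul_left _ ?_
  have h2 : Summable fun k : ℕ => (k : ℝ) ^ 1 * r ^ k :=
    summable_pow_mul_geometric_of_norm_lt_one 1 (by rwa [Real.norm_of_nonneg h0])
  refine (h2.add (summable_geometric_of_lt_one h0 h1)).congr fun k => ?_
  ring

theorem small (k : ℕ) : ((k : ℝ) + 1 + 1) * (1 / 3) ^ (k + 1) ≤ 2 / 3 := by
  induction k with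
  | zero => norm_num
  | succ k ih =>
    push_cast
    rw [pow_succ]
    have h : (0 : ℝ) ≤ (1 / 3) ^ (k + 1) := by positivity
    have hk : (0 : ℝ) ≤ k := by positivity
    nlinarith [mul_nonneg hk h]

variable [CharZero L]

theorem expand (x : L) (M : ℕ) : ((x + 1) ^ (M + 1) - 1) / ((M + 1 : ℕ) : L) =
    ∑' k : ℕ, (M.choose k : L) * x ^ (k + 1) / ((k : L) + 1) := by
  rw [tsum_eq_sum (s := Finset.range (M + 1)) fun k hk => by
    rw [Nat.choose_eq_zero_of_lt (by simpa using hk)]; simp]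
  rw [add_pow, Finset.sum_range_succ']
  simp only [one_pow, mul_one, pow_zero, Nat.choose_zero_right, Nat.cast_one, add_sub_cancel_right]
  rw [Finset.sum_div]
  refine Finset.sum_congr rfl fun k _ => ?_
  have h : (((M + 1) * M.choose k : ℕ) : L) = (((M + 1).choose (k + 1) * (k + 1) : ℕ) : L) := by
    rw [Nat.add_one_mul_choose_eq]
  have h1 : ((M + 1 : ℕ) : L) ≠ 0 := Nat.cast_ne_zero.2 (Nat.succ_ne_zero M)
  have h2 : (k : L) + 1 ≠ 0 := by exact_mod_cast Nat.succ_ne_zero k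
  rw [div_eq_div_iff h1 h2]
  push_cast at h ⊢
  linear_combination (-x ^ (k + 1)) * h

theorem choose_step (M k : ℕ) :
    (M.choose (k + 1) : L) = (M.choose k : L) * ((M : L) - k) / ((k : L) + 1) := by
  have h2 : (k : L) + 1 ≠ 0 := by exact_mod_cast Nat.succ_ne_zero k
  rw [eq_div_iff h2]
  rcases le_or_gt k M with h | h
  · have h1 : ((M.choose (k + 1) * (k + 1) : ℕ) : L) = ((M.choose k * (M - k) : ℕ) : L) := by
      rw [Nat.choose_succ_right_eq]
    push_cast [h] at h1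
    exact h1
  · rw [Nat.choose_eq_zero_of_lt h, Nat.choose_eq_zero_of_lt (h.trans (Nat.lt_succ_self k))]
    simp

theorem choose_lim {M : ℕ → ℕ} (h : Tendsto (fun n => (M n : L)) atTop (𝓝 (-1))) (k : ℕ) :
    Tendsto (fun n => ((M n).choose k : L)) atTop (𝓝 ((-1) ^ k)) := by
  induction k with
  | zero => simp
  | succ k ih =>
    have h2 : (k : L) + 1 ≠ 0 := by exact_mod_cast Nat.succ_ne_zero k
    have h3 := (ih.mul (h.sub_const (k : L))).div_const ((k : L) + 1)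
    have h4 : (-1 : L) ^ k * (-1 - k) / ((k : L) + 1) = (-1) ^ (k + 1) := by
      rw [div_eq_iff h2]; ring
    rw [h4] at h3
    simpa only [choose_step] using h3

theorem lim [IsUltrametricDist L] [CompleteSpace L] {p : ℕ} (hp : PF p L)
    (h2 : ∀ n : ℤ, n ≠ 0 → 1 ≤ |(n : ℝ)| * ‖(n : L)‖) {y : L} (hy : ‖y - 1‖ < 1) :
    Tendsto (fun n : ℕ => (p : L) ^ n) atTop (𝓝 0) ∧
    Tendsto (fun n : ℕ => (y ^ p ^ n - 1) / (p : L) ^ n) atTop (𝓝 (lgS y)) := by
  have h0 : Tendsto (fun n : ℕ => (p : L) ^ n) atTop (𝓝 0) := by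
    refine tendsto_pow_atTop_nhds_zero_of_norm_lt_one ?_
    rw [hp.norm_p]
    exact inv_lt_one_of_one_lt₀ (by exact_mod_cast hp.prime.one_lt)
  have h1 : ∀ n, 1 ≤ p ^ n := fun n => Nat.one_le_pow _ _ hp.prime.pos
  refine ⟨h0, ?_⟩
  have h3 : Tendsto (fun n => ((p ^ n - 1 : ℕ) : L)) atTop (𝓝 (-1)) := by
    have := h0.sub_const 1
    rw [zero_sub] at this
    refine this.congr fun n => ?_
    push_cast [h1 n]
    rfl
  have h4 : ∀ n, (y ^ p ^ n - 1) / (p : L) ^ n =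
      ∑' k : ℕ, ((p ^ n - 1).choose k : L) * (y - 1) ^ (k + 1) / ((k : L) + 1) := fun n => by
    rw [← expand, sub_add_cancel, Nat.sub_add_cancel (h1 n), Nat.cast_pow]
  simp only [h4]
  refine tendsto_tsum_of_dominated_convergence (summ ‖y - 1‖ (norm_nonneg _) hy)
    (fun k => ((choose_lim h3 k).mul_const _).div_const _) (Eventually.of_forall fun n k => ?_)
  exact term_le h2 (IsUltrametricDist.norm_natCast_le_one L _) le_rfl k

end LOG1

open LOG1 Filter Topology in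
theorem t_LOG1 (hN : S_NRM) : S_LOG1 := by
  intro p L _ _ _ _ hp y hy
  have h2 := (hN p L hp).2.1
  have hc : ∀ k : ℕ, ‖(-1 : L) ^ k‖ ≤ 1 := fun k => by simp
  have hs : Summable fun k : ℕ => (-1 : L) ^ k * (y - 1) ^ (k + 1) / ((k : L) + 1) :=
    Summable.of_norm_bounded (summ ‖y - 1‖ (norm_nonneg _) hy)
      fun k => term_le h2 (hc k) le_rfl k
  obtain ⟨h0, h1⟩ := lim hp h2 hy
  refine ⟨hs, h1, fun y' hy' => ?_, fun hx => ?_⟩
  · have h3 : ‖y * y' - 1‖ < 1 := by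
      have e : y * y' - 1 = (y - 1) + ((y' - 1) + (y - 1) * (y' - 1)) := by ring
      rw [e]
      refine (IsUltrametricDist.norm_add_le_max _ _).trans_lt (max_lt hy
        ((IsUltrametricDist.norm_add_le_max _ _).trans_lt (max_lt hy' ?_)))
      rw [norm_mul]
      exact mul_lt_one_of_nonneg_of_lt_one_left (norm_nonneg _) hy hy'.le
    have h4 := (lim hp h2 hy').2
    have h5 := (h1.add h4).add ((h1.mul h4).mul h0)
    rw [mul_zero, add_zero] at h5
    refine tendsto_nhds_unique (lim hp h2 h3).2 (h5.congr fun n => ?_)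
    have h6 : (p : L) ^ n ≠ 0 := pow_ne_zero _ (Nat.cast_ne_zero.2 hp.prime.ne_zero)
    rw [mul_pow]
    field_simp
    ring
  · have hp3 : (3 : ℝ) ≤ p := by
      have := hp.prime.two_le
      have := hp.odd
      exact_mod_cast (by omega : 3 ≤ p)
    have hx3 : ‖y - 1‖ ≤ 1 / 3 := hx.trans (by rw [one_div]; exact inv_anti₀ (by norm_num) hp3)
    unfold lgS
    generalize y - 1 = x at hs hx3
    rcases eq_or_ne x 0 with rfl | hx0
    · simp
    rw [hs.tsum_eq_zero_add]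
    have hpos : 0 < ‖x‖ := norm_pos_iff.mpr hx0
    have ht : ‖∑' k : ℕ, (-1 : L) ^ (k + 1) * x ^ (k + 1 + 1) / (((k + 1 : ℕ) : L) + 1)‖
        ≤ ‖x‖ * (2 / 3) := by
      refine IsUltrametricDist.norm_tsum_le_of_forall_le_of_nonneg (by positivity) fun k => ?_
      refine (term_le h2 (hc _) hx3 (k + 1)).trans ?_
      push_cast
      exact mul_le_mul_of_nonneg_left (small k) hpos.le
    have h3 : (-1 : L) ^ 0 * x ^ (0 + 1) / (((0 : ℕ) : L) + 1) = x := by simp
    rw [h3, IsUltrametricDist.norm_add_eq_max_of_norm_ne_norm (by linarith),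
      max_eq_left (by linarith)]

end Pool.Agent.P.MP_657a03_nt.AB
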