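import Pool.Agent.P.MP_657a03_nt.AB.If

/-! Proof of LOG2. -/

set_option autoImplicit false

open NumberField NumberField.Units Module Real Matrix Polynomial

namespace Pool.Agent.P.MP_657a03_nt.AB

namespace LOG2

variable {p : ℕ} {L : Type} [NormedField L]

/-- the two bounds for inverse factorials -/
structure FB (p : ℕ) (L : Type) [NormedField L] : Prop where
  one_lt : (1 : ℝ) < p
  h3 : ∀ m : ℕ, ‖(m.factorial : L)⁻¹‖ ^ 2 ≤ (p : ℝ) ^ m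
  h4 : ∀ m : ℕ, ‖((m + 1).factorial : L)⁻¹‖ ^ 2 ≤ (p : ℝ) ^ m

theorem FB.pos (h : FB p L) : (0 : ℝ) < p := zero_lt_one.trans h.one_lt

theorem FB.pw (h : FB p L) {z : L} (hz : ‖z‖ ≤ (p : ℝ)⁻¹) (m : ℕ) :
    (‖z‖ ^ m) ^ 2 * (p : ℝ) ^ m ≤ ((p : ℝ) ^ m)⁻¹ := by
  have hp := h.pos
  calc (‖z‖ ^ m) ^ 2 * (p : ℝ) ^ m ≤ (((p : ℝ)⁻¹) ^ m) ^ 2 * (p : ℝ) ^ m := by gcongr
    _ = ((p : ℝ) ^ m)⁻¹ := by rw [inv_pow]; field_simp

theorem FB.sq (h : FB p L) {z : L} (hz : ‖z‖ ≤ (p : ℝ)⁻¹) (m : ℕ) :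
    ‖z ^ m / (m.factorial : L)‖ ^ 2 ≤ ((p : ℝ) ^ m)⁻¹ := by
  rw [div_eq_mul_inv, norm_mul, norm_pow, mul_pow]
  exact (mul_le_mul_of_nonneg_left (h.h3 m) (by positivity)).trans (h.pw hz m)

theorem FB.geo (h : FB p L) {z : L} (hz : ‖z‖ ≤ (p : ℝ)⁻¹) (m : ℕ) :
    ‖z ^ m / (m.factorial : L)‖ ≤ √((p : ℝ)⁻¹) ^ m := by
  have hp := h.pos
  refine (pow_le_pow_iff_left₀ (norm_nonneg _) (by positivity) two_ne_zero).1 ?_
  rw [← pow_mul (√_), mul_comm m 2, pow_mul, Real.sq_sqrt (by positivity), inv_pow]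
  exact h.sq hz m

theorem FB.rt_lt (h : FB p L) : √((p : ℝ)⁻¹) < 1 := by
  rw [Real.sqrt_lt' one_pos, one_pow]
  exact inv_lt_one_of_one_lt₀ h.one_lt

theorem FB.summ (h : FB p L) {z : L} (hz : ‖z‖ ≤ (p : ℝ)⁻¹) :
    Summable fun m : ℕ => ‖z ^ m / (m.factorial : L)‖ :=
  Summable.of_nonneg_of_le (fun _ => norm_nonneg _) (h.geo hz)
    (summable_geometric_of_lt_one (Real.sqrt_nonneg _) h.rt_lt)

theorem FB.two (h : FB p L) {z : L} (hz : ‖z‖ ≤ (p : ℝ)⁻¹) (m : ℕ) :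
    ‖z ^ (m + 2) / ((m + 2).factorial : L)‖ ≤ p * ‖z‖ ^ 2 := by
  have hp := h.pos
  refine (pow_le_pow_iff_left₀ (norm_nonneg _) (by positivity) two_ne_zero).1 ?_
  have e1 := h.h4 (m + 1)
  have e2 := h.pw hz m
  have e3 : ((p : ℝ) ^ m)⁻¹ ≤ p :=
    (inv_le_one_of_one_le₀ (one_le_pow₀ h.one_lt.le)).trans h.one_lt.le
  rw [div_eq_mul_inv, norm_mul, norm_pow, mul_pow]
  calc (‖z‖ ^ (m + 2)) ^ 2 * ‖((m + 2).factorial : L)⁻¹‖ ^ 2
      ≤ (‖z‖ ^ (m + 2)) ^ 2 * (p : ℝ) ^ (m + 1) := mul_le_mul_of_nonneg_left e1 (by positivity)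
    _ = ((‖z‖ ^ m) ^ 2 * (p : ℝ) ^ m) * (p * ‖z‖ ^ 4) := by ring
    _ ≤ p * (p * ‖z‖ ^ 4) := mul_le_mul_of_nonneg_right (e2.trans e3) (by positivity)
    _ = _ := by ring

variable [CompleteSpace L] [IsUltrametricDist L]

omit [IsUltrametricDist L] in
theorem FB.tail (h : FB p L) {z : L} (hz : ‖z‖ ≤ (p : ℝ)⁻¹) (M : ℕ) :
    exS z - ∑ m ∈ Finset.range M, z ^ m / (m.factorial : L) =
      ∑' m : ℕ, z ^ (m + M) / ((m + M).factorial : L) := by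
  rw [exS, ← (h.summ hz).of_norm.sum_add_tsum_nat_add M, add_sub_cancel_left]

theorem FB.second (h : FB p L) {z : L} (hz : ‖z‖ ≤ (p : ℝ)⁻¹) :
    ‖exS z - 1 - z‖ ≤ p * ‖z‖ ^ 2 := by
  have e := h.tail hz 2
  simp only [Finset.sum_range_succ, Finset.range_zero, Finset.sum_empty, pow_zero,
    Nat.factorial_zero, Nat.cast_one, div_one, zero_add, pow_one, Nat.factorial_one] at e
  rw [sub_sub, e]
  exact IsUltrametricDist.norm_tsum_le_of_forall_le (h.two hz)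

theorem FB.first (h : FB p L) {z : L} (hz : ‖z‖ ≤ (p : ℝ)⁻¹) : ‖exS z - 1‖ ≤ (p : ℝ)⁻¹ := by
  have hp := h.pos
  have e : (p : ℝ) * ‖z‖ ^ 2 ≤ (p : ℝ)⁻¹ := by
    calc (p : ℝ) * ‖z‖ ^ 2 ≤ p * ((p : ℝ)⁻¹) ^ 2 := by gcongr
      _ = _ := by field_simp
  rw [← sub_add_cancel (exS z - 1) z]
  exact (IsUltrametricDist.norm_add_le_max _ _).trans (max_le ((h.second hz).trans e) hz)

theorem FB.tail_le (h : FB p L) {z : L} (hz : ‖z‖ ≤ (p : ℝ)⁻¹) (M : ℕ) :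
    ‖exS z - ∑ m ∈ Finset.range M, z ^ m / (m.factorial : L)‖ ^ 2 ≤ ((p : ℝ) ^ M)⁻¹ := by
  have hp := h.pos
  have e : ‖exS z - ∑ m ∈ Finset.range M, z ^ m / (m.factorial : L)‖ ≤ √((p : ℝ)⁻¹) ^ M := by
    rw [h.tail hz]
    exact IsUltrametricDist.norm_tsum_le_of_forall_le fun m => (h.geo hz _).trans
      (pow_le_pow_of_le_one (Real.sqrt_nonneg _) h.rt_lt.le (Nat.le_add_left _ _))
  refine (pow_le_pow_left₀ (norm_nonneg _) e 2).trans_eq ?_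
  rw [← pow_mul (√_), mul_comm M 2, pow_mul, Real.sq_sqrt (by positivity), inv_pow]

variable [CharZero L]

omit [IsUltrametricDist L] in
theorem FB.add (h : FB p L) {z w : L} (hz : ‖z‖ ≤ (p : ℝ)⁻¹) (hw : ‖w‖ ≤ (p : ℝ)⁻¹) :
    exS (z + w) = exS z * exS w := by
  rw [exS, exS, exS, tsum_mul_tsum_eq_tsum_sum_antidiagonal_of_summable_norm (h.summ hz) (h.summ hw)]
  refine tsum_congr fun n => ?_
  rw [(Commute.all z w).add_pow', Finset.sum_div]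
  refine Finset.sum_congr rfl fun kl hkl => ?_
  rw [nsmul_eq_mul, ← Finset.HasAntidiagonal.mem_antidiagonal.mp hkl, Nat.cast_add_choose]
  have e1 : (kl.1.factorial : L) ≠ 0 := Nat.cast_ne_zero.2 (Nat.factorial_ne_zero _)
  have e2 : (kl.2.factorial : L) ≠ 0 := Nat.cast_ne_zero.2 (Nat.factorial_ne_zero _)
  have e3 : ((kl.1 + kl.2).factorial : L) ≠ 0 := Nat.cast_ne_zero.2 (Nat.factorial_ne_zero _)
  field_simp

omit [CompleteSpace L] [CharZero L] in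
theorem nat_mul_le {z : L} {r : ℝ} (hz : ‖z‖ ≤ r) (n : ℕ) : ‖(n : L) * z‖ ≤ r := by
  rw [norm_mul]
  exact (mul_le_of_le_one_left (norm_nonneg _) (IsUltrametricDist.norm_natCast_le_one L n)).trans hz

theorem FB.nat (h : FB p L) {z : L} (hz : ‖z‖ ≤ (p : ℝ)⁻¹) (n : ℕ) :
    exS (n * z) = exS z ^ n := by
  induction n with
  | zero =>
    have e := h.second (z := 0) (by simp)
    simpa [sub_eq_zero] using e
  | succ n ih => rw [Nat.cast_succ, add_mul, one_mul, h.add (nat_mul_le hz n) hz, ih, pow_succ]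

theorem FB.lim (h : FB p L) (hp : ‖(p : L)‖ = (p : ℝ)⁻¹) {z : L} (hz : ‖z‖ ≤ (p : ℝ)⁻¹) :
    Filter.Tendsto (fun n : ℕ => (exS z ^ p ^ n - 1) / (p : L) ^ n) Filter.atTop (nhds z) := by
  have h0 := h.pos
  rw [tendsto_iff_norm_sub_tendsto_zero]
  have hl : Filter.Tendsto (fun n : ℕ => (p : ℝ) * ‖z‖ ^ 2 * ((p : ℝ)⁻¹) ^ n) Filter.atTop
      (nhds 0) := by
    simpa using (tendsto_pow_atTop_nhds_zero_of_lt_one (by positivity)
      (inv_lt_one_of_one_lt₀ h.one_lt)).const_mul ((p : ℝ) * ‖z‖ ^ 2)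
  refine squeeze_zero (fun _ => norm_nonneg _) (fun n => ?_) hl
  have hne : (p : L) ^ n ≠ 0 := pow_ne_zero _ (Nat.cast_ne_zero.2 (Nat.cast_pos.1 h0).ne')
  have e := h.second (nat_mul_le hz (p ^ n))
  rw [h.nat hz, Nat.cast_pow, norm_mul, norm_pow, hp] at e
  have e2 : (exS z ^ p ^ n - 1) / (p : L) ^ n - z =
      (exS z ^ p ^ n - 1 - (p : L) ^ n * z) / (p : L) ^ n := by field_simp
  rw [e2, norm_div, norm_pow, hp, div_le_iff₀ (by positivity)]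
  exact e.trans_eq (by ring)

end LOG2

open LOG2 in
theorem t_LOG2 (hN : S_NRM) (h1 : S_LOG1) : S_LOG2 := by
  intro p L _ _ _ _ hP
  have h : FB p L := ⟨Nat.one_lt_cast.2 hP.prime.one_lt, (hN p L hP).2.2.1, (hN p L hP).2.2.2.1⟩
  have hlt : (p : ℝ)⁻¹ < 1 := inv_lt_one_of_one_lt₀ h.one_lt
  refine ⟨fun z hz => ⟨h.first hz, fun z' hz' => h.add hz hz', h.nat hz, h.tail_le hz⟩,
    fun y hy => ?_⟩
  have hy1 := hy.trans_lt hlt
  have hz : ‖lgS y‖ ≤ (p : ℝ)⁻¹ := ((h1 p L hP y hy1).2.2.2 hy).trans_le hy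
  have hw := h.first hz
  have hl : lgS (exS (lgS y)) = lgS y :=
    tendsto_nhds_unique (h1 p L hP _ (hw.trans_lt hlt)).2.1 (h.lim hP.norm_p hz)
  have hn : 1 ≤ ‖y‖ := by
    have e := IsUltrametricDist.norm_add_le_max y (-(y - 1))
    rw [norm_neg, show y + -(y - 1) = 1 by ring, norm_one] at e
    exact (le_max_iff.1 e).resolve_right (not_le.2 hy1)
  have hy0 : y ≠ 0 := norm_pos_iff.1 (zero_lt_one.trans_le hn)
  have hu : ‖exS (lgS y) / y - 1‖ ≤ (p : ℝ)⁻¹ := by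
    have e := IsUltrametricDist.norm_add_le_max (exS (lgS y) - 1) (-(y - 1))
    rw [norm_neg] at e
    rw [show exS (lgS y) / y - 1 = (exS (lgS y) - 1 + -(y - 1)) / y by field_simp; ring, norm_div]
    exact (div_le_self (norm_nonneg _) hn).trans (e.trans (max_le hw hy))
  have e1 := (h1 p L hP _ (hu.trans_lt hlt)).2.2.1 y hy1
  have e2 := (h1 p L hP _ (hu.trans_lt hlt)).2.2.2 hu
  rw [div_mul_cancel₀ _ hy0, hl, eq_comm, add_eq_right] at e1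
  rw [e1, norm_zero, eq_comm, norm_eq_zero, sub_eq_zero, div_eq_one_iff_eq hy0] at e2
  exact e2

end Pool.Agent.P.MP_657a03_nt.AB
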