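import Pool.Agent.P.MP_657a03_nt.AB.Api
import Pool.Agent.P.MP_657a03_nt.Main
import Pool.Agent.P.MP_657a03_nt.CountB

/-! Proof of MAIN. -/

set_option autoImplicit false

open NumberField NumberField.Units Module Real Matrix Polynomial

namespace Pool.Agent.P.MP_657a03_nt.AB

namespace MAIN

open Finset

theorem St.mono {L E : Type} [NormedField L] [Field E] {ι : E →+* L} {S : Finset (𝓞 E)}
    {c : 𝓞 E → ℤ} {s : ℕ} {F : 𝓞 E → Fin s → 𝓞 E} {i U T T' : ℕ} (h : St ι S c F i U T)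
    (h' : T' ≤ T) : St ι S c F i U T' := by
  obtain ⟨S', x0, Y, a1, a2, a3, a4, a5⟩ := h
  exact ⟨S', x0, Y, a1, a2, a3, a4, fun v hv f hf => a5 v hv f (hf.trans h')⟩

theorem hs_mon {E : Type} [Field E] {s : ℕ} (g : Fin s → 𝓞 E) {J : ℝ} (hJ : 1 ≤ J)
    (hg : ∀ j, Hs J (g j : E)) (e : Fin s → ℕ) {T : ℕ} (he : ∑ j, e j ≤ T) :
    Hs (J ^ T) ((∏ j, g j ^ e j : 𝓞 E) : E) := by
  have e1 : ((∏ j, g j ^ e j : 𝓞 E) : E) = ∏ j, (g j : E) ^ e j := by
    simp only [RingOfIntegers.coe_eq_algebraMap, map_prod, map_pow]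
  rw [e1]
  refine hs_mono (hs_prod fun j _ => hs_pow (hg j) (e j)) ?_
  rw [prod_pow_eq_pow_sum]
  exact pow_le_pow_right₀ hJ he

theorem lvl (D X A p Z : ℝ) (B1 B2 i : ℕ) (hp : 0 ≤ p) (h1 : 16 * D * X ≤ B1 * p)
    (h2 : Z + 8 * D * A + p < B2 * p) :
    Z + 8 * (D * A + 2 * D * X / 2 ^ i) < ((B1 / 2 ^ i + B2 : ℕ) : ℝ) * p := by
  have a1 : (B1 : ℝ) / 2 ^ i ≤ (B1 / 2 ^ i : ℕ) + 1 := by
    rw [div_le_iff₀ (by positivity)]
    have := Nat.lt_div_mul_add (a := B1) (by positivity : 0 < 2 ^ i)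
    have h3 : B1 ≤ (B1 / 2 ^ i + 1) * 2 ^ i := by rw [add_mul]; omega
    exact_mod_cast h3
  have a2 : 16 * D * X / 2 ^ i ≤ (B1 : ℝ) / 2 ^ i * p := by
    rw [div_mul_eq_mul_div]
    gcongr
  have a3 := mul_le_mul_of_nonneg_right a1 hp
  have a4 : 8 * (D * A + 2 * D * X / 2 ^ i) = 8 * D * A + 16 * D * X / 2 ^ i := by ring
  rw [a4, Nat.cast_add]
  nlinarith

end MAIN

open MAIN MainD Finset Pool.Agent.P.MP_7aad9f_nt.Sub in
theorem t_MAIN (hC : S_CRD) (hE : S_ELIM) (hL : S_LEVEL) : S_MAIN := by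
  intro p L _ _ _ _ E _ _ ι Γ κ _ η β A d Q r M lev J J' U B1 B2 C T δ X S hp hD hF hJ hlev hJJ hT
    hU hcard hCU hB1 hB2 hNp hN
  classical
  obtain ⟨s, μ, F, hs, hμ, hFJ, hco, hfin⟩ := hE p L E ι Γ κ η β A d Q r lev J δ S hp hD
    (hC p L E ι Γ κ η β A d Q r M lev J δ X S hp hD hF hJ) hlev
  have hX := hF.one_le
  have hlX : 0 ≤ log X := log_nonneg hX
  have hDpos : 0 < finrank ℚ E := finrank_pos
  have hA : 1 ≤ A := hD.d1.trans hD.dA
  have hJ1 : 1 ≤ J := by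
    have h0 : (0 : ℝ) ≤ 2 * (r + 1) * (2 * finrank ℚ E * (log X + Q * A)) * 7 ^ finrank ℚ E := by
      positivity
    exact_mod_cast (one_le_pow₀ (by linarith)).trans hJ
  have hJ' : (1 : ℝ) ≤ J' := by
    have : 0 < 2 * A ^ 2 * J ^ 2 := by positivity
    exact_mod_cast this.trans_le hJJ
  have hFJ' : ∀ x ∈ S, ∀ j, Hs J' (F x j : E) := fun x hx j =>
    hs_mono (hFJ x hx j) (by exact_mod_cast hJJ)
  have hLpos : 0 < S.card := by
    refine lt_of_lt_of_le ?_ hcard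
    have := Nat.choose_pos (Nat.le_add_left r T)
    positivity
  have hL1 : (1 : ℝ) ≤ S.card := by exact_mod_cast hLpos
  have hZ : (1 : ℝ) ≤ (J' : ℝ) ^ T * X ^ (2 * U) :=
    one_le_mul_of_one_le_of_one_le (one_le_pow₀ hJ') (one_le_pow₀ hX)
  have hC1 : (1 : ℝ) ≤ C := by
    rcases Nat.eq_zero_or_pos C with rfl | h
    · rw [Nat.cast_zero, zero_pow hU.ne'] at hCU
      nlinarith
    · exact_mod_cast h
  -- Siegel
  obtain ⟨c, ⟨x0, hx0, hc0⟩, hc, hv⟩ := siegelB countB E (𝓞 E) (ℕ × (Fin s → ℕ)) S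
    (range U ×ˢ simplex s T) (fun e x => (∏ j, F x j ^ e.2 j) * x ^ (2 * e.1 + 1))
    ((J' : ℝ) ^ T * X ^ (2 * U)) U C hZ hU hLpos (by
      rintro ⟨v, e⟩ he x hx
      obtain ⟨hv, he⟩ := mem_product.mp he
      rw [mem_range] at hv
      rw [siegel_mem] at he
      have e1 : (((∏ j, F x j ^ e j) * x ^ (2 * v + 1) : 𝓞 E) : E) =
          ((∏ j, F x j ^ e j : 𝓞 E) : E) * (x : E) ^ (2 * v + 1) := by
        simp only [RingOfIntegers.coe_eq_algebraMap, map_mul, map_pow]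
      dsimp only at hv he ⊢
      rw [e1]
      exact hs_mul (hs_mon _ hJ' (hFJ' x hx) e he)
        (hs_mono (hs_pow (hF.hs x hx) _) (pow_le_pow_right₀ hX (by omega))))
    (by
      refine le_trans ?_ hcard
      rw [card_product, card_range, siegel_card]
      have : (T + s).choose s ≤ (T + r).choose r := by
        rw [← Nat.choose_symm_add, ← Nat.choose_symm_add]
        exact Nat.choose_le_choose _ (by omega)
      gcongr) hCU
  have hx0' : (x0 : E) ≠ 0 := by simpa using hF.ne _ hx0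
  have st0 : St ι S c F 0 U T := by
    refine ⟨S, x0, fun x => (x : E) / x0, Subset.rfl, hx0, hc0, fun x hx => ⟨?_, ?_⟩, ?_⟩
    · rw [pow_zero, pow_one, div_mul_cancel₀ _ hx0']
    · obtain ⟨y, -, a1, -, a2⟩ := hF.rel x hx x0 hx0
      dsimp only
      rwa [a1, mul_div_cancel_left₀ _ hx0']
    · intro v hv' f hf
      have h0 := hv (v, fun j => f.count j) (mem_product.mpr ⟨mem_range.mpr hv', by
        rw [siegel_mem, sum_count]; exact hf⟩)
      have h3 := congrArg (fun t : 𝓞 E => (t : E) / (x0 : E) ^ (2 * v + 1)) h0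
      simp only [RingOfIntegers.coe_eq_algebraMap, map_sum, map_mul, map_pow, map_zero,
        zero_div, sum_div] at h3
      rw [← h3]
      refine sum_congr rfl fun x _ => ?_
      rw [wdR_eq]
      simp only [RingOfIntegers.coe_eq_algebraMap, div_pow, map_mul]
      ring
  -- the descent
  have hp1 : (1 : ℝ) ≤ p := by exact_mod_cast hp.prime.one_lt.le
  have hδ : 0 ≤ δ := (norm_nonneg _).trans hD.small
  have hε : 0 ≤ δ * ((A : ℝ) ^ 2 * J) ^ finrank ℚ E := by positivity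
  have hB : (1 : ℝ) ≤ C * (J' : ℝ) ^ T := one_le_mul_of_one_le_of_one_le hC1 (one_le_pow₀ hJ')
  obtain ⟨R, hR⟩ : ∃ R : ℕ → ℕ, ∀ i, R i = ∑ k ∈ range i, (r + 3) * (B1 / 2 ^ k + B2) :=
    ⟨_, fun _ => rfl⟩
  have hRT : ∀ i ≤ lev, R i ≤ T := by
    intro i hi
    refine le_trans ?_ hT
    rw [hR, ← mul_sum, sum_add_distrib, sum_const, card_range, smul_eq_mul]
    have := sum_div_le B1 i
    gcongr
  have ind : ∀ i ≤ lev, St ι S c F i U (T - R i) := by
    intro i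
    induction i with
    | zero => intro _; exact St.mono st0 (Nat.sub_le _ _)
    | succ i ih =>
      intro hi
      have e1 : R (i + 1) = R i + (r + 3) * (B1 / 2 ^ i + B2) := by rw [hR, hR, sum_range_succ]
      have e2 := hRT _ hi
      refine hL p L E ι Γ A d M r X S s μ F c i T U (B1 / 2 ^ i + B2) _ _ (C * (J' : ℝ) ^ T) hp
        hD.fin hD.rk hD.unr hF hD.d1 hD.dA hμ (hco i (by omega)) hB ?_ hU (by omega) ?_ hNp hε ?_
        (St.mono (ih (by omega)) (by omega))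
      · intro x hx f hf
        have a1 : |(c x : ℝ)| ≤ C := by exact_mod_cast hc x
        have e3 : ((c x * wdR F f x : 𝓞 E) : E) = (c x : E) * ((wdR F f x : 𝓞 E) : E) := by
          simp only [RingOfIntegers.coe_eq_algebraMap, map_mul, map_intCast]
        rw [e3, wdR_eq]
        exact hs_mul (hs_int a1) (hs_mon _ hJ' (hFJ' x hx) _ (by rw [sum_count]; exact hf))
      · rw [← mul_assoc (S.card : ℝ)]
        exact lvl _ _ _ _ _ B1 B2 i (log_nonneg hp1) hB1 hB2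
      · refine le_trans ?_ hN
        gcongr
        exact Nat.div_le_self _ _
  obtain ⟨S', x1, Y, a1, a2, a3, a4, a5⟩ := ind lev le_rfl
  have h0 := a5 0 hU [] (Nat.zero_le _)
  rw [sum_eq_single_of_mem x1 a2 (fun x hx hne =>
    (hne (hfin x (a1 hx) _ (a1 a2) _ (a4 x hx))).elim), wdR_nil] at h0
  simp only [mul_zero, zero_add, pow_one, mul_one, mul_eq_zero, RingOfIntegers.coe_eq_algebraMap,
    map_intCast, Int.cast_eq_zero] at h0
  have h3 := (a4 _ a2).1
  rw [h0.resolve_left a3, zero_pow (by positivity), zero_mul] at h3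
  exact hF.ne _ (a1 a2) (by simpa using h3.symm)

end Pool.Agent.P.MP_657a03_nt.AB
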