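import Pool.Agent.P.MP_657a03_nt.AB.If
import Pool.Agent.P.MP_657a03_nt.Num

/-! Proof of NA. -/

set_option autoImplicit false

open NumberField NumberField.Units Module Real Matrix Polynomial

namespace Pool.Agent.P.MP_657a03_nt.AB

namespace NA

theorem choose_le (r B : ℕ) (hB : 1 ≤ B) :
    (((4 * (r + 3) * B + r).choose r : ℕ) : ℝ) ≤ exp 3 * (14 * B) ^ r := by
  have h1 : (((4 * (r + 3) * B + r).choose r : ℕ) : ℝ) ≤
      ((4 * (r + 3) * B + r : ℕ) : ℝ) ^ r / r.factorial := Nat.choose_le_pow_div r _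
  have h2 : ((4 * (r + 3) * B + r : ℕ) : ℝ) ≤ (5 * B) * ((r : ℝ) + 3) := by
    have : 4 * (r + 3) * B + r ≤ 5 * B * (r + 3) := by nlinarith
    exact_mod_cast this
  have h3 : ((r : ℝ) + 3) ^ r / r.factorial ≤ exp ((r : ℝ) + 3) :=
    Real.pow_div_factorial_le_exp _ (by positivity) r
  have h4 : exp ((r : ℝ) + 3) = exp 3 * exp 1 ^ r := by
    rw [← Real.exp_nat_mul, ← Real.exp_add]; congr 1; ring
  have h5 : (5 * B : ℝ) * exp 1 ≤ 14 * B := by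
    have := Real.exp_one_lt_d9
    have hB' : (0 : ℝ) ≤ B := Nat.cast_nonneg _
    nlinarith
  calc _ ≤ _ := h1
    _ ≤ ((5 * B) * ((r : ℝ) + 3)) ^ r / r.factorial := by gcongr
    _ = (5 * B : ℝ) ^ r * (((r : ℝ) + 3) ^ r / r.factorial) := by rw [mul_pow]; ring
    _ ≤ (5 * B : ℝ) ^ r * (exp 3 * exp 1 ^ r) := by rw [← h4]; gcongr
    _ = exp 3 * ((5 * B : ℝ) * exp 1) ^ r := by rw [mul_pow (5 * B : ℝ)]; ring
    _ ≤ _ := by gcongr

end NA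

theorem t_NA : S_NA := by
  intro W κ0 A Q r D l τ B1 G La hW hG hD h1D hDl hLa hB h1B hQ hl
  have hG0 : 0 < G := by linarith
  have hW' : (0 : ℝ) < W := by exact_mod_cast hW
  have hD' : (0 : ℝ) < D := by exact_mod_cast h1D
  have h1 : 14 * B1 * G ^ κ0 * exp 2 ≤ (τ : ℝ) := by
    have h2 : (B1 : ℝ) * (238 * W * exp 2 * G ^ κ0 * D) ≤ 17 * (D * (W * τ)) :=
      (mul_le_mul_of_nonneg_left hLa (Nat.cast_nonneg _)).trans hB
    refine le_of_mul_le_mul_left (a := (17 * (D * W) : ℝ)) ?_ (by positivity)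
    calc _ = (B1 : ℝ) * (238 * W * exp 2 * G ^ κ0 * D) := by ring
      _ ≤ _ := h2
      _ = _ := by ring
  have h2 : (14 * B1 * G ^ κ0) ^ r ≤ (τ : ℝ) ^ r * exp (-(2 * r)) := by
    have e : exp 2 ^ r * exp (-(2 * r : ℝ)) = 1 := by
      rw [← Real.exp_nat_mul, ← Real.exp_add, ← Real.exp_zero]; congr 1; ring
    calc _ = (14 * B1 * G ^ κ0 * exp 2) ^ r * exp (-(2 * r)) := by
          rw [mul_pow _ (exp 2), mul_assoc _ (exp 2 ^ r), e, mul_one]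
      _ ≤ _ := by gcongr
  have h3 : G ^ D ≤ G ^ κ0 * (G ^ κ0) ^ r := by
    rw [← pow_succ', ← pow_mul]; exact pow_le_pow_right₀ hG hD
  have h4 : (((l ^ 9 + 1) * (D * l ^ 9) : ℕ) : ℝ) ≤ 2 * (l : ℝ) ^ 19 := by
    have h5 : 1 ≤ l ^ 9 := Nat.one_le_pow _ _ (by omega)
    have : (l ^ 9 + 1) * (D * l ^ 9) ≤ 2 * l ^ 19 :=
      calc _ ≤ (2 * l ^ 9) * (l * l ^ 9) := Nat.mul_le_mul (by omega) (Nat.mul_le_mul_right _ hDl)
        _ = _ := by ring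
    exact_mod_cast this
  have h5 := NA.choose_le r B1 h1B
  calc _ = (((l ^ 9 + 1) * (D * l ^ 9) : ℕ) : ℝ) * (((4 * (r + 3) * B1 + r).choose r : ℕ) : ℝ) *
        (A ^ (2 * A) * G ^ D * Q) := by push_cast; ring
    _ ≤ 2 * (l : ℝ) ^ 19 * (exp 3 * (14 * B1) ^ r) *
        (A ^ (2 * A) * (G ^ κ0 * (G ^ κ0) ^ r) * Q) := by gcongr
    _ = (2 * exp 3 * A ^ (2 * A) * G ^ κ0) * ((l : ℝ) ^ 19 * Q) * (14 * B1 * G ^ κ0) ^ r := by
        rw [mul_pow (14 * B1 : ℝ)]; ring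
    _ ≤ (l : ℝ) ^ 2 * ((l : ℝ) ^ 19 * Q) * ((τ : ℝ) ^ r * exp (-(2 * r))) := by gcongr
    _ = (τ : ℝ) ^ r * (Q * (l : ℝ) ^ 21 * exp (-(2 * r))) := by ring
    _ ≤ (τ : ℝ) ^ r * τ := by gcongr
    _ = _ := (pow_succ _ _).symm

end Pool.Agent.P.MP_657a03_nt.AB
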