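import Pool.Agent.P.MP_657a03_nt.AB.If

/-! Proof of NB. -/

set_option autoImplicit false

open NumberField NumberField.Units Module Real Matrix Polynomial

namespace Pool.Agent.P.MP_657a03_nt.AB

theorem t_NB : S_NB := by
  intro W A p Q r D l τ hQ hp hD hr hτ hW hA
  obtain ⟨E, hE⟩ : ∃ E, E = 2 ^ l := ⟨_, rfl⟩
  have l1 : 100 ≤ l := by nlinarith [Nat.zero_le A]
  have hl : l ≤ E := by rw [hE]; exact Nat.lt_two_pow_self.le
  have hA2 : A ^ 2 ≤ l := by nlinarith [Nat.zero_le A]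
  have hA1 : A ≤ l := by nlinarith [Nat.zero_le A]
  have E1 : 1 ≤ E := by omega
  have hQ2 : Q ≤ E ^ (2 * A) := by
    refine hQ.trans ((Nat.pow_le_pow_left hp A).trans (le_of_eq ?_))
    rw [hE, show 4 = 2 ^ 2 from rfl, ← pow_mul, ← pow_mul, ← pow_mul]
    congr 1
    ring
  have h7 : 7 ^ D ≤ E ^ 3 := by
    calc 7 ^ D ≤ 8 ^ D := Nat.pow_le_pow_left (by norm_num) D
      _ ≤ 8 ^ l := Nat.pow_le_pow_right (by norm_num) hD
      _ = E ^ 3 := by rw [hE, show 8 = 2 ^ 3 from rfl, ← pow_mul, ← pow_mul, mul_comm]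
  have h1 : W * τ ≤ 2 * (E ^ 23 * Q) := by
    calc W * τ ≤ E * (2 * E * Q * E ^ 21) := by
          refine Nat.mul_le_mul (hW.trans hl) (hτ.trans ?_)
          gcongr
          exact hA2.trans hl
      _ = 2 * (E ^ 23 * Q) := by ring
  have h2 : Q * A ≤ E ^ 23 * Q := by
    rw [mul_comm]
    refine Nat.mul_le_mul_right _ ((hA1.trans hl).trans ?_)
    exact Nat.le_self_pow (by norm_num) E
  have h3 : W * τ + Q * A ≤ 3 * (E ^ 23 * E ^ (2 * A)) := by
    have : E ^ 23 * Q ≤ E ^ 23 * E ^ (2 * A) := Nat.mul_le_mul_left _ hQ2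
    omega
  have h4 : 2 * (r + 1) * (2 * D * (W * τ + Q * A)) * 7 ^ D ≤ 12 * E ^ (28 + 2 * A) := by
    calc 2 * (r + 1) * (2 * D * (W * τ + Q * A)) * 7 ^ D
        ≤ 2 * E * (2 * E * (3 * (E ^ 23 * E ^ (2 * A)))) * E ^ 3 := by
          gcongr
          · exact hr.trans hl
          · exact hD.trans hl
      _ = 12 * E ^ (28 + 2 * A) := by ring
  have h5 : 1 ≤ E ^ (28 + 2 * A) := Nat.one_le_pow _ _ E1
  have h6 : 2 * (r + 1) * (2 * D * (W * τ + Q * A)) * 7 ^ D + 2 ≤ E ^ (29 + 2 * A) := by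
    have : E ^ (29 + 2 * A) = E * E ^ (28 + 2 * A) := by ring
    rw [this]
    have : 100 * E ^ (28 + 2 * A) ≤ E * E ^ (28 + 2 * A) := Nat.mul_le_mul_right _ (l1.trans hl)
    omega
  calc _ ≤ (E ^ (29 + 2 * A)) ^ (D * (1 + A)) := Nat.pow_le_pow_left h6 _
    _ = 2 ^ (l * ((29 + 2 * A) * (D * (1 + A)))) := by rw [hE, ← pow_mul, ← pow_mul]
    _ ≤ 2 ^ l ^ 3 := by
      refine Nat.pow_le_pow_right (by norm_num) ?_
      have h8 : (29 + 2 * A) * (1 + A) ≤ l := by nlinarith [Nat.zero_le A]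
      calc l * ((29 + 2 * A) * (D * (1 + A))) = l * D * ((29 + 2 * A) * (1 + A)) := by ring
        _ ≤ l * l * l := by gcongr
        _ = l ^ 3 := by ring

end Pool.Agent.P.MP_657a03_nt.AB
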