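import Pool.Agent.P.MP_657a03_nt.AB.If
import Pool.Agent.P.MP_657a03_nt.Num

/-! Proof of NC. -/

set_option autoImplicit false

open NumberField NumberField.Units Module Real Matrix Polynomial

namespace Pool.Agent.P.MP_657a03_nt.AB

namespace NC

open NumAux

lemma logbd (l T Lc J : ℕ) (y : ℝ) (hy : 0 ≤ y) (hL0 : 0 < Lc) (hL : Lc ≤ 2 ^ (3 * T))
    (hJ0 : 1 ≤ J) (hJ1 : J ≤ 2 ^ (3 * l ^ 3)) :
    log ((Lc : ℝ) * ((3 * Lc * J ^ T * ⌈exp y⌉₊ ^ 2 : ℕ) : ℝ) * (J : ℝ) ^ T) ≤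
      4 + 6 * T + 6 * T * l ^ 3 + 2 * y := by
  have hE1 : (1 : ℝ) ≤ exp y := one_le_exp hy
  have hE : (⌈exp y⌉₊ : ℝ) ≤ 2 * exp y := by
    have := Nat.ceil_lt_add_one (show (0 : ℝ) ≤ exp y by positivity)
    linarith
  have hE0 : (0 : ℝ) < (⌈exp y⌉₊ : ℝ) := lt_of_lt_of_le (by linarith) (Nat.le_ceil _)
  have hL' : (Lc : ℝ) ≤ exp (3 * T) := by
    have a1 : (Lc : ℝ) ≤ (2 : ℝ) ^ (3 * T) := by exact_mod_cast hL
    have a2 := two_pow_le (3 * T)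
    push_cast at a2
    linarith
  have hJ : (J : ℝ) ^ T ≤ exp (3 * T * l ^ 3) := by
    have a1 : (J : ℝ) ≤ (2 : ℝ) ^ (3 * l ^ 3) := by exact_mod_cast hJ1
    have a2 := two_pow_le (3 * l ^ 3 * T)
    rw [pow_mul] at a2
    push_cast at a2
    rw [mul_right_comm]
    exact (pow_le_pow_left₀ (by positivity) a1 T).trans a2
  have hL0' : (0 : ℝ) < Lc := by exact_mod_cast hL0
  have hJ0' : (0 : ℝ) < J := by exact_mod_cast hJ0
  push_cast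
  rw [log_le_iff_le_exp (by positivity)]
  calc (Lc : ℝ) * (3 * Lc * (J : ℝ) ^ T * (⌈exp y⌉₊ : ℝ) ^ 2) * (J : ℝ) ^ T
      ≤ exp (3 * T) * (3 * exp (3 * T) * exp (3 * T * l ^ 3) * (2 * exp y) ^ 2) *
        exp (3 * T * l ^ 3) := by gcongr
    _ = 12 * (exp (3 * T) * exp (3 * T) * exp (3 * T * l ^ 3) * exp (3 * T * l ^ 3) * exp y *
        exp y) := by ring
    _ ≤ exp 4 * (exp (3 * T) * exp (3 * T) * exp (3 * T * l ^ 3) * exp (3 * T * l ^ 3) * exp y *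
        exp y) := by gcongr; exact twelve_le
    _ = _ := by simp only [← exp_add]; congr 1; ring

lemma b2ineq (A r D l B1 : ℕ) (La X y T : ℝ) (hy : 0 ≤ y) (hA : 1 ≤ A) (hl : 700 ≤ l)
    (hDl : D ≤ l) (hrl : r + 3 ≤ l) (h1 : La ≤ l) (h2 : (l : ℝ) ≤ 2 * La) (hB : l ^ 20 * A ≤ B1)
    (hB' : 16 * D * y ≤ B1 * La) (hTe : T = 4 * (r + 3) * B1)
    (hX : X ≤ 4 + 6 * T + 6 * T * l ^ 3 + 2 * y) :
    2 * D * X / ((l ^ 9 : ℕ) : ℝ) + 8 * D * log A + La < ((B1 / l ^ 3 : ℕ) : ℝ) * La := by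
  have hl' : (700 : ℝ) ≤ l := by exact_mod_cast hl
  have hDl' : (D : ℝ) ≤ l := by exact_mod_cast hDl
  have hrl' : (r : ℝ) + 3 ≤ l := by exact_mod_cast hrl
  have hA' : (1 : ℝ) ≤ A := by exact_mod_cast hA
  have hB0 : (l : ℝ) ^ 20 * A ≤ B1 := by exact_mod_cast hB
  have hl1 : (1 : ℝ) ≤ l := by linarith
  have hl0 : (0 : ℝ) < l := by linarith
  have hB1 : (1 : ℝ) ≤ B1 := by
    have : (1 : ℝ) ≤ (l : ℝ) ^ 20 := one_le_pow₀ hl1
    nlinarith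
  have hT1 : 1 ≤ T := by
    rw [hTe]
    have : (0 : ℝ) ≤ r := by positivity
    nlinarith
  have hTl : T ≤ 4 * l * B1 := by rw [hTe]; gcongr
  have hl3 : (10 : ℝ) ≤ (l : ℝ) ^ 3 := by
    calc (10 : ℝ) ≤ l := by linarith
      _ = l ^ 1 := by ring
      _ ≤ l ^ 3 := pow_le_pow_right₀ hl1 (by norm_num)
  have a1 : X ≤ 7 * T * l ^ 3 + 2 * y := by nlinarith
  have a2 : 2 * (D : ℝ) * X ≤ 57 * l ^ 5 * B1 := by
    have b1 : (D : ℝ) * (7 * T * l ^ 3) ≤ l * (7 * (4 * l * B1) * l ^ 3) := by gcongr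
    have b2 : (B1 : ℝ) * La ≤ B1 * l ^ 5 := by
      gcongr
      calc La ≤ l := h1
        _ = l ^ 1 := by ring
        _ ≤ l ^ 5 := pow_le_pow_right₀ hl1 (by norm_num)
    have b3 : (D : ℝ) * X ≤ D * (7 * T * l ^ 3 + 2 * y) := by gcongr
    have b4 : (0 : ℝ) ≤ D * y := by positivity
    nlinarith
  set x : ℝ := B1 / l ^ 4 with hx
  have hxB : (B1 : ℝ) = x * l ^ 4 := by rw [hx]; field_simp
  have a3 : 2 * D * X / ((l ^ 9 : ℕ) : ℝ) ≤ 57 * x := by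
    push_cast
    rw [div_le_iff₀ (by positivity)]
    calc 2 * (D : ℝ) * X ≤ 57 * l ^ 5 * B1 := a2
      _ = 57 * x * l ^ 9 := by rw [hxB]; ring
  have a4 : x * l - 1 ≤ ((B1 / l ^ 3 : ℕ) : ℝ) := by
    have b1 : B1 < l ^ 3 * (B1 / l ^ 3 + 1) := Nat.lt_mul_div_succ B1 (by positivity)
    have b2 : (B1 : ℝ) < l ^ 3 * (((B1 / l ^ 3 : ℕ) : ℝ) + 1) := by exact_mod_cast b1
    have b3 : (l : ℝ) ^ 3 * (x * l) < l ^ 3 * (((B1 / l ^ 3 : ℕ) : ℝ) + 1) := by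
      calc (l : ℝ) ^ 3 * (x * l) = B1 := by rw [hxB]; ring
        _ < _ := b2
    have := lt_of_mul_lt_mul_left b3 (by positivity)
    linarith
  have a5 : (l : ℝ) * l * A ≤ x := by
    rw [hx, le_div_iff₀ (by positivity)]
    calc (l : ℝ) * l * A * l ^ 4 = (l : ℝ) ^ 6 * A := by ring
      _ ≤ (l : ℝ) ^ 20 * A :=
        mul_le_mul_of_nonneg_right (pow_le_pow_right₀ hl1 (by norm_num)) (by positivity)
      _ ≤ B1 := hB0
  have a6 : 8 * D * log A ≤ 8 * l * A := by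
    have : log A ≤ A := (log_le_sub_one_of_pos (by linarith)).trans (by linarith)
    have h0 : 0 ≤ log A := log_nonneg hA'
    gcongr
  have hLa0 : 0 < La := by linarith
  have a7 : (x * l - 1) * La ≤ ((B1 / l ^ 3 : ℕ) : ℝ) * La := by gcongr
  have hlA : (l : ℝ) ≤ l * A := le_mul_of_one_le_right hl0.le hA'
  have a8 : 700 * ((l : ℝ) * A) ≤ x := by
    have : 700 * ((l : ℝ) * A) ≤ l * (l * A) := by gcongr
    linarith
  have hx0 : 0 < x := by linarith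
  have a9 : 58 * x ≤ x * l * La := by
    have : (58 : ℝ) ≤ l * La := by nlinarith
    nlinarith
  nlinarith

end NC

theorem t_NC : S_NC := by
  intro W A r D l τ B1 T Lc J La hA hl hD hr h1 h2 hB hB' hT hL0 hL hJ0 hJ
  exact NC.b2ineq A r D l B1 La _ (W * τ) T (by positivity) hA hl hD hr h1 h2 hB hB'
    (by rw [hT]; push_cast; ring) (NC.logbd l T Lc J _ (by positivity) hL0 hL hJ0 hJ)

end Pool.Agent.P.MP_657a03_nt.AB
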