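import Pool.Agent.P.MP_657a03_nt.AB.If

/-! Proof of NCC. -/

set_option autoImplicit false

open NumberField NumberField.Units Module Real Matrix Polynomial

namespace Pool.Agent.P.MP_657a03_nt.AB

namespace NCC

open scoped ComplexConjugate

theorem not_cube (q : ℚ) : q ^ 3 ≠ 2 := by
  intro hq
  have h := congrArg Rat.num hq
  rw [Rat.num_pow] at h
  have h2 : q.num ^ 3 = 2 := h
  have hm := (Odd.strictMono_pow (R := ℤ) (n := 3) (by decide)).monotone
  rcases le_or_gt q.num 1 with h1 | h1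
  · have := hm h1
    simp only [h2] at this
    omega
  · have := hm (show (2 : ℤ) ≤ q.num from h1)
    simp only [h2] at this
    omega

theorem uniq {z w : ℂ} (hz : z = conj z) (hw : w = conj w) (h : z ^ 3 = w ^ 3) : z = w := by
  obtain ⟨x, rfl⟩ := Complex.conj_eq_iff_real.1 hz.symm
  obtain ⟨y, rfl⟩ := Complex.conj_eq_iff_real.1 hw.symm
  have h1 : x ^ 3 = y ^ 3 := by exact_mod_cast h
  rw [(Odd.strictMono_pow (R := ℝ) (n := 3) (by decide)).injective h1]

end NCC

theorem t_NCC : S_NCC := by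
  intro E _ _ _ α h hα ψ a _ hc
  by_contra hne
  simp only [not_exists, not_not] at hne
  set c := h ^ a
  have hcc : ∀ x, c (c x) = x := fun x => ψ.injective (by rw [hc, hc, Complex.conj_conj])
  have hcα : c α ^ 3 = 2 := by rw [← map_pow, hα, map_ofNat]
  set β := 2 / (α * c α) with hβ
  have hβ3 : β ^ 3 = 2 := by rw [hβ, div_pow, mul_pow, hα, hcα]; norm_num
  have hcβ : c β = β := by rw [hβ, map_div₀, map_mul, hcc, map_ofNat, mul_comm]
  have hg : ∀ g : E ≃ₐ[ℚ] E, g β = β := by
    intro g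
    have h1 : c (g β) = g β := by
      have := congrArg (fun σ : E ≃ₐ[ℚ] E => σ β) (hne g)
      simp only [AlgEquiv.mul_apply] at this
      rw [← this, hcβ]
    refine ψ.injective (NCC.uniq ?_ ?_ ?_)
    · rw [← hc, h1]
    · rw [← hc, hcβ]
    · rw [← map_pow, ← map_pow, ← map_pow, hβ3, map_ofNat]
  obtain ⟨q, hq⟩ := IntermediateField.mem_bot.1 ((IsGalois.mem_bot_iff_fixed β).2 hg)
  refine NCC.not_cube q ((algebraMap ℚ E).injective ?_)
  rw [map_pow, hq, hβ3, map_ofNat]

end Pool.Agent.P.MP_657a03_nt.AB
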