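import Pool.Agent.P.MP_657a03_nt.AB.If

/-! Proof of NEWT. -/

set_option autoImplicit false

open NumberField NumberField.Units Module Real Matrix Polynomial

namespace Pool.Agent.P.MP_657a03_nt.AB

namespace NEWT

variable {L : Type} [NormedField L] [IsUltrametricDist L]

theorem norm_add_le {a b : L} {x : ℝ} (ha : ‖a‖ ≤ x) (hb : ‖b‖ ≤ x) : ‖a + b‖ ≤ x :=
  (IsUltrametricDist.norm_add_le_max a b).trans (max_le ha hb)

theorem norm_sub_le' {a b : L} {x : ℝ} (ha : ‖a‖ ≤ x) (hb : ‖b‖ ≤ x) : ‖a - b‖ ≤ x := by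
  rw [sub_eq_add_neg]
  exact norm_add_le ha (by rwa [norm_neg])

theorem eval_le (P : L[X]) (u : L) (c : ℝ) (hc : 0 ≤ c) (hu : ‖u‖ ≤ 1)
    (hP : ∀ k, ‖P.coeff k‖ ≤ c) : ‖P.eval u‖ ≤ c := by
  rw [eval_eq_sum_range]
  refine IsUltrametricDist.norm_sum_le_of_forall_le_of_nonneg hc fun i _ => ?_
  rw [norm_mul, norm_pow]
  calc ‖P.coeff i‖ * ‖u‖ ^ i ≤ c * 1 :=
        mul_le_mul (hP i) (pow_le_one₀ (norm_nonneg _) hu) (by positivity) hc
    _ = c := mul_one c

omit [IsUltrametricDist L] in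
theorem coeff_zero_eq (Q Q1 : L[X]) (d e : L) (h : Q = (X + C d) * Q1 + C e) :
    Q.coeff 0 = d * Q1.coeff 0 + e := by
  rw [h]
  simp [add_mul]

omit [IsUltrametricDist L] in
theorem coeff_succ_eq (Q Q1 : L[X]) (d e : L) (h : Q = (X + C d) * Q1 + C e) (j : ℕ) :
    Q.coeff (j + 1) = Q1.coeff j + d * Q1.coeff (j + 1) := by
  rw [h]
  simp [add_mul, coeff_X_mul, coeff_C_succ]

omit [IsUltrametricDist L] in
theorem split (P : L[X]) (t0 : L) : ∃ P1 : L[X], P = (X + C (-t0)) * P1 + C (P.eval t0) := by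
  refine ⟨P /ₘ (X - C t0), ?_⟩
  have h := modByMonic_add_div P (X - C t0)
  rw [modByMonic_X_sub_C_eq_C_eval] at h
  rw [C_neg, ← sub_eq_add_neg, add_comm]
  exact h.symm

theorem coeff_quot (P P1 : L[X]) (d e : L) (h : P = (X + C d) * P1 + C e) (hd : ‖d‖ ≤ 1)
    (c ρ : ℝ) (hc : 0 ≤ c) (h0 : 0 ≤ ρ) (h1 : ρ ≤ 1) (hP : ∀ k, ‖P.coeff k‖ ≤ c * ρ ^ k) (k : ℕ) :
    ‖P1.coeff k‖ ≤ c * ρ * ρ ^ k := by
  have key : ∀ i k : ℕ, P1.natDegree < k + i → ‖P1.coeff k‖ ≤ c * ρ * ρ ^ k := by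
    intro i
    induction i with
    | zero =>
      intro k hk
      rw [coeff_eq_zero_of_natDegree_lt (by simpa using hk), norm_zero]
      positivity
    | succ i ih =>
      intro k hk
      have h2 := ih (k + 1) (by omega)
      have h3 : P1.coeff k = P.coeff (k + 1) - d * P1.coeff (k + 1) := by
        rw [coeff_succ_eq P P1 d e h k]; ring
      rw [h3]
      refine norm_sub_le' ((hP (k + 1)).trans (le_of_eq (by ring))) ?_
      rw [norm_mul]
      have h4 : 0 ≤ c * ρ * ρ ^ k := by positivity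
      calc ‖d‖ * ‖P1.coeff (k + 1)‖ ≤ 1 * (c * ρ * ρ ^ (k + 1)) :=
            mul_le_mul hd h2 (norm_nonneg _) zero_le_one
        _ = (c * ρ * ρ ^ k) * ρ := by ring
        _ ≤ (c * ρ * ρ ^ k) * 1 := mul_le_mul_of_nonneg_left h1 h4
        _ = c * ρ * ρ ^ k := mul_one _
  exact key (P1.natDegree + 1) k (by omega)

theorem gen (ρ ε : ℝ) (U : ℕ) (t : ℕ → L) (u : L) (h0 : 0 ≤ ρ) (h1 : ρ ≤ 1)
    (ht : ∀ v, ‖t v‖ ≤ 1) (htt : ∀ v < U, ∀ v' < U, v ≠ v' → ‖t v - t v'‖ = 1) (hu : ‖u‖ ≤ 1)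
    (n : ℕ) : ∀ (m : ℕ → ℕ) (P : L[X]) (c : ℝ), 0 ≤ c → ∑ v ∈ Finset.range U, m v = n →
      (∀ k, ‖P.coeff k‖ ≤ c * ρ ^ k) →
      (∀ v < U, ∀ j < m v, ‖(taylor (t v) P).coeff j‖ ≤ ε) →
      ‖P.eval u‖ ≤ max ε (c * ρ ^ n) := by
  induction n with
  | zero =>
    intro m P c hc _ hP _
    refine le_max_of_le_right ?_
    rw [pow_zero, mul_one]
    refine eval_le P u c hc hu fun k => (hP k).trans ?_
    calc c * ρ ^ k ≤ c * 1 := mul_le_mul_of_nonneg_left (pow_le_one₀ h0 h1) hc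
      _ = c := mul_one c
  | succ n ih =>
    intro m P c hc hm hP hT
    obtain ⟨v0, hv0, hm0⟩ : ∃ v0 ∈ Finset.range U, m v0 ≠ 0 :=
      Finset.exists_ne_zero_of_sum_ne_zero (by omega)
    have hv0' : v0 < U := Finset.mem_range.1 hv0
    obtain ⟨P1, hP1⟩ := split P (t v0)
    have he : ‖P.eval (t v0)‖ ≤ ε := by
      have := hT v0 hv0' 0 (Nat.pos_of_ne_zero hm0)
      rwa [taylor_coeff_zero] at this
    have htay : ∀ v, taylor (t v) P =
        (X + C (t v - t v0)) * taylor (t v) P1 + C (P.eval (t v0)) := by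
      intro v
      conv_lhs => rw [hP1]
      rw [map_add, taylor_mul, map_add, taylor_X, taylor_C, taylor_C, sub_eq_add_neg, C_add,
        add_assoc]
    have hsum : ∑ v ∈ Finset.range U, Function.update m v0 (m v0 - 1) v = n := by
      rw [Finset.sum_update_of_mem hv0]
      rw [← Finset.add_sum_erase _ _ hv0, Finset.erase_eq] at hm
      omega
    have hq := coeff_quot P P1 (-t v0) _ hP1 (by rw [norm_neg]; exact ht v0) c ρ hc h0 h1 hP
    have h2 := ih (Function.update m v0 (m v0 - 1)) P1 (c * ρ) (by positivity) hsum hq (by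
      intro v hv j hj
      by_cases hvv : v = v0
      · subst hvv
        rw [Function.update_self] at hj
        have h3 := coeff_succ_eq _ _ _ _ (htay v) j
        rw [sub_self, zero_mul, add_zero] at h3
        rw [← h3]
        exact hT v hv (j + 1) (by omega)
      · rw [Function.update_of_ne hvv] at hj
        have hd := htt v hv v0 hv0' hvv
        induction j with
        | zero =>
          have h3 := coeff_zero_eq _ _ _ _ (htay v)
          have h4 : (t v - t v0) * (taylor (t v) P1).coeff 0 =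
              (taylor (t v) P).coeff 0 - P.eval (t v0) := by rw [h3]; ring
          have h5 := norm_sub_le' (hT v hv 0 hj) he
          rwa [← h4, norm_mul, hd, one_mul] at h5
        | succ j ihj =>
          have h3 := coeff_succ_eq _ _ _ _ (htay v) j
          have h4 : (t v - t v0) * (taylor (t v) P1).coeff (j + 1) =
              (taylor (t v) P).coeff (j + 1) - (taylor (t v) P1).coeff j := by rw [h3]; ring
          have h5 := norm_sub_le' (hT v hv (j + 1) hj) (ihj (by omega))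
          rwa [← h4, norm_mul, hd, one_mul] at h5)
    have h6 : P.eval u = (u - t v0) * P1.eval u + P.eval (t v0) := by
      conv_lhs => rw [hP1]
      simp [sub_eq_add_neg]
    rw [h6]
    refine norm_add_le ?_ (le_max_of_le_left he)
    rw [norm_mul]
    have h7 : c * ρ ^ (n + 1) = c * ρ * ρ ^ n := by ring
    rw [h7]
    calc ‖u - t v0‖ * ‖P1.eval u‖ ≤ 1 * max ε (c * ρ * ρ ^ n) :=
          mul_le_mul (norm_sub_le' hu (ht v0)) h2 (norm_nonneg _) zero_le_one
      _ = _ := one_mul _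

end NEWT

theorem t_NEWT : S_NEWT := by
  intro L _ _ P ρ ε U Δ t u h0 h1 _ hP ht htt hT hu
  have := NEWT.gen ρ ε U t u h0 h1 ht htt hu (U * Δ) (fun _ => Δ) P 1 zero_le_one (by simp)
    (by simpa using hP) hT
  rwa [one_mul] at this

end Pool.Agent.P.MP_657a03_nt.AB
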