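import Pool.Agent.P.MP_657a03_nt.AB.If

/-! Proof of NRM. -/

set_option autoImplicit false

open NumberField NumberField.Units Module Real Matrix Polynomial

namespace Pool.Agent.P.MP_657a03_nt.AB

namespace NRM

theorem unit_int {p : ℕ} {L : Type} [NormedField L] [IsUltrametricDist L] (h : PF p L)
    (n : ℤ) (hn : ¬ (p : ℤ) ∣ n) : ‖(n : L)‖ = 1 := by
  have hp : Prime (p : ℤ) := Nat.prime_iff_prime_int.mp h.prime
  have hc : IsCoprime (p : ℤ) n := (Prime.coprime_iff_not_dvd hp).mpr hn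
  obtain ⟨a, b, hab⟩ := hc
  have h1 : (a : L) * (p : L) + (b : L) * (n : L) = 1 := by
    have := congrArg (fun z : ℤ => (z : L)) hab
    simpa using this
  have hp1 : (p : ℝ)⁻¹ < 1 := inv_lt_one_of_one_lt₀ (by exact_mod_cast h.prime.one_lt)
  have ha : ‖(a : L)‖ ≤ 1 := IsUltrametricDist.norm_intCast_le_one L a
  have hb : ‖(b : L)‖ ≤ 1 := IsUltrametricDist.norm_intCast_le_one L b
  have hn1 : ‖(n : L)‖ ≤ 1 := IsUltrametricDist.norm_intCast_le_one L n
  by_contra hne
  have hlt : ‖(n : L)‖ < 1 := lt_of_le_of_ne hn1 hne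
  have h2 : ‖(a : L) * (p : L)‖ < 1 := by
    rw [norm_mul, h.norm_p]
    calc ‖(a : L)‖ * (p : ℝ)⁻¹ ≤ 1 * (p : ℝ)⁻¹ :=
          mul_le_mul_of_nonneg_right ha (by positivity)
      _ < 1 := by rw [one_mul]; exact hp1
  have h3 : ‖(b : L) * (n : L)‖ < 1 := by
    rw [norm_mul]
    calc ‖(b : L)‖ * ‖(n : L)‖ ≤ 1 * ‖(n : L)‖ :=
          mul_le_mul_of_nonneg_right hb (norm_nonneg _)
      _ < 1 := by rw [one_mul]; exact hlt
  have h4 := IsUltrametricDist.norm_add_le_max ((a : L) * (p : L)) ((b : L) * (n : L))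
  rw [h1, norm_one] at h4
  exact absurd (max_lt h2 h3) (not_lt.mpr h4)

theorem norm_nat {p : ℕ} {L : Type} [NormedField L] [IsUltrametricDist L] (h : PF p L)
    (n : ℕ) (hn : n ≠ 0) : ‖(n : L)‖ = ((p : ℝ) ^ padicValNat p n)⁻¹ := by
  have : Fact p.Prime := ⟨h.prime⟩
  obtain ⟨m, hm⟩ : p ^ padicValNat p n ∣ n := pow_padicValNat_dvd
  have hnd : ¬ (p : ℤ) ∣ (m : ℤ) := by
    intro hd
    have hd' : p ∣ m := by exact_mod_cast hd
    have : p ^ (padicValNat p n + 1) ∣ n := by
      obtain ⟨k, hk⟩ := hd'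
      refine ⟨k, ?_⟩
      calc n = p ^ padicValNat p n * m := hm
        _ = p ^ (padicValNat p n + 1) * k := by rw [hk]; ring
    exact pow_succ_padicValNat_not_dvd hn this
  have h1 : ‖(m : L)‖ = 1 := by
    have := unit_int h (m : ℤ) hnd
    simpa using this
  have h2 : (n : L) = (p : L) ^ padicValNat p n * (m : L) := by
    have := congrArg (fun z : ℕ => (z : L)) hm
    simpa using this
  rw [h2, norm_mul, norm_pow, h.norm_p, h1, mul_one, inv_pow]

theorem two_val_le {p : ℕ} (hp : p.Prime) (ho : p ≠ 2) (m : ℕ) :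
    2 * padicValNat p (m + 1).factorial ≤ m := by
  have : Fact p.Prime := ⟨hp⟩
  have h1 := sub_one_mul_padicValNat_factorial (p := p) (m + 1)
  have h3 : 3 ≤ p := by
    have := hp.two_le
    omega
  have h2 : 1 ≤ (p.digits (m + 1)).sum := by
    by_contra hlt
    have h0 : (p.digits (m + 1)).sum = 0 := by omega
    have hne : p.digits (m + 1) ≠ [] := Nat.digits_ne_nil_iff_ne_zero.mpr (by omega)
    have hl := Nat.getLast_digit_ne_zero p (m := m + 1) (by omega)
    have hmem := List.getLast_mem hne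
    exact hl (List.sum_eq_zero_iff.mp h0 _ hmem)
  have h4 : 2 * padicValNat p (m + 1).factorial ≤ (p - 1) * padicValNat p (m + 1).factorial :=
    Nat.mul_le_mul_right _ (by omega)
  omega

theorem fact_bound {p : ℕ} {L : Type} [NormedField L] [IsUltrametricDist L] (h : PF p L)
    (n k : ℕ) (hk : 2 * padicValNat p n.factorial ≤ k) :
    ‖(n.factorial : L)⁻¹‖ ^ 2 ≤ (p : ℝ) ^ k := by
  rw [norm_inv, norm_nat h _ n.factorial_ne_zero, inv_inv, ← pow_mul]
  exact pow_le_pow_right₀ (by exact_mod_cast h.prime.one_le) (by omega)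

theorem integral_le {L : Type} [NormedField L] [IsUltrametricDist L] (x : L)
    (hx : IsIntegral ℤ x) : ‖x‖ ≤ 1 := by
  obtain ⟨f, hf, hfx⟩ := hx
  by_contra hlt
  have hlt : 1 < ‖x‖ := not_le.mp hlt
  have hsum : x ^ f.natDegree = - ∑ i ∈ Finset.range f.natDegree, (f.coeff i : L) * x ^ i := by
    rw [Polynomial.eval₂_eq_sum_range, Finset.sum_range_succ] at hfx
    have hl : f.coeff f.natDegree = 1 := hf
    rw [hl, map_one, one_mul] at hfx
    simp only [algebraMap_int_eq, eq_intCast] at hfx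
    linear_combination hfx
  have hpos : 0 < ‖x‖ ^ f.natDegree := by positivity
  rcases Nat.eq_zero_or_pos f.natDegree with h0 | h0
  · rw [h0] at hsum
    simp at hsum
  · have hb : ‖∑ i ∈ Finset.range f.natDegree, (f.coeff i : L) * x ^ i‖ ≤
        ‖x‖ ^ (f.natDegree - 1) := by
      refine IsUltrametricDist.norm_sum_le_of_forall_le_of_nonneg (by positivity) ?_
      intro i hi
      have hi' : i < f.natDegree := Finset.mem_range.mp hi
      rw [norm_mul, norm_pow]
      calc ‖(f.coeff i : L)‖ * ‖x‖ ^ i ≤ 1 * ‖x‖ ^ (f.natDegree - 1) :=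
            mul_le_mul (IsUltrametricDist.norm_intCast_le_one L _)
              (pow_le_pow_right₀ hlt.le (by omega)) (by positivity) zero_le_one
        _ = _ := one_mul _
    have h1 : ‖x‖ ^ f.natDegree ≤ ‖x‖ ^ (f.natDegree - 1) := by
      rw [← norm_pow, hsum, norm_neg]
      exact hb
    have h2 : ‖x‖ ^ (f.natDegree - 1) < ‖x‖ ^ f.natDegree :=
      pow_lt_pow_right₀ hlt (by omega)
    exact absurd h1 (not_le.mpr h2)

end NRM

theorem t_NRM : S_NRM := by
  intro p L _ _ h
  refine ⟨NRM.unit_int h, ?_, ?_, ?_, NRM.integral_le⟩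
  · intro n hn
    have : Fact p.Prime := ⟨h.prime⟩
    have h0 : n.natAbs ≠ 0 := Int.natAbs_ne_zero.mpr hn
    have h1 : ‖(n : L)‖ = ‖(n.natAbs : L)‖ := by
      rcases Int.natAbs_eq n with h2 | h2
      · conv_lhs => rw [h2]
        rw [Int.cast_natCast]
      · conv_lhs => rw [h2]
        rw [Int.cast_neg, norm_neg, Int.cast_natCast]
    have h2 : |(n : ℝ)| = (n.natAbs : ℝ) := by
      rw [Nat.cast_natAbs, Int.cast_abs]
    have h3 : p ^ padicValNat p n.natAbs ≤ n.natAbs :=
      Nat.le_of_dvd (Nat.pos_of_ne_zero h0) pow_padicValNat_dvd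
    have h4 : (p : ℝ) ^ padicValNat p n.natAbs ≤ (n.natAbs : ℝ) := by exact_mod_cast h3
    have hp0 : (0 : ℝ) < (p : ℝ) ^ padicValNat p n.natAbs := by
      have : (0 : ℝ) < p := by exact_mod_cast h.prime.pos
      positivity
    rw [h1, h2, NRM.norm_nat h _ h0, ← div_eq_mul_inv, le_div_iff₀ hp0, one_mul]
    exact h4
  · intro m
    rcases m with _ | m
    · simp
    · exact NRM.fact_bound h _ _ (le_trans (NRM.two_val_le h.prime h.odd m) (Nat.le_succ m))
  · intro m
    exact NRM.fact_bound h _ _ (NRM.two_val_le h.prime h.odd m)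

end Pool.Agent.P.MP_657a03_nt.AB
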