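import Pool.Agent.P.MP_657a03_nt.AB.If
import Pool.Agent.P.MP_657a03_nt.Num

/-! Proof of NUM. -/

set_option autoImplicit false

open NumberField NumberField.Units Module Real Matrix Polynomial

namespace Pool.Agent.P.MP_657a03_nt.AB

namespace NUM

open NumAux

lemma thr (W κ0 A : ℕ) (G : ℝ) (hG : 1 ≤ G) : ∃ M : ℝ, W ≤ M ∧ G ≤ M ∧ 100 * (A + 1) ^ 2 ≤ M ∧
    2 * exp 3 * A ^ (2 * A) * G ^ κ0 ≤ M ∧ 24 * 2 ^ 30 * A ^ 2 ≤ M ∧ 20 ^ 10 * 2 ^ 9 ≤ M ∧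
    1000 * (A + 3) ≤ M := by
  have a1 : (0 : ℝ) ≤ W := by positivity
  have a2 : (0 : ℝ) ≤ G := by linarith
  have a3 : (0 : ℝ) ≤ 100 * (A + 1) ^ 2 := by positivity
  have a4 : (0 : ℝ) ≤ 2 * exp 3 * A ^ (2 * A) * G ^ κ0 := by positivity
  have a5 : (0 : ℝ) ≤ 24 * 2 ^ 30 * A ^ 2 := by positivity
  have a6 : (0 : ℝ) ≤ 20 ^ 10 * 2 ^ 9 := by positivity
  have a7 : (0 : ℝ) ≤ 1000 * (A + 3) := by positivity
  refine ⟨W + G + 100 * (A + 1) ^ 2 + 2 * exp 3 * A ^ (2 * A) * G ^ κ0 + 24 * 2 ^ 30 * A ^ 2 +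
    20 ^ 10 * 2 ^ 9 + 1000 * (A + 3), ?_, ?_, ?_, ?_, ?_, ?_, ?_⟩ <;> linarith

lemma uineq (r l : ℕ) (La : ℝ) (h0 : 20 ^ 10 * 2 ^ 9 ≤ La) (hr : (r : ℝ) + 2 ≤ La / 2)
    (h2 : (l : ℝ) ≤ 2 * La) : (2 : ℝ) ^ (r + 2) * l ^ 9 ≤ exp La := by
  have hL : 0 < La := lt_of_lt_of_le (by norm_num) h0
  have a1 : (2 : ℝ) ^ (r + 2) ≤ exp (La / 2) :=
    (two_pow_le _).trans (exp_le_exp.2 (by push_cast; exact hr))
  have a2 : (l : ℝ) ^ 9 ≤ (2 * La) ^ 9 := pow_le_pow_left₀ (by positivity) h2 9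
  have a3 : (La / 20) ^ 10 ≤ exp (La / 20) ^ 10 :=
    pow_le_pow_left₀ (by positivity) (by have := add_one_le_exp (La / 20); linarith) 10
  have a4 : exp (La / 20) ^ 10 = exp (La / 2) := by
    rw [← exp_nat_mul]; congr 1; push_cast; ring
  have a5 : (2 * La) ^ 9 ≤ (La / 20) ^ 10 := by
    calc (2 * La) ^ 9 = (20 ^ 10 * 2 ^ 9) * (La ^ 9 / 20 ^ 10) := by ring
      _ ≤ La * (La ^ 9 / 20 ^ 10) := by gcongr
      _ = (La / 20) ^ 10 := by ring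
  calc (2 : ℝ) ^ (r + 2) * l ^ 9 ≤ exp (La / 2) * exp (La / 2) :=
        mul_le_mul a1 (a2.trans (a5.trans (a3.trans_eq a4))) (by positivity) (by positivity)
    _ = exp La := by rw [← exp_add]; congr 1; ring

lemma nineq (A Q r l B1 N : ℕ) (La : ℝ) (h0 : 1 ≤ La) (hA : 24 * 2 ^ 30 * (A : ℝ) ^ 2 ≤ La)
    (h2 : (l : ℝ) ≤ 2 * La) (hB : (B1 : ℝ) ≤ 2 * (Q * l ^ 21 * exp (-(2 * r))) * A ^ 2)
    (hN : Q * La ^ 60 * exp (-r) < N) : 2 ^ (r + 2) * l ^ 9 * (3 * B1) ≤ N := by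
  have a3 : (2 : ℝ) ^ r * exp (-(2 * r)) ≤ exp (-r) := by
    calc (2 : ℝ) ^ r * exp (-(2 * r)) ≤ exp r * exp (-(2 * r)) := by
          gcongr; exact two_pow_le r
      _ = exp (-r) := by rw [← exp_add]; congr 1; ring
  have a4 : (l : ℝ) ^ 30 ≤ (2 * La) ^ 30 := pow_le_pow_left₀ (by positivity) h2 30
  have a5 : 24 * 2 ^ 30 * (A : ℝ) ^ 2 ≤ La ^ 30 := hA.trans (le_self_pow₀ h0 (by norm_num))
  have a6 : ((2 ^ (r + 2) * l ^ 9 * (3 * B1) : ℕ) : ℝ) ≤ Q * La ^ 60 * exp (-r) := by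
    push_cast
    calc (2 : ℝ) ^ (r + 2) * l ^ 9 * (3 * B1)
        ≤ 2 ^ (r + 2) * l ^ 9 * (3 * (2 * (Q * l ^ 21 * exp (-(2 * r))) * A ^ 2)) := by gcongr
      _ = 24 * A ^ 2 * l ^ 30 * Q * (2 ^ r * exp (-(2 * r))) := by ring
      _ ≤ 24 * A ^ 2 * (2 * La) ^ 30 * Q * exp (-r) := by gcongr
      _ = (24 * 2 ^ 30 * A ^ 2) * La ^ 30 * Q * exp (-r) := by ring
      _ ≤ La ^ 30 * La ^ 30 * Q * exp (-r) := by gcongr
      _ = Q * La ^ 60 * exp (-r) := by ring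
  exact_mod_cast a6.trans hN.le

lemma lcineq (r D l T : ℕ) (hl : 700 ≤ l) (hDl : D ≤ l) (hrT : r ≤ T) (hT : l ^ 20 ≤ T) :
    (l ^ 9 + 1) * (D * (l ^ 9 * (T + r).choose r)) ≤ 2 ^ (3 * T) := by
  have hl9 : 1 ≤ l ^ 9 := Nat.one_le_pow _ _ (by omega)
  have a1 : (T + r).choose r ≤ 2 ^ (2 * T) :=
    (Nat.choose_le_two_pow _ _).trans (Nat.pow_le_pow_right (by norm_num) (by omega))
  have a2 : (l ^ 9 + 1) * D * l ^ 9 ≤ 2 ^ T := by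
    calc (l ^ 9 + 1) * D * l ^ 9 ≤ (2 * l ^ 9) * l * l ^ 9 := by gcongr; omega
      _ = 2 * l ^ 19 := by ring
      _ ≤ l * l ^ 19 := by gcongr; omega
      _ = l ^ 20 := by ring
      _ ≤ T := hT
      _ ≤ 2 ^ T := Nat.lt_two_pow_self.le
  calc _ = ((l ^ 9 + 1) * D * l ^ 9) * (T + r).choose r := by ring
    _ ≤ 2 ^ T * 2 ^ (2 * T) := Nat.mul_le_mul a2 a1
    _ = 2 ^ (3 * T) := by rw [← pow_add]; congr 1; ring

lemma tineq (r l B1 : ℕ) (hl : 700 ≤ l) :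
    (r + 3) * (2 * B1 + (l ^ 3 + 2) * (B1 / l ^ 3)) ≤ 4 * (r + 3) * B1 := by
  have a1 : l ^ 3 * (B1 / l ^ 3) ≤ B1 := Nat.mul_div_le _ _
  have a2 : 2 ≤ l ^ 3 := le_trans (by omega) (Nat.le_self_pow (by norm_num) l)
  have a3 : 2 * (B1 / l ^ 3) ≤ l ^ 3 * (B1 / l ^ 3) := by gcongr
  have a4 : 2 * B1 + (l ^ 3 + 2) * (B1 / l ^ 3) ≤ 4 * B1 := by rw [add_mul]; omega
  calc (r + 3) * (2 * B1 + (l ^ 3 + 2) * (B1 / l ^ 3)) ≤ (r + 3) * (4 * B1) := by gcongr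
    _ = _ := by ring

lemma cineq (Lc J T U : ℕ) (x : ℝ) (hL : 0 < Lc) (hJ : 1 ≤ J) (hU : 0 < U) :
    3 * Lc * ((J : ℝ) ^ T * exp x ^ (2 * U)) ≤ ((3 * Lc * J ^ T * ⌈exp x⌉₊ ^ 2 : ℕ) : ℝ) ^ U := by
  push_cast
  have a1 : exp x ≤ (⌈exp x⌉₊ : ℝ) := Nat.le_ceil _
  have a2 : (1 : ℝ) ≤ Lc := by exact_mod_cast hL
  have a3 : (1 : ℝ) ≤ (J : ℝ) ^ T := one_le_pow₀ (by exact_mod_cast hJ)
  have a4 : (1 : ℝ) ≤ 3 * Lc * (J : ℝ) ^ T := one_le_mul_of_one_le_of_one_le (by linarith) a3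
  have a5 : 3 * Lc * (J : ℝ) ^ T ≤ (3 * Lc * (J : ℝ) ^ T) ^ U := le_self_pow₀ a4 (by omega)
  have a6 : exp x ^ (2 * U) ≤ (⌈exp x⌉₊ : ℝ) ^ (2 * U) := pow_le_pow_left₀ (by positivity) a1 _
  rw [mul_pow, ← pow_mul (⌈exp x⌉₊ : ℝ), ← mul_assoc]
  exact mul_le_mul a5 a6 (by positivity) (by positivity)

lemma lineq (A p r D l B1 N : ℕ) (hl : 700 ≤ l) (hp : 2 ^ D ≤ p) (hA : A ^ 2 ≤ 2 ^ l ^ 3)
    (hB : 1 ≤ B1) (hN : 2 ^ (r + 2) * l ^ 9 * (3 * B1) ≤ N) :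
    (A ^ 2 * 2 ^ l ^ 3) ^ D * p ^ (2 ^ (r + 2) * l ^ 9 * (B1 + B1 / l ^ 3) + 1) ≤ p ^ N := by
  have hp1 : 0 < p := lt_of_lt_of_le (by positivity) hp
  have a1 : (A ^ 2 * 2 ^ l ^ 3) ^ D ≤ p ^ (2 * l ^ 3) := by
    calc (A ^ 2 * 2 ^ l ^ 3) ^ D ≤ (2 ^ l ^ 3 * 2 ^ l ^ 3) ^ D := by gcongr
      _ = (2 ^ D) ^ (2 * l ^ 3) := by rw [← pow_add, ← pow_mul, ← pow_mul]; congr 1; ring
      _ ≤ _ := Nat.pow_le_pow_left hp _
  have a2 : 2 * l ^ 3 + 1 ≤ 2 ^ (r + 2) * l ^ 9 * B1 := by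
    have b1 : l ^ 3 ≤ l ^ 9 := Nat.pow_le_pow_right (by omega) (by norm_num)
    have b2 : 1 ≤ l ^ 9 := Nat.one_le_pow _ _ (by omega)
    have b3 : 2 ^ 2 ≤ 2 ^ (r + 2) := Nat.pow_le_pow_right (by norm_num) (by omega)
    calc 2 * l ^ 3 + 1 ≤ 2 ^ 2 * l ^ 9 * 1 := by omega
      _ ≤ _ := by gcongr
  have a3 : 2 ^ (r + 2) * l ^ 9 * (B1 + B1 / l ^ 3) ≤ 2 ^ (r + 2) * l ^ 9 * (2 * B1) := by
    have := Nat.div_le_self B1 (l ^ 3)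
    gcongr; omega
  have a4 : 2 ^ (r + 2) * l ^ 9 * (3 * B1) =
      2 ^ (r + 2) * l ^ 9 * (2 * B1) + 2 ^ (r + 2) * l ^ 9 * B1 := by ring
  calc _ ≤ p ^ (2 * l ^ 3) * p ^ (2 ^ (r + 2) * l ^ 9 * (B1 + B1 / l ^ 3) + 1) := by gcongr
    _ ≤ p ^ N := by
      rw [← pow_add]
      exact Nat.pow_le_pow_right hp1 (by omega)

end NUM

open NUM NumAux in
theorem t_NUM (ha : S_NA) (hb : S_NB) (hc : S_NC) : S_NUM := by
  intro W κ0 G hW _ hG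
  have hW' : (1 : ℝ) ≤ W := by exact_mod_cast hW
  have hC0 : 238 * (W : ℝ) ≤ 238 * W * exp 2 * G ^ κ0 := by
    have a1 : (1 : ℝ) ≤ exp 2 := one_le_exp (by norm_num)
    have a2 : (1 : ℝ) ≤ G ^ κ0 := one_le_pow₀ hG
    calc 238 * (W : ℝ) = 238 * W * 1 * 1 := by ring
      _ ≤ _ := by gcongr
  refine ⟨238 * W * exp 2 * G ^ κ0, by linarith, fun A hA => ?_⟩
  obtain ⟨M, m1, m2, m3, m4, m5, m6, m7⟩ := thr W κ0 A G hG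
  refine ⟨⌈exp M⌉₊, fun p hp r D N Q hr hD1 hD2 hC hQ1 hQ2 hN => ?_⟩
  have hA' : (1 : ℝ) ≤ A := by exact_mod_cast hA
  have hpe : exp M ≤ p := (Nat.le_ceil _).trans (by exact_mod_cast hp.le)
  have hp0 : (0 : ℝ) < p := lt_of_lt_of_le (exp_pos _) hpe
  have hM : M ≤ log p := by rw [le_log_iff_exp_le hp0]; exact hpe
  have hpL : exp (log p) = p := exp_log hp0
  clear hpe hp
  generalize log (p : ℝ) = La at *
  have hLa2 : (1000 : ℝ) ≤ La := by linarith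
  have hLa0 : 0 < La := by linarith
  obtain ⟨l, h1, h2⟩ : ∃ l : ℕ, La ≤ l ∧ (l : ℝ) ≤ 2 * La := by
    refine ⟨⌈La⌉₊, Nat.le_ceil _, ?_⟩
    have := Nat.ceil_lt_add_one hLa0.le
    linarith
  have hl700 : 700 ≤ l := by
    have : ((700 : ℕ) : ℝ) ≤ l := by push_cast; linarith
    exact_mod_cast this
  have hl1 : (1 : ℝ) ≤ l := by linarith
  have hD0 : (1 : ℝ) ≤ D := by exact_mod_cast hD1
  have hWD : 238 * (W : ℝ) * D ≤ La := le_trans (by gcongr) hC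
  have hDL : 238 * (D : ℝ) ≤ La := by
    have : 238 * (1 : ℝ) * D ≤ 238 * W * D := by gcongr
    linarith
  have hr' : (r : ℝ) ≤ D + A := by exact_mod_cast hr
  have hDl : D ≤ l := by
    have : (D : ℝ) ≤ l := by linarith
    exact_mod_cast this
  have hrl : r + 3 ≤ l := by
    have : ((r + 3 : ℕ) : ℝ) ≤ l := by push_cast; linarith
    exact_mod_cast this
  have hWl : W ≤ l := by exact_mod_cast m1.trans (hM.trans h1)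
  have hAl : 100 * (A + 1) ^ 2 ≤ l := by exact_mod_cast m3.trans (hM.trans h1)
  have hr0 : (0 : ℝ) ≤ r := by positivity
  -- the parameter `I`
  have hpe2 : 1 ≤ (Q : ℝ) * exp (-(2 * r)) := by
    have a1 : (p : ℝ) ≤ 2 * Q := by exact_mod_cast hQ1
    have a2 : (2 : ℝ) ≤ p * exp (-(2 * r)) := by
      rw [← hpL, ← exp_add]
      exact two_le_e.trans (exp_le_exp.2 (by linarith))
    have a3 : (p : ℝ) * exp (-(2 * r)) ≤ 2 * Q * exp (-(2 * r)) := by gcongr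
    linarith
  have hl21 : (1 : ℝ) ≤ (l : ℝ) ^ 21 := one_le_pow₀ hl1
  have hpe3 : (l : ℝ) ^ 21 ≤ (Q : ℝ) * l ^ 21 * exp (-(2 * r)) := by
    have := mul_le_mul_of_nonneg_left hpe2 (show (0 : ℝ) ≤ (l : ℝ) ^ 21 by positivity)
    linarith
  obtain ⟨I, hI1, hI2⟩ : ∃ I : ℕ, (Q : ℝ) * l ^ 21 * exp (-(2 * r)) ≤ I ∧
      (I : ℝ) ≤ 2 * (Q * l ^ 21 * exp (-(2 * r))) := by
    refine ⟨⌈(Q : ℝ) * l ^ 21 * exp (-(2 * r))⌉₊, Nat.le_ceil _, ?_⟩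
    have a1 := Nat.ceil_lt_add_one (show 0 ≤ (Q : ℝ) * l ^ 21 * exp (-(2 * r)) by positivity)
    linarith
  have hIl : l ^ 21 ≤ I := by exact_mod_cast hpe3.trans hI1
  have hIp : I ≤ 2 * Q * l ^ 21 := by
    have a1 : exp (-(2 * r) : ℝ) ≤ 1 := exp_le_one_iff.mpr (by linarith)
    have a2 : (Q : ℝ) * l ^ 21 * exp (-(2 * r)) ≤ Q * l ^ 21 * 1 := by gcongr
    have : (I : ℝ) ≤ 2 * Q * l ^ 21 := by linarith
    exact_mod_cast this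
  obtain ⟨τ, hτ⟩ : ∃ τ : ℕ, τ = I * A ^ 2 := ⟨_, rfl⟩
  have hAA : A ≤ A ^ 2 := Nat.le_self_pow (by norm_num) A
  have hτl : l ^ 21 * A ≤ τ := by rw [hτ]; gcongr
  have hIτ : I ≤ τ := by rw [hτ]; exact Nat.le_mul_of_pos_right _ (by omega)
  have hτ1 : (l : ℝ) ≤ τ := by
    exact_mod_cast (Nat.le_self_pow (by norm_num) l).trans (hIl.trans hIτ)
  have hτ2 : (τ : ℝ) ≤ 2 * (Q * l ^ 21 * exp (-(2 * r))) * A ^ 2 := by
    rw [hτ]; push_cast; gcongr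
  have hτ3 : τ ≤ 2 * A ^ 2 * Q * l ^ 21 := by
    calc τ = I * A ^ 2 := hτ
      _ ≤ 2 * Q * l ^ 21 * A ^ 2 := by gcongr
      _ = _ := by ring
  -- the parameter `B1`
  have hDτ0 : (τ : ℝ) ≤ D * (W * τ) := by
    calc (τ : ℝ) = 1 * (1 * τ) := by ring
      _ ≤ _ := by gcongr
  obtain ⟨B1, hB1, hB2⟩ : ∃ B1 : ℕ, 16 * D * (W * τ : ℝ) ≤ B1 * La ∧
      B1 * La ≤ 17 * (D * (W * τ)) := by
    refine ⟨⌈16 * (D * (W * τ)) / La⌉₊, ?_, ?_⟩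
    · have a1 := Nat.le_ceil (16 * ((D : ℝ) * (W * τ)) / La)
      rw [div_le_iff₀ hLa0] at a1
      linarith
    · have a1 := Nat.ceil_lt_add_one (show 0 ≤ 16 * ((D : ℝ) * (W * τ)) / La by positivity)
      have a2 := mul_le_mul_of_nonneg_right a1.le hLa0.le
      rw [add_mul, div_mul_cancel₀ _ hLa0.ne'] at a2
      linarith
  have hB3 : l ^ 20 * A ≤ B1 := by
    have a1 : (l : ℝ) ^ 21 * A ≤ τ := by exact_mod_cast hτl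
    have a2 : (B1 : ℝ) * La ≤ B1 * l := by gcongr
    have a4 : (l : ℝ) ^ 20 * A * l ≤ B1 * l := by
      have : (l : ℝ) ^ 20 * A * l = l ^ 21 * A := by ring
      linarith
    have a5 : (l : ℝ) ^ 20 * A ≤ B1 := le_of_mul_le_mul_right a4 (by linarith)
    exact_mod_cast a5
  have hB4 : (B1 : ℝ) ≤ τ := by
    have a1 : 238 * (W : ℝ) * D * τ ≤ La * τ := by gcongr
    have a2 : (B1 : ℝ) * La ≤ τ * La := by linarith
    exact le_of_mul_le_mul_right a2 hLa0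
  have hl20 : l ^ 20 ≤ B1 := le_trans (Nat.le_mul_of_pos_right _ hA) hB3
  have hB0 : 1 ≤ B1 := le_trans (Nat.one_le_pow _ _ (by omega)) hl20
  obtain ⟨T, hT⟩ : ∃ T : ℕ, T = 4 * (r + 3) * B1 := ⟨_, rfl⟩
  have hrT : r ≤ T := by
    rw [hT]; exact le_trans (by omega) (Nat.le_mul_of_pos_right _ hB0)
  have hBT : B1 ≤ T := by
    rw [hT]; exact Nat.le_mul_of_pos_left _ (by omega)
  obtain ⟨Lc, hLc⟩ : ∃ Lc : ℕ, Lc = (l ^ 9 + 1) * (D * (l ^ 9 * (T + r).choose r)) := ⟨_, rfl⟩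
  have hl9 : 1 ≤ l ^ 9 := Nat.one_le_pow _ _ (by omega)
  have hLc0 : 0 < Lc := by
    rw [hLc]
    have : 0 < (T + r).choose r := Nat.choose_pos (by omega)
    positivity
  have hLc1 : Lc ≤ 2 ^ (3 * T) := hLc ▸ lcineq r D l T hl700 hDl hrT (hl20.trans hBT)
  have hA2 : 2 * A ^ 2 ≤ 2 ^ l ^ 3 := by
    have a1 : A ^ 2 ≤ (A + 1) ^ 2 := Nat.pow_le_pow_left (by omega) 2
    have a2 : l ≤ l ^ 3 := Nat.le_self_pow (by norm_num) l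
    have a3 : l ^ 3 < 2 ^ l ^ 3 := Nat.lt_two_pow_self
    omega
  obtain ⟨J', hJ'⟩ : ∃ J' : ℕ, J' = 2 * A ^ 2 * (2 ^ l ^ 3) ^ 2 := ⟨_, rfl⟩
  have hJ1 : 1 ≤ J' := by
    rw [hJ']; exact Nat.succ_le_of_lt (by positivity)
  have hJ2 : J' ≤ 2 ^ (3 * l ^ 3) := by
    calc J' = 2 * A ^ 2 * (2 ^ l ^ 3) ^ 2 := hJ'
      _ ≤ 2 ^ l ^ 3 * (2 ^ l ^ 3) ^ 2 := by gcongr
      _ = _ := by rw [mul_comm 3, pow_mul]; ring
  have hp4 : p ≤ 4 ^ l := by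
    have b1 : (p : ℝ) ≤ exp l := by rw [← hpL]; exact exp_le_exp.mpr h1
    exact_mod_cast b1.trans (exp_le_four l)
  have hp2 : 2 ^ D ≤ p := by
    have b1 : exp D ≤ (p : ℝ) := by rw [← hpL]; exact exp_le_exp.mpr (by linarith)
    exact_mod_cast (two_pow_le D).trans b1
  refine ⟨τ, I, l ^ 9, B1, B1 / l ^ 3, l ^ 3 + 2, 2 ^ l ^ 3, J',
    3 * Lc * J' ^ T * ⌈exp (W * τ)⌉₊ ^ 2, T, Lc, hτ, by linarith, ?_, ?_, ?_, hJ'.ge,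
    hT ▸ tineq r l B1 hl700, by omega, hLc.ge, cineq Lc J' T _ _ hLc0 hJ1 (by omega), hB1,
    hc W A r D l τ B1 T Lc J' La hA hl700 hDl hrl h1 h2 hB3 hB1 hT hLc0 hLc1 hJ1 hJ2, ?_, ?_⟩
  · rw [hLc, hT]
    refine ha W κ0 A Q r D l τ B1 G La hW hG hD2 hD1 hDl hC hB2 hB0
      (hI1.trans (by exact_mod_cast hIτ)) ?_
    exact (m4.trans (hM.trans h1)).trans (le_self_pow₀ hl1 (by norm_num))
  · exact_mod_cast hb W A p Q r D l τ hQ2 hp4 hDl (by omega) hτ3 hWl hAl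
  · rw [pow_add]
    have : 0 < 2 ^ (l ^ 3) := by positivity
    omega
  · have := uineq r l La (m6.trans hM) (by linarith) h2
    rw [hpL] at this
    exact_mod_cast this
  · exact_mod_cast lineq A p r D l B1 N hl700 hp2 (by omega) hB0
      (nineq A Q r l B1 N La (by linarith) (m5.trans hM) h2 (hB4.trans hτ2) hN)

end Pool.Agent.P.MP_657a03_nt.AB
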