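import Pool.Agent.P.MP_657a03_nt.AB.Api

/-! Proof of PW. -/

set_option autoImplicit false

open NumberField NumberField.Units Module Real Matrix Polynomial

namespace Pool.Agent.P.MP_657a03_nt.AB

namespace PW

variable {E : Type} [Field E]

theorem add {d d' A A' : ℕ} {y y' : GE E} (h : Den d A y) (h' : Den d' A' y') :
    Den (d * d') (A * A') (y + y') := by
  have e1 : ((d * d' : ℕ) : E) * vl (y + y') = (d * vl y) * (d' * vl y') := by
    rw [vl_add]; push_cast; ring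
  have e2 : ((d * d' : ℕ) : E) * (vl (y + y'))⁻¹ = (d * (vl y)⁻¹) * (d' * (vl y')⁻¹) := by
    rw [vl_add]; push_cast; ring
  unfold Den
  rw [e1, e2, Nat.cast_mul]
  exact ⟨h.1.mul h'.1, h.2.1.mul h'.2.1, hs_mul h.2.2.1 h'.2.2.1, hs_mul h.2.2.2 h'.2.2.2⟩

theorem zero {d A : ℕ} (h : d ≤ A) : Den d A (0 : GE E) := by
  unfold Den
  rw [vl_zero, inv_one, mul_one]
  have h1 : IsIntegral ℤ (d : E) := by exact_mod_cast isIntegral_algebraMap (R := ℤ) (x := (d : ℤ))
  exact ⟨h1, h1, hs_nat (Nat.cast_le.2 h), hs_nat (Nat.cast_le.2 h)⟩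

theorem nsm {d A : ℕ} {y : GE E} (h : Den d A y) (n : ℕ) : Den (d ^ n) (A ^ n) (n • y) := by
  induction n with
  | zero => simpa using zero le_rfl
  | succ n ih => rw [pow_succ, pow_succ, succ_nsmul]; exact add ih h

theorem zsm {d A : ℕ} {y : GE E} (h : Den d A y) (n : ℤ) :
    Den (d ^ n.natAbs) (A ^ n.natAbs) (n • y) := by
  rcases Int.natAbs_eq n with e | e
  · conv_rhs => rw [e, natCast_zsmul]
    exact nsm h _
  · conv_rhs => rw [e, neg_smul, natCast_zsmul]
    exact (nsm h _).neg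

variable [NumberField E]

theorem int (g : E ≃ₐ[ℚ] E) {x : E} (h : IsIntegral ℤ x) : IsIntegral ℤ (g x) :=
  h.map (g : E →+* E).toIntAlgHom

theorem den (g : E ≃ₐ[ℚ] E) {d A : ℕ} {y : GE E} (h : Den d A y) : Den d A (hat g y) := by
  unfold Den
  rw [vl_hat, ← map_inv₀, ← map_natCast g, ← map_mul, ← map_mul]
  exact ⟨int g h.1, int g h.2.1, fun φ => h.2.2.1 (φ.comp g), fun φ => h.2.2.2 (φ.comp g)⟩

end PW

theorem t_PW : S_PW := by
  intro E _ _ h Ψ W hW
  refine ⟨fun u hu => ⟨?_, fun t ht hs => ?_⟩, fun y d A h1 h2 hd => ?_⟩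
  · rw [aeval_hat]
    refine Submodule.sum_mem _ fun a _ => Submodule.smul_mem _ _ (mem_UU.2 ?_)
    rw [vl_hat, ← map_inv₀]
    exact ⟨PW.int _ (mem_UU.1 hu).1, PW.int _ (mem_UU.1 hu).2⟩
  · have key : ∀ s : Finset ℕ, Sz ((∑ a ∈ s, (Ψ.coeff a).natAbs : ℕ) * t)
        (∑ a ∈ s, Ψ.coeff a • hat (h ^ a) u) := fun s => by
      induction s using Finset.induction_on with
      | empty => intro φ; simp
      | insert a s ha ih =>
        rw [Finset.sum_insert ha, Finset.sum_insert ha, Nat.cast_add, add_mul]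
        exact (Sz.zsmul (fun φ => hs (φ.comp (h ^ a : E ≃ₐ[ℚ] E))) _).add ih
    rw [aeval_hat]
    exact (key _).mono (mul_le_mul_of_nonneg_right (Nat.cast_le.2 hW) ht)
  · have key : ∀ s : Finset ℕ, Den (d ^ ∑ a ∈ s, (Ψ.coeff a).natAbs)
        (A ^ ∑ a ∈ s, (Ψ.coeff a).natAbs) (∑ a ∈ s, Ψ.coeff a • hat (h ^ a) y) := fun s => by
      induction s using Finset.induction_on with
      | empty => simpa using PW.zero le_rfl
      | insert a s ha ih =>
        rw [Finset.sum_insert ha, Finset.sum_insert ha, pow_add, pow_add]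
        exact PW.add (PW.zsm (PW.den _ hd) _) ih
    obtain ⟨k, rfl⟩ := Nat.exists_eq_add_of_le hW
    have := PW.add (key Ψ.support) (PW.zero (Nat.pow_le_pow_left h2 k))
    rwa [add_zero, ← pow_add, ← pow_add, ← aeval_hat] at this

end Pool.Agent.P.MP_657a03_nt.AB
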