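import Pool.Agent.P.MP_657a03_nt.AB.Api

/-! Proof of RANK. -/

set_option autoImplicit false

open NumberField NumberField.Units Module Real Matrix Polynomial

namespace Pool.Agent.P.MP_657a03_nt.AB

namespace RANK

open ComplexEmbedding

variable {E : Type} [Field E] [NumberField E]

/-- the action of an automorphism on the embeddings -/
def act (φ : E →+* ℂ) (g : E ≃ₐ[ℚ] E) : E →+* ℂ := φ.comp (g : E →+* E)

theorem act_mul (φ : E →+* ℂ) (g g' : E ≃ₐ[ℚ] E) : act (act φ g) g' = act φ (g * g') := rfl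

theorem act_one (φ : E →+* ℂ) : act φ 1 = φ := rfl

theorem act_conj (φ : E →+* ℂ) (g : E ≃ₐ[ℚ] E) : act (conjugate φ) g = conjugate (act φ g) := rfl

omit [NumberField E] in
theorem conj_conj (φ : E →+* ℂ) : conjugate (conjugate φ) = φ := star_star φ

theorem act_inj {φ : E →+* ℂ} {g g' : E ≃ₐ[ℚ] E} (h : act φ g = act φ g') : g = g' :=
  AlgEquiv.ext fun x => φ.injective (RingHom.congr_fun h x)

/-- no nontrivial power of `h` is the conjugation of `φ` -/
def Good (h : E ≃ₐ[ℚ] E) (φ : E →+* ℂ) : Prop :=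
  ∀ a : ℕ, act φ (h ^ a) = conjugate φ → h ^ a = 1

theorem uniq {G : Type} [Group G] [Finite G] (h : G) {a b : ℕ} (a1 : h ^ a ≠ 1)
    (a2 : h ^ a * h ^ a = 1) (b1 : h ^ b ≠ 1) (b2 : h ^ b * h ^ b = 1) : h ^ a = h ^ b := by
  have key : ∀ a : ℕ, h ^ a ≠ 1 → h ^ a * h ^ a = 1 → 2 * (a % orderOf h) = orderOf h :=
    fun a a1 a2 => by
      rw [← pow_mod_orderOf] at a1 a2
      have h1 := Nat.mod_lt a (orderOf_pos h)
      rw [← pow_add, ← orderOf_dvd_iff_pow_eq_one] at a2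
      obtain ⟨k, hk⟩ := a2
      have h0 : a % orderOf h ≠ 0 := fun e => a1 (by rw [e, pow_zero])
      have hk0 : k ≠ 0 := by
        rintro rfl
        omega
      have hk2 : k < 2 := by
        by_contra hk2
        have := Nat.mul_le_mul_left (orderOf h) (not_lt.1 hk2)
        omega
      obtain rfl : k = 1 := by omega
      omega
  have h1 := key a a1 a2
  have h2 := key b b1 b2
  rw [← pow_mod_orderOf h a, ← pow_mod_orderOf h b, show a % orderOf h = b % orderOf h by omega]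

theorem sq_one {φ : E →+* ℂ} {c : E ≃ₐ[ℚ] E} (h : act φ c = conjugate φ) : c * c = 1 :=
  act_inj (φ := φ) (by rw [← act_mul, h, act_conj, h, conj_conj, act_one])

open Classical in
theorem half {h : E ≃ₐ[ℚ] E} (hN : NC h) :
    finrank ℚ E ≤ 2 * (Finset.univ.filter (Good h)).card := by
  rw [← Embeddings.card E ℂ, ← Finset.card_univ,
    ← Finset.card_filter_add_card_filter_not (Good h), two_mul]
  refine Nat.add_le_add_left ?_ _
  rcases (Finset.univ.filter fun φ => ¬ Good h φ).eq_empty_or_nonempty with e | ⟨ψ, hψ⟩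
  · simp [e]
  have bad : ∀ φ, ¬ Good h φ → ∃ a : ℕ, act φ (h ^ a) = conjugate φ ∧ h ^ a ≠ 1 := fun φ hφ => by
    simpa [Good] using hφ
  obtain ⟨a, a1, a2⟩ := bad ψ (Finset.mem_filter.1 hψ).2
  obtain ⟨g, hg⟩ := hN ψ a a2 fun x => RingHom.congr_fun a1 x
  have bad' : ∀ φ, ¬ Good h φ → act φ (h ^ a) = conjugate φ := fun φ hφ => by
    obtain ⟨b, b1, b2⟩ := bad φ hφ
    rw [uniq h a2 (sq_one a1) b2 (sq_one b1), b1]
  refine Finset.card_le_card_of_injOn (fun φ => act φ g) (fun φ hφ => ?_) fun φ _ φ' _ e => ?_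
  · have h1 := bad' φ (Finset.mem_filter.1 hφ).2
    refine Finset.mem_filter.2 ⟨Finset.mem_univ _, by_contra fun h2 => hg (act_inj (φ := φ) ?_)⟩
    rw [← act_mul, bad' _ h2, ← act_mul, h1, act_conj]
  · have := congrArg (fun φ => act φ g⁻¹) e
    simpa only [act_mul, mul_inv_cancel, act_one] using this

/-- the orbit under the powers of `h` and conjugation -/
def O (h : E ≃ₐ[ℚ] E) (φ : E →+* ℂ) : Set (E →+* ℂ) :=
  {ψ | ∃ k ∈ Subgroup.zpowers h, ψ = act φ k ∨ ψ = conjugate (act φ k)}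

theorem O_sub {h : E ≃ₐ[ℚ] E} {φ ψ : E →+* ℂ} (e : ψ ∈ O h φ) : O h ψ ⊆ O h φ := by
  obtain ⟨k, hk, rfl | rfl⟩ := e <;> rintro _ ⟨l, hl, rfl | rfl⟩
  · exact ⟨k * l, mul_mem hk hl, Or.inl rfl⟩
  · exact ⟨k * l, mul_mem hk hl, Or.inr rfl⟩
  · exact ⟨k * l, mul_mem hk hl, Or.inr rfl⟩
  · exact ⟨k * l, mul_mem hk hl, Or.inl (by rw [act_conj, conj_conj, act_mul])⟩

theorem O_eq {h : E ≃ₐ[ℚ] E} {φ ψ : E →+* ℂ} (e : ψ ∈ O h φ) : O h ψ = O h φ := by
  refine (O_sub e).antisymm (O_sub ?_)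
  obtain ⟨k, hk, rfl | rfl⟩ := e
  · exact ⟨k⁻¹, inv_mem hk, Or.inl (by rw [act_mul, mul_inv_cancel, act_one])⟩
  · exact ⟨k⁻¹, inv_mem hk, Or.inr (by rw [act_conj, conj_conj, act_mul, mul_inv_cancel, act_one])⟩

theorem O_card (h : E ≃ₐ[ℚ] E) (φ : E →+* ℂ) : (O h φ).ncard ≤ 2 * orderOf h := by
  have e : O h φ ⊆ act φ '' (Subgroup.zpowers h : Set (E ≃ₐ[ℚ] E)) ∪
      (fun k => conjugate (act φ k)) '' (Subgroup.zpowers h : Set (E ≃ₐ[ℚ] E)) := by
    rintro _ ⟨k, hk, rfl | rfl⟩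
    · exact Or.inl ⟨k, hk, rfl⟩
    · exact Or.inr ⟨k, hk, rfl⟩
  have c : (Subgroup.zpowers h : Set (E ≃ₐ[ℚ] E)).ncard = orderOf h := Nat.card_zpowers h
  refine (Set.ncard_le_ncard e).trans ((Set.ncard_union_le _ _).trans ?_)
  rw [two_mul, ← c]
  exact add_le_add (Set.ncard_image_le) (Set.ncard_image_le)

open Classical in
/-- the indicator of a place -/
noncomputable def ee (y : E →+* ℂ) (φ : E →+* ℂ) : ℝ :=
  (if φ = y then 1 else 0) + if φ = conjugate y then 1 else 0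

omit [NumberField E] in
theorem ee_conj (y φ : E →+* ℂ) : ee y (conjugate φ) = ee y φ := by
  have h1 : conjugate φ = y ↔ φ = conjugate y :=
    ⟨fun h => by rw [← h, conj_conj], fun h => by rw [h, conj_conj]⟩
  have h2 : conjugate φ = conjugate y ↔ φ = y := star_inj
  unfold ee
  by_cases a : φ = y <;> by_cases b : φ = conjugate y
  · rw [if_pos (h1.2 b), if_pos (h2.2 a), if_pos a, if_pos b]
  · rw [if_neg (mt h1.1 b), if_pos (h2.2 a), if_pos a, if_neg b, add_comm]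
  · rw [if_pos (h1.2 b), if_neg (mt h2.1 a), if_neg a, if_pos b, add_comm]
  · rw [if_neg (mt h1.1 b), if_neg (mt h2.1 a), if_neg a, if_neg b]

theorem ee_sum (y : E →+* ℂ) : ∑ φ, ee y φ = 2 := by
  unfold ee
  rw [Finset.sum_add_distrib, Finset.sum_eq_single y (fun _ _ h => if_neg h) (by simp),
    Finset.sum_eq_single (conjugate y) (fun _ _ h => if_neg h) (by simp), if_pos rfl, if_pos rfl]
  norm_num

omit [NumberField E] in
theorem ee_self (y : E →+* ℂ) : ee y y ≠ 0 := by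
  unfold ee
  rw [if_pos rfl]
  split_ifs <;> norm_num

omit [NumberField E] in
theorem ee_zero {y φ : E →+* ℂ} (h1 : φ ≠ y) (h2 : φ ≠ conjugate y) : ee y φ = 0 := by
  simp [ee, h1, h2]

/-- the action of the polynomial on functions -/
noncomputable def T (h : E ≃ₐ[ℚ] E) (Ψ : ℤ[X]) : ((E →+* ℂ) → ℝ) →ₗ[ℝ] ((E →+* ℂ) → ℝ) :=
  ∑ a ∈ Ψ.support, (Ψ.coeff a : ℝ) • LinearMap.funLeft ℝ ℝ fun φ => act φ (h ^ a)

theorem T_apply (h : E ≃ₐ[ℚ] E) (Ψ : ℤ[X]) (x : (E →+* ℂ) → ℝ) (φ : E →+* ℂ) :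
    T h Ψ x φ = ∑ a ∈ Ψ.support, (Ψ.coeff a : ℝ) * x (act φ (h ^ a)) := by
  simp [T, LinearMap.sum_apply, Finset.sum_apply]

theorem T_lam (h : E ≃ₐ[ℚ] E) (Ψ : ℤ[X]) (u : GE E) :
    T h Ψ (lam E u) = lam E (aeval (hat h) Ψ u) := by
  ext φ
  rw [T_apply, aeval_hat, map_sum, Finset.sum_apply]
  refine Finset.sum_congr rfl fun a _ => ?_
  rw [map_zsmul, Pi.smul_apply, zsmul_eq_mul]
  rfl

theorem T_ne {h : E ≃ₐ[ℚ] E} (Ψ : ℤ[X]) {y y' : E →+* ℂ} (e : O h y' ≠ O h y) (b : ℕ) :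
    T h Ψ (ee y') (act y (h ^ b)⁻¹) = 0 := by
  rw [T_apply]
  refine Finset.sum_eq_zero fun a _ => ?_
  have hk : (h ^ b)⁻¹ * h ^ a ∈ Subgroup.zpowers h :=
    mul_mem (inv_mem (Subgroup.npow_mem_zpowers h b)) (Subgroup.npow_mem_zpowers h a)
  rw [act_mul, ee_zero (fun c => e (O_eq ⟨_, hk, Or.inl c.symm⟩))
    (fun c => e (O_eq ⟨_, hk, Or.inr (by rw [c, conj_conj])⟩)), mul_zero]

theorem T_self {h : E ≃ₐ[ℚ] E} {Ψ : ℤ[X]} (h0 : Ψ ≠ 0) (hd : Ψ.natDegree < orderOf h)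
    {y : E →+* ℂ} (hy : Good h y) : T h Ψ (ee y) (act y (h ^ Ψ.natDegree)⁻¹) ≠ 0 := by
  rw [T_apply, Finset.sum_eq_single_of_mem _ (natDegree_mem_support_of_nonzero h0)]
  · rw [act_mul, inv_mul_cancel, act_one]
    exact mul_ne_zero (by simpa using h0) (ee_self y)
  · intro a ha hne
    have h1 : (h ^ Ψ.natDegree)⁻¹ * h ^ a ≠ 1 := fun c => hne
      (pow_injOn_Iio_orderOf ((le_natDegree_of_mem_supp a ha).trans_lt hd) hd
        (inv_mul_eq_one.1 c).symm)
    obtain ⟨n, hn⟩ : (h ^ Ψ.natDegree)⁻¹ * h ^ a ∈ Submonoid.powers h :=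
      mem_powers_iff_mem_zpowers.2 (mul_mem (inv_mem (Subgroup.npow_mem_zpowers h _))
        (Subgroup.npow_mem_zpowers h a))
    have hn' : h ^ n = (h ^ Ψ.natDegree)⁻¹ * h ^ a := hn
    rw [act_mul, ee_zero (fun c => h1 (act_inj (c.trans (act_one y).symm)))
      (fun c => h1 (hn' ▸ hy n (hn' ▸ c))), mul_zero]

end RANK

open RANK in
theorem t_RANK (hD : S_DIR) : S_RANK := by
  classical
  intro E _ _ h Ψ h0 hd hN
  obtain ⟨Y, hY, hi, he⟩ := Finset.exists_subset_injOn_image_eq_of_surjOn (f := O h)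
    {φ | Good h φ} ((Finset.univ.filter (Good h)).image (O h)) fun s hs => by simpa using hs
  have h1 : (Finset.univ.filter (Good h)).card ≤ Y.card * (2 * orderOf h) := by
    refine le_trans (Finset.card_le_card fun φ hφ => ?_) (Finset.card_biUnion_le_card_mul Y
      (fun y => (O h y).toFinset) _ fun y _ => ?_)
    · obtain ⟨y, hy, e⟩ := Finset.mem_image.1 (he ▸ Finset.mem_image_of_mem (O h) hφ)
      exact Finset.mem_biUnion.2 ⟨y, hy, Set.mem_toFinset.2
        (e ▸ ⟨1, one_mem _, Or.inl (act_one φ).symm⟩)⟩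
    · rw [← Set.ncard_eq_toFinset_card']
      exact O_card h y
  have h2 : Y.card ≤ finrank ℤ ((UU E).map (aeval (hat h) Ψ)) + 1 := by
    rcases Y.eq_empty_or_nonempty with rfl | ⟨y0, hy0⟩
    · simp
    set W := Submodule.span ℝ (lam E '' ((UU E).map (aeval (hat h) Ψ) : Submodule ℤ (GE E)))
    have hm : ∀ y, T h Ψ (ee y - ee y0) ∈ W := fun y => by
      have a := hD E (ee y - ee y0) (fun φ => by simp only [Pi.sub_apply, ee_conj])
        (by simp only [Pi.sub_apply, Finset.sum_sub_distrib, ee_sum, sub_self])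
      refine (Submodule.span_le (p := W.comap (T h Ψ))).2 ?_ a
      rintro _ ⟨u, hu, rfl⟩
      exact Submodule.subset_span ⟨_, ⟨u, hu, rfl⟩, (T_lam h Ψ u).symm⟩
    have hl : LinearIndependent ℝ fun y : Y.erase y0 => (⟨_, hm y⟩ : W) := by
      refine LinearIndependent.of_comp W.subtype (Fintype.linearIndependent_iff.2 fun g hg y => ?_)
      have hy := Finset.mem_erase.1 y.2
      have a := congrFun hg (act y (h ^ Ψ.natDegree)⁻¹)
      have b : T h Ψ (ee y0) (act y (h ^ Ψ.natDegree)⁻¹) = 0 :=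
        T_ne Ψ (fun c => hy.1 (hi hy0 hy.2 c).symm) _
      simp only [Function.comp, Submodule.subtype_apply, Finset.sum_apply, Pi.smul_apply, map_sub,
        Pi.sub_apply, b, sub_zero, smul_eq_mul, Pi.zero_apply] at a
      rw [Finset.sum_eq_single y (fun y' _ hne => by
        rw [T_ne Ψ (fun c => hne (Subtype.ext (hi (Finset.mem_erase.1 y'.2).2 hy.2 c))), mul_zero])
        (by simp)] at a
      exact (mul_eq_zero.1 a).resolve_right (T_self h0 hd (hY hy.2))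
    have a := hl.fintype_card_le_finrank.trans (finrank_span_le (lam E) _)
    rw [Fintype.card_coe, Finset.card_erase_of_mem hy0] at a
    omega
  calc finrank ℚ E ≤ 2 * (Finset.univ.filter (Good h)).card := half hN
    _ ≤ 2 * ((finrank ℤ ((UU E).map (aeval (hat h) Ψ)) + 1) * (2 * orderOf h)) :=
        Nat.mul_le_mul_left _ (h1.trans (Nat.mul_le_mul_right _ h2))
    _ = _ := by ring

end Pool.Agent.P.MP_657a03_nt.AB
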