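import Pool.Agent.P.MP_657a03_nt.AB.Api

/-! Proof of RES. -/

set_option autoImplicit false

open NumberField NumberField.Units Module Real Matrix Polynomial

namespace Pool.Agent.P.MP_657a03_nt.AB

namespace RES

variable {L E : Type} [NormedField L] [IsUltrametricDist L] [Field E]

theorem norm_one_of {t : L} (h : ‖t - 1‖ < 1) : ‖t‖ = 1 := by
  have := IsUltrametricDist.norm_add_eq_max_of_norm_ne_norm (x := t - 1) (y := 1)
    (by rw [norm_one]; exact h.ne)
  rw [sub_add_cancel, norm_one] at this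
  rw [this, max_eq_right h.le]

/-- the principal units -/
def N0 (ι : E →+* L) : Submodule ℤ (GE E) := AddSubgroup.toIntSubmodule
  { carrier := {y | ‖ι (vl y) - 1‖ < 1}
    zero_mem' := by simp
    add_mem' := fun {x y} hx hy => by
      have e : ι (vl (x + y)) - 1 = (ι (vl x) - 1) * ι (vl y) + (ι (vl y) - 1) := by
        rw [vl_add, map_mul]; ring
      show ‖ι (vl (x + y)) - 1‖ < 1
      rw [e]
      refine (IsUltrametricDist.norm_add_le_max _ _).trans_lt (max_lt ?_ hy)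
      rw [norm_mul, norm_one_of hy, mul_one]
      exact hx
    neg_mem' := fun {x} hx => by
      have h0 : ι (vl x) ≠ 0 := (map_ne_zero ι).2 (vl_ne_zero x)
      have e : ι (vl (-x)) - 1 = -(ι (vl x) - 1) / ι (vl x) := by
        rw [vl_neg, map_inv₀]; field_simp; ring
      show ‖ι (vl (-x)) - 1‖ < 1
      rw [e, norm_div, norm_neg, norm_one_of hx, div_one]
      exact hx }

theorem mem_N0 {ι : E →+* L} {y : GE E} : y ∈ N0 ι ↔ ‖ι (vl y) - 1‖ < 1 := Iff.rfl

/-- the units -/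
def N1 (ι : E →+* L) : Submodule ℤ (GE E) := AddSubgroup.toIntSubmodule
  { carrier := {y | ‖ι (vl y)‖ = 1}
    zero_mem' := by simp
    add_mem' := fun {x y} hx hy => by
      show ‖ι (vl (x + y))‖ = 1
      rw [vl_add, map_mul, norm_mul, hx, hy, one_mul]
    neg_mem' := fun {x} hx => by
      show ‖ι (vl (-x))‖ = 1
      rw [vl_neg, map_inv₀, norm_inv, hx, inv_one] }

omit [IsUltrametricDist L] in
theorem mem_N1 {ι : E →+* L} {y : GE E} : y ∈ N1 ι ↔ ‖ι (vl y)‖ = 1 := Iff.rfl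

end RES

open RES in
theorem t_RES : S_RES := by
  intro p L _ _ E _ _ ι h hF Φ y hy
  have a1 : ∀ z ∈ N1 ι, hat h z ∈ N1 ι := fun z hz => (hF.iso _).trans hz
  have a2 : ∀ z ∈ N1 ι, hat h z - p • z ∈ N0 ι := fun z hz => by
    have h1 : ‖ι (vl z) ^ p‖ = 1 := by rw [norm_pow, mem_N1.1 hz, one_pow]
    rw [mem_N0, vl_sub, vl_nsmul, vl_hat, map_div₀, map_pow,
      div_sub_one (norm_ne_zero_iff.1 (h1 ▸ one_ne_zero)), norm_div, h1, div_one]
    exact hF.frob _ (mem_N1.1 hz).le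
  have a3 : ∀ a : ℕ, hat (h ^ a) y ∈ N1 ι ∧ hat (h ^ a) y - (p : ℤ) ^ a • y ∈ N0 ι := fun a => by
    induction a with
    | zero => rw [pow_zero, hat_one]; exact ⟨hy, by simp⟩
    | succ a ih =>
      rw [pow_succ', hat_mul, Module.End.mul_apply]
      refine ⟨a1 _ ih.1, ?_⟩
      have := add_mem (a2 _ ih.1) (Submodule.smul_mem _ (p : ℤ) ih.2)
      rwa [zsmul_sub, natCast_zsmul, sub_add_sub_cancel, ← mul_zsmul, ← pow_succ'] at this
  refine ⟨?_, fun Q hQ h0 => ?_⟩
  · rw [← mem_N1, aeval_hat]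
    exact Submodule.sum_mem _ fun a _ => Submodule.smul_mem _ _ (a3 a).1
  · have := neg_mem (Submodule.sum_mem (N0 ι) fun a (_ : a ∈ Φ.support) =>
      Submodule.smul_mem _ (Φ.coeff a) (a3 a).2)
    simp only [smul_sub, Finset.sum_sub_distrib, ← mul_smul] at this
    rw [eval_eq_sum, Polynomial.sum_def] at hQ
    have e := Finset.sum_smul (f := fun x => Φ.coeff x * (p : ℤ) ^ x) (s := Φ.support) (x := y)
    rwa [← aeval_hat, h0, ← e, hQ, zero_sub, neg_neg,
      natCast_zsmul, mem_N0, vl_nsmul, map_pow] at this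

end Pool.Agent.P.MP_657a03_nt.AB
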