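import Pool.Agent.P.MP_657a03_nt.AB.Api

/-! Proof of SA. -/

set_option autoImplicit false

open NumberField NumberField.Units Module Real Matrix Polynomial

namespace Pool.Agent.P.MP_657a03_nt.AB

namespace SA

open Finset in
/-- Change of affine coordinates. -/
theorem trans {ι R : Type} [CommRing R] (P : R → Prop) (h0 : P 0)
    (hadd : ∀ a b, P a → P b → P (a + b)) {s : ℕ} (L : Finset ι) (F G : ι → Fin s → R)
    (β0 : Fin s → R) (β : Matrix (Fin s) (Fin s) R) (hm0 : ∀ k a, P a → P (β0 k * a))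
    (hm : ∀ k j a, P a → P (β k j * a)) (h : ∀ x ∈ L, G x = β0 + β *ᵥ F x) (g : List (Fin s)) :
    ∀ (T : ℕ) (a : ι → R), (∀ f : List (Fin s), f.length ≤ T → P (∑ x ∈ L, a x * wdR F f x)) →
      g.length ≤ T → P (∑ x ∈ L, a x * wdR G g x) := by
  induction g with
  | nil =>
    intro T a ha _
    simpa using ha [] (Nat.zero_le _)
  | cons k g ih =>
    intro T a ha hT
    obtain ⟨T, rfl⟩ : ∃ T', T = T' + 1 := ⟨T - 1, by simp at hT; omega⟩
    have hT' : g.length ≤ T := by simpa using hT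
    have e : ∑ x ∈ L, a x * wdR G (k :: g) x = β0 k * ∑ x ∈ L, a x * wdR G g x +
        ∑ j, β k j * ∑ x ∈ L, (a x * F x j) * wdR G g x := by
      simp only [mul_sum]
      rw [sum_comm (s := univ), ← sum_add_distrib]
      refine sum_congr rfl fun x hx => ?_
      have h1 := congrFun (h x hx) k
      simp only [Pi.add_apply, mulVec, dotProduct] at h1
      have h3 : ∑ j, β k j * (a x * F x j * wdR G g x) =
          (∑ j, β k j * F x j) * (a x * wdR G g x) := by
        rw [sum_mul]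
        exact sum_congr rfl fun j _ => by ring
      rw [h3, ← add_mul, ← h1, wdR_cons]
      ring
    rw [e]
    refine hadd _ _ (hm0 _ _ (ih (T + 1) a ha (by omega)))
      (Finset.sum_induction _ P hadd h0 fun j _ => ?_)
    refine hm _ _ _ (ih T _ (fun f hf => ?_) hT')
    have := ha (j :: f) (by simpa using hf)
    simpa [mul_assoc] using this

theorem mul_le {L : Type} [NormedField L] {b a : L} {δ : ℝ} (hb : ‖b‖ ≤ 1) (ha : ‖a‖ ^ 2 ≤ δ) :
    ‖b * a‖ ^ 2 ≤ δ := by
  rw [norm_mul]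
  exact (pow_le_pow_left₀ (by positivity) (mul_le_of_le_one_left (norm_nonneg _) hb) 2).trans ha

theorem add_le {L : Type} [NormedField L] [IsUltrametricDist L] {b a : L} {δ : ℝ}
    (ha : ‖a‖ ^ 2 ≤ δ) (hb : ‖b‖ ^ 2 ≤ δ) : ‖a + b‖ ^ 2 ≤ δ := by
  refine (pow_le_pow_left₀ (norm_nonneg _) (IsUltrametricDist.norm_add_le_max a b) 2).trans ?_
  rcases max_choice ‖a‖ ‖b‖ with h | h <;> rw [h] <;> assumption

end SA

theorem t_SA (hN : S_NRM) (h1 : S_LOG1) (h2 : S_LOG2) (hS : S_SCHW) : S_SA := by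
  intro p L _ _ _ _ E _ _ ι S S' s μ F i ε x0 Y c U Δ T hp hunr hμ hCo hS' hx0 hRt hU hε hε' hV
  obtain ⟨α, β, α0, β0, hα, hα0, hZ⟩ := hCo x0 hx0
  choose! Z hZ1 hZ2 hZ3 hZ4 using fun x (hx : x ∈ S') => hZ x (hS' hx) (Y x) (hRt x hx)
  have htwo : ‖(2 : L)‖ = 1 := by
    have := (hN p L hp).1 2 (fun h => hp.odd
      ((Nat.prime_dvd_prime_iff_eq hp.prime Nat.prime_two).1 (by exact_mod_cast h)))
    simpa using this
  have hY : ∀ x ∈ S', ‖ι (Y x) - 1‖ ≤ (p : ℝ)⁻¹ := fun x hx => by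
    have := hunr (Y x - 1) (by simpa using (hRt x hx).2)
    simpa using this
  have hlam : ∀ x ∈ S', ‖lgS (ι (Y x)) / 2‖ ≤ (p : ℝ)⁻¹ := fun x hx => by
    rw [norm_div, htwo, div_one, (h1 p L hp _ (hRt x hx).2).2.2.2 (hY x hx)]
    exact hY x hx
  have hdbl : ∀ z : L, 2 * (z / 2) = z := fun z => by ring
  have hsq : ∀ x ∈ S', exS (lgS (ι (Y x)) / 2) ^ 2 = ι (Y x) := fun x hx => by
    rw [← ((h2 p L hp).1 _ (hlam x hx)).2.2.1 2, Nat.cast_ofNat, hdbl,
      (h2 p L hp).2 _ (hY x hx)]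
  have key := hS p L (𝓞 E) S' s (fun x j => ι (Z x j)) μ (fun x => (c x : L))
    (fun x => lgS (ι (Y x)) / 2) ε U Δ T hp hU hμ
    (fun x hx => ⟨IsUltrametricDist.norm_intCast_le_one L _, hZ1 x hx, hlam x hx, by
      rw [hdbl]
      exact hZ2 x hx⟩) hε hε' (fun v hv f hf => by
      have h3 := SA.trans (fun a : E => a = 0) rfl (fun a b ha hb => by rw [ha, hb, add_zero]) S'
        (fun x j => (F x j : E)) Z β0 β (fun k a ha => by rw [ha, mul_zero])
        (fun k j a ha => by rw [ha, mul_zero]) hZ4 f (T + Δ)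
        (fun x => (c x : E) * Y x ^ (2 * v + 1)) (fun f' hf' => by
          refine Eq.trans (Finset.sum_congr rfl fun x _ => ?_) (hV v hv f' hf')
          rw [RingOfIntegers.coe_eq_algebraMap, map_mul, map_wdR, map_intCast]
          simp only [← RingOfIntegers.coe_eq_algebraMap]
          ring) hf
      have h4 := congrArg ι h3
      rw [map_zero, map_sum] at h4
      refine Eq.trans (Finset.sum_congr rfl fun x hx => ?_) h4
      rw [pow_mul, hsq x hx, map_mul, map_mul, map_wdR, map_intCast, map_pow]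
      ring)
  intro u f hf
  have h5 := SA.trans (fun a : L => ‖a‖ ^ 2 ≤ ((p : ℝ) ^ (U * Δ))⁻¹) (by simp)
    (fun a b => SA.add_le) S' (fun x j => ι (Z x j)) (fun x j => ι (F x j : E))
    (fun j => ι (α0 j)) (α.map ι) (fun k a => SA.mul_le (hα0 k))
    (fun k j a => SA.mul_le (hα k j)) (fun x hx => by
      funext j
      have := congrArg ι (congrFun (hZ3 x hx) j)
      simpa [mulVec, dotProduct] using this) f T
    (fun x => (c x : L) * exS (lgS (ι (Y x)) / 2) ^ u) (fun f' hf' => by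
      refine le_of_eq_of_le ?_ (key u f' hf')
      congr 2
      exact Finset.sum_congr rfl fun x _ => by ring) hf
  refine le_of_eq_of_le ?_ h5
  congr 2
  refine Finset.sum_congr rfl fun x _ => ?_
  rw [RingOfIntegers.coe_eq_algebraMap, map_mul, map_wdR, map_intCast, map_mul, map_wdR,
    map_intCast]
  simp only [← RingOfIntegers.coe_eq_algebraMap]
  ring

end Pool.Agent.P.MP_657a03_nt.AB
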