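import Pool.Agent.P.MP_657a03_nt.AB.If

/-! Proof of SCHW. -/

set_option autoImplicit false

open NumberField NumberField.Units Module Real Matrix Polynomial

namespace Pool.Agent.P.MP_657a03_nt.AB

namespace SCHW

open Finset

variable {L : Type} [NormedField L]

/-- the truncated exponential as a polynomial -/
noncomputable def E (M : ℕ) (a : L) : L[X] :=
  ∑ m ∈ range M, monomial m (a ^ m / (m.factorial : L))

lemma coeff_E (M : ℕ) (a : L) (j : ℕ) :
    (E M a).coeff j = if j < M then a ^ j / (j.factorial : L) else 0 := by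
  unfold E
  rw [finsetSum_coeff]
  simp only [coeff_monomial]
  rw [sum_ite_eq' (range M) j fun m => a ^ m / (m.factorial : L)]
  simp only [mem_range]

lemma eval_E (M : ℕ) (a u : L) :
    (E M a).eval u = ∑ m ∈ range M, (u * a) ^ m / (m.factorial : L) := by
  unfold E
  rw [eval_finsetSum]
  refine sum_congr rfl fun m _ => ?_
  rw [eval_monomial, mul_pow]; ring

lemma taylor_E [CharZero L] (j K : ℕ) (a t : L) :
    (taylor t (E (j + K) a)).coeff j =
      a ^ j / (j.factorial : L) * ∑ m ∈ range K, (t * a) ^ m / (m.factorial : L) := by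
  unfold E
  rw [taylor_coeff, map_sum, eval_finsetSum, sum_range_add, mul_sum, sum_eq_zero, zero_add]
  · refine sum_congr rfl fun m _ => ?_
    have h1 : ((j + m).factorial : L) ≠ 0 := by exact_mod_cast (j + m).factorial_ne_zero
    have h2 : (j.factorial : L) ≠ 0 := by exact_mod_cast j.factorial_ne_zero
    have h3 : (m.factorial : L) ≠ 0 := by exact_mod_cast m.factorial_ne_zero
    rw [hasseDeriv_monomial, eval_monomial, Nat.cast_add_choose, Nat.add_sub_cancel_left, pow_add,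
      mul_pow]
    field_simp
  · intro m hm
    rw [hasseDeriv_monomial, Nat.choose_eq_zero_of_lt (mem_range.1 hm)]
    simp

lemma vanish {ι : Type} (S : Finset ι) {s : ℕ} (Z : ι → Fin s → L) (μ : Fin s → L)
    (c q : ι → L) (B : ℕ)
    (h : ∀ f : List (Fin s), f.length ≤ B → ∑ l ∈ S, c l * wdR Z f l * q l = 0) (j : ℕ) :
    ∀ f : List (Fin s), f.length + j ≤ B →
      ∑ l ∈ S, c l * wdR Z f l * q l * (∑ k, Z l k * μ k) ^ j = 0 := by
  induction j with
  | zero => intro f hf; simpa using h f (by omega)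
  | succ j ih =>
    intro f hf
    have : ∑ l ∈ S, c l * wdR Z f l * q l * (∑ k, Z l k * μ k) ^ (j + 1) =
        ∑ k, μ k * ∑ l ∈ S, c l * wdR Z (k :: f) l * q l * (∑ k, Z l k * μ k) ^ j := by
      simp only [mul_sum]
      rw [sum_comm]
      refine sum_congr rfl fun l _ => ?_
      rw [pow_succ, mul_sum, mul_sum]
      refine sum_congr rfl fun k _ => ?_
      simp only [wdR, List.map_cons, List.prod_cons]
      ring
    rw [this]
    exact sum_eq_zero fun k _ => by rw [ih (k :: f) (by simp; omega), mul_zero]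

lemma wd_le {ι : Type} {s : ℕ} (Z : ι → Fin s → L) (l : ι) (h : ∀ j, ‖Z l j‖ ≤ 1) :
    ∀ f : List (Fin s), ‖wdR Z f l‖ ≤ 1
  | [] => by simp [wdR]
  | k :: f => by
    have := wd_le Z l h f
    simp only [wdR, List.map_cons, List.prod_cons, norm_mul] at this ⊢
    exact mul_le_one₀ (h k) (norm_nonneg _) this

variable [IsUltrametricDist L]

lemma add_le {x y : L} {r : ℝ} (hx : ‖x‖ ≤ r) (hy : ‖y‖ ≤ r) : ‖x + y‖ ≤ r :=
  (IsUltrametricDist.norm_add_le_max x y).trans (max_le hx hy)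

lemma sum_le {ι : Type} {S : Finset ι} {g : ι → L} {r : ℝ} (hr : 0 ≤ r) (h : ∀ l ∈ S, ‖g l‖ ≤ r) :
    ‖∑ l ∈ S, g l‖ ≤ r :=
  IsUltrametricDist.norm_sum_le_of_forall_le_of_nonneg hr h

lemma pow_sub {x y : L} {r ε : ℝ} (hx : ‖x‖ ≤ r) (hy : ‖y‖ ≤ r) (h : ‖x - y‖ ≤ ε) :
    ∀ j : ℕ, ‖x ^ (j + 1) - y ^ (j + 1)‖ ≤ ε * r ^ j
  | 0 => by simpa using h
  | j + 1 => by
    have hr : 0 ≤ r := (norm_nonneg _).trans hx
    have he : 0 ≤ ε := (norm_nonneg _).trans h
    have e : x ^ (j + 1 + 1) - y ^ (j + 1 + 1) =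
        (x ^ (j + 1) - y ^ (j + 1)) * x + (x - y) * y ^ (j + 1) := by ring
    rw [e]
    refine add_le ?_ ?_
    · rw [norm_mul, pow_succ r, ← mul_assoc]
      exact mul_le_mul (pow_sub hx hy h j) hx (norm_nonneg _) (by positivity)
    · rw [norm_mul, norm_pow]
      exact mul_le_mul h (pow_le_pow_left₀ (norm_nonneg _) hy _) (by positivity) he

end SCHW

open SCHW Finset in
theorem t_SCHW (hN : S_NRM) (h2 : S_LOG2) (hW : S_NEWT) : S_SCHW := by
  intro p L _ _ _ _ ι S s Z μ c lam ε U Δ T hp hU hμ hS hε hεp hv u f hf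
  obtain ⟨n1, -, n3, n4, -⟩ := hN p L hp
  obtain ⟨e1, -⟩ := h2 p L hp
  have hp1 : (1 : ℝ) ≤ p := by exact_mod_cast hp.prime.one_le
  have hp0 : (0 : ℝ) < p := by linarith
  obtain ⟨ρ, hρ0, hρ2⟩ : ∃ ρ : ℝ, 0 ≤ ρ ∧ ρ ^ 2 = (p : ℝ)⁻¹ :=
    ⟨√((p : ℝ)⁻¹), Real.sqrt_nonneg _, Real.sq_sqrt (by positivity)⟩
  have hi1 : (p : ℝ)⁻¹ ≤ 1 := inv_le_one_of_one_le₀ hp1
  have hρ1 : ρ ≤ 1 := by nlinarith
  have hsq : ∀ m : ℕ, (ρ ^ m) ^ 2 = ((p : ℝ) ^ m)⁻¹ := fun m => by
    rw [← pow_mul, mul_comm, pow_mul, hρ2, inv_pow]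
  have root : ∀ (x : L) (m : ℕ), ‖x‖ ^ 2 ≤ ((p : ℝ) ^ m)⁻¹ → ‖x‖ ≤ ρ ^ m := fun x m h =>
    (pow_le_pow_iff_left₀ (norm_nonneg _) (by positivity) two_ne_zero).1 (by rw [hsq]; exact h)
  have term : ∀ (a : L), ‖a‖ ≤ (p : ℝ)⁻¹ → ∀ m : ℕ, ‖a ^ m / (m.factorial : L)‖ ≤ ρ ^ m := by
    intro a ha m
    refine root _ _ ?_
    rw [div_eq_mul_inv, norm_mul, mul_pow, norm_pow]
    have h1 : (‖a‖ ^ m) ^ 2 ≤ ((p : ℝ)⁻¹ ^ m) ^ 2 := by gcongr
    refine (mul_le_mul h1 (n3 m) (by positivity) (by positivity)).trans_eq ?_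
    rw [inv_pow]; field_simp
  have nat : ∀ (t : ℕ) (a : L), ‖a‖ ≤ (p : ℝ)⁻¹ → ‖(t : L) * a‖ ≤ (p : ℝ)⁻¹ := fun t a ha => by
    rw [norm_mul]
    exact (mul_le_of_le_one_left (norm_nonneg _) (IsUltrametricDist.norm_natCast_le_one L t)).trans ha
  have tail : ∀ (t : ℕ) (a : L), ‖a‖ ≤ (p : ℝ)⁻¹ → ∀ K : ℕ,
      ‖exS a ^ t - ∑ m ∈ range K, ((t : L) * a) ^ m / (m.factorial : L)‖ ≤ ρ ^ K := by
    intro t a ha K
    rw [← (e1 a ha).2.2.1 t]
    exact root _ _ ((e1 _ (nat t a ha)).2.2.2 K)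
  have ex1 : ∀ (t : ℕ) (a : L), ‖a‖ ≤ (p : ℝ)⁻¹ → ‖exS a ^ t‖ ≤ 1 := by
    intro t a ha
    rw [norm_pow]
    refine pow_le_one₀ (norm_nonneg _) ?_
    have := add_le ((e1 a ha).1.trans hi1) (norm_one (α := L)).le
    rwa [sub_add_cancel] at this
  have hA : ∀ l ∈ S, ‖c l * wdR Z f l‖ ≤ 1 := fun l hl => by
    rw [norm_mul]
    exact mul_le_one₀ (hS l hl).1 (norm_nonneg _) (wd_le Z l (hS l hl).2.1 f)
  have two : ‖(2 : L)‖ = 1 := by
    have := n1 2 fun h => hp.odd ((Nat.prime_dvd_prime_iff_eq hp.prime Nat.prime_two).1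
      (by exact_mod_cast h))
    simpa using this
  have hεr : ε ≤ ρ ^ (U * Δ) := by
    have h1 : ε ≤ ((p : ℝ) ^ (U * Δ + 1))⁻¹ := by
      rw [← one_div, le_div_iff₀ (by positivity)]; exact hεp
    refine h1.trans ?_
    rw [← hsq, ← pow_mul]
    exact pow_le_pow_of_le_one hρ0 hρ1 (by omega)
  have diff : ∀ l ∈ S, ∀ j : ℕ,
      ‖(j.factorial : L)⁻¹ * ((2 * lam l) ^ j - (∑ k, Z l k * μ k) ^ j)‖ ≤ ε := by
    intro l hl j
    rcases j with _ | j
    · simpa using hε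
    have h1 : ‖2 * lam l‖ ≤ (p : ℝ)⁻¹ := by rw [norm_mul, two, one_mul]; exact (hS l hl).2.2.1
    have h3 : ‖∑ k, Z l k * μ k‖ ≤ (p : ℝ)⁻¹ := sum_le (by positivity) fun k _ => by
      rw [norm_mul]
      exact (mul_le_of_le_one_left (norm_nonneg _) ((hS l hl).2.1 k)).trans (hμ k)
    have h4 := pow_sub h1 h3 (hS l hl).2.2.2 j
    have h5 : ‖((j + 1).factorial : L)⁻¹‖ ≤ (p : ℝ) ^ j := by
      refine (pow_le_pow_iff_left₀ (norm_nonneg _) (by positivity) two_ne_zero).1 ((n4 j).trans ?_)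
      rw [← pow_mul]
      exact pow_le_pow_right₀ hp1 (by omega)
    rw [norm_mul]
    refine (mul_le_mul h5 h4 (norm_nonneg _) (by positivity)).trans_eq ?_
    rw [inv_pow]; field_simp
  set P : L[X] := ∑ l ∈ S, C (c l * wdR Z f l) * E (U * Δ + Δ) (lam l) with hP
  have hr : 0 ≤ ρ ^ (U * Δ) := by positivity
  have key : ‖P.eval (u : L)‖ ≤ ρ ^ (U * Δ) := by
    refine (hW L P ρ (ρ ^ (U * Δ)) U Δ (fun v => ((2 * (2 * v + 1) : ℕ) : L)) u hρ0 hρ1 hr
      (fun m => ?_) (fun v => IsUltrametricDist.norm_natCast_le_one L _) (fun v hv v' hv' hne => ?_)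
      (fun v hvU j hj => ?_) (IsUltrametricDist.norm_natCast_le_one L u)).trans (max_self _).le
    · rw [hP, finsetSum_coeff]
      refine sum_le (by positivity) fun l hl => ?_
      rw [coeff_C_mul, coeff_E, norm_mul]
      refine (mul_le_of_le_one_left (norm_nonneg _) (hA l hl)).trans ?_
      split_ifs
      · exact term _ (hS l hl).2.2.1 m
      · rw [norm_zero]; positivity
    · have h1 : ¬ (p : ℤ) ∣ (v : ℤ) - v' := fun h => by
        have := Int.eq_zero_of_abs_lt_dvd h (by rw [abs_lt]; constructor <;> omega)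
        omega
      have h3 := n1 _ h1
      have e : ((2 * (2 * v + 1) : ℕ) : L) - ((2 * (2 * v' + 1) : ℕ) : L) =
          2 * (2 * (((v : ℤ) - v' : ℤ) : L)) := by push_cast; ring
      rw [e, norm_mul, norm_mul, two, h3, one_mul, one_mul]
    · obtain ⟨K, hK, hK'⟩ : ∃ K, U * Δ + Δ = j + K ∧ U * Δ ≤ K := ⟨U * Δ + Δ - j, by omega, by omega⟩
      set t : ℕ := 2 * (2 * v + 1) with ht
      have h0 := vanish S Z μ c (fun l => exS (lam l) ^ t) (T + Δ) (hv v hvU) j f (by omega)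
      have h2' : (2 : L) ^ j ≠ 0 := pow_ne_zero _ two_ne_zero
      have e : (taylor (t : L) P).coeff j = ∑ l ∈ S, (c l * wdR Z f l * (((2 : L) ^ j)⁻¹ *
            ((j.factorial : L)⁻¹ * ((2 * lam l) ^ j - (∑ k, Z l k * μ k) ^ j)) * exS (lam l) ^ t) +
          c l * wdR Z f l * (-(lam l ^ j / (j.factorial : L)) * (exS (lam l) ^ t -
            ∑ m ∈ range K, ((t : L) * lam l) ^ m / (m.factorial : L)))) +
          ((2 : L) ^ j)⁻¹ * (j.factorial : L)⁻¹ *
            ∑ l ∈ S, c l * wdR Z f l * exS (lam l) ^ t * (∑ k, Z l k * μ k) ^ j := by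
        rw [hP, map_sum, finsetSum_coeff, mul_sum, ← sum_add_distrib]
        refine sum_congr rfl fun l _ => ?_
        rw [taylor_mul, taylor_C, coeff_C_mul, hK, taylor_E, mul_pow]
        field_simp
        ring
      rw [e, h0, mul_zero, add_zero]
      refine sum_le hr fun l hl => add_le ?_ ?_
      · rw [norm_mul]
        refine (mul_le_of_le_one_left (norm_nonneg _) (hA l hl)).trans ?_
        rw [norm_mul, norm_mul, norm_inv, norm_pow, two, one_pow, inv_one, one_mul]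
        exact (mul_le_of_le_one_right (norm_nonneg _) (ex1 t _ (hS l hl).2.2.1)).trans
          ((diff l hl j).trans hεr)
      · rw [norm_mul]
        refine (mul_le_of_le_one_left (norm_nonneg _) (hA l hl)).trans ?_
        rw [norm_mul, norm_neg]
        refine (mul_le_mul (term _ (hS l hl).2.2.1 j) (tail t _ (hS l hl).2.2.1 K) (norm_nonneg _)
          (by positivity)).trans ?_
        rw [← pow_add]
        exact pow_le_pow_of_le_one hρ0 hρ1 (by omega)
  have e : ∑ l ∈ S, c l * wdR Z f l * exS (lam l) ^ u = P.eval (u : L) +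
      ∑ l ∈ S, c l * wdR Z f l * (exS (lam l) ^ u -
        ∑ m ∈ range (U * Δ + Δ), ((u : L) * lam l) ^ m / (m.factorial : L)) := by
    rw [hP, eval_finsetSum, ← sum_add_distrib]
    refine sum_congr rfl fun l _ => ?_
    rw [eval_mul, eval_C, eval_E]; ring
  have fin : ‖∑ l ∈ S, c l * wdR Z f l * exS (lam l) ^ u‖ ≤ ρ ^ (U * Δ) := by
    rw [e]
    refine add_le key (sum_le hr fun l hl => ?_)
    rw [norm_mul]
    refine (mul_le_of_le_one_left (norm_nonneg _) (hA l hl)).trans ?_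
    exact (tail u _ (hS l hl).2.2.1 _).trans (pow_le_pow_of_le_one hρ0 hρ1 (by omega))
  rw [← hsq]
  exact pow_le_pow_left₀ (norm_nonneg _) fin 2

end Pool.Agent.P.MP_657a03_nt.AB
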