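import Pool.Agent.P.MP_657a03_nt.AB.Api
import Pool.Agent.P.MP_657a03_nt.CountB

/-! Proof of SEP. -/

set_option autoImplicit false

open NumberField NumberField.Units Module Real Matrix Polynomial

namespace Pool.Agent.P.MP_657a03_nt.AB

namespace SEP

open IsDedekindDomain

variable {E : Type} [Field E] [NumberField E]

/-- the additive valuation -/
noncomputable def ord (v : HeightOneSpectrum (𝓞 E)) : GE E →+ ℤ :=
  AddMonoidHom.mk' (fun y => WithZero.log (v.valuation E (vl y))) fun x y => by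
    rw [vl_add, map_mul]
    exact WithZero.log_mul (by simpa using vl_ne_zero x) (by simpa using vl_ne_zero y)

theorem ord_nonpos (v : HeightOneSpectrum (𝓞 E)) (y : GE E) :
    ord v y ≤ 0 ↔ v.valuation E (vl y) ≤ 1 :=
  WithZero.log_le_iff_le_exp (by simpa using vl_ne_zero y)

theorem ord_int (v : HeightOneSpectrum (𝓞 E)) {y : GE E} (h : IsIntegral ℤ (vl y)) :
    ord v y ≤ 0 :=
  (ord_nonpos v y).2 (v.valuation_le_one (K := E) ⟨_, h⟩)

theorem int_of_ord {y : GE E} (h : ∀ v, ord v y ≤ 0) : IsIntegral ℤ (vl y) := by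
  obtain ⟨z, hz⟩ := HeightOneSpectrum.mem_integers_of_valuation_le_one (R := 𝓞 E) E (vl y)
    fun v => (ord_nonpos v y).1 (h v)
  rw [← hz]
  exact z.isIntegral_coe

theorem two_le (v : HeightOneSpectrum (𝓞 E)) : 2 ≤ Ideal.absNorm v.asIdeal := by
  have h0 : Ideal.absNorm v.asIdeal ≠ 0 := fun h => v.ne_bot (Ideal.absNorm_eq_zero_iff.1 h)
  have h1 : Ideal.absNorm v.asIdeal ≠ 1 := fun h => v.isPrime.ne_top (Ideal.absNorm_eq_one_iff.1 h)
  omega

theorem norm_le {I : Ideal (𝓞 E)} {n : ℕ} (hn : 1 ≤ n) (h : I ∣ Ideal.span {(n : 𝓞 E)}) :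
    Ideal.absNorm I ≤ n ^ finrank ℚ E := by
  have h1 := map_dvd Ideal.absNorm h
  rw [Ideal.absNorm_span_natCast, RingOfIntegers.rank] at h1
  exact Nat.le_of_dvd (by positivity) h1

theorem ord_nat (v : HeightOneSpectrum (𝓞 E)) {n : ℕ} {y : GE E} (hy : vl y = n) :
    ∃ m : ℕ, ord v y = -m ∧ v.asIdeal ^ m ∣ Ideal.span {(n : 𝓞 E)} := by
  have h1 : ord v y ≤ 0 := ord_int v (hy ▸ isIntegral_natCast n)
  refine ⟨(-ord v y).toNat, by omega, (v.intValuation_le_pow_iff_dvd _ _).1 ?_⟩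
  rw [← v.valuation_of_algebraMap (K := E), Int.toNat_of_nonneg (by omega), neg_neg]
  refine le_trans (le_of_eq ?_) ((WithZero.log_le_iff_le_exp
    (x := v.valuation E (vl y)) (by simpa using vl_ne_zero y)).1 le_rfl)
  rw [hy]
  rfl

theorem card_le {d : ℕ} (hd : 1 ≤ d) (T : Finset (HeightOneSpectrum (𝓞 E)))
    (hT : ∀ v ∈ T, v.asIdeal ∣ Ideal.span {(d : 𝓞 E)}) : T.card ≤ finrank ℚ E * d := by
  classical
  have hinj : Function.Injective fun v : HeightOneSpectrum (𝓞 E) => v.asIdeal :=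
    fun _ _ h => HeightOneSpectrum.ext h
  have h1 := Finset.prod_primes_dvd (s := T.image fun v => v.asIdeal) (Ideal.span {(d : 𝓞 E)})
    (fun a ha => by
      obtain ⟨v, -, rfl⟩ := Finset.mem_image.1 ha
      exact v.prime)
    (fun a ha => by
      obtain ⟨v, hv, rfl⟩ := Finset.mem_image.1 ha
      exact hT v hv)
  have h2 := norm_le hd h1
  rw [map_prod, Finset.prod_image hinj.injOn] at h2
  have h3 := (Finset.pow_card_le_prod T _ 2 fun v _ => two_le v).trans h2
  have h4 : d ^ finrank ℚ E ≤ 2 ^ (finrank ℚ E * d) := by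
    rw [mul_comm, pow_mul]
    exact Nat.pow_le_pow_left Nat.lt_two_pow_self.le _
  exact (Nat.pow_le_pow_iff_right one_lt_two).1 (h3.trans h4)

theorem kron {y : GE E} (hi : IsIntegral ℤ (vl y))
    (hl : ∀ φ, lam E y φ ≤ ((7 : ℝ) ^ finrank ℚ E)⁻¹) : IsOfFinAddOrder y := by
  classical
  by_contra hn
  have hinj := injective_nsmul_iff_not_isOfFinAddOrder.2 hn
  set N : ℕ := 7 ^ finrank ℚ E with hN
  have hNr : (N : ℝ) = 7 ^ finrank ℚ E := by rw [hN]; push_cast; rfl
  have hN0 : (0 : ℝ) < N := by rw [hNr]; positivity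
  let Z : ℕ → 𝓞 E := fun k => ⟨vl (k • y), vl_nsmul k y ▸ hi.pow k⟩
  have hZ : Function.Injective Z := fun a b h => hinj (vl_injective (congrArg Subtype.val h))
  have h1 := countB E 3 ((Finset.range (N + 1)).image Z) (by norm_num) fun x hx => by
    obtain ⟨k, hk, rfl⟩ := Finset.mem_image.1 hx
    intro φ
    have h2 : (k : ℝ) ≤ N := by exact_mod_cast Nat.lt_succ_iff.1 (Finset.mem_range.1 hk)
    have h3 : lam E (k • y) φ ≤ 1 := by
      rw [map_nsmul, Pi.smul_apply, nsmul_eq_mul]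
      calc (k : ℝ) * lam E y φ ≤ k * (N : ℝ)⁻¹ :=
            mul_le_mul_of_nonneg_left (hNr ▸ hl φ) (Nat.cast_nonneg k)
        _ ≤ N * (N : ℝ)⁻¹ := by gcongr
        _ = 1 := mul_inv_cancel₀ hN0.ne'
    exact ((log_le_iff_le_exp (norm_pos_iff.2 ((map_ne_zero φ).2 (vl_ne_zero (k • y))))).1 h3).trans
      (by linarith [exp_one_lt_d9])
  rw [Finset.card_image_of_injective _ hZ, Finset.card_range] at h1
  push_cast at h1
  norm_num at h1
  linarith

end SEP

open SEP IsDedekindDomain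

theorem t_SEP : S_SEP := by
  intro E _ _ Γ e d he hd hΓ
  classical
  have hd0 : (d : E) ≠ 0 := by exact_mod_cast Nat.one_le_iff_ne_zero.1 hd
  have hfin := Ideal.finite_factors (I := Ideal.span {(d : 𝓞 E)})
    (by simpa using Nat.one_le_iff_ne_zero.1 hd)
  set T := hfin.toFinset with hT
  let ℓ : GE E →+ ((E →+* ℂ) ⊕ T → ℝ) := AddMonoidHom.mk'
    (fun y => Sum.elim (lam E y) fun v => (ord v.1 y : ℝ)) fun x y => by
      funext i
      rcases i with φ | v <;> simp
  have hl : ∀ y φ, ℓ y (Sum.inl φ) = lam E y φ := fun _ _ => rfl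
  have hr : ∀ y v, ℓ y (Sum.inr v) = (ord v.1 y : ℝ) := fun _ _ => rfl
  have hpow : ∀ M : ℕ, vl (M • mkG (d : E) hd0) = ((d ^ M : ℕ) : E) := fun M => by simp
  have hmul : ∀ (M : ℕ) (y : GE E), IsIntegral ℤ ((d : E) ^ M * vl y) → ∀ v,
      ord v (M • mkG (d : E) hd0) + ord v y ≤ 0 := fun M y h v => by
    rw [← map_add]
    exact ord_int v (by simpa using h)
  refine ⟨(E →+* ℂ) ⊕ T, inferInstance, ℓ, ?_, fun y hy => ?_, fun y hy hn => ?_,
    fun y M t ht hs h1 h2 h3 => ?_⟩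
  · rw [Fintype.card_sum, Embeddings.card, Fintype.card_coe, mul_add, mul_one]
    exact Nat.add_le_add_left (card_le hd T fun v hv => hfin.mem_toFinset.1 hv) _
  · exact (isOfFinAddOrder_iff_eq_zero _).1 (ℓ.isOfFinAddOrder hy)
  · have hc : ∀ i, |ℓ y i| < ((7 : ℝ) ^ finrank ℚ E)⁻¹ := fun i =>
      (norm_le_pi_norm (ℓ y) i).trans_lt hn
    refine kron (int_of_ord fun v => ?_) fun φ => (le_abs_self _).trans (hc (Sum.inl φ)).le
    by_cases hv : v ∈ T
    · have h1 := (hc (Sum.inr ⟨v, hv⟩)).trans_le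
        (inv_le_one_of_one_le₀ (one_le_pow₀ (by norm_num)))
      rw [hr, ← Int.cast_abs, ← Int.cast_one, Int.cast_lt, abs_lt] at h1
      exact Int.lt_add_one_iff.1 h1.2
    · obtain ⟨M, hM⟩ := hΓ _ (mem_sat.1 hy)
      obtain ⟨m, hm, hm'⟩ := ord_nat v (vl_mkG (d : E) hd0)
      have hm0 : m = 0 := by
        by_contra h
        exact hv (hfin.mem_toFinset.2 ((dvd_pow_self _ h).trans hm'))
      have h1 := hmul M _ hM v
      rw [map_nsmul, map_nsmul, hm, hm0] at h1
      have h2 : (0 : ℤ) < e := by exact_mod_cast Nat.pos_of_ne_zero he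
      simp only [Nat.cast_zero, neg_zero, smul_zero, zero_add, nsmul_eq_mul] at h1
      exact le_of_mul_le_mul_left (by simpa using h1) h2
  · have hD : (0 : ℝ) ≤ finrank ℚ E * t := by positivity
    refine (pi_norm_le_iff_of_nonneg (by positivity)).2 fun i => ?_
    rcases i with φ | v
    · exact (hs φ).trans (by linarith)
    · obtain ⟨m, hm, hm'⟩ := ord_nat v.1 (hpow M)
      have a1 := hmul M y h1 v.1
      have a2 := hmul M (-y) (by simpa using h2) v.1
      rw [map_neg] at a2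
      have a3 : |ord v.1 y| ≤ m := abs_le.2 ⟨by omega, by omega⟩
      have a4 := norm_le (Nat.one_le_pow M d hd) hm'
      rw [map_pow] at a4
      have a5 : (2 : ℝ) ^ m ≤ ((d : ℝ) ^ M) ^ finrank ℚ E := by
        exact_mod_cast (Nat.pow_le_pow_left (two_le v.1) m).trans a4
      have a6 := log_le_log (by positivity) (a5.trans (pow_le_pow_left₀ (by positivity) h3 _))
      rw [log_pow, log_pow, log_exp] at a6
      have a7 : |(ord v.1 y : ℝ)| ≤ m := by exact_mod_cast a3
      rw [hr, Real.norm_eq_abs]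
      have a8 : (0 : ℝ) ≤ m := Nat.cast_nonneg m
      nlinarith [log_two_gt_d9]

end Pool.Agent.P.MP_657a03_nt.AB
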