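import Pool.Agent.P.MP_657a03_nt.AB.Api

/-! Proof of THETA. -/

set_option autoImplicit false

open NumberField NumberField.Units Module Real Matrix Polynomial

namespace Pool.Agent.P.MP_657a03_nt.AB

theorem t_THETA : S_THETA := by
  intro E _ Γ e hΓ he
  have h1 : finrank ℤ (Γ ⧸ Submodule.torsion ℤ Γ) = finrank ℤ Γ :=
    finrank_quotient_eq_of_le_torsion le_rfl
  let b := Module.finBasisOfFinrankEq ℤ (Γ ⧸ Submodule.torsion ℤ Γ) h1
  let m : sat Γ e →ₗ[ℤ] Γ :=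
    ((LinearMap.lsmul ℤ (GE E) (e : ℤ)).domRestrict (sat Γ e)).codRestrict Γ fun y => y.2
  refine ⟨(b.equivFun.toLinearMap ∘ₗ (Submodule.torsion ℤ Γ).mkQ ∘ₗ m).toAddMonoidHom,
    fun y => ?_⟩
  show b.equivFun ((Submodule.torsion ℤ Γ).mkQ (m y)) = 0 ↔ _
  rw [LinearEquiv.map_eq_zero_iff, Submodule.mkQ_apply, Submodule.Quotient.mk_eq_zero,
    Submodule.mem_torsion_iff, isOfFinAddOrder_iff_zsmul_eq_zero]
  constructor
  · rintro ⟨a, ha⟩
    refine ⟨a * e, mul_ne_zero (nonZeroDivisors.coe_ne_zero a) (by exact_mod_cast he), ?_⟩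
    rw [mul_smul]
    exact congrArg Subtype.val ha
  · rintro ⟨a, h0, ha⟩
    refine ⟨⟨a, mem_nonZeroDivisors_of_ne_zero h0⟩, Subtype.ext ?_⟩
    show a • (e : ℤ) • (y : GE E) = 0
    rw [smul_comm, ha, smul_zero]

end Pool.Agent.P.MP_657a03_nt.AB
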