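import Pool.Agent.P.MP_657a03_nt.AB.If

/-! Proof of TRANS. -/

set_option autoImplicit false

open NumberField NumberField.Units Module Real Matrix Polynomial

namespace Pool.Agent.P.MP_657a03_nt.AB

open Pool.Agent.P.MP_8b7eba_nt.R2 (Om)

namespace TRANS

/-- the completion of an ultrametric normed field -/
theorem ultra_completion (L0 : Type) [NormedField L0] [IsUltrametricDist L0] :
    IsUltrametricDist (UniformSpace.Completion L0) := by
  refine IsUltrametricDist.isUltrametricDist_of_forall_norm_add_le_max_norm ?_
  intro x y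
  refine UniformSpace.Completion.induction_on₂ x y ?_ ?_
  · exact isClosed_le (by fun_prop) (by fun_prop)
  · intro a b
    rw [← UniformSpace.Completion.coe_add, UniformSpace.Completion.norm_coe,
      UniformSpace.Completion.norm_coe, UniformSpace.Completion.norm_coe]
    exact IsUltrametricDist.norm_add_le_max a b

/-- an isometric embedding into a complete field through an algebraically closed field -/
theorem ext_closed (L : Type) [NontriviallyNormedField L] [CompleteSpace L]
    [IsUltrametricDist L] :
    ∃ (L' : Type) (_ : NormedField L') (_ : CompleteSpace L') (_ : IsUltrametricDist L')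
      (e0 : AlgebraicClosure L →+* L'),
      ∀ x : L, ‖e0 (algebraMap L (AlgebraicClosure L) x)‖ = ‖x‖ := by
  letI : NormedField (AlgebraicClosure L) := spectralNorm.normedField L (AlgebraicClosure L)
  haveI : IsUltrametricDist (AlgebraicClosure L) :=
    IsUltrametricDist.isUltrametricDist_of_forall_norm_add_le_max_norm
      (isNonarchimedean_spectralNorm (K := L) (L := AlgebraicClosure L))
  refine ⟨UniformSpace.Completion (AlgebraicClosure L), inferInstance, inferInstance,
    ultra_completion _, UniformSpace.Completion.coeRingHom, ?_⟩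
  intro x
  have h1 : ‖(UniformSpace.Completion.coeRingHom (algebraMap L (AlgebraicClosure L) x) :
      UniformSpace.Completion (AlgebraicClosure L))‖ =
      ‖algebraMap L (AlgebraicClosure L) x‖ := UniformSpace.Completion.norm_coe _
  rw [h1]
  exact spectralNorm_extends x

/-- extension of an embedding to the algebraic numbers -/
theorem lift_Om (K : Type) [Field K] [NumberField K] (L0 : Type) [Field L0] [IsAlgClosed L0]
    (i0 : K →+* L0) (j : K →+* Om) : ∃ i1 : Om →+* L0, ∀ x, i1 (j x) = i0 x := by
  letI : Algebra K Om := j.toAlgebra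
  letI : Algebra K L0 := i0.toAlgebra
  haveI : Algebra.IsAlgebraic K Om := by
    refine ⟨fun x => ?_⟩
    obtain ⟨q, hq, hqx⟩ := (AlgebraicClosure.isAlgebraic ℚ).isAlgebraic x
    refine ⟨q.map (algebraMap ℚ K), ?_, ?_⟩
    · exact (Polynomial.map_ne_zero_iff (algebraMap ℚ K).injective).2 hq
    · rw [Polynomial.aeval_def, Polynomial.eval₂_map]
      rw [Polynomial.aeval_def] at hqx
      rw [← hqx]
      congr 1
      exact Subsingleton.elim _ _
  let f : Om →ₐ[K] L0 := IsAlgClosed.lift
  exact ⟨f.toRingHom, fun x => f.commutes x⟩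

end TRANS

theorem t_TRANS (h1 : S_LOG1) : S_TRANS := by
  intro p hp L _ _ _ _ K _ _ ι j hp2
  have hnp : ‖(p : L)‖ = (p : ℝ)⁻¹ := by
    rw [← map_natCast (algebraMap ℚ_[p] L) p, norm_algebraMap', Padic.norm_p]
  haveI hc : CharZero L := (RingHom.charZero_iff (algebraMap ℚ_[p] L).injective).mp inferInstance
  have hp1 : (1 : ℝ) < p := by exact_mod_cast hp.out.one_lt
  letI : NontriviallyNormedField L :=
    { (inferInstance : NormedField L) with
      non_trivial := ⟨(p : L)⁻¹, by rw [norm_inv, hnp, inv_inv]; exact hp1⟩ }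
  obtain ⟨L', i1, i2, i3, e0, he0⟩ := TRANS.ext_closed L
  obtain ⟨j1, hj1⟩ := TRANS.lift_Om K (AlgebraicClosure L)
    ((algebraMap L (AlgebraicClosure L)).comp ι) j
  let e : L →+* L' := e0.comp (algebraMap L (AlgebraicClosure L))
  have he : ∀ x, ‖e x‖ = ‖x‖ := he0
  haveI hc' : CharZero L' := (RingHom.charZero_iff e.injective).mp hc
  have hPF : PF p L := ⟨hp.out, hp2, hnp⟩
  refine ⟨L', i1, i2, i3, hc', e, e0.comp j1, ⟨hp.out, hp2, ?_⟩, he, ?_, ?_⟩
  · rw [← map_natCast e p, he, hnp]
  · intro x
    show e0 (j1 (j x)) = _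
    rw [hj1]
    rfl
  · intro y hy
    have hs := (h1 p L hPF y hy).1
    have hcont : Continuous e :=
      (AddMonoidHomClass.isometry_of_norm e he).continuous
    have h2 := hs.hasSum.map e hcont
    unfold lgS
    rw [← h2.tsum_eq]
    refine tsum_congr fun k => ?_
    simp [Function.comp]

end Pool.Agent.P.MP_657a03_nt.AB
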