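import Pool.Agent.P.MP_657a03_nt.AB.If
import Pool.Agent.P.MP_8b7eba_nt.R2.Basic

/-! The tower in terms of subgroups. -/

set_option autoImplicit false

namespace Pool.Agent.P.MP_657a03_nt.AB

open Pool.Agent.P.MP_8b7eba_nt.R2 GS

theorem t_TW (h1 : S_START) (h2 : GS.S_STEP) (h3 : S_DISC) : S_TW := by
  refine ⟨∏ l ∈ SS, l, by norm_num [SS], fun p hp h23 d hd => ?_⟩
  have hS : p ∉ SS := fun h => by
    simp only [SS, Finset.mem_insert, Finset.mem_singleton] at h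
    omega
  obtain ⟨N0, χ, a1, a2, a3, a4, a5, a6⟩ := h1 p hp hS
  have key : ∀ k, 7 ≤ k → ∃ N ≤ N0, ON N ∧ Unr N ∧ Spl p N ∧ N.index = 2 ^ k := fun k hk => by
    induction k, hk using Nat.le_induction with
    | base => exact ⟨N0, le_rfl, a1, a2, a3, a4⟩
    | succ k hk ih =>
      obtain ⟨N, b0, b1, b2, b3, b4⟩ := ih
      obtain ⟨N', c0, c⟩ := h2 p k N χ hp hS b1 b2 b3 b4 a5 fun n hn => a6 n (b0 hn)
      exact ⟨N', c0.trans b0, c⟩
  obtain ⟨N, -, b1, b2, b3, b4⟩ := key d hd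
  exact ⟨N, b1, b3, b4, h3 N d b1 b2 b4⟩

end Pool.Agent.P.MP_657a03_nt.AB
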