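import Pool.Agent.P.MP_657a03_nt.AB.Api

/-! Proof of TWIST. -/

set_option autoImplicit false

open NumberField NumberField.Units Module Real Matrix Polynomial

namespace Pool.Agent.P.MP_657a03_nt.AB

namespace TWIST

section

variable {L : Type} [NormedField L] [IsUltrametricDist L]

theorem pr_mul {x y : L} (hx : ‖x - 1‖ < 1) (hy : ‖y - 1‖ < 1) : ‖x * y - 1‖ < 1 := by
  have e : x * y - 1 = (x - 1) * (y - 1) + ((x - 1) + (y - 1)) := by ring
  rw [e]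
  refine (IsUltrametricDist.norm_add_le_max _ _).trans_lt (max_lt ?_
    ((IsUltrametricDist.norm_add_le_max _ _).trans_lt (max_lt hx hy)))
  rw [norm_mul]
  exact mul_lt_one_of_nonneg_of_lt_one_left (norm_nonneg _) hx hy.le

theorem pr_norm {x : L} (hx : ‖x - 1‖ < 1) : ‖x‖ = 1 := by
  have h := IsUltrametricDist.norm_add_eq_max_of_norm_ne_norm (x := x - 1) (y := 1)
    (by rw [norm_one]; exact hx.ne)
  rw [sub_add_cancel, norm_one, max_eq_right hx.le] at h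
  exact h

theorem pr_inv {x : L} (hx : ‖x - 1‖ < 1) : ‖x⁻¹ - 1‖ < 1 := by
  have h := pr_norm hx
  have h0 : x ≠ 0 := by
    rintro rfl
    simp at h
  have e : x⁻¹ - 1 = -(x⁻¹ * (x - 1)) := by field_simp; ring
  rw [e, norm_neg, norm_mul, norm_inv, h, inv_one, one_mul]
  exact hx

theorem pr_pow {x : L} (hx : ‖x - 1‖ < 1) (n : ℕ) : ‖x ^ n - 1‖ < 1 := by
  induction n with
  | zero => simp
  | succ n ih =>
    rw [pow_succ]
    exact pr_mul ih hx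

theorem lg_pow (H : ∀ y y' : L, ‖y - 1‖ < 1 → ‖y' - 1‖ < 1 → lgS (y * y') = lgS y + lgS y')
    {x : L} (hx : ‖x - 1‖ < 1) (n : ℕ) : lgS (x ^ n) = n * lgS x := by
  induction n with
  | zero => simp [lgS]
  | succ n ih =>
    rw [pow_succ, H _ _ (pr_pow hx n) hx, ih]
    push_cast
    ring

/-- the elements whose `q`-th power is a principal unit -/
def Gq {E : Type} [Field E] (ι : E →+* L) (q : ℕ) : AddSubgroup (GE E) where
  carrier := {y | ‖ι (vl y) ^ q - 1‖ < 1}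
  add_mem' := fun {x y} hx hy => by
    simp only [Set.mem_ofPred_eq, vl_add, map_mul, mul_pow]
    exact pr_mul hx hy
  zero_mem' := by simp
  neg_mem' := fun {x} hx => by
    simp only [Set.mem_ofPred_eq, vl_neg, map_inv₀, inv_pow]
    exact pr_inv hx

/-- the logarithm of the `q`-th power -/
noncomputable def Mq {E : Type} [Field E] (ι : E →+* L) (q : ℕ)
    (H : ∀ y y' : L, ‖y - 1‖ < 1 → ‖y' - 1‖ < 1 → lgS (y * y') = lgS y + lgS y') :
    Gq ι q →+ L :=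
  AddMonoidHom.mk' (fun y => lgS (ι (vl (y : GE E)) ^ q)) fun x y => by
    rw [AddSubgroup.coe_add, vl_add, map_mul, mul_pow]
    exact H _ _ x.2 y.2

end

section

variable {E : Type} [Field E] [NumberField E] {h : E ≃ₐ[ℚ] E} {G : Type} [Group G] {φ : G}
  {η : G → GE E}

theorem hat_pow_eta (hη : ∀ σ, hat h (η σ) = η (φ * σ)) (a : ℕ) (σ : G) :
    hat (h ^ a) (η σ) = η (φ ^ a * σ) := by
  induction a with
  | zero => simp [hat_one]
  | succ a ih => rw [pow_succ', hat_mul, Module.End.mul_apply, ih, hη, pow_succ', mul_assoc]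

theorem eta' (hη : ∀ σ, hat h (η σ) = η (φ * σ)) (Ψ : ℤ[X]) (σ : G) :
    aeval (hat h) Ψ (η σ) = ∑ a ∈ Ψ.support, Ψ.coeff a • η (φ ^ a * σ) := by
  simp only [aeval_hat, hat_pow_eta hη]

omit [NumberField E] in
theorem coe_sum {χ : G →* Eˣ} {β : G → 𝓞 E} (hβ : ∀ σ, (β σ : E) = χ σ) (φ : G) (Ψ : ℤ[X]) :
    ((∑ b ∈ Ψ.support, (Ψ.coeff b : 𝓞 E) * β (φ ^ b)⁻¹ : 𝓞 E) : E) =
      aeval (((χ φ)⁻¹ : Eˣ) : E) Ψ := by
  rw [aeval_def, eval₂_eq_sum, Polynomial.sum_def]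
  change algebraMap (𝓞 E) E _ = _
  rw [map_sum]
  refine Finset.sum_congr rfl fun b _ => ?_
  have := hβ (φ ^ b)⁻¹
  change algebraMap (𝓞 E) E _ = _ at this
  rw [map_mul, this, map_intCast, map_inv, map_pow, eq_intCast, ← inv_pow, Units.val_pow_eq_pow_val]

theorem reindex [Fintype G] {M : Type} [AddCommMonoid M] (g : G) (f : G → G → M) :
    ∑ σ, f σ (g * σ) = ∑ t, f (g⁻¹ * t) t :=
  Fintype.sum_equiv (Equiv.mulLeft g) _ _ fun σ => by simp

theorem resum [Fintype G] {M : Type} [AddCommGroup M] (η : G → M) (φ : G) (S : Finset ℕ)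
    (c : ℕ → ℤ) (a : G → ℤ) : ∑ σ, a σ • ∑ b ∈ S, c b • η (φ ^ b * σ) =
      ∑ t, (∑ b ∈ S, c b * a ((φ ^ b)⁻¹ * t)) • η t := by
  simp only [Finset.smul_sum, Finset.sum_smul]
  rw [Finset.sum_comm, Finset.sum_comm (s := Finset.univ)]
  refine Finset.sum_congr rfl fun b _ => ?_
  rw [reindex (φ ^ b) fun σ t => a σ • c b • η t]
  refine Finset.sum_congr rfl fun t _ => ?_
  rw [smul_smul, mul_comm]

theorem nd [Fintype G] {χ : G →* Eˣ} {β : G → 𝓞 E} {Ψ : ℤ[X]}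
    (hη : ∀ σ, hat h (η σ) = η (φ * σ)) (hβ : ∀ σ, (β σ : E) = χ σ)
    (hi : ∀ a : G → ℤ, IsOfFinAddOrder (∑ σ, a σ • η σ) → a = 0)
    (h0 : aeval (((χ φ)⁻¹ : Eˣ) : E) Ψ ≠ 0) : ND (fun σ => aeval (hat h) Ψ (η σ)) β := by
  classical
  have key : ∀ (R : Type) [CommRing R] (a : G → R),
      ∑ σ, a σ * ((∑ b ∈ Ψ.support, if (φ ^ b)⁻¹ = σ then Ψ.coeff b else 0 : ℤ) : R) =
        ∑ b ∈ Ψ.support, (Ψ.coeff b : R) * a (φ ^ b)⁻¹ := by
    intro R _ a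
    simp only [Int.cast_sum, Int.cast_ite, Int.cast_zero, Finset.mul_sum, mul_ite, mul_zero]
    rw [Finset.sum_comm]
    refine Finset.sum_congr rfl fun b _ => ?_
    rw [Finset.sum_ite_eq, if_pos (Finset.mem_univ _), mul_comm]
  refine ⟨fun σ => ∑ b ∈ Ψ.support, if (φ ^ b)⁻¹ = σ then Ψ.coeff b else 0, ?_, fun a ha => ?_⟩
  · rw [key]
    intro k
    apply h0
    rw [← coe_sum hβ, k]
    rfl
  · have e : ∑ σ, a σ • aeval (hat h) Ψ (η σ) =
        ∑ t, (∑ b ∈ Ψ.support, Ψ.coeff b * a ((φ ^ b)⁻¹ * t)) • η t := by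
      simp only [eta' hη]
      exact resum η φ Ψ.support Ψ.coeff a
    rw [e] at ha
    have k := congrFun (hi _ ha) 1
    have k2 := key ℤ a
    simp only [Int.cast_id] at k2
    rw [k2]
    simpa using k

end

end TWIST

theorem t_TWIST (hN : S_NRM) (h1 : S_LOG1) : S_TWIST := by
  intro p L _ _ _ _ E _ _ ι h G _ _ φ η χ β Ψ q Q hp hη hβ
  refine ⟨TWIST.nd hη hβ, fun hq hηq hQ => ?_⟩
  have H : ∀ y y' : L, ‖y - 1‖ < 1 → ‖y' - 1‖ < 1 → lgS (y * y') = lgS y + lgS y' :=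
    fun y y' hy hy' => (h1 p L hp y hy).2.2.1 y' hy'
  have hq' : (q : L) ≠ 0 := Nat.cast_ne_zero.2 hq
  let ξ : G → TWIST.Gq ι q := fun σ => ⟨η σ, hηq σ⟩
  have e1 : ∀ σ, aeval (hat h) Ψ (η σ) =
      ((∑ a ∈ Ψ.support, Ψ.coeff a • ξ (φ ^ a * σ) : TWIST.Gq ι q) : GE E) := fun σ => by
    rw [TWIST.eta' hη, AddSubgroup.val_finsetSum]
    rfl
  have e2 : ∀ σ, lgS (ι (vl (aeval (hat h) Ψ (η σ))) ^ Q) =
      Q * ∑ a ∈ Ψ.support, Ψ.coeff a * ((q : L)⁻¹ * lgS (ι (vl (η (φ ^ a * σ))) ^ q)) := by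
    intro σ
    have m1 : ‖ι (vl (aeval (hat h) Ψ (η σ))) ^ q - 1‖ < 1 := by
      rw [e1]
      exact (∑ a ∈ Ψ.support, Ψ.coeff a • ξ (φ ^ a * σ) : TWIST.Gq ι q).2
    have m2 : lgS (ι (vl (aeval (hat h) Ψ (η σ))) ^ q) =
        ∑ a ∈ Ψ.support, Ψ.coeff a * lgS (ι (vl (η (φ ^ a * σ))) ^ q) := by
      rw [e1]
      change TWIST.Mq ι q H _ = _
      rw [map_sum]
      refine Finset.sum_congr rfl fun a _ => ?_
      rw [map_zsmul, zsmul_eq_mul]
      rfl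
    have m3 := TWIST.lg_pow H m1 Q
    rw [← pow_mul, mul_comm q, pow_mul, TWIST.lg_pow H (hQ σ), m2] at m3
    apply mul_left_cancel₀ hq'
    rw [m3, Finset.mul_sum, Finset.mul_sum, Finset.mul_sum]
    refine Finset.sum_congr rfl fun a _ => ?_
    field_simp
  have e3 : ∑ σ, ι (β σ) * lgS (ι (vl (aeval (hat h) Ψ (η σ))) ^ Q) =
      Q * ι ((∑ b ∈ Ψ.support, (Ψ.coeff b : 𝓞 E) * β (φ ^ b)⁻¹ : 𝓞 E) : E) *
        ∑ σ, ι (χ σ) * ((q : L)⁻¹ * lgS (ι (vl (η σ)) ^ q)) := by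
    simp only [e2]
    rw [TWIST.coe_sum hβ, aeval_def, eval₂_eq_sum, Polynomial.sum_def, map_sum, mul_assoc,
      Finset.sum_mul, Finset.mul_sum]
    simp only [Finset.mul_sum]
    rw [Finset.sum_comm]
    refine Finset.sum_congr rfl fun b _ => ?_
    rw [TWIST.reindex (φ ^ b) fun σ t =>
      ι (β σ) * (Q * (Ψ.coeff b * ((q : L)⁻¹ * lgS (ι (vl (η t)) ^ q))))]
    refine Finset.sum_congr rfl fun t _ => ?_
    rw [hβ, map_mul, map_inv, map_pow, ← inv_pow, Units.val_mul, Units.val_pow_eq_pow_val, map_mul,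
      map_mul, eq_intCast, map_intCast]
    ring
  rw [e3, norm_mul, norm_mul]
  refine mul_le_of_le_one_left (norm_nonneg _) (mul_le_one₀
    (IsUltrametricDist.norm_natCast_le_one L Q) (norm_nonneg _) ?_)
  exact (hN p L hp).2.2.2.2 _ ((RingOfIntegers.isIntegral_coe _).map ι.toIntAlgHom)

end Pool.Agent.P.MP_657a03_nt.AB
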