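import Pool.Agent.P.MP_657a03_nt.AB.Api

/-! Proof of UNITS. -/

set_option autoImplicit false

open NumberField NumberField.Units Module Real Matrix Polynomial

namespace Pool.Agent.P.MP_657a03_nt.AB

theorem t_UNITS (hB : S_BOX) (hP : S_PACK) : S_UNITS := by
  intro E _ _ ρ τ P hρ hd hτ
  classical
  obtain ⟨B, h1, h2⟩ := hB E ρ τ hρ hd hτ
  have hτ1 : (1 : ℝ) ≤ τ := by linarith [log_nonneg hρ]
  set V := UU E ⊓ LinearMap.ker P with hV
  have hr : finrank ℤ ((UU E).map P) + finrank ℤ V = rank E := by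
    have a := (P.domRestrict (UU E)).ker.finrank_quotient_add_finrank
    rw [(P.domRestrict (UU E)).quotKerEquivRange.finrank_eq, LinearMap.range_domRestrict,
      finrank_UU, LinearMap.ker_domRestrict, ← Submodule.finrank_map_subtype_eq,
      Submodule.map_comap_subtype] at a
    exact a
  have hf : ∀ v ∈ B.image P, ((B.filter fun u => P u = v).card : ℝ) ≤
      7 ^ finrank ℚ E * (5 * τ) ^ finrank ℤ V := fun v hv => by
    obtain ⟨u0, hu0, rfl⟩ := Finset.mem_image.1 hv
    rw [← Finset.card_image_of_injective _ (sub_left_injective (b := u0))]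
    refine (hP E V (τ + τ) _ inf_le_left (by positivity) fun u hu => ?_).trans ?_
    · obtain ⟨u, hu', rfl⟩ := Finset.mem_image.1 hu
      obtain ⟨hu, he⟩ := Finset.mem_filter.1 hu'
      exact ⟨⟨sub_mem (h1 u hu).1 (h1 u0 hu0).1, by
        rw [SetLike.mem_coe, LinearMap.mem_ker, map_sub, he, sub_self]⟩,
        (h1 u hu).2.sub (h1 u0 hu0).2⟩
    · gcongr
      linarith
  have hc : (B.card : ℝ) ≤ (B.image P).card * (7 ^ finrank ℚ E * (5 * τ) ^ finrank ℤ V) := by
    rw [Finset.card_eq_sum_card_image P B, Nat.cast_sum, ← nsmul_eq_mul]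
    exact Finset.sum_le_card_nsmul _ _ _ hf
  refine ⟨B.image P, fun v hv => ?_, ?_⟩
  · obtain ⟨u, hu, rfl⟩ := Finset.mem_image.1 hv
    exact ⟨u, (h1 u hu).1, (h1 u hu).2, rfl⟩
  · have hD : finrank ℤ V ≤ finrank ℚ E := by
      have := rank_lt (E := E)
      omega
    refine le_of_mul_le_mul_right ?_ (show (0 : ℝ) < τ ^ finrank ℤ V by positivity)
    rw [← pow_add, hr]
    calc (τ : ℝ) ^ rank E ≤ (B.image P).card * (7 ^ finrank ℚ E * (5 * τ) ^ finrank ℤ V) *
          (1400 * ρ ^ 2) ^ finrank ℚ E := h2.trans (by gcongr)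
      _ ≤ (B.image P).card * (7 ^ finrank ℚ E * (5 ^ finrank ℚ E * τ ^ finrank ℤ V)) *
          (1400 * ρ ^ 2) ^ finrank ℚ E := by
        rw [mul_pow 5]
        gcongr
        norm_num
      _ = (B.image P).card * (7 * 5 * (1400 * ρ ^ 2)) ^ finrank ℚ E * τ ^ finrank ℤ V := by
        rw [mul_pow (7 * 5), mul_pow 7]
        ring
      _ ≤ _ := by
        have : 7 * 5 * (1400 * ρ ^ 2) ≤ 50000 * ρ ^ 2 := by nlinarith [sq_nonneg ρ]
        gcongr

end Pool.Agent.P.MP_657a03_nt.AB
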