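import Pool.Agent.P.MP_657a03_nt.GS.All
import Pool.Agent.P.MP_657a03_nt.AB.NRM
import Pool.Agent.P.MP_657a03_nt.AB.LOG1
import Pool.Agent.P.MP_657a03_nt.AB.LOG2
import Pool.Agent.P.MP_657a03_nt.AB.NEWT
import Pool.Agent.P.MP_657a03_nt.AB.SCHW
import Pool.Agent.P.MP_657a03_nt.AB.LIOU
import Pool.Agent.P.MP_657a03_nt.AB.THETA
import Pool.Agent.P.MP_657a03_nt.AB.FIELD
import Pool.Agent.P.MP_657a03_nt.AB.SEP
import Pool.Agent.P.MP_657a03_nt.AB.CRD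
import Pool.Agent.P.MP_657a03_nt.AB.ELIM
import Pool.Agent.P.MP_657a03_nt.AB.LB
import Pool.Agent.P.MP_657a03_nt.AB.SA
import Pool.Agent.P.MP_657a03_nt.AB.LEVEL
import Pool.Agent.P.MP_657a03_nt.AB.MAIN
import Pool.Agent.P.MP_657a03_nt.AB.NA
import Pool.Agent.P.MP_657a03_nt.AB.NB
import Pool.Agent.P.MP_657a03_nt.AB.NC
import Pool.Agent.P.MP_657a03_nt.AB.NUM
import Pool.Agent.P.MP_657a03_nt.AB.BOX
import Pool.Agent.P.MP_657a03_nt.AB.PACK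
import Pool.Agent.P.MP_657a03_nt.AB.UNITS
import Pool.Agent.P.MP_657a03_nt.AB.FAM
import Pool.Agent.P.MP_657a03_nt.AB.DIR
import Pool.Agent.P.MP_657a03_nt.AB.RANK
import Pool.Agent.P.MP_657a03_nt.AB.PW
import Pool.Agent.P.MP_657a03_nt.AB.RES
import Pool.Agent.P.MP_657a03_nt.AB.CORE
import Pool.Agent.P.MP_657a03_nt.AB.CYC
import Pool.Agent.P.MP_657a03_nt.AB.TWIST
import Pool.Agent.P.MP_657a03_nt.AB.CHI
import Pool.Agent.P.MP_657a03_nt.AB.DET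
import Pool.Agent.P.MP_657a03_nt.AB.TRANS
import Pool.Agent.P.MP_657a03_nt.AB.DISC2
import Pool.Agent.P.MP_657a03_nt.AB.TW
import Pool.Agent.P.MP_657a03_nt.AB.CMP
import Pool.Agent.P.MP_657a03_nt.AB.NCC
import Pool.Agent.P.MP_657a03_nt.AB.GLOB
import Pool.Agent.P.MP_657a03_nt.AB.ALL
import Pool.Agent.P.MP_657a03_nt.AB.Glue

/-! All pieces put together. -/

set_option autoImplicit false

namespace Pool.Agent.P.MP_657a03_nt.AB

open Pool.Agent.P.MP_8b7eba_nt.R2 GS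

theorem twAll : S_TW :=
  t_TW (t_START caAll)
    (t_STEP (t_GS t_NAK (t_GEN t_NAK) t_FIL t_COC)
      (t_SEL caAll (t_LIFT caAll (t_GTH caAll (t_ABHNQ caAll)))))
    (t_DISC caAll)

theorem log1All : S_LOG1 := t_LOG1 t_NRM

theorem mainAll : S_MAIN := by
  have l2 := t_LOG2 t_NRM log1All
  have li := t_LIOU t_NRM
  exact t_MAIN (t_CRD log1All t_THETA t_SEP) (t_ELIM t_NRM li)
    (t_LEVEL t_NRM log1All l2 (t_SA t_NRM log1All l2 (t_SCHW t_NRM l2 t_NEWT)) (t_LB t_NRM li)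
      (t_FIELD t_THETA))

theorem coreAB : S_CORE :=
  t_CORE (t_NUM t_NA t_NB t_NC) (t_FAM (t_UNITS t_BOX t_PACK)) mainAll

theorem allAB : S_ALL :=
  t_ALL t_NRM (t_GLOB caAll (t_CMP twAll t_DISC2) t_NCC)
    (t_CHI t_NRM coreAB t_CYC (t_TWIST t_NRM log1All) (t_RANK t_DIR) t_PW t_RES) t_RES

theorem transAll : S_TRANS := t_TRANS log1All

end Pool.Agent.P.MP_657a03_nt.AB
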