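import Pool.Agent.P.MP_657a03_nt.GS.If

/-! Statements: the valuation of the normalised regulator over an abelian field. -/

set_option autoImplicit false

open NumberField NumberField.Units Module Real Matrix Polynomial
open scoped ComplexConjugate

namespace Pool.Agent.P.MP_657a03_nt.AB

open Pool.Agent.P.MP_8b7eba_nt.R2 (Om)

noncomputable section

/-- the absolute value of `L` extends the `p`-adic one -/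
structure PF (p : ℕ) (L : Type) [NormedField L] : Prop where
  prime : p.Prime
  odd : p ≠ 2
  norm_p : ‖(p : L)‖ = (p : ℝ)⁻¹

/-- the logarithmic series -/
def lgS {L : Type} [NormedField L] (y : L) : L :=
  ∑' k : ℕ, (-1 : L) ^ k * (y - 1) ^ (k + 1) / ((k : L) + 1)

/-- the exponential series -/
def exS {L : Type} [NormedField L] (z : L) : L := ∑' m : ℕ, z ^ m / (m.factorial : L)

/-- the value at `x` of the monomial in the functions `F · j` given by the word `f` -/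
def wdR {ι R : Type} [CommRing R] {s : ℕ} (F : ι → Fin s → R) (f : List (Fin s)) (x : ι) : R :=
  (f.map (F x)).prod

/-- the multiplicative group, written additively -/
abbrev GE (E : Type) [Field E] : Type := Additive Eˣ

/-- the underlying element of the field -/
def vl {E : Type} [Field E] (y : GE E) : E := ((Additive.toMul y : Eˣ) : E)

/-- the units of the ring of integers -/
def UU (E : Type) [Field E] : Submodule ℤ (GE E) :=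
  AddSubgroup.toIntSubmodule (Subgroup.toAddSubgroup (Units.map (algebraMap (𝓞 E) E : 𝓞 E →* E)).range)

/-- the action of an automorphism -/
def hat {E : Type} [Field E] [NumberField E] (h : E ≃ₐ[ℚ] E) : Module.End ℤ (GE E) :=
  (MonoidHom.toAdditive (Units.map (h : E →* E))).toIntLinearMap

/-- the elements with `e`-th power in `Γ` -/
def sat {E : Type} [Field E] (Γ : Submodule ℤ (GE E)) (e : ℕ) : Submodule ℤ (GE E) :=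
  Γ.comap (LinearMap.lsmul ℤ (GE E) (e : ℤ))

/-- all conjugates have logarithmic size at most `t` -/
def Sz {E : Type} [Field E] (t : ℝ) (y : GE E) : Prop := ∀ φ : E →+* ℂ, |log ‖φ (vl y)‖| ≤ t

/-- `d` is a denominator of `y` and of its inverse -/
def Den {E : Type} [Field E] (d A : ℕ) (y : GE E) : Prop :=
  IsIntegral ℤ (d * vl y) ∧ IsIntegral ℤ (d * (vl y)⁻¹) ∧ Hs A (d * vl y) ∧ Hs A (d * (vl y)⁻¹)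

/-- `P` preserves the units and multiplies sizes by at most `W` -/
def Pw {E : Type} [Field E] (W : ℕ) (P : Module.End ℤ (GE E)) : Prop :=
  ∀ u ∈ UU E, P u ∈ UU E ∧ ∀ t : ℝ, 0 ≤ t → Sz t u → Sz (W * t) (P u)

/-- the linear form does not vanish formally -/
def ND {E : Type} [Field E] {κ : Type} [Fintype κ] (η : κ → GE E) (β : κ → 𝓞 E) : Prop :=
  ∃ v : κ → ℤ, ∑ i, β i * v i ≠ 0 ∧
    ∀ a : κ → ℤ, IsOfFinAddOrder (∑ i, a i • η i) → ∑ i, a i * v i = 0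

/-- no power of `h` is a central complex conjugation -/
def NC {E : Type} [Field E] [NumberField E] (h : E ≃ₐ[ℚ] E) : Prop :=
  ∀ (ψ : E →+* ℂ) (a : ℕ), h ^ a ≠ 1 → (∀ x, ψ ((h ^ a) x) = conj (ψ x)) →
    ∃ g : E ≃ₐ[ℚ] E, g * h ^ a ≠ h ^ a * g

/-- `h` is a Frobenius element at the unramified place given by `ι` -/
structure Fr (p : ℕ) {L E : Type} [NormedField L] [Field E] [NumberField E] (ι : E →+* L)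
    (h : E ≃ₐ[ℚ] E) : Prop where
  iso : ∀ y, ‖ι (h y)‖ = ‖ι y‖
  frob : ∀ y, ‖ι y‖ ≤ 1 → ‖ι (h y) - ι y ^ p‖ < 1
  unr : ∀ y, ‖ι y‖ < 1 → ‖ι y‖ ≤ (p : ℝ)⁻¹

/-- the group and the small linear form -/
structure Dat (p : ℕ) {L E : Type} [NormedField L] [Field E] (ι : E →+* L)
    (Γ : Submodule ℤ (GE E)) {κ : Type} [Fintype κ] (η : κ → GE E) (β : κ → 𝓞 E)
    (A d Q r : ℕ) (δ : ℝ) : Prop where
  fin : Module.Finite ℤ Γ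
  rk : finrank ℤ Γ = r + 1
  unr : ∀ y, ‖ι y‖ < 1 → ‖ι y‖ ≤ (p : ℝ)⁻¹
  mem : ∀ i, η i ∈ Γ
  res : ∀ y ∈ Γ, ‖ι (vl y) ^ Q - 1‖ < 1
  Q0 : Q ≠ 0
  card : Fintype.card κ ≤ A
  d1 : 1 ≤ d
  dA : d ≤ A
  den : ∀ i, Den d A (η i)
  sun : ∀ y ∈ Γ, ∃ M : ℕ, IsIntegral ℤ ((d : E) ^ M * vl y)
  hb : ∀ i, Hs A (β i : E)
  nd : ND η β
  small : ‖∑ i, ι (β i) * lgS (ι (vl (η i)) ^ Q)‖ ≤ δ

/-- a family of small integers whose quotients are principal units in `Γ` -/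
structure Fm {L E : Type} [NormedField L] [Field E] (ι : E →+* L) (Γ : Submodule ℤ (GE E))
    (d M : ℕ) (X : ℝ) (S : Finset (𝓞 E)) : Prop where
  one_le : 1 ≤ X
  ne : ∀ x ∈ S, x ≠ 0
  hs : ∀ x ∈ S, Hs X (x : E)
  rel : ∀ x ∈ S, ∀ x' ∈ S, ∃ y ∈ Γ, (x : E) = x' * vl y ∧ IsIntegral ℤ ((d : E) ^ M * vl y) ∧
    ‖ι (vl y) - 1‖ < 1
  dM : (d : ℝ) ^ M ≤ X

/-- `y` is the `2 ^ i`-th root of `x / x'` that is congruent to one -/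
def Rt {L E : Type} [NormedField L] [Field E] (ι : E →+* L) (i : ℕ) (x x' : 𝓞 E) (y : E) : Prop :=
  y ^ (2 ^ i) * (x' : E) = (x : E) ∧ ‖ι y - 1‖ < 1

/-- coordinates at level `i` -/
def Co {L E : Type} [NormedField L] [Field E] (ι : E →+* L) (S : Finset (𝓞 E)) {s : ℕ}
    (μ : Fin s → L) (F : 𝓞 E → Fin s → 𝓞 E) (i : ℕ) (ε : ℝ) : Prop :=
  ∀ x' ∈ S, ∃ (α β : Matrix (Fin s) (Fin s) E) (α0 β0 : Fin s → E),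
    (∀ j k, ‖ι (α j k)‖ ≤ 1) ∧ (∀ j, ‖ι (α0 j)‖ ≤ 1) ∧ ∀ x ∈ S, ∀ y, Rt ι i x x' y →
      ∃ Z : Fin s → E, (∀ j, ‖ι (Z j)‖ ≤ 1) ∧ ‖lgS (ι y) - ∑ j, ι (Z j) * μ j‖ ≤ ε ∧
        (fun j => (F x j : E)) = α0 + α *ᵥ Z ∧ Z = β0 + β *ᵥ fun j => (F x j : E)

/-- vanishing at the first `U` odd points to order `T` -/
def Van {E : Type} [Field E] {s : ℕ} (S : Finset (𝓞 E)) (c : 𝓞 E → ℤ) (F : 𝓞 E → Fin s → 𝓞 E)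
    (Y : 𝓞 E → E) (U T : ℕ) : Prop :=
  ∀ v < U, ∀ f : List (Fin s), f.length ≤ T →
    ∑ x ∈ S, ((c x * wdR F f x : 𝓞 E) : E) * Y x ^ (2 * v + 1) = 0

/-- the state of the descent at level `i` -/
def St {L E : Type} [NormedField L] [Field E] (ι : E →+* L) (S : Finset (𝓞 E)) (c : 𝓞 E → ℤ)
    {s : ℕ} (F : 𝓞 E → Fin s → 𝓞 E) (i U T : ℕ) : Prop :=
  ∃ (S' : Finset (𝓞 E)) (x0 : 𝓞 E) (Y : 𝓞 E → E), S' ⊆ S ∧ x0 ∈ S' ∧ c x0 ≠ 0 ∧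
    (∀ x ∈ S', Rt ι i x x0 (Y x)) ∧ Van S' c F Y U T

end

/-! ### Analysis in a `p`-adic field -/

def S_NRM : Prop :=
  ∀ (p : ℕ) (L : Type) [NormedField L] [IsUltrametricDist L], PF p L →
    (∀ n : ℤ, ¬ (p : ℤ) ∣ n → ‖(n : L)‖ = 1) ∧ (∀ n : ℤ, n ≠ 0 → 1 ≤ |(n : ℝ)| * ‖(n : L)‖) ∧
    (∀ m : ℕ, ‖(m.factorial : L)⁻¹‖ ^ 2 ≤ (p : ℝ) ^ m) ∧
    (∀ m : ℕ, ‖((m + 1).factorial : L)⁻¹‖ ^ 2 ≤ (p : ℝ) ^ m) ∧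
    ∀ x : L, IsIntegral ℤ x → ‖x‖ ≤ 1

def S_LOG1 : Prop :=
  ∀ (p : ℕ) (L : Type) [NormedField L] [CompleteSpace L] [IsUltrametricDist L] [CharZero L],
    PF p L → ∀ y : L, ‖y - 1‖ < 1 →
      (Summable fun k : ℕ => (-1 : L) ^ k * (y - 1) ^ (k + 1) / ((k : L) + 1)) ∧
      Filter.Tendsto (fun n : ℕ => (y ^ p ^ n - 1) / (p : L) ^ n) Filter.atTop (nhds (lgS y)) ∧
      (∀ y', ‖y' - 1‖ < 1 → lgS (y * y') = lgS y + lgS y') ∧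
      (‖y - 1‖ ≤ (p : ℝ)⁻¹ → ‖lgS y‖ = ‖y - 1‖)

def S_LOG2 : Prop :=
  ∀ (p : ℕ) (L : Type) [NormedField L] [CompleteSpace L] [IsUltrametricDist L] [CharZero L],
    PF p L →
      (∀ z : L, ‖z‖ ≤ (p : ℝ)⁻¹ → ‖exS z - 1‖ ≤ (p : ℝ)⁻¹ ∧
        (∀ z', ‖z'‖ ≤ (p : ℝ)⁻¹ → exS (z + z') = exS z * exS z') ∧
        (∀ n : ℕ, exS (n * z) = exS z ^ n) ∧
        ∀ M : ℕ, ‖exS z - ∑ m ∈ Finset.range M, z ^ m / (m.factorial : L)‖ ^ 2 ≤ ((p : ℝ) ^ M)⁻¹) ∧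
      ∀ y : L, ‖y - 1‖ ≤ (p : ℝ)⁻¹ → exS (lgS y) = y

def S_NEWT : Prop :=
  ∀ (L : Type) [NormedField L] [IsUltrametricDist L] (P : L[X]) (ρ ε : ℝ) (U Δ : ℕ) (t : ℕ → L)
    (u : L), 0 ≤ ρ → ρ ≤ 1 → 0 ≤ ε → (∀ m, ‖P.coeff m‖ ≤ ρ ^ m) → (∀ v, ‖t v‖ ≤ 1) →
    (∀ v < U, ∀ v' < U, v ≠ v' → ‖t v - t v'‖ = 1) →
    (∀ v < U, ∀ j < Δ, ‖(taylor (t v) P).coeff j‖ ≤ ε) → ‖u‖ ≤ 1 →
    ‖P.eval u‖ ≤ max ε (ρ ^ (U * Δ))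

def S_SCHW : Prop :=
  ∀ (p : ℕ) (L : Type) [NormedField L] [CompleteSpace L] [IsUltrametricDist L] [CharZero L]
    (ι : Type) (S : Finset ι) (s : ℕ) (Z : ι → Fin s → L) (μ : Fin s → L) (c lam : ι → L) (ε : ℝ)
    (U Δ T : ℕ), PF p L → U ≤ p → (∀ j, ‖μ j‖ ≤ (p : ℝ)⁻¹) →
    (∀ l ∈ S, ‖c l‖ ≤ 1 ∧ (∀ j, ‖Z l j‖ ≤ 1) ∧ ‖lam l‖ ≤ (p : ℝ)⁻¹ ∧
      ‖2 * lam l - ∑ j, Z l j * μ j‖ ≤ ε) → 0 ≤ ε → ε * (p : ℝ) ^ (U * Δ + 1) ≤ 1 →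
    (∀ v < U, ∀ f : List (Fin s), f.length ≤ T + Δ →
      ∑ l ∈ S, c l * wdR Z f l * exS (lam l) ^ (2 * (2 * v + 1)) = 0) →
    ∀ (u : ℕ) (f : List (Fin s)), f.length ≤ T →
      ‖∑ l ∈ S, c l * wdR Z f l * exS (lam l) ^ u‖ ^ 2 ≤ ((p : ℝ) ^ (U * Δ))⁻¹

def S_LIOU : Prop :=
  ∀ (p : ℕ) (L : Type) [NormedField L] [IsUltrametricDist L] (K K' : Type) [Field K]
    [NumberField K] [Field K'] [NumberField K'] [Algebra K K'] (ι' : K' →+* L) (y : K') (δ : ℝ)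
    (G : (K →+* ℂ) → ℝ), PF p L → IsIntegral ℤ y → ‖ι' y‖ ≤ δ →
    (∀ φ : K' →+* ℂ, ‖φ y‖ ≤ G (φ.comp (algebraMap K K'))) →
    (∏ φ, G φ) ^ finrank K K' * δ < 1 → y = 0

/-! ### Coordinates -/

def S_THETA : Prop :=
  ∀ (E : Type) [Field E] (Γ : Submodule ℤ (GE E)) (e : ℕ), Module.Finite ℤ Γ → e ≠ 0 →
    ∃ θ : sat Γ e →+ (Fin (finrank ℤ Γ) → ℤ), ∀ y, θ y = 0 ↔ IsOfFinAddOrder (y : GE E)

def S_FIELD : Prop :=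
  ∀ (L E : Type) [Field L] [Field E] [NumberField E] (ι : E →+* L) (Γ : Submodule ℤ (GE E))
    (e r : ℕ), Module.Finite ℤ Γ → finrank ℤ Γ = r + 1 → e ≠ 0 →
    ∃ (K' : Type) (_ : Field K') (_ : NumberField K') (_ : Algebra E K') (ι' : K' →+* L),
      finrank E K' ≤ 2 ^ (r + 2) ∧ (∀ y, ι' (algebraMap E K' y) = ι y) ∧
      ∀ y ∈ sat Γ e, ∀ q : L, q ^ 2 = ι (vl y) → ∃ q' : K', ι' q' = q

def S_SEP : Prop :=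
  ∀ (E : Type) [Field E] [NumberField E] (Γ : Submodule ℤ (GE E)) (e d : ℕ), e ≠ 0 → 1 ≤ d →
    (∀ y ∈ Γ, ∃ M : ℕ, IsIntegral ℤ ((d : E) ^ M * vl y)) →
    ∃ (κ : Type) (_ : Fintype κ) (ℓ : GE E →+ (κ → ℝ)), Fintype.card κ ≤ finrank ℚ E * (1 + d) ∧
      (∀ y, IsOfFinAddOrder y → ℓ y = 0) ∧
      (∀ y ∈ sat Γ e, ‖ℓ y‖ < ((7 : ℝ) ^ finrank ℚ E)⁻¹ → IsOfFinAddOrder y) ∧
      ∀ (y : GE E) (M : ℕ) (t : ℝ), 0 ≤ t → Sz (finrank ℚ E * t) y →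
        IsIntegral ℤ ((d : E) ^ M * vl y) → IsIntegral ℤ ((d : E) ^ M * (vl y)⁻¹) →
        (d : ℝ) ^ M ≤ exp t → ‖ℓ y‖ ≤ 2 * finrank ℚ E * t

/-- integer coordinates -/
def Crd (p : ℕ) {L E : Type} [NormedField L] [Field E] (ι : E →+* L) {κ : Type} [Fintype κ]
    (η : κ → GE E) (Q r lev J : ℕ) (S : Finset (𝓞 E)) : Prop :=
  ∃ (s : ℕ) (lam : Fin s → L) (z : 𝓞 E → Fin s → ℤ) (zη : κ → Fin s → ℤ)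
    (Φ V : Matrix (Fin s) (Fin s) ℤ) (Δ : ℤ), s ≤ r + 1 ∧ Δ ≠ 0 ∧
    V * Φ = Δ • (1 : Matrix (Fin s) (Fin s) ℤ) ∧ (∀ j, ‖lam j‖ ≤ (p : ℝ)⁻¹) ∧
    (∀ x ∈ S, ∀ j, |(Φ *ᵥ z x) j| ≤ J) ∧ (∀ i j, |(Φ *ᵥ zη i) j| ≤ J) ∧
    (∀ i, lgS (ι (vl (η i)) ^ Q) = ∑ j, (zη i j : L) * lam j) ∧
    (∀ a : κ → ℤ, ∑ i, a i • zη i = 0 → IsOfFinAddOrder (∑ i, a i • η i)) ∧
    ∀ i ≤ lev, ∀ x ∈ S, ∀ x' ∈ S, ∀ y, Rt ι i x x' y → ∃ w : Fin s → ℤ,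
      2 ^ i • w = z x - z x' ∧ lgS (ι y) = ∑ j, (w j : L) * lam j ∧ (w = 0 → y = 1)

def S_CRD : Prop :=
  ∀ (p : ℕ) (L : Type) [NormedField L] [CompleteSpace L] [IsUltrametricDist L] [CharZero L]
    (E : Type) [Field E] [NumberField E] (ι : E →+* L) (Γ : Submodule ℤ (GE E)) (κ : Type)
    [Fintype κ] (η : κ → GE E) (β : κ → 𝓞 E) (A d Q r M lev J : ℕ) (δ X : ℝ) (S : Finset (𝓞 E)),
    PF p L → Dat p ι Γ η β A d Q r δ → Fm ι Γ d M X S →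
    (2 * (r + 1) * (2 * finrank ℚ E * (log X + Q * A)) * 7 ^ finrank ℚ E + 2 : ℝ) ^
      (finrank ℚ E * (1 + A)) ≤ J → Crd p ι η Q r lev J S

def S_ELIM : Prop :=
  ∀ (p : ℕ) (L : Type) [NormedField L] [IsUltrametricDist L]
    (E : Type) [Field E] [NumberField E] (ι : E →+* L) (Γ : Submodule ℤ (GE E)) (κ : Type)
    [Fintype κ] (η : κ → GE E) (β : κ → 𝓞 E) (A d Q r lev J : ℕ) (δ : ℝ) (S : Finset (𝓞 E)),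
    PF p L → Dat p ι Γ η β A d Q r δ → Crd p ι η Q r lev J S → 2 * J < 2 ^ lev →
    ∃ (s : ℕ) (μ : Fin s → L) (F : 𝓞 E → Fin s → 𝓞 E), s ≤ r ∧ (∀ j, ‖μ j‖ ≤ (p : ℝ)⁻¹) ∧
      (∀ x ∈ S, ∀ j, Hs (2 * A ^ 2 * J ^ 2) (F x j : E)) ∧
      (∀ i ≤ lev, Co ι S μ F i (δ * ((A : ℝ) ^ 2 * J) ^ finrank ℚ E)) ∧
      ∀ x ∈ S, ∀ x' ∈ S, ∀ y, Rt ι lev x x' y → x = x'

/-! ### The descent -/

def S_LB : Prop :=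
  ∀ (p : ℕ) (L : Type) [NormedField L] [IsUltrametricDist L] (E K' : Type) [Field E]
    [NumberField E] [Field K'] [NumberField K'] [Algebra E K'] (ι : E →+* L) (ι' : K' →+* L)
    (Γ : Submodule ℤ (GE E)) (A d M : ℕ) (X : ℝ) (S S' : Finset (𝓞 E)) (x0 : 𝓞 E) (i e : ℕ)
    (s : 𝓞 E → K') (n : 𝓞 E → 𝓞 E) (B δ : ℝ) (u Qd : ℕ), PF p L → Fm ι Γ d M X S → 1 ≤ d → d ≤ A →
    S' ⊆ S → x0 ∈ S → 2 ^ i ≤ e →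
    (∀ x ∈ S', s x ^ e * algebraMap E K' (x0 : E) = algebraMap E K' (x : E)) → 1 ≤ B →
    (∀ x ∈ S', Hs B (n x : E)) → finrank E K' ≤ Qd → 0 < δ →
    ‖ι' (∑ x ∈ S', algebraMap E K' (n x : E) * s x ^ u)‖ ≤ δ →
    Qd * (finrank ℚ E * log (S.card * B) +
      u * (finrank ℚ E * log A + 2 * finrank ℚ E * log X / 2 ^ i)) < -log δ →
    ∑ x ∈ S', algebraMap E K' (n x : E) * s x ^ u = 0

def S_SA : Prop :=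
  ∀ (p : ℕ) (L : Type) [NormedField L] [CompleteSpace L] [IsUltrametricDist L] [CharZero L]
    (E : Type) [Field E] [NumberField E] (ι : E →+* L) (S S' : Finset (𝓞 E)) (s : ℕ)
    (μ : Fin s → L) (F : 𝓞 E → Fin s → 𝓞 E) (i : ℕ) (ε : ℝ) (x0 : 𝓞 E) (Y : 𝓞 E → E)
    (c : 𝓞 E → ℤ) (U Δ T : ℕ), PF p L → (∀ y, ‖ι y‖ < 1 → ‖ι y‖ ≤ (p : ℝ)⁻¹) →
    (∀ j, ‖μ j‖ ≤ (p : ℝ)⁻¹) → Co ι S μ F i ε → S' ⊆ S → x0 ∈ S → (∀ x ∈ S', Rt ι i x x0 (Y x)) →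
    U ≤ p → 0 ≤ ε → ε * (p : ℝ) ^ (U * Δ + 1) ≤ 1 → Van S' c F Y U (T + Δ) →
    ∀ (u : ℕ) (f : List (Fin s)), f.length ≤ T →
      ‖∑ x ∈ S', ι ((c x * wdR F f x : 𝓞 E) : E) * exS (lgS (ι (Y x)) / 2) ^ u‖ ^ 2 ≤
        ((p : ℝ) ^ (U * Δ))⁻¹

def S_LEVEL : Prop :=
  ∀ (p : ℕ) (L : Type) [NormedField L] [CompleteSpace L] [IsUltrametricDist L] [CharZero L]
    (E : Type) [Field E] [NumberField E] (ι : E →+* L) (Γ : Submodule ℤ (GE E)) (A d M r : ℕ)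
    (X : ℝ) (S : Finset (𝓞 E)) (s : ℕ) (μ : Fin s → L) (F : 𝓞 E → Fin s → 𝓞 E) (c : 𝓞 E → ℤ)
    (i T U Δ T' : ℕ) (ε B : ℝ), PF p L → Module.Finite ℤ Γ → finrank ℤ Γ = r + 1 →
    (∀ y, ‖ι y‖ < 1 → ‖ι y‖ ≤ (p : ℝ)⁻¹) → Fm ι Γ d M X S → 1 ≤ d → d ≤ A →
    (∀ j, ‖μ j‖ ≤ (p : ℝ)⁻¹) → Co ι S μ F i ε → 1 ≤ B →
    (∀ x ∈ S, ∀ f : List (Fin s), f.length ≤ T → Hs B ((c x * wdR F f x : 𝓞 E) : E)) →
    0 < U → T' + (r + 3) * Δ ≤ T →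
    2 * finrank ℚ E * log (S.card * B) / U +
      8 * (finrank ℚ E * log A + 2 * finrank ℚ E * log X / 2 ^ i) < Δ * log p →
    2 ^ (r + 2) * U ≤ p → 0 ≤ ε → ε * (p : ℝ) ^ (2 ^ (r + 2) * U * Δ + 1) ≤ 1 →
    St ι S c F i U (T' + (r + 3) * Δ) → St ι S c F (i + 1) U T'

def S_MAIN : Prop :=
  ∀ (p : ℕ) (L : Type) [NormedField L] [CompleteSpace L] [IsUltrametricDist L] [CharZero L]
    (E : Type) [Field E] [NumberField E] (ι : E →+* L) (Γ : Submodule ℤ (GE E)) (κ : Type)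
    [Fintype κ] (η : κ → GE E) (β : κ → 𝓞 E) (A d Q r M lev J J' U B1 B2 C T : ℕ) (δ X : ℝ)
    (S : Finset (𝓞 E)), PF p L → Dat p ι Γ η β A d Q r δ → Fm ι Γ d M X S →
    (2 * (r + 1) * (2 * finrank ℚ E * (log X + Q * A)) * 7 ^ finrank ℚ E + 2 : ℝ) ^
      (finrank ℚ E * (1 + A)) ≤ J → 2 * J < 2 ^ lev → 2 * A ^ 2 * J ^ 2 ≤ J' →
    (r + 3) * (2 * B1 + lev * B2) ≤ T → 0 < U →
    (U + 1) * (finrank ℚ E * (U * (T + r).choose r)) ≤ S.card →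
    3 * S.card * ((J' : ℝ) ^ T * X ^ (2 * U)) ≤ (C : ℝ) ^ U →
    16 * finrank ℚ E * log X ≤ B1 * log p →
    2 * finrank ℚ E * log (S.card * C * (J' : ℝ) ^ T) / U + 8 * finrank ℚ E * log A + log p <
      B2 * log p →
    2 ^ (r + 2) * U ≤ p →
    δ * ((A : ℝ) ^ 2 * J) ^ finrank ℚ E * (p : ℝ) ^ (2 ^ (r + 2) * U * (B1 + B2) + 1) ≤ 1 → False

def S_NA : Prop :=
  ∀ (W κ0 A Q r D l τ B1 : ℕ) (G La : ℝ), 1 ≤ W → 1 ≤ G → D ≤ κ0 * (r + 1) → 1 ≤ D → D ≤ l →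
    238 * W * exp 2 * G ^ κ0 * D ≤ La → B1 * La ≤ 17 * (D * (W * τ)) → 1 ≤ B1 →
    Q * (l : ℝ) ^ 21 * exp (-(2 * r)) ≤ τ → 2 * exp 3 * A ^ (2 * A) * G ^ κ0 ≤ (l : ℝ) ^ 2 →
    (((l ^ 9 + 1) * (D * (l ^ 9 * (4 * (r + 3) * B1 + r).choose r)) : ℕ) : ℝ) *
      (A ^ (2 * A) * G ^ D * Q) ≤ τ ^ (r + 1)

def S_NB : Prop :=
  ∀ W A p Q r D l τ : ℕ, Q ≤ p ^ A → p ≤ 4 ^ l → D ≤ l → r + 1 ≤ l → τ ≤ 2 * A ^ 2 * Q * l ^ 21 →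
    W ≤ l → 100 * (A + 1) ^ 2 ≤ l →
    (2 * (r + 1) * (2 * D * (W * τ + Q * A)) * 7 ^ D + 2) ^ (D * (1 + A)) ≤ 2 ^ l ^ 3

def S_NC : Prop :=
  ∀ (W A r D l τ B1 T Lc J' : ℕ) (La : ℝ), 1 ≤ A → 700 ≤ l → D ≤ l → r + 3 ≤ l → La ≤ l →
    (l : ℝ) ≤ 2 * La → l ^ 20 * A ≤ B1 → 16 * D * (W * τ : ℝ) ≤ B1 * La → T = 4 * (r + 3) * B1 →
    0 < Lc → Lc ≤ 2 ^ (3 * T) → 1 ≤ J' → J' ≤ 2 ^ (3 * l ^ 3) →
    2 * D * log (Lc * (3 * Lc * J' ^ T * ⌈exp (W * τ)⌉₊ ^ 2 : ℕ) * (J' : ℝ) ^ T) / (l ^ 9 : ℕ) +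
      8 * D * log A + La < (B1 / l ^ 3 : ℕ) * La

def S_NUM : Prop :=
  ∀ (W κ0 : ℕ) (G : ℝ), 1 ≤ W → 1 ≤ κ0 → 1 ≤ G → ∃ C : ℝ, 1 ≤ C ∧ ∀ A : ℕ, 1 ≤ A → ∃ P0 : ℕ,
    ∀ p : ℕ, P0 < p → ∀ r D N Q : ℕ, r ≤ D + A → 1 ≤ D → D ≤ κ0 * (r + 1) → C * D ≤ log p →
    p ≤ 2 * Q → Q ≤ p ^ A → Q * log p ^ 60 * exp (-r) < N →
    ∃ τ I U B1 B2 lev J J' Cc T Lc : ℕ,
      τ = I * A ^ 2 ∧ G ≤ τ ∧ (Lc : ℝ) * (A ^ (2 * A) * G ^ D * Q) ≤ τ ^ (r + 1) ∧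
      (2 * (r + 1) * (2 * D * (W * τ + Q * A)) * 7 ^ D + 2 : ℝ) ^ (D * (1 + A)) ≤ J ∧
      2 * J < 2 ^ lev ∧ 2 * A ^ 2 * J ^ 2 ≤ J' ∧ (r + 3) * (2 * B1 + lev * B2) ≤ T ∧ 0 < U ∧
      (U + 1) * (D * (U * (T + r).choose r)) ≤ Lc ∧
      3 * Lc * ((J' : ℝ) ^ T * exp (W * τ) ^ (2 * U)) ≤ (Cc : ℝ) ^ U ∧
      16 * D * (W * τ : ℝ) ≤ B1 * log p ∧
      2 * D * log (Lc * Cc * (J' : ℝ) ^ T) / U + 8 * D * log A + log p < B2 * log p ∧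
      2 ^ (r + 2) * U ≤ p ∧
      ((A : ℝ) ^ 2 * J) ^ D * (p : ℝ) ^ (2 ^ (r + 2) * U * (B1 + B2) + 1) ≤ (p : ℝ) ^ N

/-! ### Units -/

def S_BOX : Prop :=
  ∀ (E : Type) [Field E] [NumberField E] (ρ : ℝ) (τ : ℕ), 1 ≤ ρ →
    |(discr E : ℝ)| ≤ ρ ^ finrank ℚ E → log ρ + 2 ≤ τ →
    ∃ B : Finset (GE E), (∀ u ∈ B, u ∈ UU E ∧ Sz τ u) ∧
      (τ : ℝ) ^ rank E ≤ B.card * (1400 * ρ ^ 2) ^ finrank ℚ E

def S_PACK : Prop :=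
  ∀ (E : Type) [Field E] [NumberField E] (V : Submodule ℤ (GE E)) (t : ℝ) (B : Finset (GE E)),
    V ≤ UU E → 0 ≤ t → (∀ u ∈ B, u ∈ V ∧ Sz t u) →
    (B.card : ℝ) ≤ 7 ^ finrank ℚ E * (2 * t + 1) ^ finrank ℤ V

def S_UNITS : Prop :=
  ∀ (E : Type) [Field E] [NumberField E] (ρ : ℝ) (τ : ℕ) (P : Module.End ℤ (GE E)), 1 ≤ ρ →
    |(discr E : ℝ)| ≤ ρ ^ finrank ℚ E → log ρ + 2 ≤ τ →
    ∃ B : Finset (GE E), (∀ v ∈ B, ∃ u ∈ UU E, Sz τ u ∧ P u = v) ∧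
      (τ : ℝ) ^ finrank ℤ ((UU E).map P) ≤ B.card * (50000 * ρ ^ 2) ^ finrank ℚ E

def S_FAM : Prop :=
  ∀ (L : Type) [NormedField L] [IsUltrametricDist L] (E : Type) [Field E] [NumberField E]
    (ι : E →+* L) (P : Module.End ℤ (GE E)) (κ : Type) [Fintype κ] (η : κ → GE E)
    (A d Q W τ I : ℕ) (ρ : ℝ), Pw W P → Fintype.card κ ≤ A → 1 ≤ d → d ≤ A →
    (∀ i, Den d A (η i)) → Q ≠ 0 →
    (∀ y ∈ (UU E).map P ⊔ Submodule.span ℤ (Set.range η), ‖ι (vl y) ^ Q - 1‖ < 1) → 1 ≤ ρ →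
    |(discr E : ℝ)| ≤ ρ ^ finrank ℚ E → log ρ + 2 ≤ τ → τ = I * A ^ 2 →
    ∃ S : Finset (𝓞 E),
      Fm ι ((UU E).map P ⊔ Submodule.span ℤ (Set.range η)) d (A * I) (exp ((W + 1 : ℕ) * τ)) S ∧
      (τ : ℝ) ^ finrank ℤ ((UU E).map P ⊔ Submodule.span ℤ (Set.range η) : Submodule ℤ (GE E)) ≤
        S.card * (A ^ (2 * A) * (50000 * ρ ^ 2) ^ finrank ℚ E * Q)

/-- the unit theorem, in terms of embeddings -/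
def S_DIR : Prop :=
  ∀ (E : Type) [Field E] [NumberField E] (x : (E →+* ℂ) → ℝ),
    (∀ φ, x (ComplexEmbedding.conjugate φ) = x φ) → ∑ φ, x φ = 0 →
    x ∈ Submodule.span ℝ ((fun (u : GE E) (φ : E →+* ℂ) => log ‖φ (vl u)‖) '' UU E)

def S_RANK : Prop :=
  ∀ (E : Type) [Field E] [NumberField E] (h : E ≃ₐ[ℚ] E) (Ψ : ℤ[X]), Ψ ≠ 0 →
    Ψ.natDegree < orderOf h → NC h →
    finrank ℚ E ≤ 4 * orderOf h * (finrank ℤ ((UU E).map (aeval (hat h) Ψ)) + 1)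

def S_PW : Prop :=
  ∀ (E : Type) [Field E] [NumberField E] (h : E ≃ₐ[ℚ] E) (Ψ : ℤ[X]) (W : ℕ),
    ∑ a ∈ Ψ.support, (Ψ.coeff a).natAbs ≤ W → Pw W (aeval (hat h) Ψ) ∧
      ∀ (y : GE E) (d A : ℕ), 1 ≤ d → d ≤ A → Den d A y → Den (d ^ W) (A ^ W) (aeval (hat h) Ψ y)

def S_RES : Prop :=
  ∀ (p : ℕ) (L : Type) [NormedField L] [IsUltrametricDist L] (E : Type) [Field E] [NumberField E]
    (ι : E →+* L) (h : E ≃ₐ[ℚ] E), Fr p ι h → ∀ (Φ : ℤ[X]) (y : GE E), ‖ι (vl y)‖ = 1 →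
      ‖ι (vl (aeval (hat h) Φ y))‖ = 1 ∧
      ∀ Q : ℕ, Φ.eval (p : ℤ) = Q → aeval (hat h) Φ y = 0 → ‖ι (vl y) ^ Q - 1‖ < 1

/-! ### The bound for one linear form -/

def S_CORE : Prop :=
  ∀ (W κ0 : ℕ) (ρ : ℝ), 1 ≤ κ0 → 1 ≤ ρ → ∃ C : ℝ, 1 ≤ C ∧ ∀ A : ℕ, ∃ P0 : ℕ, ∀ p : ℕ, P0 < p →
    ∀ (L : Type) [NormedField L] [CompleteSpace L] [IsUltrametricDist L] [CharZero L]
    (E : Type) [Field E] [NumberField E] (ι : E →+* L) (P : Module.End ℤ (GE E)) (κ : Type)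
    [Fintype κ] (η : κ → GE E) (β : κ → 𝓞 E) (d Q N : ℕ), PF p L →
    |(discr E : ℝ)| ≤ ρ ^ finrank ℚ E → C * finrank ℚ E ≤ log p → Pw W P →
    finrank ℚ E ≤ κ0 * (finrank ℤ ((UU E).map P) + 1) → (∀ y, ‖ι y‖ < 1 → ‖ι y‖ ≤ (p : ℝ)⁻¹) →
    (∀ y ∈ (UU E).map P ⊔ Submodule.span ℤ (Set.range η), ‖ι (vl y) ^ Q - 1‖ < 1) →
    Fintype.card κ ≤ A → 1 ≤ d → d ≤ A → (∀ i, Den d A (η i)) → (∀ i, Hs A (β i : E)) → ND η β →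
    p ≤ 2 * Q → Q ≤ p ^ A → ‖∑ i, ι (β i) * lgS (ι (vl (η i)) ^ Q)‖ ≤ ((p : ℝ) ^ N)⁻¹ →
    (N : ℝ) ≤ Q * log p ^ 60 * exp (1 - finrank ℚ E / (2 * κ0))

/-- the complementary factor of a cyclotomic polynomial -/
def S_CYC : Prop :=
  ∀ d1 : ℕ, ∃ W : ℕ, ∀ F f : ℕ, 0 < F → F ≤ d1 → f ∣ F → ∃ Ψ : ℤ[X],
    cyclotomic f ℤ * Ψ = X ^ F - 1 ∧ Ψ ≠ 0 ∧ Ψ.natDegree < F ∧
    ∑ a ∈ Ψ.support, (Ψ.coeff a).natAbs ≤ W ∧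
    (∀ (E : Type) [Field E] [CharZero E] (ζ : E), IsPrimitiveRoot ζ f → aeval ζ Ψ ≠ 0) ∧
    ∀ p : ℕ, 2 ≤ p → ∃ Q : ℕ, (cyclotomic f ℤ).eval (p : ℤ) = Q ∧ p ≤ 2 * Q ∧
      Q ≤ 2 ^ d1 * p ^ f.totient ∧ Q ≤ p ^ (2 * d1)

/-- the twisted linear form -/
def S_TWIST : Prop :=
  ∀ (p : ℕ) (L : Type) [NormedField L] [CompleteSpace L] [IsUltrametricDist L] [CharZero L]
    (E : Type) [Field E] [NumberField E] (ι : E →+* L) (h : E ≃ₐ[ℚ] E) (G : Type) [Group G]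
    [Fintype G] (φ : G) (η : G → GE E) (χ : G →* Eˣ) (β : G → 𝓞 E) (Ψ : ℤ[X]) (q Q : ℕ), PF p L →
    (∀ σ, hat h (η σ) = η (φ * σ)) → (∀ σ, (β σ : E) = χ σ) →
    ((∀ a : G → ℤ, IsOfFinAddOrder (∑ σ, a σ • η σ) → a = 0) →
      aeval (((χ φ)⁻¹ : Eˣ) : E) Ψ ≠ 0 → ND (fun σ => aeval (hat h) Ψ (η σ)) β) ∧
    (q ≠ 0 → (∀ σ, ‖ι (vl (η σ)) ^ q - 1‖ < 1) →
      (∀ σ, ‖ι (vl (aeval (hat h) Ψ (η σ))) ^ Q - 1‖ < 1) →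
      ‖∑ σ, ι (β σ) * lgS (ι (vl (aeval (hat h) Ψ (η σ))) ^ Q)‖ ≤
        ‖∑ σ, ι (χ σ) * ((q : L)⁻¹ * lgS (ι (vl (η σ)) ^ q))‖)

def S_CHI : Prop :=
  ∀ (d1 : ℕ) (ρ : ℝ), 1 ≤ d1 → 1 ≤ ρ → ∃ C : ℝ, 1 ≤ C ∧ ∀ A : ℕ, ∃ P0 : ℕ, ∀ p : ℕ, P0 < p →
    ∀ (L : Type) [NormedField L] [CompleteSpace L] [IsUltrametricDist L] [CharZero L]
    (E : Type) [Field E] [NumberField E] (ι : E →+* L) (h : E ≃ₐ[ℚ] E) (G : Type) [Group G]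
    [Fintype G] (φ : G) (η : G → GE E) (χ : G →* Eˣ) (q d f N : ℕ), PF p L →
    (∀ a b : G, a * b = b * a) → orderOf h ≤ d1 → Fr p ι h → NC h →
    |(discr E : ℝ)| ≤ ρ ^ finrank ℚ E → C * finrank ℚ E ≤ log p → (∀ σ, hat h (η σ) = η (φ * σ)) →
    (∀ a : G → ℤ, IsOfFinAddOrder (∑ σ, a σ • η σ) → a = 0) → Fintype.card G ≤ A → 1 ≤ d → d ≤ A →
    (∀ σ, Den d A (η σ)) → q ≠ 0 → (∀ σ, ‖ι (vl (η σ)) ^ q - 1‖ < 1) → 0 < f → φ ^ f = 1 →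
    ‖∑ σ, ι (χ σ) * ((q : L)⁻¹ * lgS (ι (vl (η σ)) ^ q))‖ ≤ ((p : ℝ) ^ N)⁻¹ →
    (N : ℝ) ≤ 2 ^ d1 * (p : ℝ) ^ f.totient * log p ^ 60 * exp (1 - finrank ℚ E / (8 * d1))

/-! ### The global construction -/

open Classical in
def S_DET : Prop :=
  ∀ (L E : Type) [NormedField L] [Field E] [CharZero E] (ι : E →+* L) (G : Type) [Group G]
    [Fintype G] (ζ : E) (a : G → L), (∀ σ τ : G, σ * τ = τ * σ) →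
    IsPrimitiveRoot ζ (Fintype.card G) →
    ∃ X : Finset (G →* Eˣ), X.card = Fintype.card G ∧
      ‖Matrix.det (Matrix.of fun σ τ : G => a (σ * τ))‖ = ∏ χ ∈ X, ‖∑ σ, ι (χ σ) * a σ‖

def S_TRANS : Prop :=
  ∀ (p : ℕ) [Fact p.Prime] (L : Type) [NormedField L] [CompleteSpace L] [IsUltrametricDist L]
    [NormedAlgebra ℚ_[p] L] (K : Type) [Field K] [NumberField K] (ι : K →+* L) (j : K →+* Om),
    p ≠ 2 → ∃ (L' : Type) (_ : NormedField L') (_ : CompleteSpace L') (_ : IsUltrametricDist L')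
      (_ : CharZero L') (e : L →+* L') (ι1 : Om →+* L'), PF p L' ∧ (∀ x, ‖e x‖ = ‖x‖) ∧
      (∀ x, ι1 (j x) = e (ι x)) ∧ ∀ y : L, ‖y - 1‖ < 1 → e (lgS y) = lgS (e y)

def S_DISC2 : Prop :=
  ∀ (E1 : Type) [Field E1] [NumberField E1], ∃ δ : ℕ, 1 ≤ δ ∧
    ∀ (K E : Type) [Field K] [NumberField K] [Field E] [NumberField E] [Algebra K E]
      (j : E1 →+* E), IntermediateField.adjoin K (Set.range j) = ⊤ →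
      (discr E).natAbs ≤ δ ^ finrank ℚ E * (discr K).natAbs ^ finrank K E

open Pool.Agent.P.MP_8b7eba_nt.R2 in
def S_TW : Prop :=
  ∃ m : ℕ, 1 ≤ m ∧ ∀ p : ℕ, p.Prime → 23 < p → ∀ k : ℕ, 7 ≤ k → ∃ N : Subgroup GQ, ON N ∧
    (∀ w : Pl, w.p = p → w.D ≤ N) ∧ N.index = 2 ^ k ∧
    ∀ [NumberField (IntermediateField.fixedField N)],
      (discr (IntermediateField.fixedField N)).natAbs ≤ m ^ 2 ^ k

open Pool.Agent.P.MP_8b7eba_nt.R2 in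
/-- the compositum with a fixed normal field -/
def S_CMP : Prop :=
  ∀ N1 : Subgroup GQ, ON N1 → ∃ ρ : ℝ, 1 ≤ ρ ∧ ∀ p : ℕ, p.Prime → 23 < p → ∀ k : ℕ, 7 ≤ k →
    ∃ N : Subgroup GQ, ON N ∧ N ≤ N1 ∧ (∀ w : Pl, w.p = p → w.D ⊓ N1 ≤ N) ∧ 2 ^ k ≤ N.index ∧
      N.index ≤ N1.index * 2 ^ k ∧ ∀ [NumberField (IntermediateField.fixedField N)],
        |(discr (IntermediateField.fixedField N) : ℝ)| ≤ ρ ^ N.index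

open Pool.Agent.P.MP_8b7eba_nt.R2 in
/-- complex conjugation is not central once the cube roots of two are there -/
def S_NCC : Prop :=
  ∀ (E : Type) [Field E] [NumberField E] [IsGalois ℚ E] (α : E) (h : E ≃ₐ[ℚ] E), α ^ 3 = 2 → NC h

def S_GLOB : Prop :=
  ∀ (K : Type) [Field K] [NumberField K] [IsGalois ℚ K] (j : K →+* Om),
    ∃ (d1 B : ℕ) (ρ : ℝ), 1 ≤ d1 ∧ 1 ≤ ρ ∧ ∀ p : ℕ, B < p →
    ∀ (L : Type) [NormedField L] [IsUltrametricDist L] (ι1 : Om →+* L) (k : ℕ), PF p L → 7 ≤ k →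
    ∃ (E : Type) (_ : Field E) (_ : NumberField E) (jE : K →+* E) (ι : E →+* L) (h : E ≃ₐ[ℚ] E)
      (φ : K ≃ₐ[ℚ] K) (ζ : E), (∀ x, ι (jE x) = ι1 (j x)) ∧ (∀ x, h (jE x) = jE (φ x)) ∧
      orderOf h ≤ d1 ∧ Fr p ι h ∧ NC h ∧ |(discr E : ℝ)| ≤ ρ ^ finrank ℚ E ∧
      2 ^ k ≤ finrank ℚ E ∧ finrank ℚ E ≤ d1 * 2 ^ k ∧ IsPrimitiveRoot ζ (finrank ℚ K) ∧
      ∀ f : ℕ, (∀ x : 𝓞 K, ‖ι1 (j x) ^ p ^ f - ι1 (j x)‖ < 1) → φ ^ f = 1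

/-- the bound for every character, in a field that contains the algebraic numbers -/
def S_ALL : Prop :=
  ∀ (K : Type) [Field K] [NumberField K] [IsGalois ℚ K] (j : K →+* Om),
    (∀ σ τ : K ≃ₐ[ℚ] K, σ * τ = τ * σ) → ∃ c : ℝ, 0 < c ∧ ∀ η : K, η ≠ 0 →
    (∀ a : (K ≃ₐ[ℚ] K) → ℤ, IsOfFinOrder (∏ σ : K ≃ₐ[ℚ] K, (σ η) ^ (a σ)) → a = 0) →
    ∃ P0 : ℕ, ∀ p : ℕ, P0 < p →
    ∀ (L : Type) [NormedField L] [CompleteSpace L] [IsUltrametricDist L] [CharZero L]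
      (ι1 : Om →+* L) (f : ℕ), PF p L → 0 < f → (∀ x : 𝓞 K, ‖ι1 (j x) ^ p ^ f - ι1 (j x)‖ < 1) →
      (∀ σ : K ≃ₐ[ℚ] K, ‖ι1 (j (σ η)) ^ (p ^ finrank ℚ K - 1) - 1‖ < 1) ∧
      ∃ (E : Type) (_ : Field E) (_ : CharZero E) (ι : E →+* L) (ζ : E),
        IsPrimitiveRoot ζ (finrank ℚ K) ∧ ∀ χ : (K ≃ₐ[ℚ] K) →* Eˣ,
          (p : ℝ) ^ (-(p : ℝ) ^ ((f.totient : ℝ) - c) / finrank ℚ K) ≤
            ‖∑ σ, ι (χ σ) * (((p ^ finrank ℚ K - 1 : ℕ) : L)⁻¹ *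
              lgS (ι1 (j (σ η)) ^ (p ^ finrank ℚ K - 1)))‖

end Pool.Agent.P.MP_657a03_nt.AB
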