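import Pool.Agent.P.MP_657a03_nt.AB.Api
import Pool.Agent.P.MP_657a03_nt.CountB

/-! Proof of PACK. -/

set_option autoImplicit false

open NumberField NumberField.Units Module Real Matrix Polynomial

namespace Pool.Agent.P.MP_657a03_nt.AB

namespace PACK

open MeasureTheory Metric Set in
open scoped Function ENNReal in
theorem sep {W : Type} [NormedAddCommGroup W] [NormedSpace ℝ W] [FiniteDimensional ℝ W] {t : ℝ}
    (ht : 0 ≤ t) (s : Finset W) (hs : ∀ c ∈ s, ‖c‖ ≤ t)
    (h : ∀ c ∈ s, ∀ d ∈ s, c ≠ d → 1 ≤ ‖c - d‖) : (s.card : ℝ) ≤ (2 * t + 1) ^ finrank ℝ W := by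
  borelize W
  let μ : Measure W := Measure.addHaar
  have ρpos : 0 < t + 1 / 2 := by linarith
  have D : Set.Pairwise (s : Set W) (Disjoint on fun c => ball (c : W) (1 / 2)) := by
    rintro c hc d hd hcd
    apply ball_disjoint_ball
    rw [dist_eq_norm]
    linarith [h c hc d hd hcd]
  have A_subset : (⋃ c ∈ s, ball (c : W) (1 / 2)) ⊆ ball (0 : W) (t + 1 / 2) := by
    refine iUnion₂_subset fun x hx => ?_
    apply ball_subset_ball'
    rw [dist_zero_right]
    linarith [hs x hx]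
  have I : (s.card : ℝ≥0∞) * ENNReal.ofReal ((1 / 2 : ℝ) ^ finrank ℝ W) * μ (ball 0 1) ≤
      ENNReal.ofReal ((t + 1 / 2) ^ finrank ℝ W) * μ (ball 0 1) :=
    calc
      (s.card : ℝ≥0∞) * ENNReal.ofReal ((1 / 2 : ℝ) ^ finrank ℝ W) * μ (ball 0 1) =
          μ (⋃ c ∈ s, ball (c : W) (1 / 2)) := by
        rw [measure_biUnion_finset D fun c _ => measurableSet_ball]
        have I : (0 : ℝ) < 1 / 2 := by norm_num
        simp only [μ.addHaar_ball_of_pos _ I, Finset.sum_const, nsmul_eq_mul, mul_assoc]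
      _ ≤ μ (ball (0 : W) (t + 1 / 2)) := measure_mono A_subset
      _ = _ := μ.addHaar_ball_of_pos _ ρpos
  have J := (ENNReal.mul_le_mul_iff_left (measure_ball_pos μ _ zero_lt_one).ne'
    measure_ball_lt_top.ne).1 I
  rw [← ENNReal.ofReal_natCast, ← ENNReal.ofReal_mul (Nat.cast_nonneg _),
    ENNReal.ofReal_le_ofReal_iff (by positivity)] at J
  have K := mul_le_mul_of_nonneg_right J (show (0 : ℝ) ≤ 2 ^ finrank ℝ W by positivity)
  rw [mul_assoc, ← mul_pow, ← mul_pow] at K
  have e : (t + 1 / 2) * 2 = 2 * t + 1 := by ring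
  rw [e] at K
  simpa using K

theorem net {α W : Type} [NormedAddCommGroup W] (f : α → W) (B : Finset α) :
    ∃ B' ⊆ B, (∀ u ∈ B', ∀ v ∈ B', u ≠ v → 1 ≤ ‖f u - f v‖) ∧
      ∀ u ∈ B, ∃ v ∈ B', ‖f u - f v‖ < 1 := by
  classical
  induction B using Finset.induction_on with
  | empty => exact ⟨∅, by simp, by simp, by simp⟩
  | insert a B _ ih =>
    obtain ⟨B', h1, h2, h3⟩ := ih
    by_cases h : ∃ v ∈ B', ‖f a - f v‖ < 1
    · exact ⟨B', h1.trans (Finset.subset_insert _ _), h2, Finset.forall_mem_insert _ _ _ |>.2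
        ⟨h, h3⟩⟩
    · push Not at h
      refine ⟨insert a B', Finset.insert_subset_insert _ h1, fun u hu v hv huv => ?_,
        Finset.forall_mem_insert _ _ _ |>.2 ⟨⟨a, Finset.mem_insert_self _ _, by simp⟩,
          fun u hu => ?_⟩⟩
      · rcases Finset.mem_insert.1 hu with rfl | hu'
        · exact h v ((Finset.mem_insert.1 hv).resolve_left huv.symm)
        · rcases Finset.mem_insert.1 hv with rfl | hv'
          · rw [norm_sub_rev]
            exact h u hu'
          · exact h2 u hu' v hv' huv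
      · obtain ⟨v, hv, h4⟩ := h3 u hu
        exact ⟨v, Finset.mem_insert_of_mem hv, h4⟩

theorem near {E : Type} [Field E] [NumberField E] (C : Finset (GE E)) (v : GE E)
    (hv : v ∈ UU E) (hC : ∀ u ∈ C, u ∈ UU E ∧ ‖lam E u - lam E v‖ < 1) :
    C.card ≤ 7 ^ finrank ℚ E := by
  classical
  let g : C → 𝓞 E := fun u => ⟨vl (u.1 - v), (mem_UU.1 (sub_mem (hC u u.2).1 hv)).1⟩
  have hg : Function.Injective g := fun a b hab =>
    Subtype.ext (sub_left_injective (vl_injective (congrArg Subtype.val hab)))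
  have h1 := countB E 3 (Finset.univ.image g) (by norm_num) fun x hx => by
    obtain ⟨u, -, rfl⟩ := Finset.mem_image.1 hx
    have h2 : Sz 1 (u.1 - v) := sz_iff.2 fun φ => by
      rw [map_sub]
      exact (norm_le_pi_norm (lam E u - lam E v) φ).trans (hC u u.2).2.le
    exact hs_mono h2.hs (exp_one_lt_d9.le.trans (by norm_num))
  rw [Finset.card_image_of_injective _ hg, Finset.card_univ, Fintype.card_coe] at h1
  norm_num at h1
  exact_mod_cast h1

end PACK

theorem t_PACK : S_PACK := by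
  intro E _ _ V t B hV ht hB
  classical
  have : Module.Finite ℤ V :=
    Module.Finite.of_injective (Submodule.inclusion hV) (Submodule.inclusion_injective hV)
  obtain ⟨B', h1, h2, h3⟩ := PACK.net (lam E) B
  set W := Submodule.span ℝ (lam E '' V) with hW
  let g : B' → W := fun u => ⟨lam E u, Submodule.subset_span ⟨u, (hB u (h1 u.2)).1, rfl⟩⟩
  have hg : ∀ a b, a ≠ b → 1 ≤ ‖g a - g b‖ := fun a b hab =>
    h2 a a.2 b b.2 fun e => hab (Subtype.ext e)
  have hg' : Function.Injective g := fun a b hab => by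
    by_contra hne
    have h0 := h2 a a.2 b b.2 fun e => hne (Subtype.ext e)
    rw [show lam E a = lam E b from congrArg Subtype.val hab, sub_self, norm_zero] at h0
    linarith
  have h4 := PACK.sep ht (Finset.univ.image g) (fun c hc => by
    obtain ⟨u, -, rfl⟩ := Finset.mem_image.1 hc
    exact (pi_norm_le_iff_of_nonneg ht).2 (sz_iff.1 (hB u (h1 u.2)).2)) (fun c hc d hd hcd => by
    obtain ⟨u, -, rfl⟩ := Finset.mem_image.1 hc
    obtain ⟨v, -, rfl⟩ := Finset.mem_image.1 hd
    exact hg u v fun e => hcd (e ▸ rfl))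
  rw [Finset.card_image_of_injective _ hg', Finset.card_univ, Fintype.card_coe] at h4
  have h5 : (B'.card : ℝ) ≤ (2 * t + 1) ^ finrank ℤ V :=
    h4.trans (pow_le_pow_right₀ (by linarith) (finrank_span_le (lam E) V))
  have h6 : B ⊆ B'.biUnion fun v => B.filter fun u => ‖lam E u - lam E v‖ < 1 := fun u hu => by
    obtain ⟨v, hv, h7⟩ := h3 u hu
    exact Finset.mem_biUnion.2 ⟨v, hv, Finset.mem_filter.2 ⟨hu, h7⟩⟩
  have h7 : B.card ≤ B'.card * 7 ^ finrank ℚ E :=
    (Finset.card_le_card h6).trans (Finset.card_biUnion_le_card_mul _ _ _ fun v hv =>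
      PACK.near _ v (hV (hB v (h1 hv)).1) fun u hu =>
        ⟨hV (hB u (Finset.mem_filter.1 hu).1).1, (Finset.mem_filter.1 hu).2⟩)
  calc (B.card : ℝ) ≤ B'.card * 7 ^ finrank ℚ E := by exact_mod_cast h7
    _ ≤ _ := by
      rw [mul_comm]
      exact mul_le_mul_of_nonneg_left h5 (by positivity)

end Pool.Agent.P.MP_657a03_nt.AB
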